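import Mathlib
import Pool.Agent.H373R2.T7.SingTail

set_option autoImplicit false

/-! Tails of products of local factors. -/

namespace Pool.Agent.K7.H49.LT
open Finset Pool.Agent.H373R2.T7

/-- the local factor -/
noncomputable def fac (m : ℕ) (ν : ℕ → ℕ) (p : ℕ) : ℝ := (1 - (ν p : ℝ) / p) / (1 - 1 / (p : ℝ)) ^ m

/-- the truncated product -/
noncomputable def sg (m : ℕ) (ν : ℕ → ℕ) (z : ℕ) : ℝ := ∏ p ∈ pz z, fac m ν p

lemma fac_nonneg (m : ℕ) (ν : ℕ → ℕ) (p : ℕ) (hp : p.Prime) (h : ν p ≤ p) : 0 ≤ fac m ν p := by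
  have hp2 : (2 : ℝ) ≤ p := by exact_mod_cast hp.two_le
  have hp0 : (0 : ℝ) < p := by linarith
  have hq : 0 < 1 - 1 / (p : ℝ) := by rw [sub_pos, div_lt_one hp0]; linarith
  unfold fac
  apply div_nonneg _ (by positivity)
  rw [sub_nonneg, div_le_one hp0]
  exact_mod_cast h

lemma sg_nonneg (m : ℕ) (ν : ℕ → ℕ) (z : ℕ) (h : ∀ p ∈ pz z, ν p ≤ p) : 0 ≤ sg m ν z :=
  prod_nonneg fun p hp => fac_nonneg m ν p (mem_pz.1 hp).2 (h p hp)

lemma fac_bounds (m : ℕ) (hm : 1 ≤ m) (ν : ℕ → ℕ) (p : ℕ) (hp : p.Prime) (h3 : 3 * m ≤ p) (hν : ν p ≤ m) :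
    Real.exp (-((m : ℝ) ^ 2 * (1 / (p : ℝ) ^ 2))) ≤ fac m ν p ∧
    fac m ν p ≤ Real.exp (if m ≤ ν p then 0 else 2 * (m : ℝ) / p) := by
  have hp2 : (2 : ℝ) ≤ p := by exact_mod_cast hp.two_le
  have hp0 : (0 : ℝ) < p := by linarith
  have hm3 : (3 * m : ℝ) ≤ p := by exact_mod_cast h3
  have hm1 : (1 : ℝ) ≤ m := by exact_mod_cast hm
  have hq : 0 < 1 - 1 / (p : ℝ) := by rw [sub_pos, div_lt_one hp0]; linarith
  have hq1 : 1 - 1 / (p : ℝ) ≤ 1 := by
    have : 0 ≤ 1 / (p : ℝ) := by positivity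
    linarith
  have hy : (m : ℝ) / p ≤ 1 / 3 := by rw [div_le_iff₀ hp0]; linarith
  have hy0 : 0 ≤ (m : ℝ) / p := by positivity
  have hbern : 1 - (m : ℝ) / p ≤ (1 - 1 / (p : ℝ)) ^ m := by
    have h4 := one_add_mul_le_pow (a := -(1 / (p : ℝ))) (by linarith) m
    have e : 1 + (m : ℝ) * -(1 / (p : ℝ)) = 1 - m / p := by ring
    rw [e] at h4
    exact h4
  have hνm : (ν p : ℝ) ≤ m := by exact_mod_cast hν
  have hν0 : (0 : ℝ) ≤ ν p := Nat.cast_nonneg _
  constructor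
  · unfold fac
    rw [le_div_iff₀ (by positivity)]
    have h4 := exp_low hy0 hy
    have h5 : (1 - 1 / (p : ℝ)) ^ m ≤ Real.exp (-((m : ℝ) / p)) := by
      have h6 : 1 - 1 / (p : ℝ) ≤ Real.exp (-(1 / p)) := by
        have := Real.add_one_le_exp (-(1 / (p : ℝ)))
        linarith
      calc (1 - 1 / (p : ℝ)) ^ m ≤ (Real.exp (-(1 / p))) ^ m := pow_le_pow_left₀ hq.le h6 m
        _ = Real.exp (-((m : ℝ) / p)) := by rw [← Real.exp_nat_mul]; congr 1; ring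
    have h6 : 1 - (m : ℝ) / p ≤ 1 - (ν p : ℝ) / p := by
      have := div_le_div_of_nonneg_right hνm hp0.le
      linarith
    calc Real.exp (-((m : ℝ) ^ 2 * (1 / (p : ℝ) ^ 2))) * (1 - 1 / (p : ℝ)) ^ m
        ≤ Real.exp (-((m : ℝ) ^ 2 * (1 / (p : ℝ) ^ 2))) * Real.exp (-((m : ℝ) / p)) := mul_le_mul_of_nonneg_left h5 (Real.exp_pos _).le
      _ = Real.exp (-((m : ℝ) / p + ((m : ℝ) / p) ^ 2)) := by rw [← Real.exp_add]; congr 1; ring
      _ ≤ 1 - (m : ℝ) / p := h4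
      _ ≤ _ := h6
  · unfold fac
    split_ifs with hb
    · rw [Real.exp_zero, div_le_one (by positivity)]
      have h5 : (m : ℝ) ≤ ν p := by exact_mod_cast hb
      have := div_le_div_of_nonneg_right h5 hp0.le
      linarith
    · have h4 : 1 - (ν p : ℝ) / p ≤ 1 := by
        have : 0 ≤ (ν p : ℝ) / p := by positivity
        linarith
      rw [div_le_iff₀ (by positivity)]
      have h5 : 1 + 2 * ((m : ℝ) / p) ≤ Real.exp (2 * (m : ℝ) / p) := by
        have := Real.add_one_le_exp (2 * (m : ℝ) / p)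
        have e : 2 * (m : ℝ) / p = 2 * ((m : ℝ) / p) := by ring
        rw [e] at this ⊢
        linarith
      have h6 : 1 ≤ (1 + 2 * ((m : ℝ) / p)) * (1 - (m : ℝ) / p) := by nlinarith
      calc 1 - (ν p : ℝ) / p ≤ 1 := h4
        _ ≤ (1 + 2 * ((m : ℝ) / p)) * (1 - (m : ℝ) / p) := h6
        _ ≤ Real.exp (2 * (m : ℝ) / p) * (1 - 1 / (p : ℝ)) ^ m := by
            apply mul_le_mul h5 hbern (by linarith) (Real.exp_pos _).le

/-- the tail -/
lemma sg_tail (m : ℕ) (hm : 1 ≤ m) (ν : ℕ → ℕ) (z z' : ℕ) (hz : 3 * m ≤ z) (hzz : z ≤ z') (bad : Finset ℕ)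
    (h1 : ∀ p : ℕ, p.Prime → z < p → p ≤ z' → ν p ≤ m) (h2 : ∀ p : ℕ, p.Prime → z < p → p ≤ z' → p ∉ bad → m ≤ ν p) :
    ∃ R : ℝ, sg m ν z' = sg m ν z * R ∧ Real.exp (-((m : ℝ) ^ 2 / z)) ≤ R ∧
      R ≤ Real.exp (2 * (m : ℝ) * bad.card / z) := by
  have hz0 : (0 : ℝ) < z := by exact_mod_cast (by omega : 0 < z)
  have hmem : ∀ p ∈ (pz z').filter (fun p => ¬ p ≤ z), p.Prime ∧ z < p ∧ p ≤ z' := by
    intro p hp
    rw [mem_filter, mem_pz] at hp
    exact ⟨hp.1.2, by omega, hp.1.1⟩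
  refine ⟨∏ p ∈ (pz z').filter (fun p => ¬ p ≤ z), fac m ν p, ?_, ?_, ?_⟩
  · unfold sg
    rw [← prod_filter_mul_prod_filter_not (pz z') (fun p => p ≤ z)]
    congr 1
    apply prod_congr _ (fun _ _ => rfl)
    ext p
    rw [mem_filter, mem_pz, mem_pz]
    constructor
    · rintro ⟨⟨_, h1⟩, h2⟩; exact ⟨h2, h1⟩
    · rintro ⟨h1, h2⟩; exact ⟨⟨h1.trans hzz, h2⟩, h1⟩
  · have h1' : ∀ p ∈ (pz z').filter (fun p => ¬ p ≤ z), Real.exp (-((m : ℝ) ^ 2 * (1 / (p : ℝ) ^ 2))) ≤ fac m ν p := by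
      intro p hp
      obtain ⟨g1, g2, g3⟩ := hmem p hp
      exact (fac_bounds m hm ν p g1 (by omega) (h1 p g1 g2 g3)).1
    refine le_trans ?_ (prod_le_prod (fun p _ => (Real.exp_pos _).le) h1')
    rw [← Real.exp_sum]
    apply Real.exp_le_exp.2
    rw [sum_neg_distrib, ← mul_sum]
    have h2 : ∑ p ∈ (pz z').filter (fun p => ¬ p ≤ z), 1 / (p : ℝ) ^ 2 ≤ ∑ n ∈ Ioc z z', 1 / (n : ℝ) ^ 2 := by
      apply sum_le_sum_of_subset_of_nonneg
      · intro p hp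
        obtain ⟨g1, g2, g3⟩ := hmem p hp
        rw [mem_Ioc]
        exact ⟨g2, g3⟩
      · intro _ _ _; positivity
    have h3 := tail_sq z z' (by omega) hzz
    have h4 : (0 : ℝ) ≤ 1 / (z' : ℝ) := by positivity
    have h5 : (m : ℝ) ^ 2 * ∑ p ∈ (pz z').filter (fun p => ¬ p ≤ z), 1 / (p : ℝ) ^ 2 ≤ (m : ℝ) ^ 2 * (1 / z) :=
      mul_le_mul_of_nonneg_left (by linarith) (by positivity)
    rw [mul_one_div] at h5
    linarith
  · have h1' : ∀ p ∈ (pz z').filter (fun p => ¬ p ≤ z), fac m ν p ≤ Real.exp (if p ∈ bad then 2 * (m : ℝ) / p else 0) := by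
      intro p hp
      obtain ⟨g1, g2, g3⟩ := hmem p hp
      refine (fac_bounds m hm ν p g1 (by omega) (h1 p g1 g2 g3)).2.trans ?_
      apply Real.exp_le_exp.2
      by_cases hb : p ∈ bad
      · rw [if_pos hb]
        split_ifs
        · positivity
        · exact le_rfl
      · rw [if_neg hb, if_pos (h2 p g1 g2 g3 hb)]
    have h0 : ∀ p ∈ (pz z').filter (fun p => ¬ p ≤ z), 0 ≤ fac m ν p := by
      intro p hp
      obtain ⟨g1, g2, g3⟩ := hmem p hp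
      exact (Real.exp_pos _).le.trans (fac_bounds m hm ν p g1 (by omega) (h1 p g1 g2 g3)).1
    refine (prod_le_prod h0 h1').trans ?_
    rw [← Real.exp_sum]
    apply Real.exp_le_exp.2
    rw [← sum_filter]
    calc ∑ p ∈ ((pz z').filter (fun p => ¬ p ≤ z)).filter (fun p => p ∈ bad), 2 * (m : ℝ) / p
        ≤ ∑ _p ∈ ((pz z').filter (fun p => ¬ p ≤ z)).filter (fun p => p ∈ bad), 2 * (m : ℝ) / z := by
          apply sum_le_sum
          intro p hp
          rw [mem_filter, mem_filter] at hp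
          apply div_le_div_of_nonneg_left (by positivity) hz0
          exact_mod_cast (by omega : z ≤ p)
      _ = ((((pz z').filter (fun p => ¬ p ≤ z)).filter (fun p => p ∈ bad)).card : ℝ) * (2 * (m : ℝ) / z) := by
          rw [sum_const, nsmul_eq_mul]
      _ ≤ (bad.card : ℝ) * (2 * (m : ℝ) / z) := by
          apply mul_le_mul_of_nonneg_right _ (by positivity)
          exact_mod_cast card_le_card (fun p hp => (mem_filter.1 hp).2)
      _ = _ := by ring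

/-- the number of prime factors -/
lemma card_pf (n : ℕ) (hn : n ≠ 0) : (n.primeFactors.card : ℝ) ≤ 2 * Real.log n := by
  have h1 : 2 ^ n.primeFactors.card ≤ n := by
    calc 2 ^ n.primeFactors.card = ∏ _p ∈ n.primeFactors, 2 := by rw [prod_const]
      _ ≤ ∏ p ∈ n.primeFactors, p := prod_le_prod' fun p hp => (Nat.prime_of_mem_primeFactors hp).two_le
      _ ≤ n := Nat.le_of_dvd (Nat.pos_of_ne_zero hn) (Nat.prod_primeFactors_dvd n)
  have h2 : ((2 : ℝ)) ^ n.primeFactors.card ≤ n := by exact_mod_cast h1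
  have h3 := Real.log_le_log (by positivity) h2
  rw [Real.log_pow] at h3
  have h4 : 1 / 2 < Real.log 2 := by have := Real.log_two_gt_d9; linarith
  have h5 : (0 : ℝ) ≤ n.primeFactors.card := Nat.cast_nonneg _
  nlinarith

/-- closeness of truncated products -/
lemma sg_close (m : ℕ) (hm : 1 ≤ m) (ν : ℕ → ℕ) (z z' : ℕ) (hz : 3 * m ≤ z) (hzz : z ≤ z') (bad : Finset ℕ)
    (h1 : ∀ p : ℕ, p.Prime → z < p → p ≤ z' → ν p ≤ m) (h2 : ∀ p : ℕ, p.Prime → z < p → p ≤ z' → p ∉ bad → m ≤ ν p)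
    (h0 : ∀ p ∈ pz z, ν p ≤ p) (hb : 2 * (m : ℝ) * bad.card ≤ z) :
    |sg m ν z' - sg m ν z| ≤ sg m ν z * ((4 * (m : ℝ) * bad.card + m ^ 2) / z) := by
  obtain ⟨R, e, r1, r2⟩ := sg_tail m hm ν z z' hz hzz bad h1 h2
  have hz0 : (0 : ℝ) < z := by exact_mod_cast (by omega : 0 < z)
  have hs := sg_nonneg m ν z h0
  have e2 : sg m ν z' - sg m ν z = sg m ν z * (R - 1) := by rw [e]; ring
  rw [e2, abs_mul, abs_of_nonneg hs]
  apply mul_le_mul_of_nonneg_left _ hs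
  have h3 : R ≤ 1 + 4 * (m : ℝ) * bad.card / z := by
    refine r2.trans ?_
    set t := 2 * (m : ℝ) * bad.card / z with ht
    have ht0 : 0 ≤ t := by positivity
    have ht1 : t ≤ 1 := by rw [ht, div_le_one hz0]; exact hb
    have h4 : Real.exp t ≤ 1 + t + t ^ 2 := by
      have := Real.abs_exp_sub_one_sub_id_le (show |t| ≤ 1 by rw [abs_of_nonneg ht0]; exact ht1)
      have h5 := (abs_le.1 this).2
      linarith
    have h5 : t ^ 2 ≤ t := by nlinarith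
    have h6 : 4 * (m : ℝ) * bad.card / z = 2 * t := by rw [ht]; ring
    rw [h6]
    linarith
  have h4 : 1 - (m : ℝ) ^ 2 / z ≤ R := by
    refine le_trans ?_ r1
    have := Real.add_one_le_exp (-((m : ℝ) ^ 2 / z))
    linarith
  have h5 : (4 * (m : ℝ) * bad.card + m ^ 2) / z = 4 * (m : ℝ) * bad.card / z + m ^ 2 / z := by ring
  have h6 : 0 ≤ (m : ℝ) ^ 2 / z := by positivity
  have h7 : 0 ≤ 4 * (m : ℝ) * bad.card / z := by positivity
  rw [h5, abs_le]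
  constructor <;> linarith

end Pool.Agent.K7.H49.LT
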