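import Mathlib
import Pool.Agent.K7.H49.LT.Tail
import Pool.Agent.H373R2.T7.SysCount
import Pool.Agent.H373R2.T7.BilLam
import Pool.Agent.H373R2.T7.Tuple

set_option autoImplicit false

/-! Correlations of the model of the von Mangoldt function. -/

namespace Pool.Agent.K7.H49.LT
open Finset Pool.Agent.H373R2.T7

/-- the number of classes `r` modulo `p` with `p ∣ α + r` or `p ∣ β + r` -/
def nu2 (α β p : ℕ) : ℕ := ((range p).filter (fun r => p ∣ α + r ∨ p ∣ β + r)).card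

lemma dvd_add_mod' (p a n : ℕ) : p ∣ a + n ↔ p ∣ a + n % p := by
  rw [Nat.dvd_iff_mod_eq_zero, Nat.dvd_iff_mod_eq_zero, Nat.add_mod_mod]

lemma one_class (p a : ℕ) (hp : 0 < p) : ((range p).filter (fun r => p ∣ a + r)).card = 1 := by
  rw [card_eq_one]
  obtain ⟨s, hs⟩ : ∃ s, s = (p - a % p) % p := ⟨_, rfl⟩
  have hsp : s < p := by rw [hs]; exact Nat.mod_lt _ hp
  have h1 : a % p < p := Nat.mod_lt _ hp
  have hA : p ∣ a + s := by
    rw [hs, ← dvd_add_mod', Nat.dvd_iff_mod_eq_zero, ← Nat.mod_add_mod, Nat.add_sub_cancel' h1.le, Nat.mod_self]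
  refine ⟨s, ?_⟩
  ext r
  rw [mem_filter, mem_range, mem_singleton]
  constructor
  · rintro ⟨h2, h3⟩
    have h5 : (p : ℤ) ∣ (r : ℤ) - (s : ℤ) := by
      have h6 : (p : ℤ) ∣ ((a + r : ℕ) : ℤ) := Int.natCast_dvd_natCast.2 h3
      have h7 : (p : ℤ) ∣ ((a + s : ℕ) : ℤ) := Int.natCast_dvd_natCast.2 hA
      have := dvd_sub h6 h7
      push_cast at this
      have e : (a : ℤ) + r - (a + s) = r - s := by ring
      rwa [e] at this
    have h8 : |(r : ℤ) - (s : ℤ)| < p := by rw [abs_lt]; constructor <;> omega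
    have := Int.eq_zero_of_abs_lt_dvd h5 h8
    omega
  · rintro rfl
    exact ⟨hsp, hA⟩

lemma nu2_le (α β p : ℕ) (hp : 0 < p) : nu2 α β p ≤ 2 := by
  unfold nu2
  have : (range p).filter (fun r => p ∣ α + r ∨ p ∣ β + r) ⊆
      (range p).filter (fun r => p ∣ α + r) ∪ (range p).filter (fun r => p ∣ β + r) := by
    intro r hr
    rw [mem_filter] at hr
    rw [mem_union, mem_filter, mem_filter]
    rcases hr.2 with h | h
    · exact Or.inl ⟨hr.1, h⟩
    · exact Or.inr ⟨hr.1, h⟩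
  refine (card_le_card this).trans ((card_union_le _ _).trans ?_)
  rw [one_class p α hp, one_class p β hp]

lemma nu2_le' (α β p : ℕ) : nu2 α β p ≤ p := by
  unfold nu2
  exact (card_filter_le _ _).trans (by simp)

lemma nu2_ge (α β p : ℕ) (hp : 0 < p) (h : ¬ (p : ℤ) ∣ (α : ℤ) - β) : 2 ≤ nu2 α β p := by
  obtain ⟨r, hr⟩ := card_eq_one.1 (one_class p α hp)
  obtain ⟨s, hs⟩ := card_eq_one.1 (one_class p β hp)
  have h1 : r ∈ (range p).filter (fun r => p ∣ α + r) := by rw [hr]; exact mem_singleton_self _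
  have h2 : s ∈ (range p).filter (fun r => p ∣ β + r) := by rw [hs]; exact mem_singleton_self _
  rw [mem_filter] at h1 h2
  have hne : r ≠ s := by
    rintro rfl
    apply h
    have h3 : (p : ℤ) ∣ ((α + r : ℕ) : ℤ) := Int.natCast_dvd_natCast.2 h1.2
    have h4 : (p : ℤ) ∣ ((β + r : ℕ) : ℤ) := Int.natCast_dvd_natCast.2 h2.2
    have := dvd_sub h3 h4
    push_cast at this
    have e : (α : ℤ) + r - (β + r) = α - β := by ring
    rwa [e] at this
  rw [← card_pair hne]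
  unfold nu2
  apply card_le_card
  intro t ht
  rw [mem_insert, mem_singleton] at ht
  rw [mem_filter]
  rcases ht with rfl | rfl
  · exact ⟨h1.1, Or.inl h1.2⟩
  · exact ⟨h2.1, Or.inr h2.2⟩

lemma Vz_split (w z : ℕ) (h : w ≤ z) : Vz z = Vz w * ∏ p ∈ (pz z).filter (fun p => ¬ p ≤ w), (1 - 1 / (p : ℝ)) := by
  unfold Vz
  rw [← prod_filter_mul_prod_filter_not (pz z) (fun p => p ≤ w)]
  congr 1
  apply prod_congr _ (fun _ _ => rfl)
  ext p
  rw [mem_filter, mem_pz, mem_pz]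
  constructor
  · rintro ⟨⟨_, h1⟩, h2⟩; exact ⟨h2, h1⟩
  · rintro ⟨h1, h2⟩; exact ⟨⟨h1.trans h, h2⟩, h1⟩

open Classical in
theorem model (E U : ℕ) : ∃ N0 : ℕ, ∀ T : ℕ, N0 ≤ T → ∀ α β w z : ℕ, 1 ≤ w → w ≤ z → (z : ℝ) ≤ Real.log T ^ E →
    |∑ b ∈ Icc 1 T, lamzI z ((α : ℤ) + b) * lamzI w ((β : ℤ) + b) - T * sg 2 (nu2 α β) w| ≤ T / Real.log T ^ U := by
  obtain ⟨n1, h1⟩ := sys_count 2 E (U + 2) (by norm_num)
  obtain ⟨n2, h2⟩ := Vz_inv_small E
  obtain ⟨n3, h3⟩ := ev_L' 1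
  refine ⟨max n1 (max n2 n3), fun T hT α β w z hw hwz hz => ?_⟩
  have c1 : n1 ≤ T := le_trans (le_max_left _ _) hT
  have c2 : n2 ≤ T := le_trans (le_trans (le_max_left _ _) (le_max_right _ _)) hT
  have c3 : n3 ≤ T := le_trans (le_trans (le_max_right _ _) (le_max_right _ _)) hT
  have hL1 := h3 T c3
  set L := Real.log T with hL
  have hL0 : 0 < L := by linarith
  have hwr : (w : ℝ) ≤ L ^ E := le_trans (by exact_mod_cast hwz) hz
  have hVz := h2 T c2 z (hw.trans hwz) hz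
  have hVw := h2 T c2 w hw hwr
  have pz0 := Vz_pos z
  have pw0 := Vz_pos w
  set Q : ℕ → ℕ → Prop := fun p b => p ∣ α + b ∨ (p ≤ w ∧ p ∣ β + b) with hQ
  have hper : PerB Q 2 := by
    refine ⟨fun p n => ?_, fun p hp => ?_⟩
    · rw [hQ]
      simp only
      rw [dvd_add_mod' p α n, dvd_add_mod' p β n]
    · refine le_trans ?_ (nu2_le α β p hp.pos)
      unfold nuB nu2
      apply card_le_card
      intro r hr
      simp only [hQ, mem_filter] at hr ⊢
      refine ⟨hr.1, ?_⟩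
      rcases hr.2 with h | h
      · exact Or.inl h
      · exact Or.inr h.2
  have key := h1 T c1 z (hw.trans hwz) hz Q hper
  rw [← hL] at key hVz hVw
  have hprod : ∏ p ∈ pz z, (1 - (nuB Q p : ℝ) / p) = Vz z * Vz w * sg 2 (nu2 α β) w := by
    rw [Vz_split w z hwz]
    have e1 : ∏ p ∈ pz z, (1 - (nuB Q p : ℝ) / p) = (∏ p ∈ pz w, (1 - (nu2 α β p : ℝ) / p)) *
        ∏ p ∈ (pz z).filter (fun p => ¬ p ≤ w), (1 - 1 / (p : ℝ)) := by
      rw [← prod_filter_mul_prod_filter_not (pz z) (fun p => p ≤ w)]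
      have e2 : (pz z).filter (fun p => p ≤ w) = pz w := by
        ext p
        rw [mem_filter, mem_pz, mem_pz]
        constructor
        · rintro ⟨⟨_, h1⟩, h2⟩; exact ⟨h2, h1⟩
        · rintro ⟨h1, h2⟩; exact ⟨⟨h1.trans hwz, h2⟩, h1⟩
      rw [e2]
      congr 1
      · apply prod_congr rfl
        intro p hp
        have hpw := (mem_pz.1 hp).1
        congr 3
        unfold nuB nu2
        congr 1
        ext r
        simp only [hQ, mem_filter]
        constructor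
        · rintro ⟨h0, h | h⟩
          · exact ⟨h0, Or.inl h⟩
          · exact ⟨h0, Or.inr h.2⟩
        · rintro ⟨h0, h | h⟩
          · exact ⟨h0, Or.inl h⟩
          · exact ⟨h0, Or.inr ⟨hpw, h⟩⟩
      · apply prod_congr rfl
        intro p hp
        rw [mem_filter] at hp
        have hp0 := (mem_pz.1 hp.1).2.pos
        have : nuB Q p = 1 := by
          rw [← one_class p α hp0]
          unfold nuB
          congr 1
          ext r
          simp only [hQ, mem_filter]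
          constructor
          · rintro ⟨h0, h | h⟩
            · exact ⟨h0, h⟩
            · exact absurd h.1 hp.2
          · rintro ⟨h0, h⟩
            exact ⟨h0, Or.inl h⟩
        rw [this, Nat.cast_one]
    have e3 : ∏ p ∈ pz w, (1 - (nu2 α β p : ℝ) / p) = Vz w * Vz w * sg 2 (nu2 α β) w := by
      unfold sg Vz
      rw [← prod_mul_distrib, ← prod_mul_distrib]
      apply prod_congr rfl
      intro p hp
      have hp2 : (2 : ℝ) ≤ p := by exact_mod_cast (mem_pz.1 hp).2.two_le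
      have hq : (1 - 1 / (p : ℝ)) ≠ 0 := by
        have : 1 / (p : ℝ) ≤ 1 / 2 := one_div_le_one_div_of_le (by norm_num) hp2
        linarith
      unfold fac
      set t := 1 - 1 / (p : ℝ) with ht
      clear_value t
      field_simp
    rw [e1, e3]
    ring
  have hsum : ∑ b ∈ Icc 1 T, lamzI z ((α : ℤ) + b) * lamzI w ((β : ℤ) + b) =
      ((Vz z)⁻¹ * (Vz w)⁻¹) * ((((Icc 1 T).filter (fun n : ℕ => ∀ p ∈ pz z, ¬ Q p n)).card : ℕ) : ℝ) := by
    rw [card_filter]
    push_cast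
    rw [mul_sum]
    apply sum_congr rfl
    intro b hb
    rw [mem_Icc] at hb
    have g1 : ∀ γ : ℕ, ∀ y : ℕ, lamzI y ((γ : ℤ) + b) = if ∀ p ∈ pz y, ¬ p ∣ γ + b then (Vz y)⁻¹ else 0 := by
      intro γ y
      unfold lamzI lamz
      rw [if_pos (by omega)]
      have : ((γ : ℤ) + b).toNat = γ + b := by omega
      rw [this]
    rw [g1, g1]
    by_cases ha : ∀ p ∈ pz z, ¬ p ∣ α + b
    · by_cases hb' : ∀ p ∈ pz w, ¬ p ∣ β + b
      · rw [if_pos ha, if_pos hb', if_pos, mul_one]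
        rintro p hp (h | h)
        · exact ha p hp h
        · exact hb' p (mem_pz.2 ⟨h.1, (mem_pz.1 hp).2⟩) h.2
      · rw [if_pos ha, if_neg hb', if_neg, mul_zero, mul_zero]
        intro h
        apply hb'
        intro p hp hd
        obtain ⟨g2, g3⟩ := mem_pz.1 hp
        exact h p (mem_pz.2 ⟨g2.trans hwz, g3⟩) (Or.inr ⟨g2, hd⟩)
    · rw [if_neg ha, zero_mul, if_neg, mul_zero]
      intro h
      apply ha
      intro p hp hd
      exact h p hp (Or.inl hd)
  rw [hsum]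
  rw [hprod] at key
  set cnt : ℝ := ((((Icc 1 T).filter (fun n : ℕ => ∀ p ∈ pz z, ¬ Q p n)).card : ℕ) : ℝ) with hcnt
  have e4 : (Vz z)⁻¹ * (Vz w)⁻¹ * cnt - T * sg 2 (nu2 α β) w = ((Vz z)⁻¹ * (Vz w)⁻¹) * (cnt - T * (Vz z * Vz w * sg 2 (nu2 α β) w)) := by
    field_simp
  rw [e4, abs_mul, abs_of_nonneg (by positivity)]
  have key' : |cnt - T * (Vz z * Vz w * sg 2 (nu2 α β) w)| ≤ T / L ^ (U + 2) := by
    rw [hcnt]
    convert key
  calc (Vz z)⁻¹ * (Vz w)⁻¹ * |cnt - T * (Vz z * Vz w * sg 2 (nu2 α β) w)| ≤ (L * L) * (T / L ^ (U + 2)) := by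
        apply mul_le_mul _ key' (abs_nonneg _) (by positivity)
        exact mul_le_mul hVz hVw (by positivity) hL0.le
    _ = _ := by rw [pow_add]; field_simp

lemma sg_le_V (m : ℕ) (ν : ℕ → ℕ) (z : ℕ) (h : ∀ p ∈ pz z, ν p ≤ p) : sg m ν z ≤ (Vz z)⁻¹ ^ m := by
  unfold sg Vz
  rw [← prod_inv_distrib, ← prod_pow]
  apply prod_le_prod
  · intro p hp
    exact fac_nonneg m ν p (mem_pz.1 hp).2 (h p hp)
  · intro p hp
    have hp2 : (2 : ℝ) ≤ p := by exact_mod_cast (mem_pz.1 hp).2.two_le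
    have hq : 0 < (1 - 1 / (p : ℝ)) := by
      have : 1 / (p : ℝ) ≤ 1 / 2 := one_div_le_one_div_of_le (by norm_num) hp2
      linarith
    unfold fac
    rw [inv_pow, div_eq_mul_inv]
    have h1 : 1 - (ν p : ℝ) / p ≤ 1 := by
      have : 0 ≤ (ν p : ℝ) / p := by positivity
      linarith
    calc (1 - (ν p : ℝ) / p) * ((1 - 1 / (p : ℝ)) ^ m)⁻¹ ≤ 1 * ((1 - 1 / (p : ℝ)) ^ m)⁻¹ :=
          mul_le_mul_of_nonneg_right h1 (by positivity)
      _ = _ := one_mul _

/-- closeness of the pair products -/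
lemma pair_close (α β w z : ℕ) (hne : α ≠ β) (X : ℝ) (hX : 1 ≤ X) (hα : (α : ℝ) ≤ X) (hβ : (β : ℝ) ≤ X)
    (hw : 6 ≤ w) (hwz : w ≤ z) (hwX : 8 * Real.log X ≤ w) :
    |sg 2 (nu2 α β) z - sg 2 (nu2 α β) w| ≤ (Vz w)⁻¹ ^ 2 * ((16 * Real.log X + 4) / w) := by
  have hw0 : (0 : ℝ) < w := by exact_mod_cast (by omega : 0 < w)
  set d : ℕ := ((α : ℤ) - β).natAbs with hd
  have hd0 : d ≠ 0 := by
    rw [hd]
    omega
  have hdX : (d : ℝ) ≤ X := by
    rcases le_total α β with h | h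
    · have : d ≤ β := by rw [hd]; omega
      exact le_trans (by exact_mod_cast this) hβ
    · have : d ≤ α := by rw [hd]; omega
      exact le_trans (by exact_mod_cast this) hα
  have hlX : 0 ≤ Real.log X := Real.log_nonneg hX
  have hcard : (d.primeFactors.card : ℝ) ≤ 2 * Real.log X := by
    refine (card_pf d hd0).trans ?_
    have hdp : (0 : ℝ) < d := by exact_mod_cast Nat.pos_of_ne_zero hd0
    have := Real.log_le_log hdp hdX
    linarith
  have h0 : ∀ p ∈ pz w, nu2 α β p ≤ p := fun p _ => nu2_le' α β p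
  have key := sg_close 2 (by norm_num) (nu2 α β) w z (by omega) hwz d.primeFactors
    (fun p hp _ _ => nu2_le α β p hp.pos) (fun p hp _ _ hb => nu2_ge α β p hp.pos (fun h => hb (by
      rw [Nat.mem_primeFactors]
      exact ⟨hp, Int.natCast_dvd.1 h, hd0⟩))) h0 (by push_cast; linarith)
  refine key.trans ?_
  apply mul_le_mul (sg_le_V 2 _ w h0) _ (by positivity) (by have := Vz_pos w; positivity)
  apply div_le_div_of_nonneg_right _ hw0.le
  push_cast
  linarith

end Pool.Agent.K7.H49.LT
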