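import Mathlib
import Pool.Agent.K7.H49.LT.Model

set_option autoImplicit false

/-! The off-diagonal terms. -/

namespace Pool.Agent.K7.H49.LT
open Finset Pool.Agent.H373R2.T7

/-- the correlations of the von Mangoldt function minus its model with the von Mangoldt function and
with models are small, for all pairs of arguments up to `Mx` -/
def Cor (φ : ℕ → ℕ) (T Mx z : ℕ) (δ : ℝ) : Prop :=
  ∀ n ∈ Icc 1 Mx, ∀ n' ∈ Icc 1 Mx, n ≠ n' →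
    (∀ w : ℕ, (w ≤ Mx ∨ w = z) → |∑ b ∈ Icc 1 T, lamzI w ((φ n : ℤ) + b) * (lamI ((φ n' : ℤ) + b) - lamzI z ((φ n' : ℤ) + b))| ≤ δ * T) ∧
    |∑ b ∈ Icc 1 T, lamI ((φ n : ℤ) + b) * (lamI ((φ n' : ℤ) + b) - lamzI z ((φ n' : ℤ) + b))| ≤ δ * T

lemma Cor.mono {φ : ℕ → ℕ} {T Mx z : ℕ} {δ : ℝ} (h : Cor φ T Mx z δ) {M : ℕ} (hM : M ≤ Mx) : Cor φ T M z δ := by
  intro n hn n' hn' hne
  have h1 := h n (Icc_subset_Icc_right hM hn) n' (Icc_subset_Icc_right hM hn') hne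
  refine ⟨fun w hw => h1.1 w ?_, h1.2⟩
  rcases hw with h2 | h2
  · exact Or.inl (h2.trans hM)
  · exact Or.inr h2

lemma Cor.mono' {φ : ℕ → ℕ} {T Mx z : ℕ} {δ δ' : ℝ} (h : Cor φ T Mx z δ) (hδ : δ ≤ δ') : Cor φ T Mx z δ' := by
  intro n hn n' hn' hne
  have h1 := h n hn n' hn' hne
  have h2 : δ * T ≤ δ' * T := mul_le_mul_of_nonneg_right hδ (Nat.cast_nonneg _)
  exact ⟨fun w hw => (h1.1 w hw).trans h2, h1.2.trans h2⟩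

theorem off (E U : ℕ) : ∃ N0 : ℕ, ∀ T : ℕ, N0 ≤ T → ∀ (φ : ℕ → ℕ) (M z w : ℕ) (δ X : ℝ), Cor φ T M z δ → 0 ≤ δ → w ≤ M → 6 ≤ w → w ≤ z →
    (z : ℝ) ≤ Real.log T ^ E → 1 ≤ X → (∀ n ∈ Icc 1 M, (φ n : ℝ) ≤ X) → 8 * Real.log X ≤ w →
    ∀ n ∈ Icc 1 M, ∀ n' ∈ Icc 1 M, n ≠ n' → φ n ≠ φ n' →
    |∑ b ∈ Icc 1 T, lamI ((φ n : ℤ) + b) * lamI ((φ n' : ℤ) + b) - ∑ b ∈ Icc 1 T, lamzI w ((φ n : ℤ) + b) * lamzI w ((φ n' : ℤ) + b)| ≤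
      (2 * δ + 2 / Real.log T ^ U + (Vz w)⁻¹ ^ 2 * ((16 * Real.log X + 4) / w)) * T ∧
    |∑ b ∈ Icc 1 T, lamI ((φ n : ℤ) + b) * lamzI w ((φ n' : ℤ) + b) - ∑ b ∈ Icc 1 T, lamzI w ((φ n : ℤ) + b) * lamzI w ((φ n' : ℤ) + b)| ≤
      (2 * δ + 2 / Real.log T ^ U + (Vz w)⁻¹ ^ 2 * ((16 * Real.log X + 4) / w)) * T := by
  obtain ⟨N0, h0⟩ := model E U
  refine ⟨N0, fun T hT φ M z w δ X hC hδ hwM hw6 hwz hz hX hφX hXw n hn n' hn' hne hφ => ?_⟩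
  have hT0 : (0 : ℝ) ≤ T := Nat.cast_nonneg _
  have hlX : 0 ≤ Real.log X := Real.log_nonneg hX
  have hlT : 0 ≤ Real.log T := Real.log_natCast_nonneg T
  have hpos3 : 0 ≤ (Vz w)⁻¹ ^ 2 * ((16 * Real.log X + 4) / w) := by
    have := Vz_pos w
    positivity
  have c1 := hC n hn n' hn' hne
  have c2 := hC n' hn' n hn hne.symm
  have m1 := h0 T hT (φ n) (φ n') z z (by omega) le_rfl hz
  have m2 := h0 T hT (φ n) (φ n') w w (by omega) le_rfl (le_trans (by exact_mod_cast hwz) hz)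
  have m3 := h0 T hT (φ n) (φ n') w z (by omega) hwz hz
  have pc := pair_close (φ n) (φ n') w z hφ X hX (hφX n hn) (hφX n' hn') hw6 hwz hXw
  have d1 := c1.2
  have d2 := c2.1 z (Or.inr rfl)
  have d3 := c2.1 w (Or.inl hwM)
  have e1 : ∑ b ∈ Icc 1 T, lamI ((φ n : ℤ) + b) * (lamI ((φ n' : ℤ) + b) - lamzI z ((φ n' : ℤ) + b)) =
      ∑ b ∈ Icc 1 T, lamI ((φ n : ℤ) + b) * lamI ((φ n' : ℤ) + b) - ∑ b ∈ Icc 1 T, lamI ((φ n : ℤ) + b) * lamzI z ((φ n' : ℤ) + b) := by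
    rw [← sum_sub_distrib]
    exact sum_congr rfl fun b _ => by ring
  have e2 : ∑ b ∈ Icc 1 T, lamzI z ((φ n' : ℤ) + b) * (lamI ((φ n : ℤ) + b) - lamzI z ((φ n : ℤ) + b)) =
      ∑ b ∈ Icc 1 T, lamI ((φ n : ℤ) + b) * lamzI z ((φ n' : ℤ) + b) - ∑ b ∈ Icc 1 T, lamzI z ((φ n : ℤ) + b) * lamzI z ((φ n' : ℤ) + b) := by
    rw [← sum_sub_distrib]
    exact sum_congr rfl fun b _ => by ring
  have e3 : ∑ b ∈ Icc 1 T, lamzI w ((φ n' : ℤ) + b) * (lamI ((φ n : ℤ) + b) - lamzI z ((φ n : ℤ) + b)) =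
      ∑ b ∈ Icc 1 T, lamI ((φ n : ℤ) + b) * lamzI w ((φ n' : ℤ) + b) - ∑ b ∈ Icc 1 T, lamzI z ((φ n : ℤ) + b) * lamzI w ((φ n' : ℤ) + b) := by
    rw [← sum_sub_distrib]
    exact sum_congr rfl fun b _ => by ring
  rw [e1] at d1
  rw [e2] at d2
  rw [e3] at d3
  set Sll := ∑ b ∈ Icc 1 T, lamI ((φ n : ℤ) + b) * lamI ((φ n' : ℤ) + b) with hSll
  set Slz := ∑ b ∈ Icc 1 T, lamI ((φ n : ℤ) + b) * lamzI z ((φ n' : ℤ) + b) with hSlz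
  set Slw := ∑ b ∈ Icc 1 T, lamI ((φ n : ℤ) + b) * lamzI w ((φ n' : ℤ) + b) with hSlw
  set Szz := ∑ b ∈ Icc 1 T, lamzI z ((φ n : ℤ) + b) * lamzI z ((φ n' : ℤ) + b) with hSzz
  set Szw := ∑ b ∈ Icc 1 T, lamzI z ((φ n : ℤ) + b) * lamzI w ((φ n' : ℤ) + b) with hSzw
  set Sww := ∑ b ∈ Icc 1 T, lamzI w ((φ n : ℤ) + b) * lamzI w ((φ n' : ℤ) + b) with hSww
  set sz := sg 2 (nu2 (φ n) (φ n')) z
  set sw := sg 2 (nu2 (φ n) (φ n')) w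
  have pc' : |(T : ℝ) * sz - T * sw| ≤ (Vz w)⁻¹ ^ 2 * ((16 * Real.log X + 4) / w) * T := by
    rw [← mul_sub, abs_mul, abs_of_nonneg hT0, mul_comm]
    exact mul_le_mul_of_nonneg_right pc hT0
  have hU : 2 / Real.log T ^ U * T = 2 * (T / Real.log T ^ U) := by ring
  rw [abs_le] at d1 d2 d3 m1 m2 m3 pc'
  rw [abs_le, abs_le, add_mul, add_mul, hU]
  have hδT : 0 ≤ δ * T := by positivity
  have hp3T := mul_nonneg hpos3 hT0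
  refine ⟨⟨?_, ?_⟩, ⟨?_, ?_⟩⟩ <;> linarith [d1.1, d1.2, d2.1, d2.2, d3.1, d3.2, m1.1, m1.2, m2.1, m2.2, m3.1, m3.2, pc'.1, pc'.2]

end Pool.Agent.K7.H49.LT
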