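import Mathlib
import Pool.Agent.H560R3.GB.Tup

set_option autoImplicit false

/-! The first moment over a family of shifts, uniformly over the subintervals. -/

namespace Pool.Agent.K7.H49.LT
open Finset Pool.Agent.H373R2.T7 Pool.Agent.H560R3.GB

/-- sums over intervals and a grid of points -/
lemma grid (A D : ℕ) (hD : 1 ≤ D) (f : ℕ → ℝ) (K : ℝ) (hf : ∀ m ∈ Icc 1 A, |f m| ≤ K) (hK : 0 ≤ K)
    (u v : ℕ) (huv : u ≤ v) (hv : v ≤ A) :
    |∑ m ∈ Ioc u v, f m| ≤ 2 * ∑ j ∈ range (A / D + 1), |∑ m ∈ Icc 1 (j * D), f m| + 2 * (D * K) := by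
  have hP : ∀ t : ℕ, t ≤ A → |∑ m ∈ Icc 1 t, f m| ≤
      ∑ j ∈ range (A / D + 1), |∑ m ∈ Icc 1 (j * D), f m| + D * K := by
    intro t ht
    set j := t / D with hj
    have hjt : j * D ≤ t := Nat.div_mul_le_self t D
    have hlt : t < j * D + D := by
      have := Nat.lt_div_mul_add (a := t) (b := D) (by omega)
      rw [← hj] at this
      exact this
    have hjA : j ∈ range (A / D + 1) := by
      rw [mem_range]
      have : t / D ≤ A / D := Nat.div_le_div_right ht
      omega
    have h1 : ∑ m ∈ Icc 1 t, f m = ∑ m ∈ Icc 1 (j * D), f m + ∑ m ∈ Ioc (j * D) t, f m := by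
      have e : Icc 1 t = Icc 1 (j * D) ∪ Ioc (j * D) t := by
        ext m
        simp only [mem_union, mem_Icc, mem_Ioc]
        omega
      rw [e, sum_union]
      rw [disjoint_left]
      intro m hm hm'
      rw [mem_Icc] at hm
      rw [mem_Ioc] at hm'
      omega
    rw [h1]
    refine (abs_add_le _ _).trans (add_le_add ?_ ?_)
    · exact single_le_sum (f := fun j => |∑ m ∈ Icc 1 (j * D), f m|) (fun _ _ => abs_nonneg _) hjA
    · refine (abs_sum_le_sum_abs _ _).trans ?_
      calc ∑ m ∈ Ioc (j * D) t, |f m| ≤ ∑ _m ∈ Ioc (j * D) t, K := by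
            apply sum_le_sum
            intro m hm
            rw [mem_Ioc] at hm
            exact hf m (mem_Icc.2 (by omega))
        _ = ((t - j * D : ℕ) : ℝ) * K := by rw [sum_const, nsmul_eq_mul, Nat.card_Ioc]
        _ ≤ D * K := by
            apply mul_le_mul_of_nonneg_right _ hK
            exact_mod_cast (by omega : t - j * D ≤ D)
  have h1 : ∑ m ∈ Ioc u v, f m = ∑ m ∈ Icc 1 v, f m - ∑ m ∈ Icc 1 u, f m := by
    have e : Icc 1 v = Icc 1 u ∪ Ioc u v := by
      ext m
      simp only [mem_union, mem_Icc, mem_Ioc]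
      omega
    rw [e, sum_union]
    · ring
    · rw [disjoint_left]
      intro m hm hm'
      rw [mem_Icc] at hm
      rw [mem_Ioc] at hm'
      omega
  rw [h1]
  have h2 := hP v hv
  have h3 := hP u (huv.trans hv)
  have h4 := abs_sub (∑ m ∈ Icc 1 v, f m) (∑ m ∈ Icc 1 u, f m)
  linarith

/-- the maximal inequality -/
lemma maxi (A D x : ℕ) (hD : 1 ≤ D) (H : ℕ → ℕ → ℝ) (δ K KH : ℝ) (hK : 0 < K) (hKH : 0 ≤ KH)
    (h : ∀ G : ℕ → ℂ, (∀ a, ‖G a‖ ≤ 1) →
      ∑ m ∈ Icc 1 x, ‖∑ a ∈ Icc 1 A, G a * ((H a m : ℝ) : ℂ)‖ ≤ δ)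
    (hH : ∀ a ∈ Icc 1 A, ∀ m ∈ Icc 1 x, |H a m| ≤ KH)
    (G : ℕ → ℝ) (hG : ∀ a ∈ Icc 1 A, |G a| ≤ K) (u v : ℕ → ℕ) (huv : ∀ m ∈ Icc 1 x, u m ≤ v m ∧ v m ≤ A) :
    ∑ m ∈ Icc 1 x, |∑ a ∈ Ioc (u m) (v m), G a * H a m| ≤
      2 * (((A / D + 1 : ℕ) : ℝ) * (K * δ)) + 2 * (D * (K * KH)) * x := by
  have h1 : ∀ m ∈ Icc 1 x, |∑ a ∈ Ioc (u m) (v m), G a * H a m| ≤
      2 * ∑ j ∈ range (A / D + 1), |∑ a ∈ Icc 1 (j * D), G a * H a m| + 2 * (D * (K * KH)) := by
    intro m hm
    apply grid A D hD (fun a => G a * H a m) (K * KH) _ (by positivity) _ _ (huv m hm).1 (huv m hm).2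
    intro a ha
    rw [abs_mul]
    exact mul_le_mul (hG a ha) (hH a ha m hm) (abs_nonneg _) hK.le
  refine (sum_le_sum h1).trans ?_
  rw [sum_add_distrib, ← mul_sum, sum_comm, sum_const, Nat.card_Icc, nsmul_eq_mul]
  apply add_le_add
  · apply mul_le_mul_of_nonneg_left _ (by norm_num)
    calc ∑ j ∈ range (A / D + 1), ∑ m ∈ Icc 1 x, |∑ a ∈ Icc 1 (j * D), G a * H a m|
        ≤ ∑ _j ∈ range (A / D + 1), K * δ := by
          apply sum_le_sum
          intro j hj
          rw [mem_range] at hj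
          have hjA : j * D ≤ A := by
            calc j * D ≤ (A / D) * D := Nat.mul_le_mul_right _ (by omega)
              _ ≤ A := Nat.div_mul_le_self A D
          have h2 := l1_real A x H δ K hK h (fun a => if a ≤ j * D then G a else 0) (fun a ha => by
            split_ifs
            · exact hG a ha
            · rw [abs_zero]; exact hK.le)
          refine le_trans (le_of_eq ?_) h2
          apply sum_congr rfl
          intro m _
          congr 1
          have e : Icc 1 (j * D) = (Icc 1 A).filter (fun a => a ≤ j * D) := by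
            ext a
            rw [mem_filter, mem_Icc, mem_Icc]
            omega
          rw [e, sum_filter]
          apply sum_congr rfl
          intro a _
          split_ifs <;> simp
      _ = _ := by rw [sum_const, card_range, nsmul_eq_mul]
  · apply le_of_eq
    simp
    ring

end Pool.Agent.K7.H49.LT
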