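import Mathlib
import Pool.Agent.K7.H49.LT.Max

set_option autoImplicit false

/-! The correlation of a bounded function and the von Mangoldt function minus its model along a
family of shifts of nearly minimal energy, in arbitrary intervals, with logarithmic dilations. -/

namespace Pool.Agent.K7.H49.LT
open Finset Pool.Agent.H373R2.T7 Pool.Agent.H560R3.GB

set_option maxHeartbeats 1000000 in
theorem pair_fam (h B C E U : ℕ) : ∃ B0 : ℕ, ∀ E1 : ℕ, ∃ N0 : ℕ, ∀ N : ℕ, N0 ≤ N → ∀ (x : ℕ) (t : ℕ → ℤ),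
    (∀ m ∈ Icc 1 x, |(t m : ℝ)| ≤ B * N * Real.log N ^ E) →
    (energy h x t : ℝ) * N ≤ Real.log N ^ C * (x : ℝ) ^ (2 * h) →
    ∀ z : ℕ, Real.log N ^ B0 ≤ z → (z : ℝ) ≤ Real.log N ^ E1 →
    ∀ G : ℕ → ℝ, (∀ a : ℕ, 1 ≤ a → (a : ℝ) ≤ 2 * B * N * Real.log N ^ E → |G a| ≤ 3 * Real.log N) →
    ∀ u v : ℕ → ℕ, (∀ m ∈ Icc 1 x, u m ≤ v m ∧ (v m : ℝ) ≤ B * N * Real.log N ^ E) →
    ∑ m ∈ Icc 1 x, |∑ a ∈ Ioc (u m) (v m), G a * (lamI (a + t m) - lamzI z (a + t m))| ≤
      N * x / Real.log N ^ U := by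
  set U1 : ℕ := 2 * E + 2 * U + 6 with hU1
  obtain ⟨B0, hB0⟩ := lam_e h B (C + E + 1) U1
  refine ⟨B0 + 1, fun E1 => ?_⟩
  obtain ⟨n1, h1⟩ := hB0 E1
  obtain ⟨n2, h2⟩ := ev_L' (max (2 ^ B0) (60 * B + 30))
  obtain ⟨n3, h3⟩ := Vz_inv_small E1
  obtain ⟨n4, h4⟩ := ev_log' (E + U + 6) 1
  refine ⟨max (max n1 n2) (max n3 (max n4 3)), fun N hN x t ht hE z hz1 hz2 G hG u v huv => ?_⟩
  have b1 : n1 ≤ N := le_trans (le_trans (le_max_left _ _) (le_max_left _ _)) hN
  have b2 : n2 ≤ N := le_trans (le_trans (le_max_right _ _) (le_max_left _ _)) hN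
  have b3 : n3 ≤ N := le_trans (le_trans (le_max_left _ _) (le_max_right _ _)) hN
  have b4 : n4 ≤ N := le_trans (le_trans (le_trans (le_max_left _ _) (le_max_right _ _)) (le_max_right _ _)) hN
  have b5 : 3 ≤ N := le_trans (le_trans (le_trans (le_max_right _ _) (le_max_right _ _)) (le_max_right _ _)) hN
  have hL := h2 N b2
  have a4 := h4 N b4
  have hNr : (3 : ℝ) ≤ N := by exact_mod_cast b5
  have hN0 : (0 : ℝ) < N := by linarith
  set L := Real.log N with hLd
  rw [one_mul] at a4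
  have hLa : (2 : ℝ) ^ B0 ≤ L := (le_max_left _ _).trans hL
  have hLb : 60 * (B : ℝ) + 30 ≤ L := (le_max_right _ _).trans hL
  have hB : (0 : ℝ) ≤ B := Nat.cast_nonneg _
  have hL30 : 30 ≤ L := by linarith
  have hL1 : 1 ≤ L := by linarith
  have hL0 : 0 < L := by linarith
  have hss : √(N : ℝ) * √(N : ℝ) = N := Real.mul_self_sqrt hN0.le
  have hs0 : 0 < √(N : ℝ) := Real.sqrt_pos.2 hN0
  have hpN : ∀ k : ℕ, k ≤ E + U + 6 → L ^ k ≤ √(N : ℝ) := fun k hk => (pow_le_pow_right₀ hL1 hk).trans a4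
  have hsN : √(N : ℝ) ≤ N := by
    have h5 : 1 ≤ √(N : ℝ) := (one_le_pow₀ hL1).trans a4
    nlinarith
  -- the scale
  have hLE1 : 1 ≤ L ^ E := one_le_pow₀ hL1
  set c : ℕ := ⌈L ^ E⌉₊ with hc
  have hc1 : L ^ E ≤ c := Nat.le_ceil _
  have hc2 : (c : ℝ) ≤ 2 * L ^ E := by
    have := Nat.ceil_lt_add_one (show 0 ≤ L ^ E by positivity)
    linarith
  have hcpos : 1 ≤ c := by
    have : (1 : ℝ) ≤ c := hLE1.trans hc1
    exact_mod_cast this
  set N1 : ℕ := N * c with hN1
  have hNN1 : N ≤ N1 := Nat.le_mul_of_pos_right _ hcpos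
  have hN1r : (N1 : ℝ) = N * c := by rw [hN1]; push_cast; ring
  have hN1a : N * L ^ E ≤ N1 := by rw [hN1r]; exact mul_le_mul_of_nonneg_left hc1 hN0.le
  have hN1b : (N1 : ℝ) ≤ 2 * (N * L ^ E) := by
    rw [hN1r]
    calc (N : ℝ) * c ≤ N * (2 * L ^ E) := mul_le_mul_of_nonneg_left hc2 hN0.le
      _ = _ := by ring
  clear_value c N1
  have hN1pos : (0 : ℝ) < N1 := by
    have : 0 < N * L ^ E := by positivity
    linarith
  have hLL1 : L ≤ Real.log N1 := Real.log_le_log hN0 (by exact_mod_cast hNN1)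
  -- size of logarithms
  have hlogle : Real.log ((3 * (B + 1)) * ((N : ℝ) * L ^ E)) ≤ 2 * L := by
    rw [Real.log_mul (show (3 * ((B : ℝ) + 1)) ≠ 0 by positivity) (by positivity), Real.log_mul (show (N : ℝ) ≠ 0 by positivity) (by positivity), ← hLd]
    have h5 : Real.log (L ^ E) ≤ L / 2 := by
      have h6 : L ^ E ≤ √(N : ℝ) := hpN E (by omega)
      have h7 := Real.log_le_log (by positivity) h6
      rwa [Real.log_sqrt hN0.le] at h7
    have h8 : Real.log (3 * ((B : ℝ) + 1)) ≤ L / 2 := by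
      have h9 : 3 * ((B : ℝ) + 1) ≤ √(N : ℝ) := by
        calc 3 * ((B : ℝ) + 1) ≤ L ^ 1 := by rw [pow_one]; linarith
          _ ≤ √(N : ℝ) := hpN 1 (by omega)
      have h10 := Real.log_le_log (by positivity) h9
      rwa [Real.log_sqrt hN0.le] at h10
    linarith
  have hL12 : Real.log N1 ≤ 2 * L := by
    refine le_trans (Real.log_le_log hN1pos ?_) hlogle
    have h5 : 0 ≤ N * L ^ E := by positivity
    have h6 : 0 ≤ B * (N * L ^ E) := mul_nonneg hB h5
    linarith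
  have hLp1 : ∀ k : ℕ, L ^ k ≤ Real.log N1 ^ k := fun k => pow_le_pow_left₀ hL0.le hLL1 k
  have hz : 1 ≤ z := by
    have : (1 : ℝ) ≤ z := (one_le_pow₀ hL1).trans hz1
    exact_mod_cast this
  have hV := h3 N b3 z hz hz2
  -- the first moment
  set δ : ℝ := N1 * x / Real.log N1 ^ U1 with hδ
  have hlam : ∀ G : ℕ → ℂ, (∀ a, ‖G a‖ ≤ 1) →
      ∑ m ∈ Icc 1 x, ‖∑ a ∈ Icc 1 (B * N1), G a * ((lamI (a + t m) - lamzI z (a + t m) : ℝ) : ℂ)‖ ≤ δ := by
    intro G hG
    apply h1 N1 (b1.trans hNN1) x t _ _ (B * N1) le_rfl z _ _ G hG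
    · intro m hm
      have h5 := ht m hm
      have h6 : |((t m : ℤ) : ℝ)| ≤ B * N1 := by
        refine h5.trans ?_
        rw [mul_assoc]
        exact mul_le_mul_of_nonneg_left hN1a hB
      exact_mod_cast h6
    · have hx0 : (0 : ℝ) ≤ (x : ℝ) ^ (2 * h) := by positivity
      calc (energy h x t : ℝ) * N1 ≤ (energy h x t : ℝ) * (2 * (N * L ^ E)) := mul_le_mul_of_nonneg_left hN1b (Nat.cast_nonneg _)
        _ = (2 * L ^ E) * ((energy h x t : ℝ) * N) := by ring
        _ ≤ (2 * L ^ E) * (L ^ C * (x : ℝ) ^ (2 * h)) := mul_le_mul_of_nonneg_left hE (by positivity)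
        _ ≤ (L * L ^ E) * (L ^ C * (x : ℝ) ^ (2 * h)) := by
            apply mul_le_mul_of_nonneg_right _ (by positivity)
            apply mul_le_mul_of_nonneg_right _ (by positivity)
            linarith
        _ = L ^ (C + E + 1) * (x : ℝ) ^ (2 * h) := by rw [pow_succ, pow_add]; ring
        _ ≤ _ := mul_le_mul_of_nonneg_right (hLp1 _) hx0
    · calc Real.log N1 ^ B0 ≤ (2 * L) ^ B0 := pow_le_pow_left₀ (hL0.le.trans hLL1) hL12 _
        _ = 2 ^ B0 * L ^ B0 := mul_pow _ _ _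
        _ ≤ L * L ^ B0 := mul_le_mul_of_nonneg_right hLa (by positivity)
        _ = L ^ (B0 + 1) := by ring
        _ ≤ z := hz1
    · exact hz2.trans (hLp1 _)
  -- the grid
  set D : ℕ := ⌊(N : ℝ) / L ^ (U + 4)⌋₊ with hD
  have hDr : 1 ≤ (N : ℝ) / L ^ (U + 4) := by
    rw [le_div_iff₀ (by positivity), one_mul]
    exact (hpN _ (by omega)).trans hsN
  have hD1 : 1 ≤ D := Nat.one_le_iff_ne_zero.2 (by
    rw [hD]
    exact (Nat.floor_pos.2 hDr).ne')
  have hD2 : (D : ℝ) ≤ (N : ℝ) / L ^ (U + 4) := Nat.floor_le (by positivity)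
  have hD3 : (N : ℝ) / L ^ (U + 4) ≤ 2 * D := by
    have h5 := Nat.lt_floor_add_one ((N : ℝ) / L ^ (U + 4))
    rw [← hD] at h5
    have h6 : (1 : ℝ) ≤ D := by exact_mod_cast hD1
    linarith
  have hAreal : ((B * N1 : ℕ) : ℝ) ≤ 2 * B * N * L ^ E := by
    push_cast
    calc (B : ℝ) * N1 ≤ B * (2 * (N * L ^ E)) := mul_le_mul_of_nonneg_left hN1b hB
      _ = _ := by ring
  have key := maxi (B * N1) D x hD1 (fun a m => lamI (a + t m) - lamzI z (a + t m)) δ (3 * L) (3 * L)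
    (by positivity) (by positivity) hlam (by
      intro a ha m hm
      rw [mem_Icc] at ha
      have h6 : (a : ℝ) ≤ 2 * B * N * L ^ E := le_trans (by exact_mod_cast ha.2) hAreal
      have h7 := (abs_le.1 (ht m hm)).2
      have h8 : 0 < (N : ℝ) * L ^ E := by positivity
      have h9 : 1 ≤ (N : ℝ) * L ^ E := one_le_mul_of_one_le_of_one_le (by linarith) hLE1
      have h5 : (((a : ℤ) + t m : ℤ) : ℝ) ≤ (3 * (B + 1)) * ((N : ℝ) * L ^ E) := by
        push_cast
        have e1 : 2 * B * N * L ^ E + B * N * L ^ E = 3 * B * ((N : ℝ) * L ^ E) := by ring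
        have e2 : 3 * ((B : ℝ) + 1) * ((N : ℝ) * L ^ E) = 3 * B * ((N : ℝ) * L ^ E) + 3 * ((N : ℝ) * L ^ E) := by ring
        linarith
      have h10 : 1 ≤ (3 * ((B : ℝ) + 1)) * ((N : ℝ) * L ^ E) := one_le_mul_of_one_le_of_one_le (by linarith) h9
      have h11 := (lamI_le _ _ h10 h5).trans hlogle
      have h12 := lamI_nonneg ((a : ℤ) + t m)
      have h13 := (lamzI_le z ((a : ℤ) + t m)).trans hV
      have h14 := lamzI_nonneg z ((a : ℤ) + t m)
      rw [abs_le]
      constructor <;> linarith) G (by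
      intro a ha
      rw [mem_Icc] at ha
      apply hG a ha.1
      refine le_trans ?_ hAreal
      exact_mod_cast ha.2) u v (by
      intro m hm
      refine ⟨(huv m hm).1, ?_⟩
      have h5 := (huv m hm).2
      have h6 : (v m : ℝ) ≤ ((B * N1 : ℕ) : ℝ) := by
        push_cast
        refine h5.trans ?_
        rw [mul_assoc]
        exact mul_le_mul_of_nonneg_left hN1a hB
      exact_mod_cast h6)
  refine key.trans ?_
  have hx0 : (0 : ℝ) ≤ x := Nat.cast_nonneg _
  have hAD : ((B * N1 / D + 1 : ℕ) : ℝ) ≤ 4 * B * L ^ (E + U + 4) + 1 := by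
    push_cast
    have h5 : ((B * N1 / D : ℕ) : ℝ) ≤ ((B * N1 : ℕ) : ℝ) / D := Nat.cast_div_le
    have hD0 : (0 : ℝ) < D := by exact_mod_cast hD1
    have h6 : ((B * N1 : ℕ) : ℝ) / D ≤ 4 * B * L ^ (E + U + 4) := by
      rw [div_le_iff₀ hD0]
      have h7 : (N : ℝ) ≤ 2 * D * L ^ (U + 4) := by
        rwa [div_le_iff₀ (by positivity)] at hD3
      calc ((B * N1 : ℕ) : ℝ) ≤ 2 * B * N * L ^ E := hAreal
        _ = (2 * B * L ^ E) * N := by ring
        _ ≤ (2 * B * L ^ E) * (2 * D * L ^ (U + 4)) := mul_le_mul_of_nonneg_left h7 (by positivity)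
        _ = _ := by rw [show E + U + 4 = E + (U + 4) by ring, pow_add]; ring
    linarith
  have hδ2 : δ ≤ 2 * (N * x) * L ^ E / L ^ U1 := by
    rw [hδ]
    apply div_le_div₀ (by positivity) _ (by positivity) (hLp1 _)
    calc (N1 : ℝ) * x ≤ (2 * (N * L ^ E)) * x := mul_le_mul_of_nonneg_right hN1b hx0
      _ = _ := by ring
  have hpow1 : 1 ≤ L ^ (E + U + 4) := one_le_pow₀ hL1
  have q1 : 2 * (((B * N1 / D + 1 : ℕ) : ℝ) * (3 * L * δ)) ≤ ((48 * B + 12) / L) * (N * x / L ^ U) := by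
    calc 2 * (((B * N1 / D + 1 : ℕ) : ℝ) * (3 * L * δ))
        ≤ 2 * ((4 * B * L ^ (E + U + 4) + 1) * (3 * L * (2 * (N * x) * L ^ E / L ^ U1))) := by
          apply mul_le_mul_of_nonneg_left _ (by norm_num)
          apply mul_le_mul hAD _ (by positivity) (by positivity)
          exact mul_le_mul_of_nonneg_left hδ2 (by positivity)
      _ ≤ 2 * (((4 * B + 1) * L ^ (E + U + 4)) * (3 * L * (2 * (N * x) * L ^ E / L ^ U1))) := by
          apply mul_le_mul_of_nonneg_left _ (by norm_num)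
          apply mul_le_mul_of_nonneg_right _ (by positivity)
          rw [add_mul, one_mul]
          linarith
      _ = _ := by
          have e : L ^ U1 = L ^ (E + U + 4) * L ^ E * L ^ U * L ^ 2 := by
            rw [← pow_add, ← pow_add, ← pow_add]
            congr 1
            omega
          rw [e]
          field_simp
          ring
  have q2 : 2 * (D * (3 * L * (3 * L))) * x ≤ (18 / L) * (N * x / L ^ U) := by
    calc 2 * (D * (3 * L * (3 * L))) * x ≤ 2 * ((N : ℝ) / L ^ (U + 4) * (3 * L * (3 * L))) * x := by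
          apply mul_le_mul_of_nonneg_right _ hx0
          apply mul_le_mul_of_nonneg_left _ (by norm_num)
          exact mul_le_mul_of_nonneg_right hD2 (by positivity)
      _ = (18 / L ^ 2) * (N * x / L ^ U) := by
          rw [pow_add]
          field_simp
          ring
      _ ≤ _ := by
          apply mul_le_mul_of_nonneg_right _ (by positivity)
          apply div_le_div_of_nonneg_left (by norm_num) hL0
          nlinarith
  calc 2 * (((B * N1 / D + 1 : ℕ) : ℝ) * (3 * L * δ)) + 2 * (D * (3 * L * (3 * L))) * x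
      ≤ ((48 * B + 12) / L) * (N * x / L ^ U) + (18 / L) * (N * x / L ^ U) := add_le_add q1 q2
    _ = ((48 * B + 30) / L) * (N * x / L ^ U) := by ring
    _ ≤ 1 * (N * x / L ^ U) := by
        apply mul_le_mul_of_nonneg_right _ (by positivity)
        rw [div_le_one hL0]
        linarith
    _ = _ := one_mul _

end Pool.Agent.K7.H49.LT
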