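import Mathlib
import Pool.Agent.K7.H49.LT.Pair
import Pool.Agent.K7.H49.LT.Off

set_option autoImplicit false

/-! Almost all members of families of nearly minimal energy have small correlations. -/

namespace Pool.Agent.K7.H49.LT
open Finset Pool.Agent.H373R2.T7 Pool.Agent.H560R3.GB

lemma energy_affine (h x : ℕ) (s : ℕ → ℤ) (c d : ℤ) (hc : c ≠ 0) :
    Pool.Agent.H373R2.T7.energy h x (fun l => s l * c + d) = Pool.Agent.H373R2.T7.energy h x s := by
  unfold Pool.Agent.H373R2.T7.energy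
  congr 1
  apply filter_congr
  intro q _
  simp only [sum_add_distrib, sum_const, card_univ, Fintype.card_fin]
  rw [← sum_mul, ← sum_mul]
  constructor
  · intro h1
    have h2 : (∑ i, s (q.1 i)) * c = (∑ i, s (q.2 i)) * c := by linarith
    exact mul_right_cancel₀ hc h2
  · intro h1
    rw [h1]

/-- the test functions -/
noncomputable def Gf (j : ℕ) (m : ℤ) : ℝ := match j with
  | 0 => lamI m
  | w + 1 => lamzI w m

lemma shift_sum (φ φ' T : ℕ) (G F : ℤ → ℝ) (t : ℤ) (ht : t = (φ' : ℤ) - φ) :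
    ∑ b ∈ Icc 1 T, G ((φ : ℤ) + b) * F ((φ' : ℤ) + b) = ∑ a ∈ Ioc φ (φ + T), G (a : ℤ) * F ((a : ℤ) + t) := by
  apply sum_nbij' (fun b => φ + b) (fun a => a - φ)
  · intro b hb
    rw [mem_Icc] at hb
    simp only [mem_Ioc]
    omega
  · intro a ha
    rw [mem_Ioc] at ha
    simp only [mem_Icc]
    omega
  · intro b _
    simp
  · intro a ha
    rw [mem_Ioc] at ha
    omega
  · intro b _
    rw [ht]
    push_cast
    congr 2
    ring

set_option maxHeartbeats 1000000 in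
open Classical in
theorem cor_fam (h B C E U A : ℕ) : ∃ B0 : ℕ, ∀ E1 : ℕ, ∃ N0 : ℕ, ∀ N : ℕ, N0 ≤ N →
    ∀ (x Mx : ℕ) (s : ℕ → ℤ) (g g0 : ℕ → ℤ) (φ : ℕ → ℕ → ℕ) (T : ℕ → ℕ), (Mx : ℝ) ≤ Real.log N ^ E →
    (Pool.Agent.H373R2.T7.energy h x s : ℝ) * N ≤ Real.log N ^ C * (x : ℝ) ^ (2 * h) →
    (∀ n ∈ Icc 1 Mx, ∀ n' ∈ Icc 1 Mx, n ≠ n' → g n ≠ g n') →
    ∀ z : ℕ, Real.log N ^ B0 ≤ z → (z : ℝ) ≤ Real.log N ^ E1 →
    (∀ l ∈ Icc 1 x, ∀ n ∈ Icc 1 Mx, (φ l n : ℤ) = s l * g n + g0 n ∧ (φ l n : ℝ) + T l ≤ B * N * Real.log N ^ E) →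
    (((Icc 1 x).filter (fun l => (N : ℝ) ≤ Real.log N ^ B * T l ∧ ¬ Cor (φ l) (T l) Mx z (1 / Real.log N ^ U))).card : ℝ) ≤
      x / Real.log N ^ A := by
  set U1 : ℕ := U + B + A + 3 * E + 3 with hU1
  obtain ⟨B0, hB0⟩ := pair_fam h B C E U1
  refine ⟨B0, fun E1 => ?_⟩
  obtain ⟨n1, h1⟩ := hB0 E1
  obtain ⟨n2, h2⟩ := ev_L' (max 4 (2 * B))
  obtain ⟨n3, h3⟩ := Vz_inv_small (max E E1)
  obtain ⟨n4, h4⟩ := ev_log' (E + 1) 1
  refine ⟨max (max n1 n2) (max n3 (max n4 3)), fun N hN x Mx s g g0 φ T hMx hE hg z hz1 hz2 hφ => ?_⟩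
  have b1 : n1 ≤ N := le_trans (le_trans (le_max_left _ _) (le_max_left _ _)) hN
  have b2 : n2 ≤ N := le_trans (le_trans (le_max_right _ _) (le_max_left _ _)) hN
  have b3 : n3 ≤ N := le_trans (le_trans (le_max_left _ _) (le_max_right _ _)) hN
  have b4 : n4 ≤ N := le_trans (le_trans (le_trans (le_max_left _ _) (le_max_right _ _)) (le_max_right _ _)) hN
  have b5 : 3 ≤ N := le_trans (le_trans (le_trans (le_max_right _ _) (le_max_right _ _)) (le_max_right _ _)) hN
  have hL := h2 N b2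
  have a4 := h4 N b4
  have hNr : (3 : ℝ) ≤ N := by exact_mod_cast b5
  have hN0 : (0 : ℝ) < N := by linarith
  set L := Real.log N with hLd
  rw [one_mul] at a4
  have hL4 : 4 ≤ L := (le_max_left _ _).trans hL
  have hLB : 2 * (B : ℝ) ≤ L := (le_max_right _ _).trans hL
  have hL1 : 1 ≤ L := by linarith
  have hL0 : 0 < L := by linarith
  have hB : (0 : ℝ) ≤ B := Nat.cast_nonneg _
  have hx0 : (0 : ℝ) ≤ x := Nat.cast_nonneg _
  -- logarithms
  have hloga : ∀ a : ℕ, (a : ℝ) ≤ 2 * B * N * L ^ E → lamI (a : ℤ) ≤ 3 * L := by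
    intro a ha
    have g1 : 2 * (B : ℝ) * N * L ^ E ≤ N * L ^ (E + 1) := by
      calc 2 * (B : ℝ) * N * L ^ E = (2 * B) * (N * L ^ E) := by ring
        _ ≤ L * (N * L ^ E) := mul_le_mul_of_nonneg_right hLB (by positivity)
        _ = _ := by rw [pow_succ]; ring
    have g2 : 1 ≤ (N : ℝ) * L ^ (E + 1) := one_le_mul_of_one_le_of_one_le (by linarith) (one_le_pow₀ hL1)
    refine (lamI_le (a : ℤ) (N * L ^ (E + 1)) g2 ?_).trans ?_
    · push_cast
      linarith
    · rw [Real.log_mul hN0.ne' (by positivity), ← hLd]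
      have g3 : Real.log (L ^ (E + 1)) ≤ L := by
        have g4 : L ^ (E + 1) ≤ N := by
          refine a4.trans ?_
          rw [Real.sqrt_le_left hN0.le]
          nlinarith
        exact Real.log_le_log (by positivity) g4
      linarith
  have hV : ∀ w : ℕ, (w ≤ Mx ∨ w = z) → (Vz w)⁻¹ ≤ L := by
    intro w hw
    rcases Nat.eq_zero_or_pos w with h0 | h0
    · rw [h0]
      have : Vz 0 = 1 := by
        unfold Vz pz
        simp
      rw [this, inv_one]
      exact hL1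
    · apply h3 N b3 w h0
      rcases hw with h5 | h5
      · calc (w : ℝ) ≤ Mx := by exact_mod_cast h5
          _ ≤ L ^ E := hMx
          _ ≤ L ^ max E E1 := pow_le_pow_right₀ hL1 (le_max_left _ _)
      · rw [h5]
        exact hz2.trans (pow_le_pow_right₀ hL1 (le_max_right _ _))
  set δ : ℝ := 1 / L ^ U with hδ
  set J : Finset ℕ := insert 0 ((range (Mx + 1) ∪ {z}).image (fun w => w + 1)) with hJ
  have hJc : J.card ≤ Mx + 3 := by
    rw [hJ]
    refine (card_insert_le _ _).trans ?_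
    have h5 : ((range (Mx + 1) ∪ {z}).image (fun w => w + 1)).card ≤ Mx + 1 + 1 :=
      card_image_le.trans ((card_union_le _ _).trans (by rw [card_range, card_singleton]))
    omega
  have hGb : ∀ j ∈ J, ∀ a : ℕ, 1 ≤ a → (a : ℝ) ≤ 2 * B * N * L ^ E → |Gf j (a : ℤ)| ≤ 3 * L := by
    intro j hj a _ ha
    rw [hJ, mem_insert, mem_image] at hj
    rcases hj with h5 | ⟨w, hw, h5⟩
    · rw [h5]
      have h6 : Gf 0 (a : ℤ) = lamI (a : ℤ) := rfl
      rw [h6, abs_of_nonneg (lamI_nonneg _)]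
      exact hloga a ha
    · rw [← h5]
      have h6 : Gf (w + 1) (a : ℤ) = lamzI w (a : ℤ) := rfl
      rw [h6, abs_of_nonneg (lamzI_nonneg _ _)]
      rw [mem_union, mem_range, mem_singleton] at hw
      have h7 := hV w (by rcases hw with h8 | h8 <;> [left; right] <;> omega)
      have := lamzI_le w (a : ℤ)
      linarith
  -- the bad sets
  set bd : ℕ × ℕ × ℕ → Finset ℕ := fun q => (Icc 1 x).filter (fun l => (N : ℝ) ≤ L ^ B * T l ∧
    δ * T l < |∑ b ∈ Icc 1 (T l), Gf q.2.2 ((φ l q.1 : ℤ) + b) * (lamI ((φ l q.2.1 : ℤ) + b) - lamzI z ((φ l q.2.1 : ℤ) + b))|) with hbd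
  set I : Finset (ℕ × ℕ × ℕ) := (Icc 1 Mx ×ˢ (Icc 1 Mx ×ˢ J)).filter (fun q => q.1 ≠ q.2.1) with hI
  have hbc : ∀ q ∈ I, ((bd q).card : ℝ) ≤ x / L ^ (A + 3 * E + 3) := by
    intro q hq
    rw [hI, mem_filter, mem_product, mem_product] at hq
    obtain ⟨⟨q1, q2, q3⟩, qne⟩ := hq
    set t : ℕ → ℤ := fun l => s l * (g q.2.1 - g q.1) + (g0 q.2.1 - g0 q.1) with ht
    have htl : ∀ l ∈ Icc 1 x, t l = (φ l q.2.1 : ℤ) - φ l q.1 := by
      intro l hl
      rw [(hφ l hl q.1 q1).1, (hφ l hl q.2.1 q2).1, ht]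
      ring
    have hE' : (Pool.Agent.H373R2.T7.energy h x t : ℝ) * N ≤ L ^ C * (x : ℝ) ^ (2 * h) := by
      have hne : g q.2.1 - g q.1 ≠ 0 := by
        have := hg q.2.1 q2 q.1 q1 (fun h => qne h.symm)
        intro h5
        apply this
        linarith
      rw [ht, energy_affine h x s _ _ hne]
      exact hE
    have key := h1 N b1 x t (fun l hl => by
        have h5 : ((t l : ℤ) : ℝ) = (φ l q.2.1 : ℝ) - φ l q.1 := by
          rw [htl l hl]
          push_cast
          ring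
        rw [h5, abs_le]
        have h6 := (hφ l hl q.1 q1).2
        have h7 := (hφ l hl q.2.1 q2).2
        have h8 : (0 : ℝ) ≤ φ l q.1 := Nat.cast_nonneg _
        have h9 : (0 : ℝ) ≤ φ l q.2.1 := Nat.cast_nonneg _
        have h10 : (0 : ℝ) ≤ T l := Nat.cast_nonneg _
        constructor <;> linarith) hE' z hz1 hz2 (fun a => Gf q.2.2 (a : ℤ)) (hGb q.2.2 q3)
        (fun l => φ l q.1) (fun l => φ l q.1 + T l) (fun l hl => by
          refine ⟨Nat.le_add_right _ _, ?_⟩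
          have h6 := (hφ l hl q.1 q1).2
          push_cast
          exact h6)
    have h5 : ((bd q).card : ℝ) * (1 / L ^ (U + B) * N) ≤ N * x / L ^ U1 := by
      refine le_trans ?_ key
      calc ((bd q).card : ℝ) * (1 / L ^ (U + B) * N) = ∑ _l ∈ bd q, (1 / L ^ (U + B) * N) := by rw [sum_const, nsmul_eq_mul]
        _ ≤ ∑ l ∈ bd q, |∑ a ∈ Ioc (φ l q.1) (φ l q.1 + T l), Gf q.2.2 (a : ℤ) * (lamI (a + t l) - lamzI z (a + t l))| := by
            apply sum_le_sum
            intro l hl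
            rw [hbd, mem_filter] at hl
            obtain ⟨hl1, hl2, hl3⟩ := hl
            have e := shift_sum (φ l q.1) (φ l q.2.1) (T l) (Gf q.2.2) (fun m => lamI m - lamzI z m) (t l) (htl l hl1)
            rw [← e]
            refine le_trans ?_ hl3.le
            rw [hδ, pow_add]
            have h6 : (N : ℝ) / L ^ B ≤ T l := by
              rw [div_le_iff₀ (by positivity)]
              linarith
            calc 1 / (L ^ U * L ^ B) * N = 1 / L ^ U * (N / L ^ B) := by field_simp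
              _ ≤ 1 / L ^ U * T l := mul_le_mul_of_nonneg_left h6 (by positivity)
        _ ≤ _ := sum_le_sum_of_subset_of_nonneg (filter_subset _ _) (fun _ _ _ => abs_nonneg _)
    have h6 : N * x / L ^ U1 = (x / L ^ (A + 3 * E + 3)) * (1 / L ^ (U + B) * N) := by
      rw [hU1, show U + B + A + 3 * E + 3 = (A + 3 * E + 3) + (U + B) by ring, pow_add]
      field_simp
    rw [h6] at h5
    exact le_of_mul_le_mul_right h5 (by positivity)
  have hsub : (Icc 1 x).filter (fun l => (N : ℝ) ≤ L ^ B * T l ∧ ¬ Cor (φ l) (T l) Mx z δ) ⊆ I.biUnion bd := by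
    intro l hl
    rw [mem_filter] at hl
    obtain ⟨hl1, hl2, hl3⟩ := hl
    unfold Cor at hl3
    push Not at hl3
    obtain ⟨n, hn, n', hn', hne, h5⟩ := hl3
    rw [mem_biUnion]
    by_cases h6 : ∀ w : ℕ, (w ≤ Mx ∨ w = z) → |∑ b ∈ Icc 1 (T l), lamzI w ((φ l n : ℤ) + b) * (lamI ((φ l n' : ℤ) + b) - lamzI z ((φ l n' : ℤ) + b))| ≤ δ * T l
    · refine ⟨(n, n', 0), ?_, ?_⟩
      · rw [hI, mem_filter, mem_product, mem_product]
        exact ⟨⟨hn, hn', by rw [hJ]; exact mem_insert_self _ _⟩, hne⟩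
      · rw [hbd, mem_filter]
        exact ⟨hl1, hl2, h5 h6⟩
    · push Not at h6
      obtain ⟨w, hw, h7⟩ := h6
      refine ⟨(n, n', w + 1), ?_, ?_⟩
      · rw [hI, mem_filter, mem_product, mem_product]
        refine ⟨⟨hn, hn', ?_⟩, hne⟩
        rw [hJ]
        apply mem_insert_of_mem
        rw [mem_image]
        refine ⟨w, ?_, rfl⟩
        rw [mem_union, mem_range, mem_singleton]
        rcases hw with h8 | h8
        · left; omega
        · right; exact h8
      · rw [hbd, mem_filter]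
        exact ⟨hl1, hl2, h7⟩
  have hIc : (I.card : ℝ) ≤ L ^ (3 * E + 3) := by
    have h5 : I.card ≤ Mx * (Mx * (Mx + 3)) := by
      rw [hI]
      refine (card_filter_le _ _).trans ?_
      rw [card_product, card_product, Nat.card_Icc, Nat.add_sub_cancel]
      exact Nat.mul_le_mul_left _ (Nat.mul_le_mul_left _ hJc)
    have h6 : (I.card : ℝ) ≤ Mx * (Mx * (Mx + 3)) := by exact_mod_cast h5
    have hM0 : (0 : ℝ) ≤ Mx := Nat.cast_nonneg _
    have h7 : (Mx : ℝ) + 3 ≤ L ^ E * L := by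
      have : 1 ≤ L ^ E := one_le_pow₀ hL1
      nlinarith
    calc (I.card : ℝ) ≤ Mx * (Mx * (Mx + 3)) := h6
      _ ≤ L ^ E * (L ^ E * (L ^ E * L)) := by
          apply mul_le_mul hMx _ (by positivity) (by positivity)
          exact mul_le_mul hMx h7 (by positivity) (by positivity)
      _ = L ^ (3 * E + 1) := by rw [show 3 * E + 1 = E + (E + (E + 1)) by ring, pow_add, pow_add, pow_add, pow_one]
      _ ≤ _ := pow_le_pow_right₀ hL1 (by omega)
  calc ((((Icc 1 x).filter (fun l => (N : ℝ) ≤ L ^ B * T l ∧ ¬ Cor (φ l) (T l) Mx z δ))).card : ℝ) ≤ ((I.biUnion bd).card : ℝ) := by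
        exact_mod_cast card_le_card hsub
    _ ≤ ∑ q ∈ I, ((bd q).card : ℝ) := by exact_mod_cast card_biUnion_le
    _ ≤ ∑ _q ∈ I, (x / L ^ (A + 3 * E + 3)) := sum_le_sum hbc
    _ = I.card * (x / L ^ (A + 3 * E + 3)) := by rw [sum_const, nsmul_eq_mul]
    _ ≤ L ^ (3 * E + 3) * (x / L ^ (A + 3 * E + 3)) := mul_le_mul_of_nonneg_right hIc (by positivity)
    _ = x / L ^ A := by
        have e : L ^ (A + 3 * E + 3) = L ^ A * L ^ (3 * E + 3) := by
          rw [← pow_add]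
          congr 1
        rw [e]
        field_simp

end Pool.Agent.K7.H49.LT
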