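import Mathlib
import Pool.Agent.K7.H49.LT.Fam

set_option autoImplicit false

/-! Good leading coefficients of linear forms. -/

namespace Pool.Agent.K7.H49.LT
open Finset Pool.Agent.H373R2.T7

/-- good leading coefficients -/
def Gd (E E1 : ℕ) (a : ℕ) : Prop :=
  ∃ z : ℕ, Real.log a ^ E ≤ z ∧ (z : ℝ) ≤ Real.log a ^ E1 ∧
    Cor (fun n => a * n) (a - 1) ⌊Real.log a ^ E⌋₊ z (1 / Real.log a ^ E)

set_option maxHeartbeats 1000000 in
open Classical in
theorem lin_fam (E A B H : ℕ) : ∃ E1 N0 : ℕ, ∀ h : ℕ, h ≤ H → ∀ N : ℕ, N0 ≤ N → ∀ (x : ℕ) (s : ℕ → ℕ),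
    (∀ l ∈ Icc 1 x, s l ≤ B * N) →
    (Pool.Agent.H373R2.T7.energy h x (fun l => (s l : ℤ)) : ℝ) * N ≤ Real.log N ^ B * (x : ℝ) ^ (2 * h) →
    (((Icc 1 x).filter (fun l => (N : ℝ) ≤ Real.log N ^ B * s l ∧ ¬ Gd E E1 (s l))).card : ℝ) ≤ x / Real.log N ^ A := by
  choose B0 hB0 using fun h => cor_fam h (B + 1) B (E + 2) (E + 1) A
  set BB : ℕ := max ((range (H + 1)).sup B0) (E + 2) with hBB
  choose N0 hN0 using fun h => hB0 h (BB + 1)
  obtain ⟨n1, h1⟩ := ev_L' (max ((2 : ℝ) ^ (BB + 2)) (2 * B + 4))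
  obtain ⟨n2, h2⟩ := ev_log' (max (E + 3) (B + 2)) 1
  refine ⟨BB + 2, max ((range (H + 1)).sup N0) (max n1 (max n2 3)), fun h hh N hN x s hs hE => ?_⟩
  have b0 : N0 h ≤ N := (le_sup (f := N0) (mem_range.2 (by omega))).trans ((le_max_left _ _).trans hN)
  have b1 : n1 ≤ N := ((le_max_left _ _).trans (le_max_right _ _)).trans hN
  have b2 : n2 ≤ N := (((le_max_left _ _).trans (le_max_right _ _)).trans (le_max_right _ _)).trans hN
  have b3 : 3 ≤ N := (((le_max_right _ _).trans (le_max_right _ _)).trans (le_max_right _ _)).trans hN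
  have hL := h1 N b1
  have a4 := h2 N b2
  have hNr : (3 : ℝ) ≤ N := by exact_mod_cast b3
  have hN0' : (0 : ℝ) < N := by linarith
  set L := Real.log N with hLd
  rw [one_mul] at a4
  have hL2 : (2 : ℝ) ^ (BB + 2) ≤ L := (le_max_left _ _).trans hL
  have hLB : 2 * (B : ℝ) + 4 ≤ L := (le_max_right _ _).trans hL
  have hB0r : (0 : ℝ) ≤ B := Nat.cast_nonneg _
  have hL4 : 4 ≤ L := by linarith
  have hL1 : 1 ≤ L := by linarith
  have hL0 : 0 < L := by linarith
  have hBBE : E + 2 ≤ BB := le_max_right _ _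
  have hBBh : B0 h ≤ BB := (le_sup (f := B0) (mem_range.2 (by omega))).trans (le_max_left _ _)
  have hpw : ∀ k : ℕ, k ≤ max (E + 3) (B + 2) → L ^ k ≤ √(N : ℝ) := fun k hk => (pow_le_pow_right₀ hL1 hk).trans a4
  -- parameters
  set z : ℕ := ⌈L ^ BB⌉₊ with hz
  have hz1 : L ^ BB ≤ z := Nat.le_ceil _
  have hz2 : (z : ℝ) ≤ 2 * L ^ BB := by
    have h5 := Nat.ceil_lt_add_one (show 0 ≤ L ^ BB by positivity)
    have h6 : 1 ≤ L ^ BB := one_le_pow₀ hL1
    linarith
  have hz3 : (z : ℝ) ≤ L ^ (BB + 1) := by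
    refine hz2.trans ?_
    rw [pow_succ, mul_comm]
    exact mul_le_mul_of_nonneg_left (by linarith) (by positivity)
  set Mx : ℕ := ⌊L ^ (E + 1)⌋₊ with hMx
  have hMx1 : (Mx : ℝ) ≤ L ^ (E + 1) := Nat.floor_le (by positivity)
  have key := hN0 h N b0 x Mx (fun l => (s l : ℤ)) (fun n => (n : ℤ)) (fun _ => 0) (fun l n => s l * n) (fun l => s l - 1)
    (hMx1.trans (pow_le_pow_right₀ hL1 (by omega))) hE (fun n _ n' _ hne h5 => hne (by exact_mod_cast h5)) z
    ((pow_le_pow_right₀ hL1 hBBh).trans hz1) hz3 (fun l hl n hn => by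
      refine ⟨by push_cast; ring, ?_⟩
      have h5 := hs l hl
      rw [mem_Icc] at hn
      have h6 : s l * n + (s l - 1) ≤ s l * (Mx + 1) := by
        have h7 : s l * n ≤ s l * Mx := Nat.mul_le_mul_left _ hn.2
        rw [mul_add, mul_one]
        omega
      have h7 : ((s l * n + (s l - 1) : ℕ) : ℝ) ≤ ((s l * (Mx + 1) : ℕ) : ℝ) := by exact_mod_cast h6
      rw [← Nat.cast_add]
      refine h7.trans ?_
      have h8 : (s l : ℝ) ≤ B * N := by exact_mod_cast h5
      have h9 : (Mx : ℝ) + 1 ≤ L ^ (E + 2) := by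
        have h10 : 1 ≤ L ^ (E + 1) := one_le_pow₀ hL1
        have h11 : L ^ (E + 2) = L ^ (E + 1) * L := by rw [← pow_succ]
        rw [h11]
        nlinarith
      push_cast
      calc (s l : ℝ) * (Mx + 1) ≤ (B * N) * L ^ (E + 2) := mul_le_mul h8 h9 (by positivity) (by positivity)
        _ ≤ (B + 1) * N * L ^ (E + 2) := by
            apply mul_le_mul_of_nonneg_right _ (by positivity)
            apply mul_le_mul_of_nonneg_right _ hN0'.le
            linarith)
  refine le_trans ?_ key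
  have hsub : (Icc 1 x).filter (fun l => (N : ℝ) ≤ L ^ B * s l ∧ ¬ Gd E (BB + 2) (s l)) ⊆
      (Icc 1 x).filter (fun l => (N : ℝ) ≤ L ^ (B + 1) * ((s l - 1 : ℕ) : ℝ) ∧ ¬ Cor (fun n => s l * n) (s l - 1) Mx z (1 / L ^ (E + 1))) := by
    intro l hl
    rw [mem_filter] at hl ⊢
    obtain ⟨hl1, hl2, hl3⟩ := hl
    -- the size of the coefficient
    have hs1 : √(N : ℝ) ≤ s l := by
      have h5 : L ^ B ≤ √(N : ℝ) := hpw B (le_trans (by omega) (le_max_right _ _))
      have hss : √(N : ℝ) * √(N : ℝ) = N := Real.mul_self_sqrt hN0'.le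
      have hsp : 0 < √(N : ℝ) := Real.sqrt_pos.2 hN0'
      have h6 : √(N : ℝ) * √(N : ℝ) ≤ √(N : ℝ) * s l := by
        rw [hss]
        exact hl2.trans (mul_le_mul_of_nonneg_right h5 (Nat.cast_nonneg _))
      exact le_of_mul_le_mul_left h6 hsp
    have hs4 : (4 : ℝ) ≤ s l := by
      have h5 : L ^ 1 ≤ √(N : ℝ) := hpw 1 (le_trans (by omega) (le_max_left _ _))
      rw [pow_one] at h5
      linarith
    have hs4' : 4 ≤ s l := by exact_mod_cast hs4
    have hs0 : (0 : ℝ) < s l := by linarith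
    have hsub1 : ((s l - 1 : ℕ) : ℝ) = s l - 1 := by rw [Nat.cast_sub (by omega)]; simp
    have hla1 : L ≤ 2 * Real.log (s l) := by
      have h5 := Real.log_le_log (Real.sqrt_pos.2 hN0') hs1
      rw [Real.log_sqrt hN0'.le] at h5
      linarith
    have hla2 : Real.log (s l) ≤ 2 * L := by
      have h5 : (s l : ℝ) ≤ B * N := by exact_mod_cast hs l hl1
      have h6 : (B : ℝ) ≤ N := by
        have h7 : L ^ 1 ≤ √(N : ℝ) := hpw 1 (le_trans (by omega) (le_max_left _ _))
        have h8 : √(N : ℝ) ≤ N := by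
          rw [Real.sqrt_le_left hN0'.le]
          nlinarith
        rw [pow_one] at h7
        linarith
      have h7 : (s l : ℝ) ≤ N * N := h5.trans (mul_le_mul_of_nonneg_right h6 hN0'.le)
      have h8 := Real.log_le_log hs0 h7
      rw [Real.log_mul hN0'.ne' hN0'.ne'] at h8
      linarith
    have hla0 : 0 < Real.log (s l) := by linarith
    have hpowE : Real.log (s l) ^ E ≤ L ^ (E + 1) := by
      calc Real.log (s l) ^ E ≤ (2 * L) ^ E := pow_le_pow_left₀ hla0.le hla2 _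
        _ = 2 ^ E * L ^ E := mul_pow _ _ _
        _ ≤ L * L ^ E := by
            apply mul_le_mul_of_nonneg_right _ (by positivity)
            refine le_trans ?_ hL2
            exact pow_le_pow_right₀ (by norm_num) (by omega)
        _ = _ := by ring
    refine ⟨hl1, ?_, ?_⟩
    · rw [hsub1, pow_succ]
      have h5 : (s l : ℝ) ≤ L * ((s l : ℝ) - 1) := by nlinarith
      calc (N : ℝ) ≤ L ^ B * s l := hl2
        _ ≤ L ^ B * (L * ((s l : ℝ) - 1)) := mul_le_mul_of_nonneg_left h5 (by positivity)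
        _ = _ := by ring
    · intro hC
      apply hl3
      refine ⟨z, ?_, ?_, ?_⟩
      · refine hpowE.trans (le_trans ?_ hz1)
        exact pow_le_pow_right₀ hL1 (by omega)
      · refine hz2.trans ?_
        have h5 : L ^ BB ≤ (2 * Real.log (s l)) ^ BB := pow_le_pow_left₀ hL0.le hla1 _
        rw [mul_pow] at h5
        have h6 : (2 : ℝ) ^ (BB + 1) ≤ Real.log (s l) := by
          have h7 : (2 : ℝ) ^ (BB + 2) = 2 * 2 ^ (BB + 1) := by ring
          rw [h7] at hL2
          linarith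
        have h8 : 1 ≤ Real.log (s l) := le_trans (one_le_pow₀ (by norm_num)) h6
        calc 2 * L ^ BB ≤ 2 * (2 ^ BB * Real.log (s l) ^ BB) := mul_le_mul_of_nonneg_left h5 (by norm_num)
          _ = 2 ^ (BB + 1) * Real.log (s l) ^ BB := by ring
          _ ≤ Real.log (s l) * Real.log (s l) ^ BB := mul_le_mul_of_nonneg_right h6 (by positivity)
          _ = Real.log (s l) ^ (BB + 1) := by ring
          _ ≤ _ := pow_le_pow_right₀ h8 (by omega)
      · have h5 : ⌊Real.log (s l) ^ E⌋₊ ≤ Mx := Nat.floor_le_floor hpowE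
        apply (hC.mono h5).mono'
        exact one_div_le_one_div_of_le (by positivity) hpowE
  exact_mod_cast card_le_card hsub

end Pool.Agent.K7.H49.LT
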