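import Mathlib
import Pool.Agent.K7.H49.LT.LinFam
import Pool.Agent.K7.H49.PR.Geo

set_option autoImplicit false

/-! Good leading coefficients with composed arguments. -/

namespace Pool.Agent.K7.H49.LT
open Finset Pool.Agent.H373R2.T7

lemma Cor.comp {φ : ℕ → ℕ} {T Mx z : ℕ} {δ : ℝ} (h : Cor φ T Mx z δ) {M : ℕ} (hM : M ≤ Mx) (g : ℕ → ℕ)
    (hg : ∀ m ∈ Icc 1 M, g m ∈ Icc 1 Mx) (hinj : ∀ m ∈ Icc 1 M, ∀ m' ∈ Icc 1 M, m ≠ m' → g m ≠ g m') :
    Cor (fun m => φ (g m)) T M z δ := by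
  intro n hn n' hn' hne
  have h1 := h (g n) (hg n hn) (g n') (hg n' hn') (hinj n hn n' hn' hne)
  refine ⟨fun w hw => h1.1 w ?_, h1.2⟩
  rcases hw with h2 | h2
  · exact Or.inl (h2.trans hM)
  · exact Or.inr h2

/-- the hypotheses of the main theorems, for `φ_i(m) = a_i g_i(m)` -/
def Setup (k C n1 E E1 : ℕ) (η : ℝ) (a : Fin k → ℕ) (g : Fin k → ℕ → ℕ) (M : ℕ) (X : ℝ) (z Xs : Fin k → ℕ) : Prop :=
  1 ≤ M ∧ (∀ i, n1 ≤ a i - 1) ∧ Real.log X ^ C ≤ M ∧ (∀ i, (M : ℝ) ≤ Real.log ((a i - 1 : ℕ) : ℝ) ^ (E + 1)) ∧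
  (∀ i, M ≤ z i ∧ (z i : ℝ) ≤ Real.log ((a i - 1 : ℕ) : ℝ) ^ (E1 + 1)) ∧
  (∀ i, Cor (fun m => a i * g i m) (a i - 1) M (z i) (1 / M)) ∧
  (∀ i, ∀ n ∈ Icc 1 M, a i * g i n + (a i - 1) ≤ Xs i) ∧ (∀ i, (Xs i : ℝ) ≤ X) ∧
  (∀ i, ∀ n ∈ Icc 1 M, ∀ n' ∈ Icc 1 M, n ≠ n' → a i * g i n ≠ a i * g i n') ∧
  (∀ i, 1 < (a i : ℝ)) ∧ (∀ i, ∀ n ∈ Icc 1 M, (a i : ℝ) ≤ ((a i * g i n : ℕ) : ℝ)) ∧
  (∀ i, Real.log (Xs i) ≤ (1 + η) * Real.log (a i)) ∧
  (∀ i, (M : ℝ) ^ 2 * (4 * (√(Xs i : ℝ) * Real.log (Xs i))) ≤ ((a i - 1 : ℕ) : ℝ)) ∧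
  (∀ i, Real.log (a i) ≤ Real.log X) ∧ (∃ j, Real.log X ≤ 2 * Real.log (a j)) ∧ (∀ i, (M : ℝ) < a i) ∧ (∀ i, 400 ≤ Real.log (a i))

theorem setup (k C n1 E E1 : ℕ) (hk : 1 ≤ k) (η : ℝ) (hη : 0 < η) : ∃ N0 : ℕ, ∀ a : Fin k → ℕ,
    (∀ i, N0 ≤ a i ∧ Gd E E1 (a i)) → ∀ (g : Fin k → ℕ → ℕ) (M : ℕ), (∀ i, Real.log (a i) ^ (C + 1) ≤ M) →
    (∀ i, ∀ m ∈ Icc 1 M, 1 ≤ g i m ∧ (g i m : ℝ) ≤ Real.log (a i) ^ E) →
    (∀ i, ∀ m ∈ Icc 1 M, ∀ m' ∈ Icc 1 M, m ≠ m' → g i m ≠ g i m') →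
    ∃ (X : ℝ) (z Xs : Fin k → ℕ), Setup k C n1 E E1 η a g M X z Xs := by
  -- thresholds
  obtain ⟨n2, h2⟩ := ev_L' (max ((2 : ℝ) ^ C) (max (2 ^ (E + 1) + 2 ^ (E1 + 1)) 400))
  obtain ⟨n3, h3⟩ := ev_log' (3 * E + 2) 64
  obtain ⟨n4, h4⟩ := Pool.Agent.K7.H49.PR.ev_pow (E + 1) 1 η hη
  refine ⟨max (max (n1 + 1) n2) (max n3 (max n4 3)), fun a ha g M hM hg hinj => ?_⟩
  have i0 : Fin k := ⟨0, hk⟩
  have b1 : ∀ i, n1 + 1 ≤ a i := fun i => le_trans (le_trans (le_max_left _ _) (le_max_left _ _)) (ha i).1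
  have b2 : ∀ i, n2 ≤ a i := fun i => le_trans (le_trans (le_max_right _ _) (le_max_left _ _)) (ha i).1
  have b3 : ∀ i, n3 ≤ a i := fun i => le_trans (le_trans (le_max_left _ _) (le_max_right _ _)) (ha i).1
  have b4 : ∀ i, n4 ≤ a i := fun i => le_trans (le_trans (le_trans (le_max_left _ _) (le_max_right _ _)) (le_max_right _ _)) (ha i).1
  have b5 : ∀ i, 3 ≤ a i := fun i => le_trans (le_trans (le_trans (le_max_right _ _) (le_max_right _ _)) (le_max_right _ _)) (ha i).1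
  choose z hz1 hz2 hz3 using fun i => (ha i).2
  have hl : ∀ i, max ((2 : ℝ) ^ C) (max (2 ^ (E + 1) + 2 ^ (E1 + 1)) 400) ≤ Real.log (a i) := fun i => h2 (a i) (b2 i)
  have hlC : ∀ i, (2 : ℝ) ^ C ≤ Real.log (a i) := fun i => (le_max_left _ _).trans (hl i)
  have hlE : ∀ i, (2 : ℝ) ^ (E + 1) + 2 ^ (E1 + 1) ≤ Real.log (a i) := fun i => ((le_max_left _ _).trans (le_max_right _ _)).trans (hl i)
  have hl400 : ∀ i, 400 ≤ Real.log (a i) := fun i => ((le_max_right _ _).trans (le_max_right _ _)).trans (hl i)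
  have hl1 : ∀ i, 1 ≤ Real.log (a i) := fun i => by linarith [hl400 i]
  have hl0 : ∀ i, 0 < Real.log (a i) := fun i => by linarith [hl400 i]
  have har : ∀ i, (3 : ℝ) ≤ a i := fun i => by exact_mod_cast b5 i
  -- M
  have hM1r : (1 : ℝ) ≤ M := (one_le_pow₀ (hl1 i0)).trans (hM i0)
  have hM1 : 1 ≤ M := by exact_mod_cast hM1r
  have hM0r : (0 : ℝ) < M := by linarith
  have hone : 1 ∈ Icc 1 M := mem_Icc.2 ⟨le_rfl, hM1⟩
  -- the arguments
  set G : Fin k → ℕ := fun i => ⌊Real.log (a i) ^ E⌋₊ with hG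
  have hGr : ∀ i, (G i : ℝ) ≤ Real.log (a i) ^ E := fun i => Nat.floor_le (by have := hl0 i; positivity)
  have hgG : ∀ i, ∀ m ∈ Icc 1 M, g i m ∈ Icc 1 (G i) := fun i m hm => mem_Icc.2 ⟨(hg i m hm).1, Nat.le_floor (hg i m hm).2⟩
  have hMG : ∀ i, M ≤ G i := fun i => by
    have h5 : (Icc 1 M).card ≤ (Icc 1 (G i)).card := by
      apply card_le_card_of_injOn (g i) (fun m hm => hgG i m hm)
      intro m hm m' hm' h
      by_contra hne
      exact hinj i m hm m' hm' hne h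
    simpa using h5
  have hME : ∀ i, (M : ℝ) ≤ Real.log (a i) ^ E := fun i => le_trans (by exact_mod_cast hMG i) (hGr i)
  -- the largest coefficient
  have : Nonempty (Fin k) := ⟨i0⟩
  obtain ⟨j, hj⟩ := Finite.exists_max a
  set lam := Real.log (a j) with hlam
  have hlaj : ∀ i, Real.log (a i) ≤ lam := fun i => Real.log_le_log (by linarith [har i]) (by exact_mod_cast hj i)
  have hlam0 : 0 < lam := hl0 j
  have hlam1 : 1 ≤ lam := hl1 j
  -- T
  set T : Fin k → ℕ := fun i => a i - 1 with hT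
  have hTr : ∀ i, (T i : ℝ) = a i - 1 := fun i => by
    rw [hT]
    simp only
    rw [Nat.cast_sub (by have := b5 i; omega)]
    simp
  have hTa : ∀ i, (a i : ℝ) ≤ 2 * T i := fun i => by rw [hTr]; linarith [har i]
  have hT0 : ∀ i, (0 : ℝ) < T i := fun i => by rw [hTr]; linarith [har i]
  have hlogT : ∀ i, Real.log (a i) ≤ 2 * Real.log (T i) := fun i => by
    have h5 : (a i : ℝ) ≤ (T i : ℝ) * T i := by rw [hTr]; nlinarith [har i]
    have h6 := Real.log_le_log (by linarith [har i]) h5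
    rw [Real.log_mul (hT0 i).ne' (hT0 i).ne'] at h6
    linarith
  have hpT : ∀ (i : Fin k) (F : ℕ), (2 : ℝ) ^ (F + 1) ≤ Real.log (a i) → Real.log (a i) ^ F ≤ Real.log (T i) ^ (F + 1) := by
    intro i F hF
    have h5 : (2 : ℝ) ^ F ≤ Real.log (T i) := by
      have h6 : (2 : ℝ) ^ (F + 1) = 2 * 2 ^ F := by ring
      have := hlogT i
      rw [h6] at hF
      linarith
    have h6 : 0 < Real.log (T i) := lt_of_lt_of_le (by positivity) h5
    calc Real.log (a i) ^ F ≤ (2 * Real.log (T i)) ^ F := pow_le_pow_left₀ (hl0 i).le (hlogT i) _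
      _ = 2 ^ F * Real.log (T i) ^ F := mul_pow _ _ _
      _ ≤ Real.log (T i) * Real.log (T i) ^ F := mul_le_mul_of_nonneg_right h5 (by positivity)
      _ = _ := by ring
  have hLE1 : ∀ i, 1 ≤ Real.log (a i) ^ E := fun i => one_le_pow₀ (hl1 i)
  have hMa : ∀ i, 64 * ((Real.log (a i) ^ E) ^ 3 * Real.log (a i) ^ 2) ≤ √(a i : ℝ) := fun i => by
    refine le_trans (le_of_eq ?_) (h3 (a i) (b3 i))
    rw [← pow_mul, ← pow_add, mul_comm E 3]
  have hsqa : ∀ i, √(a i : ℝ) * √(a i : ℝ) = a i := fun i => Real.mul_self_sqrt (by linarith [har i])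
  have hsqa0 : ∀ i, 0 < √(a i : ℝ) := fun i => Real.sqrt_pos.2 (by linarith [har i])
  have hMsq : ∀ i, 64 * Real.log (a i) ^ E ≤ √(a i : ℝ) := fun i => by
    refine le_trans ?_ (hMa i)
    apply mul_le_mul_of_nonneg_left _ (by norm_num)
    have h5 : Real.log (a i) ^ E ≤ (Real.log (a i) ^ E) ^ 3 := by
      calc Real.log (a i) ^ E = (Real.log (a i) ^ E) ^ 1 := (pow_one _).symm
        _ ≤ _ := pow_le_pow_right₀ (hLE1 i) (by norm_num)
    have h6 : 1 ≤ Real.log (a i) ^ 2 := one_le_pow₀ (hl1 i)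
    have h7 : 0 ≤ Real.log (a i) ^ E := by linarith [hLE1 i]
    nlinarith
  have hGa : ∀ i, (G i : ℝ) + 1 ≤ a i := fun i => by
    have h5 := hMsq i
    have h6 := hsqa i
    have h8 := hLE1 i
    have h7 : 64 ≤ √(a i : ℝ) := by linarith
    have h9 := hGr i
    nlinarith
  -- X
  set Xs : Fin k → ℕ := fun i => a i * (G i + 1) with hXs
  have hXsr : ∀ i, (Xs i : ℝ) = a i * (G i + 1) := fun i => by rw [hXs]; push_cast; ring
  have hGmono : ∀ i, G i ≤ G j := fun i => Nat.floor_le_floor (pow_le_pow_left₀ (hl0 i).le (hlaj i) _)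
  have hXlog2 : ∀ i, Real.log (Xs i : ℝ) ≤ 2 * Real.log (a i) := fun i => by
    rw [hXsr, Real.log_mul (by linarith [har i]) (by positivity)]
    have := Real.log_le_log (by positivity) (hGa i)
    linarith
  have hXlog0 : 0 ≤ Real.log ((Xs j : ℕ) : ℝ) := Real.log_natCast_nonneg _
  refine ⟨(Xs j : ℝ), z, Xs, hM1, fun i => by have := b1 i; omega, ?_, ?_, ?_, ?_, ?_, ?_, ?_, ?_, ?_, ?_, ?_, ?_, ?_, ?_, hl400⟩
  · calc Real.log ((Xs j : ℕ) : ℝ) ^ C ≤ (2 * lam) ^ C := pow_le_pow_left₀ hXlog0 (hXlog2 j) _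
      _ = 2 ^ C * lam ^ C := mul_pow _ _ _
      _ ≤ lam * lam ^ C := mul_le_mul_of_nonneg_right (hlC j) (by positivity)
      _ = lam ^ (C + 1) := by ring
      _ ≤ M := hM j
  · exact fun i => (hME i).trans (hpT i E (by
      refine le_trans ?_ (hlE i)
      have : (0 : ℝ) ≤ 2 ^ (E1 + 1) := by positivity
      linarith))
  · exact fun i => ⟨by
      have h5 := (hME i).trans (hz1 i)
      exact_mod_cast h5, (hz2 i).trans (hpT i E1 (by
      refine le_trans ?_ (hlE i)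
      have : (0 : ℝ) ≤ 2 ^ (E + 1) := by positivity
      linarith))⟩
  · intro i
    apply ((hz3 i).comp (hMG i) (g i) (hgG i) (hinj i)).mono'
    exact one_div_le_one_div_of_le hM0r (hME i)
  · intro i n hn
    have h5 := (mem_Icc.1 (hgG i n hn)).2
    rw [hXs]
    simp only
    have h6 : a i * g i n ≤ a i * G i := Nat.mul_le_mul_left _ h5
    rw [mul_add, mul_one]
    omega
  · intro i
    rw [hXsr, hXsr]
    have h5 : (a i : ℝ) ≤ a j := by exact_mod_cast hj i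
    have h6 : (G i : ℝ) ≤ G j := by exact_mod_cast hGmono i
    exact mul_le_mul h5 (by linarith) (by positivity) (by positivity)
  · intro i n hn n' hn' hne h5
    exact hinj i n hn n' hn' hne (Nat.eq_of_mul_eq_mul_left (by have := b5 i; omega) h5)
  · exact fun i => by linarith [har i]
  · intro i n hn
    exact_mod_cast Nat.le_mul_of_pos_right _ (hg i n hn).1
  · intro i
    rw [hXsr, Real.log_mul (by linarith [har i]) (by positivity)]
    have h5 : Real.log ((G i : ℝ) + 1) ≤ η * Real.log (a i) := by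
      rw [← Real.log_rpow (by linarith [har i])]
      apply Real.log_le_log (by positivity)
      have h6 := h4 (a i) (b4 i)
      rw [one_mul] at h6
      refine le_trans ?_ h6
      have h8 : Real.log (a i) ^ (E + 1) = Real.log (a i) ^ E * Real.log (a i) := by rw [← pow_succ]
      rw [h8]
      have h9 := hGr i
      have h10 := hl400 i
      have h11 := hLE1 i
      nlinarith
    linarith
  · intro i
    have hG2 : (G i : ℝ) + 1 ≤ 2 * Real.log (a i) ^ E := by linarith [hGr i, hLE1 i]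
    have e1 : √(Xs i : ℝ) ≤ √(a i : ℝ) * (2 * Real.log (a i) ^ E) := by
      rw [hXsr, Real.sqrt_mul (by linarith [har i])]
      apply mul_le_mul_of_nonneg_left _ (hsqa0 i).le
      refine le_trans ?_ hG2
      rw [Real.sqrt_le_left (by positivity)]
      have : (0 : ℝ) ≤ G i := Nat.cast_nonneg _
      nlinarith
    have e2 := hXlog2 i
    have e3 : (0 : ℝ) ≤ Real.log (Xs i : ℝ) := Real.log_natCast_nonneg _
    have e5 : (M : ℝ) ^ 2 ≤ (Real.log (a i) ^ E) ^ 2 := pow_le_pow_left₀ hM0r.le (hME i) 2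
    have hl0i := hl0 i
    change (M : ℝ) ^ 2 * (4 * (√(Xs i : ℝ) * Real.log (Xs i))) ≤ (T i : ℝ)
    calc (M : ℝ) ^ 2 * (4 * (√(Xs i : ℝ) * Real.log (Xs i))) ≤ (Real.log (a i) ^ E) ^ 2 * (4 * ((√(a i : ℝ) * (2 * Real.log (a i) ^ E)) * (2 * Real.log (a i)))) := by
          apply mul_le_mul e5 _ (by positivity) (by positivity)
          apply mul_le_mul_of_nonneg_left _ (by norm_num)
          exact mul_le_mul e1 e2 e3 (by positivity)
      _ = (16 * ((Real.log (a i) ^ E) ^ 3 * Real.log (a i))) * √(a i : ℝ) := by ring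
      _ ≤ (√(a i : ℝ) / 2) * √(a i : ℝ) := by
          apply mul_le_mul_of_nonneg_right _ (hsqa0 i).le
          have h5 := hMa i
          have h6 : Real.log (a i) ≤ Real.log (a i) ^ 2 := by
            rw [pow_two]
            nlinarith [hl1 i]
          have h7 : (Real.log (a i) ^ E) ^ 3 * Real.log (a i) ≤ (Real.log (a i) ^ E) ^ 3 * Real.log (a i) ^ 2 :=
            mul_le_mul_of_nonneg_left h6 (by positivity)
          have h8 := hsqa0 i
          linarith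
      _ = a i / 2 := by rw [div_mul_eq_mul_div, hsqa]
      _ ≤ T i := by linarith [hTa i]
  · intro i
    apply Real.log_le_log (by linarith [har i])
    rw [hXsr]
    have h5 : (a i : ℝ) ≤ a j := by exact_mod_cast hj i
    have h6 : (0 : ℝ) ≤ G j := Nat.cast_nonneg _
    have h7 := har j
    nlinarith
  · exact ⟨j, hXlog2 j⟩
  · intro i
    have h5 : (M : ℝ) ≤ G i := by exact_mod_cast hMG i
    linarith [hGa i]

/-- extracting the root -/
lemma exists_root (Q M : ℕ) (hQ : 1 ≤ Q) : ∃ w : ℕ, w ^ Q ≤ M ∧ M < (w + 1) ^ Q := by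
  have hex : ∃ w : ℕ, M < (w + 1) ^ Q := ⟨M, lt_of_lt_of_le (Nat.lt_succ_self M) (Nat.le_self_pow (by omega) _)⟩
  refine ⟨Nat.find hex, ?_, Nat.find_spec hex⟩
  rcases Nat.eq_zero_or_pos (Nat.find hex) with h5 | h5
  · rw [h5, zero_pow (by omega)]
    exact Nat.zero_le _
  · have h6 := Nat.find_min hex (m := Nat.find hex - 1) (by omega)
    rw [not_lt, Nat.sub_add_cancel h5] at h6
    exact h6

lemma kappa_bound (Q M w : ℕ) (hM : 1 ≤ M) (hMw : M < (w + 1) ^ Q) (hQ : 1 ≤ Q) (hw : 32 ≤ w) :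
    2 / √(w : ℝ) ≤ (M : ℝ) ^ (-(1 / (4 * Q) : ℝ)) := by
  have hwr : (32 : ℝ) ≤ w := by exact_mod_cast hw
  have hM0r : (0 : ℝ) < M := by exact_mod_cast hM
  have hwr0 : (0 : ℝ) < w := by linarith
  have hQr : (1 : ℝ) ≤ Q := by exact_mod_cast hQ
  have hs0 : 0 < √(w : ℝ) := Real.sqrt_pos.2 hwr0
  have hM2w : (M : ℝ) ≤ (2 * w) ^ Q := by
    have h6 : (M : ℝ) ≤ ((w : ℝ) + 1) ^ Q := by exact_mod_cast hMw.le
    refine h6.trans (pow_le_pow_left₀ (by positivity) ?_ _)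
    linarith
  rw [Real.rpow_neg hM0r.le, ← one_div, div_le_div_iff₀ hs0 (by positivity), one_mul]
  have h5 : (M : ℝ) ^ (1 / (4 * Q) : ℝ) ≤ (2 * (w : ℝ)) ^ (1 / 4 : ℝ) := by
    have h6 : (M : ℝ) ^ (1 / (4 * Q) : ℝ) ≤ ((2 * (w : ℝ)) ^ Q) ^ (1 / (4 * Q) : ℝ) :=
      Real.rpow_le_rpow hM0r.le hM2w (by positivity)
    refine h6.trans (le_of_eq ?_)
    rw [← Real.rpow_natCast, ← Real.rpow_mul (by positivity)]
    congr 1
    field_simp
  have h6 : 2 * (2 * (w : ℝ)) ^ (1 / 4 : ℝ) ≤ √(w : ℝ) := by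
    have h7 : (2 * (w : ℝ)) ^ (1 / 4 : ℝ) ≤ ((w : ℝ) ^ 2 / 16) ^ (1 / 4 : ℝ) := by
      apply Real.rpow_le_rpow (by positivity) _ (by norm_num)
      rw [le_div_iff₀ (by norm_num)]
      nlinarith
    have h8 : ((w : ℝ) ^ 2 / 16) ^ (1 / 4 : ℝ) = √(w : ℝ) / 2 := by
      rw [Real.div_rpow (by positivity) (by norm_num), Real.sqrt_eq_rpow]
      congr 1
      · rw [← Real.rpow_natCast, ← Real.rpow_mul hwr0.le]
        norm_num
      · rw [show (16 : ℝ) = 2 ^ (4 : ℝ) by norm_num, ← Real.rpow_mul (by norm_num)]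
        norm_num
    rw [h8] at h7
    linarith
  linarith

end Pool.Agent.K7.H49.LT
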