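import Mathlib

set_option autoImplicit false

/-! The variance of the number of prime tuples: an abstract inequality. -/

namespace Pool.Agent.K7.H49.LT
open Finset

lemma prod_diff {ι : Type} [DecidableEq ι] (s : Finset ι) (x y T : ι → ℝ) (δ K : ℝ) (hK : 1 ≤ K) (hδ : 0 ≤ δ) (hT : ∀ i ∈ s, 0 ≤ T i)
    (hx : ∀ i ∈ s, |x i| ≤ K * T i) (hy : ∀ i ∈ s, |y i| ≤ K * T i) (hxy : ∀ i ∈ s, |x i - y i| ≤ δ * T i) :
    |∏ i ∈ s, x i - ∏ i ∈ s, y i| ≤ (s.card : ℝ) * δ * K ^ s.card * ∏ i ∈ s, T i := by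
  classical
  induction s using Finset.induction_on with
  | empty => simp
  | insert a s ha ih =>
    have h1 := ih (fun i hi => hT i (mem_insert_of_mem hi)) (fun i hi => hx i (mem_insert_of_mem hi))
      (fun i hi => hy i (mem_insert_of_mem hi)) (fun i hi => hxy i (mem_insert_of_mem hi))
    have hTa := hT a (mem_insert_self _ _)
    have hP : 0 ≤ ∏ i ∈ s, T i := prod_nonneg fun i hi => hT i (mem_insert_of_mem hi)
    have h2 : |∏ i ∈ s, y i| ≤ K ^ s.card * ∏ i ∈ s, T i := by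
      rw [abs_prod]
      calc ∏ i ∈ s, |y i| ≤ ∏ i ∈ s, (K * T i) := prod_le_prod (fun _ _ => abs_nonneg _) (fun i hi => hy i (mem_insert_of_mem hi))
        _ = _ := by rw [prod_mul_distrib, prod_const]
    rw [prod_insert ha, prod_insert ha, prod_insert ha, card_insert_of_notMem ha]
    have e : x a * ∏ i ∈ s, x i - y a * ∏ i ∈ s, y i = x a * (∏ i ∈ s, x i - ∏ i ∈ s, y i) + (x a - y a) * ∏ i ∈ s, y i := by ring
    rw [e]
    have h3 := abs_add_le (x a * (∏ i ∈ s, x i - ∏ i ∈ s, y i)) ((x a - y a) * ∏ i ∈ s, y i)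
    rw [abs_mul, abs_mul] at h3
    have h4 : |x a| * |∏ i ∈ s, x i - ∏ i ∈ s, y i| ≤ (K * T a) * ((s.card : ℝ) * δ * K ^ s.card * ∏ i ∈ s, T i) :=
      mul_le_mul (hx a (mem_insert_self _ _)) h1 (abs_nonneg _) (by positivity)
    have h5 : |x a - y a| * |∏ i ∈ s, y i| ≤ (δ * T a) * (K ^ s.card * ∏ i ∈ s, T i) :=
      mul_le_mul (hxy a (mem_insert_self _ _)) h2 (abs_nonneg _) (by positivity)
    have h6 : (δ * T a) * (K ^ s.card * ∏ i ∈ s, T i) ≤ (δ * T a) * (K ^ (s.card + 1) * ∏ i ∈ s, T i) := by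
      apply mul_le_mul_of_nonneg_left _ (by positivity)
      apply mul_le_mul_of_nonneg_right _ hP
      exact pow_le_pow_right₀ hK (by omega)
    calc _ ≤ _ := h3
      _ ≤ (K * T a) * ((s.card : ℝ) * δ * K ^ s.card * ∏ i ∈ s, T i) + (δ * T a) * (K ^ (s.card + 1) * ∏ i ∈ s, T i) :=
        add_le_add h4 (h5.trans h6)
      _ = _ := by push_cast; ring

theorem variance {k : ℕ} (M : ℕ) (T : Fin k → ℕ) (u v : Fin k → ℕ → ℕ → ℝ) (K δ : ℝ) (hK : 1 ≤ K) (hδ : 0 ≤ δ)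
    (hu : ∀ i, ∀ n ∈ Icc 1 M, ∀ b ∈ Icc 1 (T i), 0 ≤ u i n b ∧ u i n b ≤ K)
    (hv : ∀ i, ∀ n ∈ Icc 1 M, ∀ b ∈ Icc 1 (T i), 0 ≤ v i n b ∧ v i n b ≤ K)
    (hoff : ∀ i, ∀ n ∈ Icc 1 M, ∀ n' ∈ Icc 1 M, n ≠ n' →
      |∑ b ∈ Icc 1 (T i), u i n b * u i n' b - ∑ b ∈ Icc 1 (T i), v i n b * v i n' b| ≤ δ * T i ∧
      |∑ b ∈ Icc 1 (T i), u i n b * v i n' b - ∑ b ∈ Icc 1 (T i), v i n b * v i n' b| ≤ δ * T i) :
    ∑ b ∈ Fintype.piFinset (fun i => Icc 1 (T i)), (∑ n ∈ Icc 1 M, (∏ i, u i n (b i) - ∏ i, v i n (b i))) ^ 2 ≤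
      (∏ i, (T i : ℝ)) * (K ^ (2 * k) * (3 * k * δ * M ^ 2 + M)) := by
  classical
  set P : ℝ := ∏ i, (T i : ℝ) with hP
  have hP0 : 0 ≤ P := prod_nonneg fun _ _ => Nat.cast_nonneg _
  have hK0 : 0 ≤ K := by linarith
  -- the correlation of products
  have hS : ∀ (f g : Fin k → ℕ → ℝ), ∑ b ∈ Fintype.piFinset (fun i => Icc 1 (T i)), (∏ i, f i (b i)) * (∏ i, g i (b i)) =
      ∏ i, ∑ b ∈ Icc 1 (T i), f i b * g i b := by
    intro f g
    rw [prod_univ_sum]
    apply sum_congr rfl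
    intro b _
    rw [prod_mul_distrib]
  have hcorr : ∀ (f g : Fin k → ℕ → ℝ), (∀ i, ∀ b ∈ Icc 1 (T i), 0 ≤ f i b ∧ f i b ≤ K) → (∀ i, ∀ b ∈ Icc 1 (T i), 0 ≤ g i b ∧ g i b ≤ K) →
      ∀ i, |∑ b ∈ Icc 1 (T i), f i b * g i b| ≤ K ^ 2 * T i := by
    intro f g hf hg i
    refine (abs_sum_le_sum_abs _ _).trans ?_
    calc ∑ b ∈ Icc 1 (T i), |f i b * g i b| ≤ ∑ _b ∈ Icc 1 (T i), K ^ 2 := by
          apply sum_le_sum
          intro b hb
          rw [abs_mul, abs_of_nonneg (hf i b hb).1, abs_of_nonneg (hg i b hb).1, pow_two]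
          exact mul_le_mul (hf i b hb).2 (hg i b hb).2 (hg i b hb).1 hK0
      _ = _ := by rw [sum_const, nsmul_eq_mul, Nat.card_Icc, Nat.add_sub_cancel]; ring
  have hexp : ∑ b ∈ Fintype.piFinset (fun i => Icc 1 (T i)), (∑ n ∈ Icc 1 M, (∏ i, u i n (b i) - ∏ i, v i n (b i))) ^ 2 =
      ∑ n ∈ Icc 1 M, ∑ n' ∈ Icc 1 M, ∑ b ∈ Fintype.piFinset (fun i => Icc 1 (T i)),
        (∏ i, u i n (b i) - ∏ i, v i n (b i)) * (∏ i, u i n' (b i) - ∏ i, v i n' (b i)) := by
    calc _ = ∑ b ∈ Fintype.piFinset (fun i => Icc 1 (T i)), ∑ n ∈ Icc 1 M, ∑ n' ∈ Icc 1 M,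
          (∏ i, u i n (b i) - ∏ i, v i n (b i)) * (∏ i, u i n' (b i) - ∏ i, v i n' (b i)) := by
          apply sum_congr rfl
          intro b _
          rw [pow_two, sum_mul_sum]
      _ = _ := by
          rw [sum_comm]
          apply sum_congr rfl
          intro n _
          rw [sum_comm]
  have hdiag : ∀ n ∈ Icc 1 M, ∑ b ∈ Fintype.piFinset (fun i => Icc 1 (T i)),
        (∏ i, u i n (b i) - ∏ i, v i n (b i)) * (∏ i, u i n (b i) - ∏ i, v i n (b i)) ≤ K ^ (2 * k) * P := by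
    intro n hn
    calc _ ≤ ∑ _b ∈ Fintype.piFinset (fun i => Icc 1 (T i)), K ^ (2 * k) := by
          apply sum_le_sum
          intro b hb
          rw [Fintype.mem_piFinset] at hb
          have h1 : 0 ≤ ∏ i, u i n (b i) := prod_nonneg fun i _ => (hu i n hn (b i) (hb i)).1
          have h2 : ∏ i, u i n (b i) ≤ K ^ k := by
            calc ∏ i, u i n (b i) ≤ ∏ _i : Fin k, K := prod_le_prod (fun i _ => (hu i n hn (b i) (hb i)).1) (fun i _ => (hu i n hn (b i) (hb i)).2)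
              _ = K ^ k := by simp
          have h3 : 0 ≤ ∏ i, v i n (b i) := prod_nonneg fun i _ => (hv i n hn (b i) (hb i)).1
          have h4 : ∏ i, v i n (b i) ≤ K ^ k := by
            calc ∏ i, v i n (b i) ≤ ∏ _i : Fin k, K := prod_le_prod (fun i _ => (hv i n hn (b i) (hb i)).1) (fun i _ => (hv i n hn (b i) (hb i)).2)
              _ = K ^ k := by simp
          rw [← pow_two, two_mul, pow_add, ← pow_two]
          apply sq_le_sq'
          · linarith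
          · linarith
      _ = _ := by
          rw [sum_const, nsmul_eq_mul, Fintype.card_piFinset]
          simp only [Nat.card_Icc, Nat.add_sub_cancel]
          rw [hP]
          push_cast
          ring
  have hoffd : ∀ n ∈ Icc 1 M, ∀ n' ∈ Icc 1 M, n ≠ n' → ∑ b ∈ Fintype.piFinset (fun i => Icc 1 (T i)),
        (∏ i, u i n (b i) - ∏ i, v i n (b i)) * (∏ i, u i n' (b i) - ∏ i, v i n' (b i)) ≤ 3 * (k * δ * K ^ (2 * k) * P) := by
    intro n hn n' hn' hne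
    have e1 : ∑ b ∈ Fintype.piFinset (fun i => Icc 1 (T i)),
        (∏ i, u i n (b i) - ∏ i, v i n (b i)) * (∏ i, u i n' (b i) - ∏ i, v i n' (b i)) =
        (∏ i, ∑ b ∈ Icc 1 (T i), u i n b * u i n' b) - (∏ i, ∑ b ∈ Icc 1 (T i), u i n b * v i n' b) -
        (∏ i, ∑ b ∈ Icc 1 (T i), v i n b * u i n' b) + (∏ i, ∑ b ∈ Icc 1 (T i), v i n b * v i n' b) := by
      rw [← hS, ← hS, ← hS, ← hS, ← sum_sub_distrib, ← sum_sub_distrib, ← sum_add_distrib]
      apply sum_congr rfl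
      intro b _
      ring
    rw [e1]
    have hpd : ∀ (x y : Fin k → ℝ), (∀ i, |x i| ≤ K ^ 2 * T i) → (∀ i, |y i| ≤ K ^ 2 * T i) → (∀ i, |x i - y i| ≤ δ * T i) →
        |∏ i, x i - ∏ i, y i| ≤ k * δ * K ^ (2 * k) * P := by
      intro x y hx hy hxy
      have h1 := prod_diff univ x y (fun i => (T i : ℝ)) δ (K ^ 2) (one_le_pow₀ hK) hδ (fun _ _ => Nat.cast_nonneg _)
        (fun i _ => hx i) (fun i _ => hy i) (fun i _ => hxy i)
      rw [card_univ, Fintype.card_fin, ← pow_mul] at h1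
      exact h1
    have cu : ∀ m ∈ Icc 1 M, ∀ i, ∀ b ∈ Icc 1 (T i), 0 ≤ u i m b ∧ u i m b ≤ K := fun m hm i b hb => hu i m hm b hb
    have cv : ∀ m ∈ Icc 1 M, ∀ i, ∀ b ∈ Icc 1 (T i), 0 ≤ v i m b ∧ v i m b ≤ K := fun m hm i b hb => hv i m hm b hb
    have b1 := hcorr (fun i => u i n) (fun i => u i n') (cu n hn) (cu n' hn')
    have b2 := hcorr (fun i => u i n) (fun i => v i n') (cu n hn) (cv n' hn')
    have b3 := hcorr (fun i => v i n) (fun i => u i n') (cv n hn) (cu n' hn')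
    have b4 := hcorr (fun i => v i n) (fun i => v i n') (cv n hn) (cv n' hn')
    have d1 := hpd _ _ b1 b4 (fun i => (hoff i n hn n' hn' hne).1)
    have d2 := hpd _ _ b2 b4 (fun i => (hoff i n hn n' hn' hne).2)
    have d3 := hpd _ _ b3 b4 (fun i => by
      have h1 := (hoff i n' hn' n hn hne.symm).2
      have e2 : ∑ b ∈ Icc 1 (T i), u i n' b * v i n b = ∑ b ∈ Icc 1 (T i), v i n b * u i n' b := sum_congr rfl fun b _ => mul_comm _ _
      have e3 : ∑ b ∈ Icc 1 (T i), v i n' b * v i n b = ∑ b ∈ Icc 1 (T i), v i n b * v i n' b := sum_congr rfl fun b _ => mul_comm _ _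
      rw [e2, e3] at h1
      exact h1)
    have g1 := (abs_le.1 d1).2
    have g2 := (abs_le.1 d2).1
    have g3 := (abs_le.1 d3).1
    linarith
  rw [hexp]
  calc _ ≤ ∑ n ∈ Icc 1 M, ∑ n' ∈ Icc 1 M, ((if n = n' then K ^ (2 * k) * P else 0) + 3 * (k * δ * K ^ (2 * k) * P)) := by
        apply sum_le_sum
        intro n hn
        apply sum_le_sum
        intro n' hn'
        have hpos : 0 ≤ 3 * (k * δ * K ^ (2 * k) * P) := by positivity
        split_ifs with h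
        · rw [← h]
          have := hdiag n hn
          linarith
        · have := hoffd n hn n' hn' h
          linarith
    _ = _ := by
        simp only [sum_add_distrib, sum_const, Nat.card_Icc, nsmul_eq_mul, Nat.add_sub_cancel]
        have e : ∑ n ∈ Icc 1 M, ∑ n' ∈ Icc 1 M, (if n = n' then K ^ (2 * k) * P else 0) = M * (K ^ (2 * k) * P) := by
          calc _ = ∑ n ∈ Icc 1 M, K ^ (2 * k) * P := by
                apply sum_congr rfl
                intro n hn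
                rw [sum_ite_eq, if_pos hn]
            _ = _ := by rw [sum_const, nsmul_eq_mul, Nat.card_Icc, Nat.add_sub_cancel]
        rw [e]
        ring

end Pool.Agent.K7.H49.LT
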