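import Mathlib
import Pool.Agent.K7.H49.LT.Off
import Pool.Agent.K7.H49.LT.Var
import Pool.Agent.H373R2.T7.Fund

set_option autoImplicit false

/-! The weighted number of prime tuples for almost all constant terms: arbitrary functions. -/

namespace Pool.Agent.K7.H49.LT
open Finset Pool.Agent.H373R2.T7

set_option maxHeartbeats 1000000 in
open Classical in
theorem mainA (k A Q : ℕ) (hk : 1 ≤ k) (hQ : 1 ≤ Q) : ∃ C : ℕ, ∀ E E1 : ℕ, ∃ N0 : ℕ,
    ∀ (M w : ℕ) (X : ℝ) (T : Fin k → ℕ) (φ : Fin k → ℕ → ℕ) (z : Fin k → ℕ),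
    1 ≤ M → (∀ i, N0 ≤ T i) → w ^ Q ≤ M → M < (w + 1) ^ Q → Real.log X ^ C ≤ M → (∀ i, (M : ℝ) ≤ Real.log (T i) ^ E) →
    (∀ i, M ≤ z i ∧ (z i : ℝ) ≤ Real.log (T i) ^ E1) → (∀ i, Cor (φ i) (T i) M (z i) (1 / M)) →
    (∀ i, ∀ n ∈ Icc 1 M, (φ i n : ℝ) + T i ≤ X) →
    (∀ i, ∀ n ∈ Icc 1 M, ∀ n' ∈ Icc 1 M, n ≠ n' → φ i n ≠ φ i n') →
    (((Fintype.piFinset (fun i => Icc 1 (T i))).filter (fun b => M / (2 * Real.log X ^ A) <
      |∑ n ∈ Icc 1 M, (∏ i, lamI ((φ i n : ℤ) + b i) - ∏ i, lamzI w ((φ i n : ℤ) + b i))|)).card : ℝ) ≤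
      (∏ i, (T i : ℝ)) / √(w : ℝ) := by
  refine ⟨Q * (4 * k + 4 * A + 11), fun E E1 => ?_⟩
  obtain ⟨n1, h1⟩ := off E1 E
  obtain ⟨n2, h2⟩ := Vz_inv_small E
  obtain ⟨n3, h3⟩ := ev_L' ((73 * (k : ℝ) + 8))
  refine ⟨max n1 (max n2 (max n3 3)), fun M w X T φ z hM0 hT hwM hMw hX hME hz hC hφX hφne => ?_⟩
  have i0 : Fin k := ⟨0, hk⟩
  have hTn1 : ∀ i, n1 ≤ T i := fun i => (le_max_left _ _).trans (hT i)
  have hTn2 : ∀ i, n2 ≤ T i := fun i => ((le_max_left _ _).trans (le_max_right _ _)).trans (hT i)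
  have hTn3 : ∀ i, n3 ≤ T i := fun i => (((le_max_left _ _).trans (le_max_right _ _)).trans (le_max_right _ _)).trans (hT i)
  have hT3 : ∀ i, 3 ≤ T i := fun i => (((le_max_right _ _).trans (le_max_right _ _)).trans (le_max_right _ _)).trans (hT i)
  -- M is positive
  have hkr : (1 : ℝ) ≤ k := by exact_mod_cast hk
  have hlT : ∀ i, (73 * (k : ℝ) + 8) ≤ Real.log (T i) := fun i => h3 (T i) (hTn3 i)
  have hMr : (1 : ℝ) ≤ M := by exact_mod_cast hM0
  have hone : 1 ∈ Icc 1 M := mem_Icc.2 ⟨le_rfl, hM0⟩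
  have hTX : ∀ i, (T i : ℝ) ≤ X := fun i => by
    have := hφX i 1 hone
    have h5 : (0 : ℝ) ≤ φ i 1 := Nat.cast_nonneg _
    linarith
  have hX3 : (3 : ℝ) ≤ X := le_trans (by exact_mod_cast hT3 i0) (hTX i0)
  have hX1 : (1 : ℝ) ≤ X := by linarith
  set l := Real.log X with hl
  have hlTl : ∀ i, Real.log (T i) ≤ l := fun i => Real.log_le_log (by have := hT3 i; exact_mod_cast (by omega : 0 < T i)) (hTX i)
  have hl1 : (73 * (k : ℝ) + 8) ≤ l := (hlT i0).trans (hlTl i0)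
  have hlk : 73 * (k : ℝ) + 8 ≤ l := hl1
  have hl8 : 8 ≤ l := by linarith
  have hl1' : 1 ≤ l := by linarith
  have hl0 : 0 < l := by linarith
  -- w is large
  have hwpos : 1 ≤ w := by
    by_contra h
    have hw0 : w = 0 := by omega
    rw [hw0, zero_add, one_pow] at hMw
    omega
  have hw2 : l ^ (4 * k + 4 * A + 11) ≤ 2 * w := by
    have h5 : (l ^ (4 * k + 4 * A + 11)) ^ Q ≤ (2 * (w : ℝ)) ^ Q := by
      rw [← pow_mul, mul_comm]
      refine hX.trans ?_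
      have h6 : (M : ℝ) ≤ ((w : ℝ) + 1) ^ Q := by exact_mod_cast hMw.le
      refine h6.trans (pow_le_pow_left₀ (by positivity) ?_ _)
      have : (1 : ℝ) ≤ w := by exact_mod_cast hwpos
      linarith
    exact le_of_pow_le_pow_left₀ (by omega) (by positivity) h5
  have hw3 : l ^ (4 * k + 4 * A + 10) ≤ w := by
    have h5 : l ^ (4 * k + 4 * A + 11) = l ^ (4 * k + 4 * A + 10) * l := by rw [← pow_succ]
    have h6 : 0 ≤ l ^ (4 * k + 4 * A + 10) := by positivity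
    rw [h5] at hw2
    nlinarith
  have hwr1 : (1 : ℝ) ≤ w := by exact_mod_cast hwpos
  have hwr0 : (0 : ℝ) < w := by linarith
  have hlw : l ≤ w := le_trans (by
    calc l = l ^ 1 := (pow_one l).symm
      _ ≤ l ^ (4 * k + 4 * A + 10) := pow_le_pow_right₀ hl1' (by omega)) hw3
  have hw8 : 8 * l ≤ w := le_trans (by
    calc 8 * l ≤ l * l := mul_le_mul_of_nonneg_right hl8 hl0.le
      _ = l ^ 2 := by ring
      _ ≤ l ^ (4 * k + 4 * A + 10) := pow_le_pow_right₀ hl1' (by omega)) hw3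
  have hw6 : 6 ≤ w := by
    have : (6 : ℝ) ≤ w := by linarith
    exact_mod_cast this
  have hwleM : w ≤ M := le_trans (by
    calc w = w ^ 1 := (pow_one w).symm
      _ ≤ w ^ Q := Nat.pow_le_pow_right hwpos hQ) hwM
  have hwMr : (w : ℝ) ≤ M := by exact_mod_cast hwleM
  have hV : ∀ i, (Vz w)⁻¹ ≤ Real.log (T i) := fun i => h2 (T i) (hTn2 i) w hwpos (hwMr.trans (hME i))
  have hVl : (Vz w)⁻¹ ≤ l := (hV i0).trans (hlTl i0)
  have pw0 := Vz_pos w
  set δ : ℝ := 24 * l ^ 3 / w with hδ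
  have hδ0 : 0 ≤ δ := by positivity
  -- the variance
  have hvar := variance M T (fun i n b => lamI ((φ i n : ℤ) + b)) (fun i n b => lamzI w ((φ i n : ℤ) + b)) l δ hl1' hδ0
    (fun i n hn b hb => by
      refine ⟨lamI_nonneg _, lamI_le _ X hX1 ?_⟩
      have h5 := hφX i n hn
      have h6 : (b : ℝ) ≤ T i := by exact_mod_cast (mem_Icc.1 hb).2
      push_cast
      linarith)
    (fun i n hn b hb => ⟨lamzI_nonneg _ _, (lamzI_le w _).trans hVl⟩)
    (fun i n hn n' hn' hne => by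
      have h5 := h1 (T i) (hTn1 i) (φ i) M (z i) w (1 / M) X (hC i) (by positivity) hwleM hw6 (hwleM.trans (hz i).1)
        (hz i).2 hX1 (fun m hm => by have := hφX i m hm; have h6 : (0 : ℝ) ≤ T i := Nat.cast_nonneg _; linarith) hw8 n hn n' hn' hne
        (hφne i n hn n' hn' hne)
      have h6 : 2 * (1 / (M : ℝ)) + 2 / Real.log (T i) ^ E + (Vz w)⁻¹ ^ 2 * ((16 * l + 4) / w) ≤ δ := by
        have g1 : 2 * (1 / (M : ℝ)) ≤ 2 / w := by
          rw [mul_one_div]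
          exact div_le_div_of_nonneg_left (by norm_num) hwr0 hwMr
        have g2 : 2 / Real.log (T i) ^ E ≤ 2 / w :=
          div_le_div_of_nonneg_left (by norm_num) hwr0 (hwMr.trans (hME i))
        have g3 : (Vz w)⁻¹ ^ 2 * ((16 * l + 4) / w) ≤ l ^ 2 * ((20 * l) / w) := by
          apply mul_le_mul (pow_le_pow_left₀ (by positivity) hVl 2) _ (by positivity) (by positivity)
          apply div_le_div_of_nonneg_right _ hwr0.le
          linarith
        have g4 : 4 / (w : ℝ) ≤ 4 * l ^ 3 / w := by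
          apply div_le_div_of_nonneg_right _ hwr0.le
          have : 1 ≤ l ^ 3 := one_le_pow₀ hl1'
          linarith
        have g5 : 2 / (w : ℝ) + 2 / w = 4 / w := by ring
        have g6 : δ = 4 * l ^ 3 / w + l ^ 2 * ((20 * l) / w) := by rw [hδ]; ring
        linarith
      have h7 : (0 : ℝ) ≤ T i := Nat.cast_nonneg _
      exact ⟨h5.1.trans (mul_le_mul_of_nonneg_right h6 h7), h5.2.trans (mul_le_mul_of_nonneg_right h6 h7)⟩)
  set P : ℝ := ∏ i, (T i : ℝ) with hP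
  have hP0 : 0 ≤ P := prod_nonneg fun _ _ => Nat.cast_nonneg _
  set D : (Fin k → ℕ) → ℝ := fun b => ∑ n ∈ Icc 1 M, (∏ i, lamI ((φ i n : ℤ) + b i) - ∏ i, lamzI w ((φ i n : ℤ) + b i)) with hD
  have hvar2 : ∑ b ∈ Fintype.piFinset (fun i => Icc 1 (T i)), D b ^ 2 ≤ P * (M ^ 2 * (l ^ (2 * k + 4) / w)) := by
    refine hvar.trans ?_
    apply mul_le_mul_of_nonneg_left _ hP0
    have g1 : (M : ℝ) ≤ M ^ 2 / w := by
      rw [le_div_iff₀ hwr0, pow_two]
      exact mul_le_mul_of_nonneg_left hwMr (by positivity)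
    have g2 : 3 * k * δ * M ^ 2 + M ≤ (73 * k * l ^ 3) * (M ^ 2 / w) := by
      have g3 : 3 * k * δ * M ^ 2 = (72 * k * l ^ 3) * ((M : ℝ) ^ 2 / w) := by rw [hδ]; ring
      have g4 : 1 ≤ k * l ^ 3 := by
        have : 1 ≤ l ^ 3 := one_le_pow₀ hl1'
        nlinarith
      have g5 : (0 : ℝ) ≤ M ^ 2 / w := by positivity
      have g6 : (M : ℝ) ≤ (k * l ^ 3) * (M ^ 2 / w) := g1.trans (by nlinarith)
      rw [g3]
      linarith
    calc l ^ (2 * k) * (3 * k * δ * M ^ 2 + M) ≤ l ^ (2 * k) * ((73 * k * l ^ 3) * (M ^ 2 / w)) :=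
          mul_le_mul_of_nonneg_left g2 (by positivity)
      _ ≤ l ^ (2 * k) * ((l * l ^ 3) * (M ^ 2 / w)) := by
          apply mul_le_mul_of_nonneg_left _ (by positivity)
          apply mul_le_mul_of_nonneg_right _ (by positivity)
          apply mul_le_mul_of_nonneg_right _ (by positivity)
          linarith
      _ = _ := by rw [show 2 * k + 4 = 2 * k + 1 + 3 by ring, pow_add, pow_add]; ring
  -- the exceptional set
  set bad := (Fintype.piFinset (fun i => Icc 1 (T i))).filter (fun b => M / (2 * l ^ A) < |D b|) with hbad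
  have hbadc : (bad.card : ℝ) * (M / (2 * l ^ A)) ^ 2 ≤ P * (M ^ 2 * (l ^ (2 * k + 4) / w)) := by
    refine le_trans ?_ hvar2
    calc (bad.card : ℝ) * (M / (2 * l ^ A)) ^ 2 = ∑ _b ∈ bad, (M / (2 * l ^ A)) ^ 2 := by rw [sum_const, nsmul_eq_mul]
      _ ≤ ∑ b ∈ bad, D b ^ 2 := by
          apply sum_le_sum
          intro b hb
          rw [hbad, mem_filter] at hb
          rw [← sq_abs (D b)]
          exact pow_le_pow_left₀ (by positivity) hb.2.le 2
      _ ≤ _ := sum_le_sum_of_subset_of_nonneg (filter_subset _ _) (fun _ _ _ => sq_nonneg _)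
  have hbad2 : (bad.card : ℝ) ≤ P / √(w : ℝ) := by
    have hs0 : 0 < √(w : ℝ) := Real.sqrt_pos.2 hwr0
    have hss : √(w : ℝ) * √(w : ℝ) = w := Real.mul_self_sqrt hwr0.le
    have g1 : l ^ (2 * k + 2 * A + 5) ≤ √(w : ℝ) := by
      apply Real.le_sqrt_of_sq_le
      rw [← pow_mul, show (2 * k + 2 * A + 5) * 2 = 4 * k + 4 * A + 10 by ring]
      exact hw3
    have g2 : (M / (2 * l ^ A)) ^ 2 = (M : ℝ) ^ 2 / (4 * l ^ (2 * A)) := by
      rw [div_pow, mul_pow, ← pow_mul, mul_comm A 2]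
      norm_num
    rw [g2] at hbadc
    have g3 : (bad.card : ℝ) ≤ P * (4 * l ^ (2 * k + 2 * A + 4) / w) := by
      have hMM : (0 : ℝ) < M ^ 2 / (4 * l ^ (2 * A)) := by positivity
      apply le_of_mul_le_mul_right _ hMM
      refine hbadc.trans (le_of_eq ?_)
      rw [show 2 * k + 2 * A + 4 = (2 * k + 4) + 2 * A by ring, pow_add l (2 * k + 4) (2 * A)]
      field_simp
    refine g3.trans ?_
    rw [← mul_one_div P (√(w : ℝ))]
    apply mul_le_mul_of_nonneg_left _ hP0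
    rw [div_le_div_iff₀ hwr0 hs0, one_mul]
    calc 4 * l ^ (2 * k + 2 * A + 4) * √(w : ℝ) ≤ (l * l ^ (2 * k + 2 * A + 4)) * √(w : ℝ) := by
          apply mul_le_mul_of_nonneg_right _ hs0.le
          apply mul_le_mul_of_nonneg_right _ (by positivity)
          linarith
      _ = l ^ (2 * k + 2 * A + 5) * √(w : ℝ) := by ring
      _ ≤ √(w : ℝ) * √(w : ℝ) := mul_le_mul_of_nonneg_right g1 hs0.le
      _ = w := hss
  exact hbad2

end Pool.Agent.K7.H49.LT
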