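import Mathlib

set_option autoImplicit false

/-! Counting vectors with one constrained coordinate, and proper prime powers. -/

namespace Pool.Agent.K7.H49.LT
open Finset

/-- vectors one coordinate of which lies in a given set -/
lemma card_upd {k : ℕ} (S : Fin k → Finset ℕ) (j : Fin k) (S' : Finset ℕ) (hS : S' ⊆ S j) :
    ((Fintype.piFinset S).filter (fun b => b j ∈ S')).card * (S j).card = S'.card * ∏ i, (S i).card := by
  classical
  have e : (Fintype.piFinset S).filter (fun b => b j ∈ S') = Fintype.piFinset (Function.update S j S') := by
    ext b
    simp only [mem_filter, Fintype.mem_piFinset]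
    constructor
    · rintro ⟨h1, h2⟩ i
      by_cases h : i = j
      · subst h
        simpa using h2
      · rw [Function.update_of_ne h]
        exact h1 i
    · intro h
      have hj : b j ∈ S' := by simpa using h j
      refine ⟨fun i => ?_, hj⟩
      by_cases h' : i = j
      · subst h'
        exact hS hj
      · have := h i
        rwa [Function.update_of_ne h'] at this
  rw [e, Fintype.card_piFinset, ← mul_prod_erase univ _ (mem_univ j), ← mul_prod_erase univ (fun i => (S i).card) (mem_univ j)]
  rw [Function.update_self]
  have : ∏ i ∈ univ.erase j, (Function.update S j S' i).card = ∏ i ∈ univ.erase j, (S i).card := by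
    apply prod_congr rfl
    intro i hi
    rw [Function.update_of_ne (ne_of_mem_erase hi)]
  rw [this]
  ring

/-- vectors one coordinate of which is determined by the others -/
lemma card_det {k : ℕ} (S : Fin k → Finset ℕ) (j : Fin k) (P : (Fin k → ℕ) → Prop) [DecidablePred P]
    (h : ∀ b b' : Fin k → ℕ, P b → P b' → (∀ i, i ≠ j → b i = b' i) → b j = b' j) :
    ((Fintype.piFinset S).filter P).card * (S j).card ≤ ∏ i, (S i).card := by
  classical
  have h1 : ((Fintype.piFinset S).filter P).card ≤ (Fintype.piFinset (Function.update S j {0})).card := by
    apply card_le_card_of_injOn (fun b => Function.update b j 0)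
    · intro b hb
      rw [mem_coe, mem_filter, Fintype.mem_piFinset] at hb
      rw [mem_coe, Fintype.mem_piFinset]
      intro i
      show Function.update b j 0 i ∈ Function.update S j {0} i
      by_cases hi : i = j
      · subst hi
        simp
      · rw [Function.update_of_ne hi, Function.update_of_ne hi]
        exact hb.1 i
    · intro b hb b' hb' hbb
      rw [mem_coe, mem_filter] at hb hb'
      simp only at hbb
      have h2 : ∀ i, i ≠ j → b i = b' i := by
        intro i hi
        have := congrFun hbb i
        rwa [Function.update_of_ne hi, Function.update_of_ne hi] at this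
      funext i
      by_cases hi : i = j
      · rw [hi]
        exact h b b' hb.2 hb'.2 h2
      · exact h2 i hi
  have h2 : (Fintype.piFinset (Function.update S j {0})).card * (S j).card = ∏ i, (S i).card := by
    rw [Fintype.card_piFinset, ← mul_prod_erase univ _ (mem_univ j), ← mul_prod_erase univ (fun i => (S i).card) (mem_univ j)]
    rw [Function.update_self]
    have : ∏ i ∈ univ.erase j, (Function.update S j {0} i).card = ∏ i ∈ univ.erase j, (S i).card := by
      apply prod_congr rfl
      intro i hi
      rw [Function.update_of_ne (ne_of_mem_erase hi)]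
    rw [this, card_singleton]
    ring
  rw [← h2]
  exact Nat.mul_le_mul_right _ h1

/-- proper prime powers -/
noncomputable def PP (X : ℕ) : Finset ℕ := by
  classical exact (Icc 1 X).filter (fun m => ArithmeticFunction.vonMangoldt m ≠ 0 ∧ ¬ m.Prime)

lemma pp_card (X : ℕ) (hX : 1 ≤ X) : ((PP X).card : ℝ) ≤ 4 * (√(X : ℝ) * Real.log X) := by
  classical
  have h1 := Chebyshev.psi_sub_theta_eq_sum_not_prime (X : ℝ)
  have h2 := Chebyshev.psi_sub_theta_le (x := (X : ℝ)) (by exact_mod_cast hX)
  rw [h1, Nat.floor_natCast] at h2
  have hl2 : 1 / 2 < Real.log 2 := by have := Real.log_two_gt_d9; linarith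
  have h3 : ((PP X).card : ℝ) * (1 / 2) ≤ ∑ n ∈ (Ioc 0 X).filter (fun n => ¬ n.Prime), ArithmeticFunction.vonMangoldt n := by
    calc ((PP X).card : ℝ) * (1 / 2) = ∑ _n ∈ PP X, (1 / 2 : ℝ) := by rw [sum_const, nsmul_eq_mul]
      _ ≤ ∑ n ∈ PP X, ArithmeticFunction.vonMangoldt n := by
          apply sum_le_sum
          intro n hn
          unfold PP at hn
          rw [mem_filter] at hn
          have h4 := hn.2.1
          rw [ArithmeticFunction.vonMangoldt_apply] at h4 ⊢
          have h5 : IsPrimePow n := by
            by_contra h
            rw [if_neg h] at h4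
            exact h4 rfl
          rw [if_pos h5]
          have h6 : n ≠ 1 := h5.ne_one
          have h7 : 2 ≤ n.minFac := (Nat.minFac_prime h6).two_le
          have h8 : Real.log 2 ≤ Real.log n.minFac := Real.log_le_log (by norm_num) (by exact_mod_cast h7)
          linarith
      _ ≤ _ := by
          apply sum_le_sum_of_subset_of_nonneg
          · intro n hn
            unfold PP at hn
            rw [mem_filter, mem_Icc] at hn
            rw [mem_filter, mem_Ioc]
            exact ⟨⟨hn.1.1, hn.1.2⟩, hn.2.2⟩
          · intro n _ _
            exact ArithmeticFunction.vonMangoldt_nonneg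
  have h4 : ((PP X).card : ℝ) * (1 / 2) ≤ 2 * √(X : ℝ) * Real.log X := h3.trans h2
  linarith

end Pool.Agent.K7.H49.LT
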