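import Mathlib
import Pool.Agent.K7.H49.LT.Off
import Pool.Agent.K7.H49.LT.Var
import Pool.Agent.H373R2.T7.Fund

set_option autoImplicit false

/-! The weighted number of prime tuples for almost all constant terms. -/

namespace Pool.Agent.K7.H49.LT
open Finset Pool.Agent.H373R2.T7

/-- number of classes -/
def nu {k : ℕ} (φ : Fin k → ℕ → ℕ) (b : Fin k → ℕ) (p : ℕ) : ℕ := ((range p).filter (fun r => ∃ i, p ∣ φ i r + b i)).card

lemma nu_le' {k : ℕ} (φ : Fin k → ℕ → ℕ) (b : Fin k → ℕ) (p : ℕ) : nu φ b p ≤ p := by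
  unfold nu
  exact (card_filter_le _ _).trans (by simp)

open Classical in
theorem fundR (k d : ℕ) (hd : 1 ≤ d) (ε : ℝ) (hε : 0 < ε) : ∃ Q x0 : ℕ, 1 ≤ Q ∧ ∀ M w : ℕ, x0 ≤ w → w ^ Q ≤ M →
    ∀ (φ : Fin k → ℕ → ℕ) (b : Fin k → ℕ), (∀ (i : Fin k) (p n : ℕ), (p : ℤ) ∣ (φ i n : ℤ) - φ i (n % p)) → (∀ i, 1 ≤ b i) → (∀ p ∈ pz w, nu φ b p ≤ d) →
    |∑ n ∈ Icc 1 M, ∏ i, lamzI w ((φ i n : ℤ) + b i) - M * sg k (nu φ b) w| ≤
      ε * (M * sg k (nu φ b) w) + (Vz w)⁻¹ ^ k * √(M : ℝ) := by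
  obtain ⟨Q, x0, hQ, h0⟩ := sys_fund d hd ε hε
  refine ⟨Q, x0, hQ, fun M w hw hwM φ b hφ hb hν => ?_⟩
  set P : ℕ → ℕ → Prop := fun p n => p ≤ w ∧ ∃ i, p ∣ φ i n + b i with hP
  have hper0 : ∀ p n i, p ∣ φ i n + b i ↔ p ∣ φ i (n % p) + b i := by
    intro p n i
    have h1 : (p : ℤ) ∣ ((φ i n + b i : ℕ) : ℤ) - ((φ i (n % p) + b i : ℕ) : ℤ) := by
      have := hφ i p n
      push_cast
      have e : (φ i n : ℤ) + b i - (φ i (n % p) + b i) = (φ i n : ℤ) - φ i (n % p) := by ring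
      rw [e]
      exact this
    rw [← Int.natCast_dvd_natCast, ← Int.natCast_dvd_natCast]
    constructor
    · intro h2
      have := dvd_sub h2 h1
      rwa [sub_sub_cancel] at this
    · intro h2
      have := dvd_add h1 h2
      rwa [sub_add_cancel] at this
  have hnu : ∀ p, p ≤ w → nuB P p = nu φ b p := by
    intro p hp
    unfold nuB nu
    congr 1
    ext r
    simp only [hP, mem_filter]
    constructor
    · rintro ⟨h1, h2, h3⟩
      exact ⟨h1, h3⟩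
    · rintro ⟨h1, h3⟩
      exact ⟨h1, hp, h3⟩
  have hper : PerB P d := by
    refine ⟨fun p n => ?_, fun p hp => ?_⟩
    · rw [hP]
      simp only
      constructor
      · rintro ⟨h1, i, h2⟩
        exact ⟨h1, i, (hper0 p n i).1 h2⟩
      · rintro ⟨h1, i, h2⟩
        exact ⟨h1, i, (hper0 p n i).2 h2⟩
    · by_cases h : p ≤ w
      · rw [hnu p h]
        exact hν p (mem_pz.2 ⟨h, hp⟩)
      · have : nuB P p = 0 := by
          unfold nuB
          rw [card_eq_zero]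
          ext r
          simp only [hP, mem_filter]
          constructor
          · rintro ⟨_, h1, _⟩
            exact absurd h1 h
          · intro h1
            exact absurd h1 (notMem_empty _)
        rw [this]
        exact Nat.zero_le _
  have key := h0 M w hw hwM P hper M
  have pw0 := Vz_pos w
  have hprod : ∏ p ∈ pz w, (1 - (nuB P p : ℝ) / p) = Vz w ^ k * sg k (nu φ b) w := by
    unfold sg Vz
    rw [← prod_pow, ← prod_mul_distrib]
    apply prod_congr rfl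
    intro p hp
    rw [hnu p (mem_pz.1 hp).1]
    have hp2 : (2 : ℝ) ≤ p := by exact_mod_cast (mem_pz.1 hp).2.two_le
    have hq : (1 - 1 / (p : ℝ)) ≠ 0 := by
      have : 1 / (p : ℝ) ≤ 1 / 2 := one_div_le_one_div_of_le (by norm_num) hp2
      linarith
    unfold fac
    set t := 1 - 1 / (p : ℝ) with ht
    clear_value t
    field_simp
  have hsum : ∑ n ∈ Icc 1 M, ∏ i, lamzI w ((φ i n : ℤ) + b i) =
      (Vz w)⁻¹ ^ k * ((((Icc 1 M).filter (fun n : ℕ => ∀ p ∈ pz w, ¬ P p n)).card : ℕ) : ℝ) := by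
    rw [card_filter]
    push_cast
    rw [mul_sum]
    apply sum_congr rfl
    intro n hn
    have g1 : ∀ i, lamzI w ((φ i n : ℤ) + b i) = if ∀ p ∈ pz w, ¬ p ∣ φ i n + b i then (Vz w)⁻¹ else 0 := by
      intro i
      have hbi := hb i
      unfold lamzI lamz
      rw [if_pos (by omega)]
      have : ((φ i n : ℤ) + b i).toNat = φ i n + b i := by omega
      rw [this]
    rw [prod_congr rfl fun i _ => g1 i]
    by_cases ha : ∀ p ∈ pz w, ¬ P p n
    · rw [if_pos ha, mul_one]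
      have : ∀ i ∈ (univ : Finset (Fin k)), (if ∀ p ∈ pz w, ¬ p ∣ φ i n + b i then (Vz w)⁻¹ else 0) = (Vz w)⁻¹ := by
        intro i _
        rw [if_pos]
        intro p hp hd
        exact ha p hp ⟨(mem_pz.1 hp).1, i, hd⟩
      rw [prod_congr rfl this, prod_const, card_univ, Fintype.card_fin]
    · rw [if_neg ha, mul_zero]
      push Not at ha
      obtain ⟨p, hp, h1, i, hi⟩ := ha
      apply prod_eq_zero (mem_univ i)
      rw [if_neg]
      intro h
      exact h p hp hi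
  rw [hsum]
  rw [hprod] at key
  set cnt : ℝ := ((((Icc 1 M).filter (fun n : ℕ => ∀ p ∈ pz w, ¬ P p n)).card : ℕ) : ℝ) with hcnt
  set s := sg k (nu φ b) w with hs
  have e4 : (Vz w)⁻¹ ^ k * cnt - M * s = (Vz w)⁻¹ ^ k * (cnt - M * (Vz w ^ k * s)) := by
    rw [mul_sub]
    congr 1
    rw [inv_pow]
    field_simp
  rw [e4, abs_mul, abs_of_nonneg (by positivity)]
  have key' : |cnt - M * (Vz w ^ k * s)| ≤ ε * (M * (Vz w ^ k * s)) + √(M : ℝ) := by
    rw [hcnt]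
    convert key
  calc (Vz w)⁻¹ ^ k * |cnt - M * (Vz w ^ k * s)| ≤ (Vz w)⁻¹ ^ k * (ε * (M * (Vz w ^ k * s)) + √(M : ℝ)) :=
        mul_le_mul_of_nonneg_left key' (by positivity)
    _ = _ := by
        rw [mul_add, inv_pow]
        field_simp

set_option maxHeartbeats 1000000 in
open Classical in
theorem mainG (k d : ℕ) (hk : 1 ≤ k) (hd : 1 ≤ d) (ε : ℝ) (hε : 0 < ε) : ∃ Q C : ℕ, 1 ≤ Q ∧ ∀ E E1 : ℕ, ∃ N0 : ℕ,
    ∀ (M w : ℕ) (X : ℝ) (T : Fin k → ℕ) (φ : Fin k → ℕ → ℕ) (z : Fin k → ℕ),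
    1 ≤ M → (∀ i, N0 ≤ T i) → w ^ Q ≤ M → M < (w + 1) ^ Q → Real.log X ^ C ≤ M → (∀ i, (M : ℝ) ≤ Real.log (T i) ^ E) →
    (∀ i, M ≤ z i ∧ (z i : ℝ) ≤ Real.log (T i) ^ E1) → (∀ i, Cor (φ i) (T i) M (z i) (1 / M)) →
    (∀ i, ∀ n ∈ Icc 1 M, (φ i n : ℝ) + T i ≤ X) →
    (∀ i, ∀ n ∈ Icc 1 M, ∀ n' ∈ Icc 1 M, n ≠ n' → φ i n ≠ φ i n') →
    (∀ (i : Fin k) (p n : ℕ), (p : ℤ) ∣ (φ i n : ℤ) - φ i (n % p)) →
    (((Fintype.piFinset (fun i => Icc 1 (T i))).filter (fun b => ¬ ((∀ p ∈ pz w, nu φ b p ≤ d) →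
      |∑ n ∈ Icc 1 M, ∏ i, lamI ((φ i n : ℤ) + b i) - M * sg k (nu φ b) w| ≤
        ε * (M * sg k (nu φ b) w) + M / Real.log X ^ (d + 2)))).card : ℝ) ≤ (∏ i, (T i : ℝ)) / √(w : ℝ) := by
  obtain ⟨Q, x0, hQ, hF⟩ := fundR k d hd ε hε
  refine ⟨Q, Q * (4 * k + 4 * (d + 2) + 11), hQ, fun E E1 => ?_⟩
  obtain ⟨n1, h1⟩ := off E1 E
  obtain ⟨n2, h2⟩ := Vz_inv_small E
  obtain ⟨n3, h3⟩ := ev_L' (max (x0 : ℝ) (73 * k + 8))
  refine ⟨max n1 (max n2 (max n3 3)), fun M w X T φ z hM0 hT hwM hMw hX hME hz hC hφX hφne hφper => ?_⟩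
  have i0 : Fin k := ⟨0, hk⟩
  have hTn1 : ∀ i, n1 ≤ T i := fun i => (le_max_left _ _).trans (hT i)
  have hTn2 : ∀ i, n2 ≤ T i := fun i => ((le_max_left _ _).trans (le_max_right _ _)).trans (hT i)
  have hTn3 : ∀ i, n3 ≤ T i := fun i => (((le_max_left _ _).trans (le_max_right _ _)).trans (le_max_right _ _)).trans (hT i)
  have hT3 : ∀ i, 3 ≤ T i := fun i => (((le_max_right _ _).trans (le_max_right _ _)).trans (le_max_right _ _)).trans (hT i)
  -- M is positive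
  have hkr : (1 : ℝ) ≤ k := by exact_mod_cast hk
  have hlT : ∀ i, max (x0 : ℝ) (73 * k + 8) ≤ Real.log (T i) := fun i => h3 (T i) (hTn3 i)
  have hMr : (1 : ℝ) ≤ M := by exact_mod_cast hM0
  have hone : 1 ∈ Icc 1 M := mem_Icc.2 ⟨le_rfl, hM0⟩
  have hTX : ∀ i, (T i : ℝ) ≤ X := fun i => by
    have := hφX i 1 hone
    have h5 : (0 : ℝ) ≤ φ i 1 := Nat.cast_nonneg _
    linarith
  have hX3 : (3 : ℝ) ≤ X := le_trans (by exact_mod_cast hT3 i0) (hTX i0)
  have hX1 : (1 : ℝ) ≤ X := by linarith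
  set l := Real.log X with hl
  have hlTl : ∀ i, Real.log (T i) ≤ l := fun i => Real.log_le_log (by have := hT3 i; exact_mod_cast (by omega : 0 < T i)) (hTX i)
  have hl1 : max (x0 : ℝ) (73 * k + 8) ≤ l := (hlT i0).trans (hlTl i0)
  have hlx0 : (x0 : ℝ) ≤ l := (le_max_left _ _).trans hl1
  have hlk : 73 * (k : ℝ) + 8 ≤ l := (le_max_right _ _).trans hl1
  have hl8 : 8 ≤ l := by linarith
  have hl1' : 1 ≤ l := by linarith
  have hl0 : 0 < l := by linarith
  -- w is large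
  have hwpos : 1 ≤ w := by
    by_contra h
    have hw0 : w = 0 := by omega
    rw [hw0, zero_add, one_pow] at hMw
    omega
  have hw2 : l ^ (4 * k + 4 * (d + 2) + 11) ≤ 2 * w := by
    have h5 : (l ^ (4 * k + 4 * (d + 2) + 11)) ^ Q ≤ (2 * (w : ℝ)) ^ Q := by
      rw [← pow_mul, mul_comm]
      refine hX.trans ?_
      have h6 : (M : ℝ) ≤ ((w : ℝ) + 1) ^ Q := by exact_mod_cast hMw.le
      refine h6.trans (pow_le_pow_left₀ (by positivity) ?_ _)
      have : (1 : ℝ) ≤ w := by exact_mod_cast hwpos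
      linarith
    exact le_of_pow_le_pow_left₀ (by omega) (by positivity) h5
  have hw3 : l ^ (4 * k + 4 * (d + 2) + 10) ≤ w := by
    have h5 : l ^ (4 * k + 4 * (d + 2) + 11) = l ^ (4 * k + 4 * (d + 2) + 10) * l := by rw [← pow_succ]
    have h6 : 0 ≤ l ^ (4 * k + 4 * (d + 2) + 10) := by positivity
    rw [h5] at hw2
    nlinarith
  have hwr1 : (1 : ℝ) ≤ w := by exact_mod_cast hwpos
  have hwr0 : (0 : ℝ) < w := by linarith
  have hlw : l ≤ w := le_trans (by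
    calc l = l ^ 1 := (pow_one l).symm
      _ ≤ l ^ (4 * k + 4 * (d + 2) + 10) := pow_le_pow_right₀ hl1' (by omega)) hw3
  have hwx0 : x0 ≤ w := by exact_mod_cast hlx0.trans hlw
  have hw8 : 8 * l ≤ w := le_trans (by
    calc 8 * l ≤ l * l := mul_le_mul_of_nonneg_right hl8 hl0.le
      _ = l ^ 2 := by ring
      _ ≤ l ^ (4 * k + 4 * (d + 2) + 10) := pow_le_pow_right₀ hl1' (by omega)) hw3
  have hw6 : 6 ≤ w := by
    have : (6 : ℝ) ≤ w := by linarith
    exact_mod_cast this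
  have hwleM : w ≤ M := le_trans (by
    calc w = w ^ 1 := (pow_one w).symm
      _ ≤ w ^ Q := Nat.pow_le_pow_right hwpos hQ) hwM
  have hwMr : (w : ℝ) ≤ M := by exact_mod_cast hwleM
  have hV : ∀ i, (Vz w)⁻¹ ≤ Real.log (T i) := fun i => h2 (T i) (hTn2 i) w hwpos (hwMr.trans (hME i))
  have hVl : (Vz w)⁻¹ ≤ l := (hV i0).trans (hlTl i0)
  have pw0 := Vz_pos w
  set δ : ℝ := 24 * l ^ 3 / w with hδ
  have hδ0 : 0 ≤ δ := by positivity
  -- the variance
  have hvar := variance M T (fun i n b => lamI ((φ i n : ℤ) + b)) (fun i n b => lamzI w ((φ i n : ℤ) + b)) l δ hl1' hδ0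
    (fun i n hn b hb => by
      refine ⟨lamI_nonneg _, lamI_le _ X hX1 ?_⟩
      have h5 := hφX i n hn
      have h6 : (b : ℝ) ≤ T i := by exact_mod_cast (mem_Icc.1 hb).2
      push_cast
      linarith)
    (fun i n hn b hb => ⟨lamzI_nonneg _ _, (lamzI_le w _).trans hVl⟩)
    (fun i n hn n' hn' hne => by
      have h5 := h1 (T i) (hTn1 i) (φ i) M (z i) w (1 / M) X (hC i) (by positivity) hwleM hw6 (hwleM.trans (hz i).1)
        (hz i).2 hX1 (fun m hm => by have := hφX i m hm; have h6 : (0 : ℝ) ≤ T i := Nat.cast_nonneg _; linarith) hw8 n hn n' hn' hne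
        (hφne i n hn n' hn' hne)
      have h6 : 2 * (1 / (M : ℝ)) + 2 / Real.log (T i) ^ E + (Vz w)⁻¹ ^ 2 * ((16 * l + 4) / w) ≤ δ := by
        have g1 : 2 * (1 / (M : ℝ)) ≤ 2 / w := by
          rw [mul_one_div]
          exact div_le_div_of_nonneg_left (by norm_num) hwr0 hwMr
        have g2 : 2 / Real.log (T i) ^ E ≤ 2 / w :=
          div_le_div_of_nonneg_left (by norm_num) hwr0 (hwMr.trans (hME i))
        have g3 : (Vz w)⁻¹ ^ 2 * ((16 * l + 4) / w) ≤ l ^ 2 * ((20 * l) / w) := by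
          apply mul_le_mul (pow_le_pow_left₀ (by positivity) hVl 2) _ (by positivity) (by positivity)
          apply div_le_div_of_nonneg_right _ hwr0.le
          linarith
        have g4 : 4 / (w : ℝ) ≤ 4 * l ^ 3 / w := by
          apply div_le_div_of_nonneg_right _ hwr0.le
          have : 1 ≤ l ^ 3 := one_le_pow₀ hl1'
          linarith
        have g5 : 2 / (w : ℝ) + 2 / w = 4 / w := by ring
        have g6 : δ = 4 * l ^ 3 / w + l ^ 2 * ((20 * l) / w) := by rw [hδ]; ring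
        linarith
      have h7 : (0 : ℝ) ≤ T i := Nat.cast_nonneg _
      exact ⟨h5.1.trans (mul_le_mul_of_nonneg_right h6 h7), h5.2.trans (mul_le_mul_of_nonneg_right h6 h7)⟩)
  set P : ℝ := ∏ i, (T i : ℝ) with hP
  have hP0 : 0 ≤ P := prod_nonneg fun _ _ => Nat.cast_nonneg _
  set D : (Fin k → ℕ) → ℝ := fun b => ∑ n ∈ Icc 1 M, (∏ i, lamI ((φ i n : ℤ) + b i) - ∏ i, lamzI w ((φ i n : ℤ) + b i)) with hD
  have hvar2 : ∑ b ∈ Fintype.piFinset (fun i => Icc 1 (T i)), D b ^ 2 ≤ P * (M ^ 2 * (l ^ (2 * k + 4) / w)) := by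
    refine hvar.trans ?_
    apply mul_le_mul_of_nonneg_left _ hP0
    have g1 : (M : ℝ) ≤ M ^ 2 / w := by
      rw [le_div_iff₀ hwr0, pow_two]
      exact mul_le_mul_of_nonneg_left hwMr (by positivity)
    have g2 : 3 * k * δ * M ^ 2 + M ≤ (73 * k * l ^ 3) * (M ^ 2 / w) := by
      have g3 : 3 * k * δ * M ^ 2 = (72 * k * l ^ 3) * ((M : ℝ) ^ 2 / w) := by rw [hδ]; ring
      have g4 : 1 ≤ k * l ^ 3 := by
        have : 1 ≤ l ^ 3 := one_le_pow₀ hl1'
        nlinarith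
      have g5 : (0 : ℝ) ≤ M ^ 2 / w := by positivity
      have g6 : (M : ℝ) ≤ (k * l ^ 3) * (M ^ 2 / w) := g1.trans (by nlinarith)
      rw [g3]
      linarith
    calc l ^ (2 * k) * (3 * k * δ * M ^ 2 + M) ≤ l ^ (2 * k) * ((73 * k * l ^ 3) * (M ^ 2 / w)) :=
          mul_le_mul_of_nonneg_left g2 (by positivity)
      _ ≤ l ^ (2 * k) * ((l * l ^ 3) * (M ^ 2 / w)) := by
          apply mul_le_mul_of_nonneg_left _ (by positivity)
          apply mul_le_mul_of_nonneg_right _ (by positivity)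
          apply mul_le_mul_of_nonneg_right _ (by positivity)
          linarith
      _ = _ := by rw [show 2 * k + 4 = 2 * k + 1 + 3 by ring, pow_add, pow_add]; ring
  -- the exceptional set
  set bad := (Fintype.piFinset (fun i => Icc 1 (T i))).filter (fun b => M / (2 * l ^ (d + 2)) < |D b|) with hbad
  have hbadc : (bad.card : ℝ) * (M / (2 * l ^ (d + 2))) ^ 2 ≤ P * (M ^ 2 * (l ^ (2 * k + 4) / w)) := by
    refine le_trans ?_ hvar2
    calc (bad.card : ℝ) * (M / (2 * l ^ (d + 2))) ^ 2 = ∑ _b ∈ bad, (M / (2 * l ^ (d + 2))) ^ 2 := by rw [sum_const, nsmul_eq_mul]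
      _ ≤ ∑ b ∈ bad, D b ^ 2 := by
          apply sum_le_sum
          intro b hb
          rw [hbad, mem_filter] at hb
          rw [← sq_abs (D b)]
          exact pow_le_pow_left₀ (by positivity) hb.2.le 2
      _ ≤ _ := sum_le_sum_of_subset_of_nonneg (filter_subset _ _) (fun _ _ _ => sq_nonneg _)
  have hbad2 : (bad.card : ℝ) ≤ P / √(w : ℝ) := by
    have hs0 : 0 < √(w : ℝ) := Real.sqrt_pos.2 hwr0
    have hss : √(w : ℝ) * √(w : ℝ) = w := Real.mul_self_sqrt hwr0.le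
    have g1 : l ^ (2 * k + 2 * (d + 2) + 5) ≤ √(w : ℝ) := by
      apply Real.le_sqrt_of_sq_le
      rw [← pow_mul, show (2 * k + 2 * (d + 2) + 5) * 2 = 4 * k + 4 * (d + 2) + 10 by ring]
      exact hw3
    have g2 : (M / (2 * l ^ (d + 2))) ^ 2 = (M : ℝ) ^ 2 / (4 * l ^ (2 * (d + 2))) := by
      rw [div_pow, mul_pow, ← pow_mul, mul_comm (d + 2) 2]
      norm_num
    rw [g2] at hbadc
    have g3 : (bad.card : ℝ) ≤ P * (4 * l ^ (2 * k + 2 * (d + 2) + 4) / w) := by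
      have hMM : (0 : ℝ) < M ^ 2 / (4 * l ^ (2 * (d + 2))) := by positivity
      apply le_of_mul_le_mul_right _ hMM
      refine hbadc.trans (le_of_eq ?_)
      rw [show 2 * k + 2 * (d + 2) + 4 = (2 * k + 4) + 2 * (d + 2) by ring, pow_add l (2 * k + 4) (2 * (d + 2))]
      field_simp
    refine g3.trans ?_
    rw [← mul_one_div P (√(w : ℝ))]
    apply mul_le_mul_of_nonneg_left _ hP0
    rw [div_le_div_iff₀ hwr0 hs0, one_mul]
    calc 4 * l ^ (2 * k + 2 * (d + 2) + 4) * √(w : ℝ) ≤ (l * l ^ (2 * k + 2 * (d + 2) + 4)) * √(w : ℝ) := by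
          apply mul_le_mul_of_nonneg_right _ hs0.le
          apply mul_le_mul_of_nonneg_right _ (by positivity)
          linarith
      _ = l ^ (2 * k + 2 * (d + 2) + 5) * √(w : ℝ) := by ring
      _ ≤ √(w : ℝ) * √(w : ℝ) := mul_le_mul_of_nonneg_right g1 hs0.le
      _ = w := hss
  refine le_trans ?_ hbad2
  have hsub : (Fintype.piFinset (fun i => Icc 1 (T i))).filter (fun b => ¬ ((∀ p ∈ pz w, nu φ b p ≤ d) →
      |∑ n ∈ Icc 1 M, ∏ i, lamI ((φ i n : ℤ) + b i) - M * sg k (nu φ b) w| ≤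
        ε * (M * sg k (nu φ b) w) + M / l ^ (d + 2))) ⊆ bad := by
    intro b hb
    rw [mem_filter] at hb
    rw [hbad, mem_filter]
    refine ⟨hb.1, ?_⟩
    by_contra hcon
    rw [not_lt] at hcon
    apply hb.2
    intro hν
    have hb1 : ∀ i, 1 ≤ b i := fun i => (mem_Icc.1 (Fintype.mem_piFinset.1 hb.1 i)).1
    have g1 := hF M w hwx0 hwM φ b hφper hb1 hν
    have g2 : (Vz w)⁻¹ ^ k * √(M : ℝ) ≤ M / (2 * l ^ (d + 2)) := by
      have hsM : √(M : ℝ) * √(M : ℝ) = M := Real.mul_self_sqrt (by positivity)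
      have g3 : 2 * l ^ (d + 2) * l ^ k ≤ √(M : ℝ) := by
        apply Real.le_sqrt_of_sq_le
        refine le_trans ?_ (hw3.trans hwMr)
        calc (2 * l ^ (d + 2) * l ^ k) ^ 2 ≤ (l * l ^ (d + 2) * l ^ k) ^ 2 := by
              apply pow_le_pow_left₀ (by positivity)
              apply mul_le_mul_of_nonneg_right _ (by positivity)
              apply mul_le_mul_of_nonneg_right _ (by positivity)
              linarith
          _ = l ^ (2 * k + 2 * (d + 2) + 2) := by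
              have e : l * l ^ (d + 2) * l ^ k = l ^ (k + (d + 2) + 1) := by rw [pow_add, pow_add, pow_one]; ring
              rw [e, ← pow_mul]
              congr 1
              ring
          _ ≤ _ := pow_le_pow_right₀ hl1' (by omega)
      rw [le_div_iff₀ (by positivity)]
      calc (Vz w)⁻¹ ^ k * √(M : ℝ) * (2 * l ^ (d + 2)) ≤ l ^ k * √(M : ℝ) * (2 * l ^ (d + 2)) := by
            apply mul_le_mul_of_nonneg_right _ (by positivity)
            apply mul_le_mul_of_nonneg_right _ (Real.sqrt_nonneg _)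
            exact pow_le_pow_left₀ (by positivity) hVl k
        _ = (2 * l ^ (d + 2) * l ^ k) * √(M : ℝ) := by ring
        _ ≤ √(M : ℝ) * √(M : ℝ) := mul_le_mul_of_nonneg_right g3 (Real.sqrt_nonneg _)
        _ = M := hsM
    have e5 : D b = ∑ n ∈ Icc 1 M, ∏ i, lamI ((φ i n : ℤ) + b i) - ∑ n ∈ Icc 1 M, ∏ i, lamzI w ((φ i n : ℤ) + b i) := by
      rw [hD]
      simp only
      rw [sum_sub_distrib]
    rw [e5] at hcon
    have g4 : (M : ℝ) / l ^ (d + 2) = M / (2 * l ^ (d + 2)) + M / (2 * l ^ (d + 2)) := by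
      field_simp
      ring
    have g5 := abs_add_le (∑ n ∈ Icc 1 M, ∏ i, lamI ((φ i n : ℤ) + b i) - ∑ n ∈ Icc 1 M, ∏ i, lamzI w ((φ i n : ℤ) + b i))
      (∑ n ∈ Icc 1 M, ∏ i, lamzI w ((φ i n : ℤ) + b i) - M * sg k (nu φ b) w)
    rw [sub_add_sub_cancel] at g5
    rw [g4]
    linarith
  exact_mod_cast card_le_card hsub

end Pool.Agent.K7.H49.LT
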