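import Mathlib
import Pool.Agent.K7.H49.LT.MainA
import Pool.Agent.K7.H49.LT.Primes

set_option autoImplicit false

/-! The number of prime tuples for almost all constant terms: arbitrary functions. -/

namespace Pool.Agent.K7.H49.LT
open Finset Pool.Agent.H373R2.T7

/-- the number of the `1 ≤ n ≤ M` for which the values have no prime factor `≤ w`, times the Mertens
factor -/
noncomputable def Sf {k : ℕ} (φ : Fin k → ℕ → ℕ) (b : Fin k → ℕ) (M w : ℕ) : ℝ :=
  (Vz w)⁻¹ ^ k * ((Icc 1 M).filter (fun n => ∀ p ∈ pz w, ∀ i, ¬ p ∣ φ i n + b i)).card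

lemma Sf_eq {k : ℕ} (φ : Fin k → ℕ → ℕ) (b : Fin k → ℕ) (M w : ℕ) (hb : ∀ i, 1 ≤ b i) :
    ∑ n ∈ Icc 1 M, ∏ i, lamzI w ((φ i n : ℤ) + b i) = Sf φ b M w := by
  unfold Sf
  rw [card_filter]
  push_cast
  rw [mul_sum]
  apply sum_congr rfl
  intro n hn
  have g1 : ∀ i, lamzI w ((φ i n : ℤ) + b i) = if ∀ p ∈ pz w, ¬ p ∣ φ i n + b i then (Vz w)⁻¹ else 0 := by
    intro i
    have hbi := hb i
    unfold lamzI lamz
    rw [if_pos (by omega)]
    have : ((φ i n : ℤ) + b i).toNat = φ i n + b i := by omega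
    rw [this]
  rw [prod_congr rfl fun i _ => g1 i]
  by_cases ha : ∀ p ∈ pz w, ∀ i, ¬ p ∣ φ i n + b i
  · rw [if_pos ha, mul_one]
    have : ∀ i ∈ (univ : Finset (Fin k)), (if ∀ p ∈ pz w, ¬ p ∣ φ i n + b i then (Vz w)⁻¹ else 0) = (Vz w)⁻¹ := by
      intro i _
      rw [if_pos]
      intro p hp
      exact ha p hp i
    rw [prod_congr rfl this, prod_const, card_univ, Fintype.card_fin]
  · rw [if_neg ha, mul_zero]
    push Not at ha
    obtain ⟨p, hp, i, hi⟩ := ha
    apply prod_eq_zero (mem_univ i)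
    rw [if_neg]
    intro h
    exact h p hp hi

set_option maxHeartbeats 1000000 in
open Classical in
theorem primesA (k A Q : ℕ) (hk : 1 ≤ k) (hQ : 1 ≤ Q) (ε : ℝ) (hε : 0 < ε) : ∃ C : ℕ, ∃ η : ℝ, 0 < η ∧ ∀ E E1 : ℕ, ∃ N0 : ℕ,
    ∀ (M w : ℕ) (X : ℝ) (T : Fin k → ℕ) (φ : Fin k → ℕ → ℕ) (z : Fin k → ℕ) (Y : Fin k → ℝ) (Xs : Fin k → ℕ),
    1 ≤ M → (∀ i, N0 ≤ T i) → w ^ Q ≤ M → M < (w + 1) ^ Q → Real.log X ^ C ≤ M → (∀ i, (M : ℝ) ≤ Real.log (T i) ^ E) →
    (∀ i, M ≤ z i ∧ (z i : ℝ) ≤ Real.log (T i) ^ E1) → (∀ i, Cor (φ i) (T i) M (z i) (1 / M)) →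
    (∀ i, ∀ n ∈ Icc 1 M, φ i n + T i ≤ Xs i) → (∀ i, (Xs i : ℝ) ≤ X) →
    (∀ i, ∀ n ∈ Icc 1 M, ∀ n' ∈ Icc 1 M, n ≠ n' → φ i n ≠ φ i n') →
    (∀ i, 1 < Y i) → (∀ i, ∀ n ∈ Icc 1 M, Y i ≤ φ i n) → (∀ i, Real.log (Xs i) ≤ (1 + η) * Real.log (Y i)) →
    (∀ i, (M : ℝ) ^ 2 * (4 * (√(Xs i : ℝ) * Real.log (Xs i))) ≤ T i) →
    (((Fintype.piFinset (fun i => Icc 1 (T i))).filter (fun b => ¬
      |cnt φ b M * ∏ i, Real.log (Y i) - Sf φ b M w| ≤ ε * Sf φ b M w + M / Real.log X ^ A)).card : ℝ) ≤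
        2 * ((∏ i, (T i : ℝ)) / √(w : ℝ)) := by
  set ε' : ℝ := min ε 1 / 8 with hε'
  have hε'0 : 0 < ε' := by have := lt_min hε one_pos; positivity
  have hε'1 : ε' ≤ 1 / 8 := by rw [hε']; have := min_le_right ε 1; linarith
  have hε'2 : 8 * ε' ≤ ε := by rw [hε']; have := min_le_left ε 1; linarith
  have hkr : (1 : ℝ) ≤ k := by exact_mod_cast hk
  obtain ⟨C, hG⟩ := mainA k A Q hk hQ
  set η : ℝ := ε' / (2 * k) with hη
  have hη0 : 0 < η := by positivity
  have hηk : (1 + η) ^ k ≤ 1 + ε' := by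
    have h1 : (1 + η) ^ k ≤ Real.exp (k * η) := by
      rw [Real.exp_nat_mul]
      apply pow_le_pow_left₀ (by positivity)
      have := Real.add_one_le_exp η
      linarith
    have h2 : k * η = ε' / 2 := by rw [hη]; field_simp
    rw [h2] at h1
    have h3 := Real.abs_exp_sub_one_sub_id_le (show |ε' / 2| ≤ 1 by rw [abs_of_nonneg (by positivity)]; linarith)
    have h4 := (abs_le.1 h3).2
    nlinarith
  refine ⟨max C Q, η, hη0, fun E E1 => ?_⟩
  obtain ⟨n1, h1⟩ := hG E E1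
  obtain ⟨n2, h2⟩ := Vz_inv_small E
  obtain ⟨n3, h3⟩ := ev_L' (max (4 * (k : ℝ) ^ 2) 8)
  refine ⟨max n1 (max n2 (max n3 3)), fun M w X T φ z Y Xs hM0 hT hwM hMw hX hME hz hC hφX hXs hφne hY1 hY hYX hT2 => ?_⟩
  have i0 : Fin k := ⟨0, hk⟩
  have hTn1 : ∀ i, n1 ≤ T i := fun i => (le_max_left _ _).trans (hT i)
  have hTn2 : ∀ i, n2 ≤ T i := fun i => ((le_max_left _ _).trans (le_max_right _ _)).trans (hT i)
  have hTn3 : ∀ i, n3 ≤ T i := fun i => (((le_max_left _ _).trans (le_max_right _ _)).trans (le_max_right _ _)).trans (hT i)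
  have hT3 : ∀ i, 3 ≤ T i := fun i => (((le_max_right _ _).trans (le_max_right _ _)).trans (le_max_right _ _)).trans (hT i)
  have hone : 1 ∈ Icc 1 M := mem_Icc.2 ⟨le_rfl, hM0⟩
  have hMr : (1 : ℝ) ≤ M := by exact_mod_cast hM0
  have hTXs : ∀ i, T i ≤ Xs i := fun i => by
    have := hφX i 1 hone
    omega
  have hTX : ∀ i, (T i : ℝ) ≤ X := fun i => le_trans (by exact_mod_cast hTXs i) (hXs i)
  have hX3 : (3 : ℝ) ≤ X := le_trans (by exact_mod_cast hT3 i0) (hTX i0)
  set l := Real.log X with hl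
  have hlTl : ∀ i, Real.log (T i) ≤ l := fun i => Real.log_le_log (by have := hT3 i; exact_mod_cast (by omega : 0 < T i)) (hTX i)
  have hl1 : max (4 * (k : ℝ) ^ 2) 8 ≤ l := (h3 (T i0) (hTn3 i0)).trans (hlTl i0)
  have hlk : 4 * (k : ℝ) ^ 2 ≤ l := (le_max_left _ _).trans hl1
  have hl8 : 8 ≤ l := (le_max_right _ _).trans hl1
  have hl1' : 1 ≤ l := by linarith
  have hl0 : 0 < l := by linarith
  have hwpos : 1 ≤ w := by
    by_contra h
    have hw0 : w = 0 := by omega
    rw [hw0, zero_add, one_pow] at hMw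
    omega
  have hwr1 : (1 : ℝ) ≤ w := by exact_mod_cast hwpos
  have hwr0 : (0 : ℝ) < w := by linarith
  have hXC : l ^ C ≤ M := (pow_le_pow_right₀ hl1' (le_max_left _ _)).trans hX
  have hXQ : l ^ Q ≤ M := (pow_le_pow_right₀ hl1' (le_max_right _ _)).trans hX
  have hlw : l ≤ 2 * w := by
    have h5 : l ^ Q ≤ (2 * (w : ℝ)) ^ Q := by
      refine hXQ.trans ?_
      have h6 : (M : ℝ) ≤ ((w : ℝ) + 1) ^ Q := by exact_mod_cast hMw.le
      refine h6.trans (pow_le_pow_left₀ (by positivity) ?_ _)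
      linarith
    exact le_of_pow_le_pow_left₀ (by omega) (by positivity) h5
  have hwleM : w ≤ M := le_trans (by
    calc w = w ^ 1 := (pow_one w).symm
      _ ≤ w ^ Q := Nat.pow_le_pow_right hwpos hQ) hwM
  have hwMr : (w : ℝ) ≤ M := by exact_mod_cast hwleM
  have hV : ∀ i, (Vz w)⁻¹ ≤ Real.log (T i) := fun i => h2 (T i) (hTn2 i) w hwpos (hwMr.trans (hME i))
  have hVl : (Vz w)⁻¹ ≤ l := (hV i0).trans (hlTl i0)
  have pw0 := Vz_pos w
  have key := h1 M w X T φ z hM0 hTn1 hwM hMw hXC hME hz hC (fun i n hn => by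
    refine le_trans ?_ (hXs i)
    exact_mod_cast hφX i n hn) hφne
  set P : ℝ := ∏ i, (T i : ℝ) with hP
  have hP0 : 0 ≤ P := prod_nonneg fun _ _ => Nat.cast_nonneg _
  set B1 := (Fintype.piFinset (fun i => Icc 1 (T i))).filter (fun b => M / (2 * l ^ A) <
      |∑ n ∈ Icc 1 M, (∏ i, lamI ((φ i n : ℤ) + b i) - ∏ i, lamzI w ((φ i n : ℤ) + b i))|) with hB1
  set B2 : Fin k × ℕ → Finset (Fin k → ℕ) := fun q => (Fintype.piFinset (fun i => Icc 1 (T i))).filter
    (fun b => b q.1 ∈ (Icc 1 (T q.1)).filter (fun c => φ q.1 q.2 + c ∈ PP (Xs q.1))) with hB2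
  have hB2c : ∀ q ∈ (univ : Finset (Fin k)) ×ˢ Icc 1 M, ((B2 q).card : ℝ) ≤ P / M ^ 2 := by
    intro q hq
    rw [mem_product] at hq
    have h5 := card_upd (fun i => Icc 1 (T i)) q.1 ((Icc 1 (T q.1)).filter (fun c => φ q.1 q.2 + c ∈ PP (Xs q.1))) (filter_subset _ _)
    simp only [Nat.card_Icc, Nat.add_sub_cancel] at h5
    have h6 : ((Icc 1 (T q.1)).filter (fun c => φ q.1 q.2 + c ∈ PP (Xs q.1))).card ≤ (PP (Xs q.1)).card := by
      apply card_le_card_of_injOn (fun c => φ q.1 q.2 + c)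
      · intro c hc
        rw [mem_coe, mem_filter] at hc
        exact hc.2
      · intro c _ c' _ h7
        simpa using h7
    have h7 := pp_card (Xs q.1) (by have := hT3 q.1; have := hTXs q.1; omega)
    have h8 := hT2 q.1
    have hTq : (0 : ℝ) < T q.1 := by have := hT3 q.1; exact_mod_cast (by omega : 0 < T q.1)
    have h9 : ((B2 q).card : ℝ) * T q.1 = (((Icc 1 (T q.1)).filter (fun c => φ q.1 q.2 + c ∈ PP (Xs q.1))).card : ℝ) * P := by
      rw [hP, hB2]
      exact_mod_cast h5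
    have h10 : (((Icc 1 (T q.1)).filter (fun c => φ q.1 q.2 + c ∈ PP (Xs q.1))).card : ℝ) ≤ T q.1 / M ^ 2 := by
      rw [le_div_iff₀ (by positivity)]
      have h11 : (((Icc 1 (T q.1)).filter (fun c => φ q.1 q.2 + c ∈ PP (Xs q.1))).card : ℝ) ≤ 4 * (√(Xs q.1 : ℝ) * Real.log (Xs q.1)) :=
        le_trans (by exact_mod_cast h6) h7
      calc _ ≤ 4 * (√(Xs q.1 : ℝ) * Real.log (Xs q.1)) * (M : ℝ) ^ 2 := mul_le_mul_of_nonneg_right h11 (by positivity)
        _ = (M : ℝ) ^ 2 * (4 * (√(Xs q.1 : ℝ) * Real.log (Xs q.1))) := by ring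
        _ ≤ _ := h8
    have h12 : ((B2 q).card : ℝ) * T q.1 ≤ (T q.1 / M ^ 2) * P := by
      rw [h9]
      exact mul_le_mul_of_nonneg_right h10 hP0
    have h13 : (T q.1 / M ^ 2 : ℝ) * P = (P / M ^ 2) * T q.1 := by ring
    rw [h13] at h12
    exact le_of_mul_le_mul_right h12 hTq
  have hsub : (Fintype.piFinset (fun i => Icc 1 (T i))).filter (fun b => ¬
      |cnt φ b M * ∏ i, Real.log (Y i) - Sf φ b M w| ≤ ε * Sf φ b M w + M / l ^ A) ⊆
      B1 ∪ ((univ : Finset (Fin k)) ×ˢ Icc 1 M).biUnion B2 := by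
    intro b hb
    rw [mem_filter] at hb
    by_contra hcon
    rw [mem_union, not_or] at hcon
    obtain ⟨hc1, hc2⟩ := hcon
    apply hb.2
    have hbT := Fintype.mem_piFinset.1 hb.1
    have e1 : |∑ n ∈ Icc 1 M, ∏ i, lamI ((φ i n : ℤ) + b i) - Sf φ b M w| ≤ M / (2 * l ^ A) := by
      rw [← Sf_eq φ b M w (fun i => (mem_Icc.1 (hbT i)).1), ← sum_sub_distrib]
      by_contra h
      apply hc1
      rw [hB1, mem_filter]
      exact ⟨hb.1, not_le.1 h⟩
    have hpp : ∀ i, ∀ n ∈ Icc 1 M, ¬ φ i n + b i ∈ PP (Xs i) := by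
      intro i n hn h
      apply hc2
      rw [mem_biUnion]
      refine ⟨(i, n), mem_product.2 ⟨mem_univ _, hn⟩, ?_⟩
      rw [hB2, mem_filter]
      refine ⟨hb.1, ?_⟩
      rw [mem_filter]
      exact ⟨hbT i, h⟩
    have hval : ∀ i, ∀ n, lamI ((φ i n : ℤ) + b i) = ArithmeticFunction.vonMangoldt (φ i n + b i) := by
      intro i n
      have h5 := (mem_Icc.1 (hbT i)).1
      unfold lamI
      rw [if_pos (by omega)]
      congr 1
    set R := ∑ n ∈ Icc 1 M, ∏ i, lamI ((φ i n : ℤ) + b i) with hR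
    set LY := ∏ i, Real.log (Y i) with hLY
    have hLY0 : 0 < LY := prod_pos fun i _ => Real.log_pos (hY1 i)
    have hS0 : 0 ≤ Sf φ b M w := by
      unfold Sf
      positivity
    set S := Sf φ b M w with hS
    have hRc : R = ∑ n ∈ (Icc 1 M).filter (fun n => ∀ i, (φ i n + b i).Prime), ∏ i, Real.log ((φ i n + b i : ℕ) : ℝ) := by
      rw [hR, sum_filter]
      apply sum_congr rfl
      intro n hn
      split_ifs with h
      · apply prod_congr rfl
        intro i _
        rw [hval, ArithmeticFunction.vonMangoldt_apply_prime (h i)]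
      · push Not at h
        obtain ⟨i, hi⟩ := h
        apply prod_eq_zero (mem_univ i)
        rw [hval]
        by_contra h5
        apply hpp i n hn
        unfold PP
        rw [mem_filter, mem_Icc]
        refine ⟨⟨?_, ?_⟩, h5, hi⟩
        · have := (mem_Icc.1 (hbT i)).1
          omega
        · have := (mem_Icc.1 (hbT i)).2
          have := hφX i n hn
          omega
    have hRlow : cnt φ b M * LY ≤ R := by
      rw [hRc]
      unfold cnt
      rw [← nsmul_eq_mul, ← sum_const]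
      apply sum_le_sum
      intro n hn
      rw [mem_filter] at hn
      rw [hLY]
      apply prod_le_prod
      · intro i _
        exact (Real.log_pos (hY1 i)).le
      · intro i _
        apply Real.log_le_log (by have := hY1 i; linarith)
        have h5 := hY i n hn.1
        push_cast
        have h6 : (0 : ℝ) ≤ b i := Nat.cast_nonneg _
        linarith
    have hRup : R ≤ cnt φ b M * LY * (1 + ε') := by
      rw [hRc]
      unfold cnt
      rw [mul_assoc, ← nsmul_eq_mul, ← sum_const]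
      apply sum_le_sum
      intro n hn
      rw [mem_filter] at hn
      calc ∏ i, Real.log ((φ i n + b i : ℕ) : ℝ) ≤ ∏ i, ((1 + η) * Real.log (Y i)) := by
            apply prod_le_prod
            · intro i _
              exact Real.log_natCast_nonneg _
            · intro i _
              refine le_trans ?_ (hYX i)
              apply Real.log_le_log
              · exact_mod_cast (hn.2 i).pos
              · have h5 := hφX i n hn.1
                have h6 := (mem_Icc.1 (hbT i)).2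
                exact_mod_cast (by omega : φ i n + b i ≤ Xs i)
        _ = (1 + η) ^ k * LY := by rw [prod_mul_distrib, prod_const, card_univ, Fintype.card_fin]
        _ ≤ (1 + ε') * LY := mul_le_mul_of_nonneg_right hηk hLY0.le
        _ = _ := by ring
    rw [abs_le] at e1 ⊢
    have hcL : (0 : ℝ) ≤ cnt φ b M * LY := by positivity
    set e : ℝ := M / (2 * l ^ A) with he
    have he0 : 0 ≤ e := by positivity
    have he2 : (M : ℝ) / l ^ A = 2 * e := by
      rw [he]
      field_simp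
    rw [he2]
    have q1 : cnt φ b M * LY ≤ S + e := hRlow.trans (by linarith [e1.2])
    have q2 : ε' * (cnt φ b M * LY) ≤ ε' * (S + e) := mul_le_mul_of_nonneg_left q1 hε'0.le
    have q3 : ε' * e ≤ 1 / 8 * e := mul_le_mul_of_nonneg_right hε'1 he0
    have q4 : ε' * S ≤ ε * S := mul_le_mul_of_nonneg_right (by linarith) hS0
    have q5 : 0 ≤ ε * S := mul_nonneg hε.le hS0
    constructor
    · nlinarith [e1.1]
    · linarith
  have hsq : √(w : ℝ) ≤ w := by
    rw [Real.sqrt_le_left (by linarith)]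
    nlinarith
  have hs0 : 0 < √(w : ℝ) := Real.sqrt_pos.2 hwr0
  have hun : ((((univ : Finset (Fin k)) ×ˢ Icc 1 M).biUnion B2).card : ℝ) ≤ P / √(w : ℝ) := by
    calc ((((univ : Finset (Fin k)) ×ˢ Icc 1 M).biUnion B2).card : ℝ) ≤ ∑ q ∈ (univ : Finset (Fin k)) ×ˢ Icc 1 M, ((B2 q).card : ℝ) := by
          exact_mod_cast card_biUnion_le
      _ ≤ ∑ _q ∈ (univ : Finset (Fin k)) ×ˢ Icc 1 M, P / M ^ 2 := sum_le_sum hB2c
      _ = k * P / M := by
          rw [sum_const, card_product, card_univ, Fintype.card_fin, Nat.card_Icc, Nat.add_sub_cancel, nsmul_eq_mul]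
          push_cast
          field_simp
      _ ≤ P / √(w : ℝ) := by
          rw [div_le_div_iff₀ (by positivity) hs0]
          have g1 : k * √(w : ℝ) ≤ M := by
            have g2 : (k : ℝ) ≤ √(w : ℝ) := by
              apply Real.le_sqrt_of_sq_le
              linarith
            calc k * √(w : ℝ) ≤ √(w : ℝ) * √(w : ℝ) := mul_le_mul_of_nonneg_right g2 hs0.le
              _ = w := Real.mul_self_sqrt hwr0.le
              _ ≤ M := hwMr
          calc k * P * √(w : ℝ) = P * (k * √(w : ℝ)) := by ring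
            _ ≤ P * M := mul_le_mul_of_nonneg_left g1 hP0
  calc _ ≤ ((B1 ∪ ((univ : Finset (Fin k)) ×ˢ Icc 1 M).biUnion B2).card : ℝ) := by exact_mod_cast card_le_card hsub
    _ ≤ (B1.card : ℝ) + ((((univ : Finset (Fin k)) ×ˢ Icc 1 M).biUnion B2).card : ℝ) := by exact_mod_cast card_union_le _ _
    _ ≤ P / √(w : ℝ) + P / √(w : ℝ) := add_le_add (by convert key) hun
    _ = _ := by ring

end Pool.Agent.K7.H49.LT
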