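import Mathlib
import Pool.Agent.K7.H49.LT.Comp
import Pool.Agent.K7.H49.LT.PrimesA

set_option autoImplicit false

/-! Prime values of linear forms at arbitrary sets of arguments. -/

namespace Pool.Agent.K7.H49.LT
open Finset Pool.Agent.H373R2.T7

open Classical in
lemma enum (𝒩 : Finset ℕ) : ∃ g : ℕ → ℕ, (∀ m ∈ Icc 1 𝒩.card, g m ∈ 𝒩) ∧
    (∀ m ∈ Icc 1 𝒩.card, ∀ m' ∈ Icc 1 𝒩.card, m ≠ m' → g m ≠ g m') ∧
    (∀ P : ℕ → Prop, ((Icc 1 𝒩.card).filter (fun m => P (g m))).card = (𝒩.filter P).card) := by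
  set e := 𝒩.orderEmbOfFin rfl with he
  set g : ℕ → ℕ := fun m => if h : m - 1 < 𝒩.card then e ⟨m - 1, h⟩ else 0 with hg
  have hgm : ∀ m (hm : m ∈ Icc 1 𝒩.card), g m = e ⟨m - 1, by have := mem_Icc.1 hm; omega⟩ := by
    intro m hm
    rw [hg]
    simp only
    rw [dif_pos (by have := mem_Icc.1 hm; omega)]
  have h1 : ∀ m ∈ Icc 1 𝒩.card, g m ∈ 𝒩 := by
    intro m hm
    rw [hgm m hm]
    exact 𝒩.orderEmbOfFin_mem rfl _
  have h2 : ∀ m ∈ Icc 1 𝒩.card, ∀ m' ∈ Icc 1 𝒩.card, m ≠ m' → g m ≠ g m' := by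
    intro m hm m' hm' hne h
    rw [hgm m hm, hgm m' hm'] at h
    have h3 := e.injective h
    rw [Fin.mk.injEq] at h3
    have := mem_Icc.1 hm
    have := mem_Icc.1 hm'
    omega
  refine ⟨g, h1, h2, fun P => ?_⟩
  have hinj : Set.InjOn g (Icc 1 𝒩.card : Finset ℕ) := by
    intro m hm m' hm' h
    by_contra hne
    exact h2 m hm m' hm' hne h
  have him : (Icc 1 𝒩.card).image g = 𝒩 := by
    apply eq_of_subset_of_card_le
    · intro n hn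
      rw [mem_image] at hn
      obtain ⟨m, hm, rfl⟩ := hn
      exact h1 m hm
    · rw [card_image_of_injOn hinj, Nat.card_Icc, Nat.add_sub_cancel]
  conv_rhs => rw [← him]
  rw [filter_image, card_image_of_injOn]
  intro m hm m' hm' h
  exact hinj (mem_coe.2 (mem_filter.1 hm).1) (mem_coe.2 (mem_filter.1 hm').1) h

/-- the number of the `n ∈ 𝒩` for which all `a_i n + b_i` are prime -/
def cN {k : ℕ} (a b : Fin k → ℕ) (𝒩 : Finset ℕ) : ℕ := (𝒩.filter (fun n => ∀ i, (a i * n + b i).Prime)).card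

/-- the number of the `n ∈ 𝒩` for which no `a_i n + b_i` has a prime factor `≤ w` -/
def rN {k : ℕ} (a b : Fin k → ℕ) (𝒩 : Finset ℕ) (w : ℕ) : ℕ :=
  (𝒩.filter (fun n => ∀ p ∈ (Icc 1 w).filter Nat.Prime, ∀ i, ¬ p ∣ a i * n + b i)).card

set_option maxHeartbeats 1000000 in
open Classical in
theorem arb_main (k A Q : ℕ) (hk : 1 ≤ k) (hQ : 1 ≤ Q) (ε : ℝ) (hε : 0 < ε) : ∃ C : ℕ, ∀ E E1 : ℕ, ∃ N0 : ℕ,
    ∀ a : Fin k → ℕ, (∀ i, N0 ≤ a i ∧ Gd E E1 (a i)) → ∀ 𝒩 : Finset ℕ,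
    (∀ i, Real.log (a i) ^ C ≤ 𝒩.card ∧ ∀ n ∈ 𝒩, 1 ≤ n ∧ (n : ℝ) ≤ Real.log (a i) ^ E) →
    ∀ w : ℕ, w ^ Q ≤ 𝒩.card → 𝒩.card < (w + 1) ^ Q →
    (((Fintype.piFinset (fun i => Icc 1 (a i - 1))).filter (fun b => ¬ ∀ j,
      |cN a b 𝒩 * ∏ i, Real.log (a i) - (Vz w)⁻¹ ^ k * rN a b 𝒩 w| ≤
        ε * ((Vz w)⁻¹ ^ k * rN a b 𝒩 w) + 𝒩.card / Real.log (a j) ^ A)).card : ℝ) ≤
      (𝒩.card : ℝ) ^ (-(1 / (4 * Q) : ℝ)) * ∏ i, (a i : ℝ) := by
  obtain ⟨C, η, hη, hG⟩ := primesA k A Q hk hQ ε hε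
  have hQr : (1 : ℝ) ≤ Q := by exact_mod_cast hQ
  refine ⟨max C Q + 1, fun E E1 => ?_⟩
  obtain ⟨n1, h1⟩ := hG (E + 1) (E1 + 1)
  obtain ⟨n2, h2⟩ := setup k (max C Q) n1 E E1 hk η hη
  refine ⟨n2, fun a ha 𝒩 hM w hw1 hw2 => ?_⟩
  have i0 : Fin k := ⟨0, hk⟩
  obtain ⟨g, g1, g2, g3⟩ := enum 𝒩
  set M := 𝒩.card with hMd
  obtain ⟨X, z, Xs, s1, s2, s3, s4, s5, s6, s7, s8, s9, s10, s11, s12, s13, s14, s15, s16, s17⟩ :=
    h2 a ha (fun _ n => g n) M (fun i => (hM i).1)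
      (fun i m hm => ⟨((hM i).2 (g m) (g1 m hm)).1, ((hM i).2 (g m) (g1 m hm)).2⟩) (fun _ m hm m' hm' hne => g2 m hm m' hm' hne)
  have hXl1 : 1 ≤ Real.log X := by linarith [s14 i0, s17 i0]
  have key := h1 M w X (fun i => a i - 1) (fun i n => a i * g n) z (fun i => (a i : ℝ)) Xs s1 s2 hw1 hw2
    ((pow_le_pow_right₀ hXl1 (le_max_left _ _)).trans s3) s4 s5 s6 s7 s8 s9 s10 s11 s12 s13
  -- w is large
  have hM1 := s1
  have hwpos : 1 ≤ w := by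
    by_contra h
    have hw0 : w = 0 := by omega
    rw [hw0, zero_add, one_pow] at hw2
    omega
  have hlQ : Real.log (a i0) ≤ w + 1 := by
    have h5 : Real.log (a i0) ^ Q ≤ ((w : ℝ) + 1) ^ Q := by
      calc Real.log (a i0) ^ Q ≤ Real.log (a i0) ^ (max C Q + 1) := by
            apply pow_le_pow_right₀ (by linarith [s17 i0])
            have := le_max_right C Q
            omega
        _ ≤ M := (hM i0).1
        _ ≤ ((w : ℝ) + 1) ^ Q := by exact_mod_cast hw2.le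
    exact le_of_pow_le_pow_left₀ (by omega) (by positivity) h5
  have hw32 : 32 ≤ w := by
    have h5 := s17 i0
    have h6 : (32 : ℝ) ≤ w := by linarith
    exact_mod_cast h6
  have hsub : (Fintype.piFinset (fun i => Icc 1 (a i - 1))).filter (fun b => ¬ ∀ j,
      |cN a b 𝒩 * ∏ i, Real.log (a i) - (Vz w)⁻¹ ^ k * rN a b 𝒩 w| ≤
        ε * ((Vz w)⁻¹ ^ k * rN a b 𝒩 w) + M / Real.log (a j) ^ A) ⊆
      (Fintype.piFinset (fun i => Icc 1 (a i - 1))).filter (fun b => ¬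
        |cnt (fun i n => a i * g n) b M * ∏ i, Real.log (a i) - Sf (fun i n => a i * g n) b M w| ≤
          ε * Sf (fun i n => a i * g n) b M w + M / Real.log X ^ A) := by
    intro b hb
    rw [mem_filter] at hb ⊢
    refine ⟨hb.1, fun h => hb.2 fun j => ?_⟩
    have e1 : cnt (fun i n => a i * g n) b M = cN a b 𝒩 := by
      unfold cnt cN
      have := g3 (fun n => ∀ i, (a i * n + b i).Prime)
      convert this
    have e2 : Sf (fun i n => a i * g n) b M w = (Vz w)⁻¹ ^ k * rN a b 𝒩 w := by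
      unfold Sf rN
      have := g3 (fun n => ∀ p ∈ (Icc 1 w).filter Nat.Prime, ∀ i, ¬ p ∣ a i * n + b i)
      have hpz : pz w = (Icc 1 w).filter Nat.Prime := by
        ext q
        rw [mem_pz, mem_filter, mem_Icc]
        exact ⟨fun h => ⟨⟨h.2.one_le, h.1⟩, h.2⟩, fun h => ⟨h.1.2, h.2⟩⟩
      have e3 : ((Icc 1 M).filter (fun n => ∀ p ∈ pz w, ∀ i, ¬ p ∣ (fun i n => a i * g n) i n + b i)).card =
          (𝒩.filter (fun n => ∀ p ∈ (Icc 1 w).filter Nat.Prime, ∀ i, ¬ p ∣ a i * n + b i)).card := by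
        convert this
      rw [e3]
    rw [e1, e2] at h
    refine h.trans ?_
    apply add_le_add le_rfl
    apply div_le_div_of_nonneg_left (Nat.cast_nonneg _) (by have := s17 j; positivity)
    exact pow_le_pow_left₀ (by linarith [s17 j]) (s14 j) _
  have hPT : (∏ i, ((a i - 1 : ℕ) : ℝ)) ≤ ∏ i, (a i : ℝ) := by
    apply prod_le_prod (fun _ _ => Nat.cast_nonneg _)
    intro i _
    exact_mod_cast Nat.sub_le _ _
  have hP0 : 0 ≤ ∏ i, ((a i - 1 : ℕ) : ℝ) := prod_nonneg fun _ _ => Nat.cast_nonneg _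
  refine le_trans (b := 2 * ((∏ i, ((a i - 1 : ℕ) : ℝ)) / √(w : ℝ))) ?_ ?_
  · refine le_trans ?_ key
    exact_mod_cast card_le_card hsub
  · calc 2 * ((∏ i, ((a i - 1 : ℕ) : ℝ)) / √(w : ℝ)) = (2 / √(w : ℝ)) * ∏ i, ((a i - 1 : ℕ) : ℝ) := by ring
      _ ≤ (M : ℝ) ^ (-(1 / (4 * Q) : ℝ)) * ∏ i, (a i : ℝ) := by
          apply mul_le_mul (kappa_bound Q M w hM1 hw2 hQ hw32) hPT hP0
          positivity

end Pool.Agent.K7.H49.LT
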