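import Mathlib
import Pool.Agent.K7.H49.LT.Fam

set_option autoImplicit false

/-! Coincidences of values are rare in families of nearly minimal energy. -/

namespace Pool.Agent.K7.H49.LT
open Finset Pool.Agent.H373R2.T7

open Classical in
lemma energy_mult (r x : ℕ) (s : ℕ → ℤ) (v : ℤ) :
    ((Icc 1 x).filter (fun l => s l = v)).card ^ (2 * r) ≤ Pool.Agent.H373R2.T7.energy r x s := by
  unfold Pool.Agent.H373R2.T7.energy
  set S := (Icc 1 x).filter (fun l => s l = v) with hS
  have h1 : S.card ^ (2 * r) = ((Fintype.piFinset fun _ : Fin r => S) ×ˢ (Fintype.piFinset fun _ : Fin r => S)).card := by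
    rw [card_product, Fintype.card_piFinset, prod_const, card_univ, Fintype.card_fin, ← pow_add]
    congr 1
    omega
  rw [h1]
  apply card_le_card
  intro q hq
  rw [mem_product, Fintype.mem_piFinset, Fintype.mem_piFinset] at hq
  rw [mem_filter, mem_product, Fintype.mem_piFinset, Fintype.mem_piFinset]
  refine ⟨⟨fun i => (mem_filter.1 (hq.1 i)).1, fun i => (mem_filter.1 (hq.2 i)).1⟩, ?_⟩
  apply sum_congr rfl
  intro i _
  rw [(mem_filter.1 (hq.1 i)).2, (mem_filter.1 (hq.2 i)).2]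

open Classical in
theorem coll (H B E A : ℕ) : ∃ N0 : ℕ, ∀ N : ℕ, N0 ≤ N → ∀ r : ℕ, r ≤ H → ∀ (x : ℕ) (s : ℕ → ℤ) (I : Finset ℕ) (u v : ℕ → ℤ),
    (I.card : ℝ) ≤ Real.log N ^ E → (Pool.Agent.H373R2.T7.energy r x s : ℝ) * N ≤ Real.log N ^ B * (x : ℝ) ^ (2 * r) →
    (∀ n ∈ I, ∀ n' ∈ I, n ≠ n' → u n ≠ u n') →
    (((Icc 1 x).filter (fun l => ∃ n ∈ I, ∃ n' ∈ I, n ≠ n' ∧ s l * u n + v n = s l * u n' + v n')).card : ℝ) ≤
      x / Real.log N ^ A := by
  obtain ⟨n1, h1⟩ := ev_log' (B + 2 * H * (2 * E + A)) 1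
  obtain ⟨n2, h2⟩ := ev_L' 2
  refine ⟨max n1 (max n2 3), fun N hN r hr x s I u v hI hE hu => ?_⟩
  have b1 : n1 ≤ N := (le_max_left _ _).trans hN
  have b2 : n2 ≤ N := ((le_max_left _ _).trans (le_max_right _ _)).trans hN
  have b3 : 3 ≤ N := ((le_max_right _ _).trans (le_max_right _ _)).trans hN
  have a1 := h1 N b1
  have hL2 := h2 N b2
  rw [one_mul] at a1
  set L := Real.log N with hLd
  have hL1 : 1 ≤ L := by linarith
  have hL0 : 0 < L := by linarith
  have hNr : (3 : ℝ) ≤ N := by exact_mod_cast b3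
  have hN0 : (0 : ℝ) < N := by linarith
  have hx0 : (0 : ℝ) ≤ x := Nat.cast_nonneg _
  set D := 2 * E + A with hD
  have hsqN : √(N : ℝ) ≤ N := by
    rw [Real.sqrt_le_left hN0.le]
    nlinarith
  have hr1 : 1 ≤ r := by
    by_contra h
    have h0 : r = 0 := by omega
    subst h0
    have h5 : Pool.Agent.H373R2.T7.energy 0 x s = 1 := by
      unfold Pool.Agent.H373R2.T7.energy
      simp
    rw [h5] at hE
    simp only [mul_zero, pow_zero, mul_one, Nat.cast_one, one_mul] at hE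
    have h6 : L ^ B ≤ L ^ (B + 2 * H * D) := pow_le_pow_right₀ hL1 (by omega)
    have h7 : L ^ B ≤ √(N : ℝ) := h6.trans a1
    have h8 : √(N : ℝ) * √(N : ℝ) = N := Real.mul_self_sqrt hN0.le
    have h9 : 1 < √(N : ℝ) := by
      rw [Real.lt_sqrt (by norm_num)]
      linarith
    nlinarith
  have hone : ∀ t : ℤ, (((Icc 1 x).filter (fun l => s l = t)).card : ℝ) ≤ x / L ^ D := by
    intro t
    set c := ((Icc 1 x).filter (fun l => s l = t)).card with hc
    have h5 : ((c ^ (2 * r) : ℕ) : ℝ) ≤ (Pool.Agent.H373R2.T7.energy r x s : ℝ) := by exact_mod_cast energy_mult r x s t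
    rw [le_div_iff₀ (by positivity)]
    have h6 : ((c : ℝ) * L ^ D) ^ (2 * r) ≤ (x : ℝ) ^ (2 * r) := by
      have h7 : ((c : ℝ) * L ^ D) ^ (2 * r) * N ≤ (x : ℝ) ^ (2 * r) * N := by
        calc ((c : ℝ) * L ^ D) ^ (2 * r) * N = (((c ^ (2 * r) : ℕ) : ℝ) * N) * (L ^ D) ^ (2 * r) := by
              rw [mul_pow]
              push_cast
              ring
          _ ≤ ((Pool.Agent.H373R2.T7.energy r x s : ℝ) * N) * (L ^ D) ^ (2 * r) := by
              apply mul_le_mul_of_nonneg_right _ (by positivity)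
              exact mul_le_mul_of_nonneg_right h5 hN0.le
          _ ≤ (L ^ B * (x : ℝ) ^ (2 * r)) * (L ^ D) ^ (2 * r) := mul_le_mul_of_nonneg_right hE (by positivity)
          _ = (x : ℝ) ^ (2 * r) * L ^ (B + 2 * r * D) := by
              rw [← pow_mul, pow_add, mul_comm D (2 * r)]
              ring
          _ ≤ (x : ℝ) ^ (2 * r) * N := by
              apply mul_le_mul_of_nonneg_left _ (by positivity)
              refine le_trans ?_ (a1.trans hsqN)
              apply pow_le_pow_right₀ hL1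
              have : 2 * r * D ≤ 2 * H * D := Nat.mul_le_mul_right _ (by omega)
              omega
      exact le_of_mul_le_mul_right h7 hN0
    exact le_of_pow_le_pow_left₀ (by omega) hx0 h6
  have hsub : (Icc 1 x).filter (fun l => ∃ n ∈ I, ∃ n' ∈ I, n ≠ n' ∧ s l * u n + v n = s l * u n' + v n') ⊆
      (I ×ˢ I).biUnion (fun q => (Icc 1 x).filter (fun l => s l = (v q.2 - v q.1) / (u q.1 - u q.2))) := by
    intro l hl
    rw [mem_filter] at hl
    obtain ⟨hl1, n, hn, n', hn', hne, heq⟩ := hl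
    rw [mem_biUnion]
    refine ⟨(n, n'), mem_product.2 ⟨hn, hn'⟩, ?_⟩
    rw [mem_filter]
    refine ⟨hl1, ?_⟩
    simp only
    have h5 : u n - u n' ≠ 0 := sub_ne_zero.2 (hu n hn n' hn' hne)
    have h6 : v n' - v n = s l * (u n - u n') := by linarith
    rw [h6, Int.mul_ediv_cancel _ h5]
  calc (((Icc 1 x).filter (fun l => ∃ n ∈ I, ∃ n' ∈ I, n ≠ n' ∧ s l * u n + v n = s l * u n' + v n')).card : ℝ)
      ≤ (((I ×ˢ I).biUnion (fun q => (Icc 1 x).filter (fun l => s l = (v q.2 - v q.1) / (u q.1 - u q.2)))).card : ℝ) := by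
        exact_mod_cast card_le_card hsub
    _ ≤ ∑ q ∈ I ×ˢ I, (((Icc 1 x).filter (fun l => s l = (v q.2 - v q.1) / (u q.1 - u q.2))).card : ℝ) := by
        exact_mod_cast card_biUnion_le
    _ ≤ ∑ _q ∈ I ×ˢ I, (x : ℝ) / L ^ D := sum_le_sum fun q _ => hone _
    _ = ((I.card : ℝ) * I.card) * (x / L ^ D) := by rw [sum_const, card_product, nsmul_eq_mul]; push_cast; ring
    _ ≤ (L ^ E * L ^ E) * (x / L ^ D) := by
        apply mul_le_mul_of_nonneg_right _ (by positivity)
        exact mul_le_mul hI hI (Nat.cast_nonneg _) (by positivity)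
    _ = x / L ^ A := by
        rw [hD, pow_add, two_mul, pow_add]
        field_simp

end Pool.Agent.K7.H49.LT
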