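import Mathlib
import Pool.Agent.K7.H49.LT.Pair
import Pool.Agent.K7.H49.LT.Cnt

set_option autoImplicit false

/-! Dense sequences and thin families of shifts: the weighted number of prime tuples. -/

namespace Pool.Agent.K7.H49.LT
open Finset Pool.Agent.H373R2.T7

/-- averaging over one coordinate -/
lemma sum_upd {k : ℕ} (S : Fin k → Finset ℕ) (j : Fin k) (F : (Fin k → ℕ) → ℝ) :
    ((S j).card : ℝ) * ∑ l ∈ Fintype.piFinset S, F l = ∑ l ∈ Fintype.piFinset S, ∑ c ∈ S j, F (Function.update l j c) := by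
  classical
  have hmem : ∀ q ∈ Fintype.piFinset S ×ˢ S j, (Function.update q.1 j q.2, q.1 j) ∈ Fintype.piFinset S ×ˢ S j := by
    intro q hq
    rw [mem_product, Fintype.mem_piFinset] at hq
    rw [mem_product, Fintype.mem_piFinset]
    refine ⟨fun i => ?_, hq.1 j⟩
    by_cases h : i = j
    · subst h
      simpa using hq.2
    · simp only
      rw [Function.update_of_ne h]
      exact hq.1 i
  have hinv : ∀ q : (Fin k → ℕ) × ℕ, (Function.update (Function.update q.1 j q.2) j (q.1 j), (Function.update q.1 j q.2) j) = q := by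
    intro q
    ext
    · simp
    · simp
  calc ((S j).card : ℝ) * ∑ l ∈ Fintype.piFinset S, F l = ∑ l ∈ Fintype.piFinset S, ∑ _c ∈ S j, F l := by
        rw [mul_sum]
        apply sum_congr rfl
        intro l _
        rw [sum_const, nsmul_eq_mul]
    _ = ∑ q ∈ Fintype.piFinset S ×ˢ S j, F q.1 := by rw [sum_product]
    _ = ∑ q ∈ Fintype.piFinset S ×ˢ S j, F (Function.update q.1 j q.2) := by
        symm
        apply sum_nbij' (fun q => (Function.update q.1 j q.2, q.1 j)) (fun q => (Function.update q.1 j q.2, q.1 j)) hmem hmem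
        · intro q _
          exact hinv q
        · intro q _
          exact hinv q
        · intro q _
          rfl
    _ = _ := by rw [sum_product]

/-- telescoping of a difference of products -/
lemma prod_tele {k : ℕ} (a b : Fin k → ℝ) :
    ∏ i, a i - ∏ i, b i = ∑ i, (a i - b i) * ((∏ j ∈ univ.filter (fun j => j < i), b j) * ∏ j ∈ univ.filter (fun j => i < j), a j) := by
  have h := prod_sub_ordered (s := (univ : Finset (Fin k))) (f := a) (g := fun i => a i - b i)
  simp only [sub_sub_cancel] at h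
  rw [h, sub_sub_cancel]
  apply sum_congr rfl
  intro i _
  ring

set_option maxHeartbeats 2000000 in
open Classical in
theorem dense_main (k A B H : ℕ) : ∃ D : ℕ, ∀ E1 : ℕ, ∃ N0 : ℕ, ∀ N : ℕ, N0 ≤ N →
    ∀ (x : Fin k → ℕ) (s : Fin k → ℕ → ℤ) (𝒩 : Finset ℕ) (f : Fin k → ℕ → ℕ),
    (∀ i, ∀ n ∈ 𝒩, 1 ≤ f i n ∧ (f i n : ℝ) ≤ N * Real.log N ^ B) →
    (∀ i, ∀ n ∈ 𝒩, ∀ n' ∈ 𝒩, n ≠ n' → f i n ≠ f i n') →
    (∀ i, ∀ l ∈ Icc 1 (x i), |(s i l : ℝ)| ≤ N * Real.log N ^ B) →
    (∀ i, ∃ r ≤ H, (Pool.Agent.H373R2.T7.energy r (x i) (s i) : ℝ) * N ≤ Real.log N ^ B * (x i : ℝ) ^ (2 * r)) →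
    ∀ z : ℕ, Real.log N ^ D ≤ z → (z : ℝ) ≤ Real.log N ^ E1 →
    (((Fintype.piFinset (fun i => Icc 1 (x i))).filter (fun l => N / Real.log N ^ A <
      |∑ n ∈ 𝒩, (∏ i, lamI ((f i n : ℤ) + s i (l i)) - ∏ i, lamzI z ((f i n : ℤ) + s i (l i)))|)).card : ℝ) ≤
      (∏ i, (x i : ℝ)) / Real.log N ^ A := by
  set U : ℕ := 2 * A + k + 1 with hU
  choose B0 hB0 using fun r => pair_fam r 1 B B U
  refine ⟨(range (H + 1)).sup B0, fun E1 => ?_⟩
  choose N1 hN1 using fun r => hB0 r E1
  obtain ⟨n2, h2⟩ := ev_L' (max 4 (k * 2 ^ k))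
  obtain ⟨n3, h3⟩ := Vz_inv_small E1
  obtain ⟨n4, h4⟩ := ev_log' (B + 1) 2
  refine ⟨max (max ((range (H + 1)).sup N1) n2) (max n3 (max n4 3)), fun N hN x s 𝒩 f hf hinj hs hE z hz1 hz2 => ?_⟩
  have b1 : (range (H + 1)).sup N1 ≤ N := le_trans (le_trans (le_max_left _ _) (le_max_left _ _)) hN
  have b2 : n2 ≤ N := le_trans (le_trans (le_max_right _ _) (le_max_left _ _)) hN
  have b3 : n3 ≤ N := le_trans (le_trans (le_max_left _ _) (le_max_right _ _)) hN
  have b4 : n4 ≤ N := le_trans (le_trans (le_trans (le_max_left _ _) (le_max_right _ _)) (le_max_right _ _)) hN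
  have b5 : 3 ≤ N := le_trans (le_trans (le_trans (le_max_right _ _) (le_max_right _ _)) (le_max_right _ _)) hN
  have a2 := h2 N b2
  have a4 := h4 N b4
  have hNr : (3 : ℝ) ≤ N := by exact_mod_cast b5
  have hN0 : (0 : ℝ) < N := by linarith
  set L := Real.log N with hLd
  have hL4 : 4 ≤ L := (le_max_left _ _).trans a2
  have hLk : k * 2 ^ k ≤ L := (le_max_right _ _).trans a2
  have hL1 : 1 ≤ L := by linarith
  have hL0 : 0 < L := by linarith
  have hLB1 : 1 ≤ L ^ B := one_le_pow₀ hL1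
  have hz1' : 1 ≤ z := by
    have : (1 : ℝ) ≤ z := (one_le_pow₀ hL1).trans hz1
    exact_mod_cast this
  have hVz : (Vz z)⁻¹ ≤ L := h3 N b3 z hz1' hz2
  -- bounds for the functions
  have hval : ∀ i, ∀ n ∈ 𝒩, ∀ c ∈ Icc 1 (x i), (((f i n : ℤ) + s i c : ℤ) : ℝ) ≤ 2 * N * L ^ B := by
    intro i n hn c hc
    have h5 := (hf i n hn).2
    have h6 := (abs_le.1 (hs i c hc)).2
    push_cast
    linarith
  have hlog2 : Real.log (2 * N * L ^ B) ≤ 2 * L := by
    have h5 : 2 * N * L ^ B ≤ (N : ℝ) ^ 2 := by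
      have h6 : 2 * L ^ B ≤ √(N : ℝ) := by
        refine le_trans ?_ a4
        apply mul_le_mul_of_nonneg_left _ (by norm_num)
        exact pow_le_pow_right₀ hL1 (by omega)
      have h7 : √(N : ℝ) ≤ N := by
        rw [Real.sqrt_le_left hN0.le]
        nlinarith
      nlinarith
    have h6 := Real.log_le_log (by positivity) h5
    rw [Real.log_pow] at h6
    exact_mod_cast h6
  have h2NL : (1 : ℝ) ≤ 2 * N * L ^ B := by nlinarith
  have hlamI : ∀ i, ∀ n ∈ 𝒩, ∀ c ∈ Icc 1 (x i), 0 ≤ lamI ((f i n : ℤ) + s i c) ∧ lamI ((f i n : ℤ) + s i c) ≤ 2 * L :=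
    fun i n hn c hc => ⟨lamI_nonneg _, (lamI_le _ _ h2NL (hval i n hn c hc)).trans hlog2⟩
  have hlamz : ∀ i n c, 0 ≤ lamzI z ((f i n : ℤ) + s i c) ∧ lamzI z ((f i n : ℤ) + s i c) ≤ 2 * L :=
    fun i n c => ⟨lamzI_nonneg _ _, (lamzI_le z _).trans (by linarith)⟩
  -- the partial products
  set hyb : Fin k → (Fin k → ℕ) → ℕ → ℝ := fun i l n =>
    (∏ j ∈ univ.filter (fun j => j < i), lamzI z ((f j n : ℤ) + s j (l j))) *
      ∏ j ∈ univ.filter (fun j => i < j), lamI ((f j n : ℤ) + s j (l j)) with hhyb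
  have h2L : 1 ≤ 2 * L := by linarith
  have hhybb : ∀ i, ∀ l ∈ Fintype.piFinset (fun i => Icc 1 (x i)), ∀ n ∈ 𝒩, |hyb i l n| ≤ (2 * L) ^ k := by
    intro i l hl n hn
    rw [Fintype.mem_piFinset] at hl
    rw [hhyb]
    simp only
    rw [abs_mul]
    have h5 : |∏ j ∈ univ.filter (fun j => j < i), lamzI z ((f j n : ℤ) + s j (l j))| ≤ (2 * L) ^ (univ.filter (fun j => j < i)).card := by
      rw [abs_prod, ← prod_const]
      apply prod_le_prod (fun _ _ => abs_nonneg _)
      intro j _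
      rw [abs_of_nonneg (hlamz j n (l j)).1]
      exact (hlamz j n (l j)).2
    have h6 : |∏ j ∈ univ.filter (fun j => i < j), lamI ((f j n : ℤ) + s j (l j))| ≤ (2 * L) ^ (univ.filter (fun j => i < j)).card := by
      rw [abs_prod, ← prod_const]
      apply prod_le_prod (fun _ _ => abs_nonneg _)
      intro j _
      rw [abs_of_nonneg (hlamI j n hn (l j) (hl j)).1]
      exact (hlamI j n hn (l j) (hl j)).2
    have h7 : (univ.filter (fun j => j < i)).card + (univ.filter (fun j => i < j)).card ≤ k := by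
      rw [← card_union_of_disjoint]
      · calc _ ≤ (univ : Finset (Fin k)).card := card_le_card (subset_univ _)
          _ = k := by rw [card_univ, Fintype.card_fin]
      · rw [disjoint_filter]
        intro j _ h8 h9
        exact absurd (h8.trans h9) (lt_irrefl _)
    calc _ ≤ (2 * L) ^ (univ.filter (fun j => j < i)).card * (2 * L) ^ (univ.filter (fun j => i < j)).card :=
          mul_le_mul h5 h6 (abs_nonneg _) (by positivity)
      _ = (2 * L) ^ ((univ.filter (fun j => j < i)).card + (univ.filter (fun j => i < j)).card) := by rw [pow_add]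
      _ ≤ _ := pow_le_pow_right₀ h2L h7
  have hhybu : ∀ i l c n, hyb i (Function.update l i c) n = hyb i l n := by
    intro i l c n
    rw [hhyb]
    simp only
    congr 1
    · apply prod_congr rfl
      intro j hj
      rw [Function.update_of_ne (ne_of_lt (mem_filter.1 hj).2)]
    · apply prod_congr rfl
      intro j hj
      rw [Function.update_of_ne (ne_of_gt (mem_filter.1 hj).2)]
  set Tt : Fin k → (Fin k → ℕ) → ℝ := fun i l => ∑ n ∈ 𝒩, hyb i l n * (lamI ((f i n : ℤ) + s i (l i)) - lamzI z ((f i n : ℤ) + s i (l i))) with hTt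
  set v : ℕ := ⌊N * L ^ B⌋₊ with hv
  have hv1 : (v : ℝ) ≤ N * L ^ B := Nat.floor_le (by positivity)
  set c0 : ℝ := (2 * L) ^ k with hc0
  have hc00 : 0 < c0 := by positivity
  -- one coordinate
  have hone : ∀ i, ∀ l ∈ Fintype.piFinset (fun i => Icc 1 (x i)),
      ∑ c ∈ Icc 1 (x i), |Tt i (Function.update l i c)| ≤ c0 * (N * x i / L ^ U) := by
    intro i l hl
    obtain ⟨r, hr, hEr⟩ := hE i
    set G : ℕ → ℝ := fun a => c0⁻¹ * ∑ n ∈ 𝒩.filter (fun n => f i n = a), hyb i l n with hG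
    have hGb : ∀ a : ℕ, 1 ≤ a → (a : ℝ) ≤ 2 * ((1 : ℕ) : ℝ) * N * L ^ B → |G a| ≤ 3 * L := by
      intro a _ _
      rw [hG]
      simp only
      rw [abs_mul, abs_of_pos (inv_pos.2 hc00)]
      have h5 : |∑ n ∈ 𝒩.filter (fun n => f i n = a), hyb i l n| ≤ c0 := by
        calc |∑ n ∈ 𝒩.filter (fun n => f i n = a), hyb i l n| ≤ ∑ n ∈ 𝒩.filter (fun n => f i n = a), |hyb i l n| := abs_sum_le_sum_abs _ _
          _ ≤ ∑ _n ∈ 𝒩.filter (fun n => f i n = a), c0 := sum_le_sum fun n hn => hhybb i l hl n (mem_filter.1 hn).1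
          _ = ((𝒩.filter (fun n => f i n = a)).card : ℝ) * c0 := by rw [sum_const, nsmul_eq_mul]
          _ ≤ 1 * c0 := by
              apply mul_le_mul_of_nonneg_right _ hc00.le
              have : (𝒩.filter (fun n => f i n = a)).card ≤ 1 := by
                rw [card_le_one]
                intro n hn n' hn'
                rw [mem_filter] at hn hn'
                by_contra hne
                exact hinj i n hn.1 n' hn'.1 hne (hn.2.trans hn'.2.symm)
              exact_mod_cast this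
          _ = c0 := one_mul _
      calc c0⁻¹ * _ ≤ c0⁻¹ * c0 := mul_le_mul_of_nonneg_left h5 (by positivity)
        _ = 1 := inv_mul_cancel₀ hc00.ne'
        _ ≤ 3 * L := by linarith
    have key := hN1 r N ((le_sup (f := N1) (mem_range.2 (by omega))).trans b1) (x i) (s i) (fun m hm => by
        rw [Nat.cast_one, one_mul]
        exact hs i m hm) hEr z
      ((pow_le_pow_right₀ hL1 (le_sup (f := B0) (mem_range.2 (by omega)))).trans hz1) hz2 G hGb (fun _ => 0) (fun _ => v)
      (fun m hm => ⟨Nat.zero_le _, by rw [Nat.cast_one, one_mul]; exact hv1⟩)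
    have hid : ∀ c, ∑ a ∈ Ioc 0 v, G a * (lamI (a + s i c) - lamzI z (a + s i c)) = c0⁻¹ * Tt i (Function.update l i c) := by
      intro c
      have hmaps : ∀ n ∈ 𝒩, f i n ∈ Ioc 0 v := by
        intro n hn
        rw [mem_Ioc]
        exact ⟨(hf i n hn).1, Nat.le_floor (hf i n hn).2⟩
      rw [hTt]
      simp only
      rw [← sum_fiberwise_of_maps_to hmaps, mul_sum]
      apply sum_congr rfl
      intro a _
      rw [hG]
      simp only
      rw [mul_assoc, sum_mul]
      congr 1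
      apply sum_congr rfl
      intro n hn
      rw [hhybu, Function.update_self, (mem_filter.1 hn).2]
    calc ∑ c ∈ Icc 1 (x i), |Tt i (Function.update l i c)| =
          c0 * ∑ c ∈ Icc 1 (x i), |∑ a ∈ Ioc 0 v, G a * (lamI (a + s i c) - lamzI z (a + s i c))| := by
          rw [mul_sum]
          apply sum_congr rfl
          intro c _
          rw [hid, abs_mul, abs_of_pos (inv_pos.2 hc00), ← mul_assoc, mul_inv_cancel₀ hc00.ne', one_mul]
      _ ≤ c0 * (N * x i / L ^ U) := mul_le_mul_of_nonneg_left key hc00.le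
  -- all coordinates
  set P : ℝ := ∏ i, (x i : ℝ) with hP
  have hP0 : 0 ≤ P := prod_nonneg fun _ _ => Nat.cast_nonneg _
  have hPc : ((Fintype.piFinset (fun i => Icc 1 (x i))).card : ℝ) = P := by
    rw [Fintype.card_piFinset, hP]
    push_cast
    apply prod_congr rfl
    intro i _
    rw [Nat.card_Icc, Nat.add_sub_cancel]
  have hall : ∀ i, ∑ l ∈ Fintype.piFinset (fun i => Icc 1 (x i)), |Tt i l| ≤ P * (c0 * (N / L ^ U)) := by
    intro i
    by_cases hx : x i = 0
    · have : Fintype.piFinset (fun i => Icc 1 (x i)) = ∅ := by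
        apply eq_empty_of_forall_notMem
        intro l hl
        rw [Fintype.mem_piFinset] at hl
        have := mem_Icc.1 (hl i)
        omega
      rw [this, sum_empty]
      positivity
    · have hxi : (0 : ℝ) < x i := by exact_mod_cast Nat.pos_of_ne_zero hx
      have h5 := sum_upd (fun i => Icc 1 (x i)) i (fun l => |Tt i l|)
      rw [Nat.card_Icc, Nat.add_sub_cancel] at h5
      have h6 : (x i : ℝ) * ∑ l ∈ Fintype.piFinset (fun i => Icc 1 (x i)), |Tt i l| ≤ x i * (P * (c0 * (N / L ^ U))) := by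
        rw [h5]
        calc ∑ l ∈ Fintype.piFinset (fun i => Icc 1 (x i)), ∑ c ∈ Icc 1 (x i), |Tt i (Function.update l i c)| ≤
              ∑ _l ∈ Fintype.piFinset (fun i => Icc 1 (x i)), c0 * (N * x i / L ^ U) := sum_le_sum fun l hl => hone i l hl
          _ = P * (c0 * (N * x i / L ^ U)) := by rw [sum_const, nsmul_eq_mul, hPc]
          _ = _ := by ring
      exact le_of_mul_le_mul_left h6 hxi
  set Df : (Fin k → ℕ) → ℝ := fun l => ∑ n ∈ 𝒩, (∏ i, lamI ((f i n : ℤ) + s i (l i)) - ∏ i, lamzI z ((f i n : ℤ) + s i (l i))) with hDf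
  have hDT : ∀ l, |Df l| ≤ ∑ i, |Tt i l| := by
    intro l
    have h5 : Df l = ∑ i, Tt i l := by
      rw [hDf, hTt]
      simp only
      rw [sum_comm]
      apply sum_congr rfl
      intro n _
      rw [prod_tele]
      apply sum_congr rfl
      intro i _
      rw [hhyb]
      simp only
      ring
    rw [h5]
    exact abs_sum_le_sum_abs _ _
  have htot : ∑ l ∈ Fintype.piFinset (fun i => Icc 1 (x i)), |Df l| ≤ k * (P * (c0 * (N / L ^ U))) := by
    calc ∑ l ∈ Fintype.piFinset (fun i => Icc 1 (x i)), |Df l| ≤ ∑ l ∈ Fintype.piFinset (fun i => Icc 1 (x i)), ∑ i, |Tt i l| :=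
          sum_le_sum fun l _ => hDT l
      _ = ∑ i, ∑ l ∈ Fintype.piFinset (fun i => Icc 1 (x i)), |Tt i l| := sum_comm
      _ ≤ ∑ _i : Fin k, P * (c0 * (N / L ^ U)) := sum_le_sum fun i _ => hall i
      _ = _ := by rw [sum_const, card_univ, Fintype.card_fin, nsmul_eq_mul]
  -- Markov
  set bad := (Fintype.piFinset (fun i => Icc 1 (x i))).filter (fun l => N / L ^ A < |Df l|) with hbad
  have hNA : (0 : ℝ) < N / L ^ A := by positivity
  have hb1 : (bad.card : ℝ) * (N / L ^ A) ≤ k * (P * (c0 * (N / L ^ U))) := by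
    refine le_trans ?_ htot
    calc (bad.card : ℝ) * (N / L ^ A) = ∑ _l ∈ bad, N / L ^ A := by rw [sum_const, nsmul_eq_mul]
      _ ≤ ∑ l ∈ bad, |Df l| := sum_le_sum fun l hl => (mem_filter.1 hl).2.le
      _ ≤ _ := sum_le_sum_of_subset_of_nonneg (filter_subset _ _) (fun _ _ _ => abs_nonneg _)
  have hb2 : k * (P * (c0 * (N / L ^ U))) ≤ (P / L ^ A) * (N / L ^ A) := by
    have e1 : L ^ U = L ^ A * L ^ A * (L ^ k * L) := by rw [hU, two_mul, pow_add, pow_add, pow_add]; ring
    have e2 : c0 = 2 ^ k * L ^ k := by rw [hc0, mul_pow]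
    rw [e1, e2]
    have e3 : k * (P * (2 ^ k * L ^ k * (N / (L ^ A * L ^ A * (L ^ k * L))))) = ((k * 2 ^ k) / L) * ((P / L ^ A) * (N / L ^ A)) := by
      field_simp
    rw [e3]
    have e4 : (k * 2 ^ k : ℝ) / L ≤ 1 := by
      rw [div_le_one hL0]
      exact hLk
    have e5 : 0 ≤ (P / L ^ A) * (N / L ^ A) := by positivity
    nlinarith
  exact le_of_mul_le_mul_right (hb1.trans hb2) hNA

end Pool.Agent.K7.H49.LT
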