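import Mathlib
import Pool.Agent.K7.H49.LT.Arb
import Pool.Agent.K7.H49.LT.Coll
import Pool.Agent.H646.Cheb

set_option autoImplicit false

/-! Primes of the form `p_n + 2 P(n)`, for almost all members of families of polynomials. -/

namespace Pool.Agent.K7.H49.LT
open Finset Pool.Agent.H373R2.T7

/-- the value `p_n + 2 v` -/
noncomputable def pv (n : ℕ) (v : ℤ) : ℕ := (((Nat.nth Nat.Prime (n - 1) : ℕ) : ℤ) + 2 * v).toNat

lemma kappa_bound' (K : ℝ) (hK : 0 < K) (Q M w : ℕ) (hM : 1 ≤ M) (hMw : M < (w + 1) ^ Q) (hQ : 1 ≤ Q) (hw1 : 1 ≤ w) (hw : 2 * K ^ 4 ≤ w) :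
    K / √(w : ℝ) ≤ (M : ℝ) ^ (-(1 / (4 * Q) : ℝ)) := by
  have hwr1 : (1 : ℝ) ≤ w := by exact_mod_cast hw1
  have hM0r : (0 : ℝ) < M := by exact_mod_cast hM
  have hwr0 : (0 : ℝ) < w := by linarith
  have hQr : (1 : ℝ) ≤ Q := by exact_mod_cast hQ
  have hs0 : 0 < √(w : ℝ) := Real.sqrt_pos.2 hwr0
  have hM2w : (M : ℝ) ≤ (2 * w) ^ Q := by
    have h6 : (M : ℝ) ≤ ((w : ℝ) + 1) ^ Q := by exact_mod_cast hMw.le
    refine h6.trans (pow_le_pow_left₀ (by positivity) ?_ _)
    linarith
  rw [Real.rpow_neg hM0r.le, ← one_div, div_le_div_iff₀ hs0 (by positivity), one_mul]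
  have h5 : (M : ℝ) ^ (1 / (4 * Q) : ℝ) ≤ (2 * (w : ℝ)) ^ (1 / 4 : ℝ) := by
    have h6 : (M : ℝ) ^ (1 / (4 * Q) : ℝ) ≤ ((2 * (w : ℝ)) ^ Q) ^ (1 / (4 * Q) : ℝ) :=
      Real.rpow_le_rpow hM0r.le hM2w (by positivity)
    refine h6.trans (le_of_eq ?_)
    rw [← Real.rpow_natCast, ← Real.rpow_mul (by positivity)]
    congr 1
    field_simp
  have h6 : K * (2 * (w : ℝ)) ^ (1 / 4 : ℝ) ≤ √(w : ℝ) := by
    have h7 : (2 * (w : ℝ)) ^ (1 / 4 : ℝ) ≤ ((w : ℝ) ^ 2 / K ^ 4) ^ (1 / 4 : ℝ) := by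
      apply Real.rpow_le_rpow (by positivity) _ (by norm_num)
      rw [le_div_iff₀ (by positivity)]
      nlinarith
    have h8 : ((w : ℝ) ^ 2 / K ^ 4) ^ (1 / 4 : ℝ) = √(w : ℝ) / K := by
      rw [Real.div_rpow (by positivity) (by positivity), Real.sqrt_eq_rpow]
      congr 1
      · rw [← Real.rpow_natCast, ← Real.rpow_mul hwr0.le]
        norm_num
      · rw [← Real.rpow_natCast, ← Real.rpow_mul hK.le]
        norm_num
    rw [h8, le_div_iff₀ hK] at h7
    linarith
  nlinarith

set_option maxHeartbeats 2000000 in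
open Classical in
theorem nth_main (k Q A' : ℕ) (hk : 1 ≤ k) (hQ : 1 ≤ Q) (ε : ℝ) (hε : 0 < ε) : ∃ C : ℕ, ∀ A B E H : ℕ, ∃ N0 : ℕ, ∀ N : ℕ, N0 ≤ N →
    ∀ (x : Fin k → ℕ) (s : Fin k → ℕ → ℤ) (I : Finset ℕ) (g h : Fin k → ℕ → ℤ),
    (∀ n ∈ I, 1 ≤ n ∧ (n : ℝ) ≤ Real.log N ^ E) →
    (∀ i, ∀ n ∈ I, ∀ n' ∈ I, n ≠ n' → g i n ≠ g i n') →
    (∀ i, ∀ l ∈ Icc 1 (x i), ∀ n ∈ I, 0 ≤ s i l * g i n + h i n ∧ ((s i l * g i n + h i n : ℤ) : ℝ) ≤ N * Real.log N ^ E) →
    (∀ i, ∃ r ≤ H, (Pool.Agent.H373R2.T7.energy r (x i) (s i) : ℝ) * N ≤ Real.log N ^ B * (x i : ℝ) ^ (2 * r)) →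
    ∃ 𝒢 : Fin k → Finset ℕ, (∀ i, 𝒢 i ⊆ Icc 1 (x i) ∧ ((Icc 1 (x i) \ 𝒢 i).card : ℝ) ≤ x i / Real.log N ^ A) ∧
      ∀ l : Fin k → ℕ, (∀ i, l i ∈ 𝒢 i) → ∀ 𝒩 ⊆ I, Real.log N ^ C ≤ 𝒩.card → ∀ w : ℕ, w ^ Q ≤ 𝒩.card → 𝒩.card < (w + 1) ^ Q →
        (((Fintype.piFinset (fun _ : Fin k => Ioc N (2 * N))).filter (fun b => ¬
          |((𝒩.filter (fun n => ∀ i, (pv n (s i (l i) * g i n + h i n + b i)).Prime)).card : ℝ) * Real.log N ^ k -
            (Vz w)⁻¹ ^ k * (𝒩.filter (fun n => ∀ p ∈ pz w, ∀ i, ¬ p ∣ pv n (s i (l i) * g i n + h i n + b i))).card| ≤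
            ε * ((Vz w)⁻¹ ^ k * (𝒩.filter (fun n => ∀ p ∈ pz w, ∀ i, ¬ p ∣ pv n (s i (l i) * g i n + h i n + b i))).card) +
              𝒩.card / Real.log N ^ A')).card : ℝ) ≤
          (𝒩.card : ℝ) ^ (-(1 / (4 * Q) : ℝ)) * (N : ℝ) ^ k := by
  obtain ⟨C, η, hη, hG⟩ := primesA k A' Q hk hQ ε hε
  obtain ⟨C₀, hC₀, hPle⟩ := Pool.Agent.H646.ChebM.P_le
  refine ⟨max C Q + 1, fun A B E H => ?_⟩
  choose B0 hB0 using fun r => cor_fam r (max B 14) B E E (A + 1)
  obtain ⟨n5, h5c⟩ := coll H B E (A + 1)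
  set BB : ℕ := max ((range (H + 1)).sup B0) (E + 1) with hBB
  choose N1 hN1 using fun r => hB0 r (BB + 1)
  obtain ⟨n1, h1⟩ := hG (E + 1) (BB + 1)
  obtain ⟨n2, h2⟩ := ev_L' (max ((2 : ℝ) ^ max C Q) (max (4 * (2 : ℝ) ^ (4 * (k + 1)) + 4) (14 + C₀)))
  obtain ⟨n3, h3⟩ := ev_log' (3 * E + 4) 64
  obtain ⟨n4, h4⟩ := Pool.Agent.K7.H49.PR.ev_pow (E + 2) 1 η hη
  refine ⟨max (max ((range (H + 1)).sup N1) n1) (max n2 (max n3 (max n4 (max n5 3)))), fun N hN x s I g h hI hg hsg hE => ?_⟩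
  have b0 : (range (H + 1)).sup N1 ≤ N := le_trans (le_trans (le_max_left _ _) (le_max_left _ _)) hN
  have b1 : n1 ≤ N := le_trans (le_trans (le_max_right _ _) (le_max_left _ _)) hN
  have b2 : n2 ≤ N := le_trans (le_trans (le_max_left _ _) (le_max_right _ _)) hN
  have b3 : n3 ≤ N := le_trans (le_trans (le_trans (le_max_left _ _) (le_max_right _ _)) (le_max_right _ _)) hN
  have b4 : n4 ≤ N := le_trans (le_trans (le_trans (le_trans (le_max_left _ _) (le_max_right _ _)) (le_max_right _ _)) (le_max_right _ _)) hN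
  have b6 : n5 ≤ N := le_trans (le_trans (le_trans (le_trans (le_trans (le_max_left _ _) (le_max_right _ _)) (le_max_right _ _)) (le_max_right _ _)) (le_max_right _ _)) hN
  have b5 : 3 ≤ N := le_trans (le_trans (le_trans (le_trans (le_trans (le_max_right _ _) (le_max_right _ _)) (le_max_right _ _)) (le_max_right _ _)) (le_max_right _ _)) hN
  have hL := h2 N b2
  have hNr : (3 : ℝ) ≤ N := by exact_mod_cast b5
  have hN0 : (0 : ℝ) < N := by linarith
  have a3 := h3 N b3
  have a4 := h4 N b4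
  rw [one_mul] at a4
  set L := Real.log N with hLd
  have hLC : (2 : ℝ) ^ max C Q ≤ L := (le_max_left _ _).trans hL
  have hLk : 4 * (2 : ℝ) ^ (4 * (k + 1)) + 4 ≤ L := ((le_max_left _ _).trans (le_max_right _ _)).trans hL
  have hL14 : 14 + C₀ ≤ L := ((le_max_right _ _).trans (le_max_right _ _)).trans hL
  have hL1 : 1 ≤ L := by linarith
  have hL0 : 0 < L := by linarith
  have hLE1 : 1 ≤ L ^ E := one_le_pow₀ hL1
  -- the size of the arguments
  set G : ℕ := ⌊L ^ E⌋₊ with hGd
  have hGr : (G : ℝ) ≤ L ^ E := Nat.floor_le (by positivity)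
  have hG1 : L ^ E ≤ (G : ℝ) + 1 := (Nat.lt_floor_add_one _).le
  have hIG : I ⊆ Icc 1 G := fun n hn => mem_Icc.2 ⟨(hI n hn).1, Nat.le_floor (hI n hn).2⟩
  have hIc : (I.card : ℝ) ≤ L ^ E := by
    have h5 := card_le_card hIG
    rw [Nat.card_Icc, Nat.add_sub_cancel] at h5
    exact le_trans (by exact_mod_cast h5) hGr
  have hsqN : √(N : ℝ) * √(N : ℝ) = N := Real.mul_self_sqrt hN0.le
  have hsq0 : 0 < √(N : ℝ) := Real.sqrt_pos.2 hN0
  -- the primes
  have hprime : ∀ n ∈ I, Nat.nth Nat.Prime (n - 1) ≤ N := by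
    intro n hn
    obtain ⟨hn1, hn2⟩ := hI n hn
    have h5 : Nat.nth Nat.Prime (n - 1) ≤ Nat.nth Nat.Prime (n + 1) :=
      Nat.nth_monotone Nat.infinite_setOfPred_prime (by omega)
    have h6 : (Nat.nth Nat.Prime (n + 1) : ℝ) ≤ N := by
      refine (hPle (n + 1) (by omega)).trans ?_
      have h7 : Real.log ((n + 1 : ℕ) : ℝ) ≤ ((n + 1 : ℕ) : ℝ) := by
        have := Real.log_le_sub_one_of_pos (show (0 : ℝ) < ((n + 1 : ℕ) : ℝ) by positivity)
        linarith
      have h8 : ((n + 1 : ℕ) : ℝ) ≤ 2 * L ^ E := by push_cast; linarith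
      have h9 : C₀ * (((n + 1 : ℕ) : ℝ) * Real.log ((n + 1 : ℕ) : ℝ)) ≤ C₀ * ((2 * L ^ E) * (2 * L ^ E)) := by
        apply mul_le_mul_of_nonneg_left _ (by linarith)
        exact mul_le_mul h8 (h7.trans h8) (Real.log_natCast_nonneg _) (by positivity)
      refine h9.trans ?_
      have h10 : L ^ (3 * E + 4) ≤ √(N : ℝ) := by
        have : 0 ≤ L ^ (3 * E + 4) := by positivity
        linarith
      have h11 : C₀ * ((2 * L ^ E) * (2 * L ^ E)) ≤ 4 * L ^ (3 * E + 4) := by
        have e : L ^ (3 * E + 4) = L ^ E * L ^ E * (L ^ E * L ^ 4) := by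
          rw [← pow_add, ← pow_add, ← pow_add]
          congr 1
          omega
        have h12 : C₀ ≤ L ^ E * L ^ 4 := by
          have h13 : L ≤ L ^ 4 := by
            calc L = L ^ 1 := (pow_one _).symm
              _ ≤ L ^ 4 := pow_le_pow_right₀ hL1 (by norm_num)
          have h14 : L ^ 4 ≤ L ^ E * L ^ 4 := le_mul_of_one_le_left (by positivity) hLE1
          linarith
        rw [e]
        have h13 : 0 ≤ L ^ E * L ^ E := by positivity
        nlinarith
      have h12 : √(N : ℝ) ≤ N := by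
        rw [Real.sqrt_le_left hN0.le]
        nlinarith
      linarith
    exact_mod_cast h5.trans (by exact_mod_cast h6)
  -- enumerate the arguments
  obtain ⟨e, e1, e2, e3⟩ := enum I
  -- parameters
  set z : ℕ := ⌈L ^ BB⌉₊ with hz
  have hz1 : L ^ BB ≤ z := Nat.le_ceil _
  have hz3 : (z : ℝ) ≤ L ^ (BB + 1) := by
    have h5 := Nat.ceil_lt_add_one (show 0 ≤ L ^ BB by positivity)
    have h6 : 1 ≤ L ^ BB := one_le_pow₀ hL1
    rw [pow_succ]
    nlinarith
  -- the functions
  set F : Fin k → ℕ → ℕ → ℕ := fun i l n => 2 * N + Nat.nth Nat.Prime (n - 1) + 2 * (s i l * g i n + h i n).toNat with hF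
  have hFz : ∀ i, ∀ l ∈ Icc 1 (x i), ∀ n ∈ I, (F i l n : ℤ) = s i l * (2 * g i n) + (2 * N + Nat.nth Nat.Prime (n - 1) + 2 * h i n) := by
    intro i l hl n hn
    have h5 := (hsg i l hl n hn).1
    rw [hF]
    push_cast
    rw [Int.toNat_of_nonneg h5]
    ring
  have hFX : ∀ i, ∀ l ∈ Icc 1 (x i), ∀ n ∈ I, F i l n + 2 * N ≤ 7 * N * (G + 1) := by
    intro i l hl n hn
    have h5 := (hsg i l hl n hn).1
    have h6 := (hsg i l hl n hn).2
    have h7 : (((s i l * g i n + h i n).toNat : ℕ) : ℝ) ≤ ((N * (G + 1) : ℕ) : ℝ) := by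
      have h8 : (((s i l * g i n + h i n).toNat : ℕ) : ℝ) = ((s i l * g i n + h i n : ℤ) : ℝ) := by
        have := Int.toNat_of_nonneg h5
        exact_mod_cast congrArg (fun t : ℤ => (t : ℝ)) this
      rw [h8]
      refine h6.trans ?_
      push_cast
      exact mul_le_mul_of_nonneg_left hG1 hN0.le
    have h8 : (s i l * g i n + h i n).toNat ≤ N * (G + 1) := by exact_mod_cast h7
    have h9 := hprime n hn
    have h10 : N ≤ N * (G + 1) := Nat.le_mul_of_pos_right _ (by omega)
    rw [hF]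
    simp only
    have h11 : 7 * N * (G + 1) = 7 * (N * (G + 1)) := by ring
    rw [h11]
    omega
  set Xs : ℕ := 7 * N * (G + 1) with hXs
  have hXsr : (Xs : ℝ) = 7 * N * (G + 1) := by rw [hXs]; push_cast; ring
  have hXs14 : (Xs : ℝ) ≤ 14 * N * L ^ E := by
    rw [hXsr]
    have : (G : ℝ) + 1 ≤ 2 * L ^ E := by linarith
    nlinarith
  have hG0 : (0 : ℝ) ≤ G := Nat.cast_nonneg _
  have hXsN : (N : ℝ) ≤ Xs := by
    rw [hXsr]
    nlinarith
  have hXs0 : (0 : ℝ) < Xs := by linarith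
  -- the good members
  set 𝒢 : Fin k → Finset ℕ := fun i => (Icc 1 (x i)).filter (fun l => Cor (fun m => F i l (e m)) (2 * N) I.card z (1 / L ^ E) ∧
    ¬ ∃ n ∈ I, ∃ n' ∈ I, n ≠ n' ∧ s i l * (2 * g i n) + (2 * N + Nat.nth Nat.Prime (n - 1) + 2 * h i n) =
      s i l * (2 * g i n') + (2 * N + Nat.nth Nat.Prime (n' - 1) + 2 * h i n')) with h𝒢
  refine ⟨𝒢, fun i => ⟨filter_subset _ _, ?_⟩, ?_⟩
  · obtain ⟨r, hr, hEr⟩ := hE i
    have key := hN1 r N ((le_sup (f := N1) (mem_range.2 (by omega))).trans b0) (x i) I.card (s i)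
      (fun m => 2 * g i (e m)) (fun m => 2 * N + Nat.nth Nat.Prime (e m - 1) + 2 * h i (e m)) (fun l m => F i l (e m)) (fun _ => 2 * N)
      hIc hEr (fun m hm m' hm' hne h5 => by
        apply hg i (e m) (e1 m hm) (e m') (e1 m' hm') (e2 m hm m' hm' hne)
        linarith) z
      ((pow_le_pow_right₀ hL1 ((le_sup (f := B0) (mem_range.2 (by omega))).trans (le_max_left _ _))).trans hz1) hz3
      (fun l hl m hm => ⟨hFz i l hl (e m) (e1 m hm), by
        have h5 := hFX i l hl (e m) (e1 m hm)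
        have h6 : ((F i l (e m) + 2 * N : ℕ) : ℝ) ≤ Xs := by exact_mod_cast h5
        rw [← Nat.cast_add]
        refine h6.trans (hXs14.trans ?_)
        apply mul_le_mul_of_nonneg_right _ (by positivity)
        apply mul_le_mul_of_nonneg_right _ hN0.le
        push_cast
        exact le_max_right _ _⟩)
    have key2 := h5c N b6 r hr (x i) (s i) I (fun n => 2 * g i n) (fun n => 2 * N + Nat.nth Nat.Prime (n - 1) + 2 * h i n) hIc hEr
      (fun n hn n' hn' hne h5 => by
        apply hg i n hn n' hn' hne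
        linarith)
    have hsub : Icc 1 (x i) \ 𝒢 i ⊆ ((Icc 1 (x i)).filter (fun l => (N : ℝ) ≤ L ^ max B 14 * ((2 * N : ℕ) : ℝ) ∧
        ¬ Cor (fun m => F i l (e m)) (2 * N) I.card z (1 / L ^ E))) ∪
        ((Icc 1 (x i)).filter (fun l => ∃ n ∈ I, ∃ n' ∈ I, n ≠ n' ∧ s i l * (2 * g i n) + (2 * N + Nat.nth Nat.Prime (n - 1) + 2 * h i n) =
      s i l * (2 * g i n') + (2 * N + Nat.nth Nat.Prime (n' - 1) + 2 * h i n'))) := by
      intro l hl
      rw [mem_sdiff, h𝒢] at hl
      simp only [mem_filter, not_and] at hl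
      rw [mem_union, mem_filter, mem_filter]
      by_cases h5 : Cor (fun m => F i l (e m)) (2 * N) I.card z (1 / L ^ E)
      · right
        refine ⟨hl.1, ?_⟩
        by_contra h6
        exact hl.2 hl.1 h5 h6
      · left
        refine ⟨hl.1, ?_, h5⟩
        have h5 : 1 ≤ L ^ max B 14 := one_le_pow₀ hL1
        push_cast
        nlinarith
    have h6 : ((Icc 1 (x i) \ 𝒢 i).card : ℝ) ≤ x i / L ^ (A + 1) + x i / L ^ (A + 1) := by
      have h7 := (card_le_card hsub).trans (card_union_le _ _)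
      refine le_trans (by exact_mod_cast h7) (add_le_add key key2)
    refine h6.trans ?_
    have e5 : (x i : ℝ) / L ^ (A + 1) = (x i / L ^ A) * (1 / L) := by rw [pow_succ]; field_simp
    rw [e5]
    have h7 : 1 / L ≤ 1 / 2 := one_div_le_one_div_of_le (by norm_num) (by linarith)
    have h9 : 0 ≤ (x i : ℝ) / L ^ A := by positivity
    nlinarith
  · intro l hl 𝒩 h𝒩 hMC w hw1 hw2
    obtain ⟨f, f1, f2, f3⟩ := enum 𝒩
    set M := 𝒩.card with hMd
    have hM1r : (1 : ℝ) ≤ M := (one_le_pow₀ hL1).trans hMC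
    have hM1 : 1 ≤ M := by exact_mod_cast hM1r
    have hM0r : (0 : ℝ) < M := by linarith
    have hMI : M ≤ I.card := card_le_card h𝒩
    have hME : (M : ℝ) ≤ L ^ E := le_trans (by exact_mod_cast hMI) hIc
    -- the place of the elements of `𝒩` in the enumeration of `I`
    have hex : ∀ m, ∃ m', m ∈ Icc 1 M → m' ∈ Icc 1 I.card ∧ e m' = f m := by
      intro m
      by_cases hm : m ∈ Icc 1 M
      · have h5 : f m ∈ I := h𝒩 (f1 m hm)
        have h6 : ((Icc 1 I.card).filter (fun m' => e m' = f m)).card = (I.filter (fun n => n = f m)).card := by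
          convert e3 (fun n => n = f m)
        have h7 : 0 < (I.filter (fun n => n = f m)).card := card_pos.2 ⟨f m, mem_filter.2 ⟨h5, rfl⟩⟩
        rw [← h6] at h7
        obtain ⟨m', hm'⟩ := card_pos.1 h7
        rw [mem_filter] at hm'
        exact ⟨m', fun _ => hm'⟩
      · exact ⟨0, fun h5 => absurd h5 hm⟩
    choose c hc using hex
    have hcinj : ∀ m ∈ Icc 1 M, ∀ m' ∈ Icc 1 M, m ≠ m' → c m ≠ c m' := by
      intro m hm m' hm' hne h5
      apply f2 m hm m' hm' hne
      rw [← (hc m hm).2, ← (hc m' hm').2, h5]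
    have hlI : ∀ i, l i ∈ Icc 1 (x i) := fun i => (mem_filter.1 (hl i)).1
    have hlog2N : L ≤ Real.log ((2 * N : ℕ) : ℝ) := Real.log_le_log hN0 (by push_cast; linarith)
    have hXlog : Real.log (Xs : ℝ) ≤ L + Real.log (L ^ (E + 2)) := by
      rw [hLd, ← Real.log_mul hN0.ne' (by positivity), ← hLd]
      apply Real.log_le_log hXs0
      refine hXs14.trans ?_
      rw [pow_add]
      have h5 : 14 ≤ L ^ 2 := by nlinarith
      have h6 : 0 ≤ (N : ℝ) * L ^ E := by positivity
      nlinarith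
    have hLE2 : L ^ (E + 2) ≤ √(N : ℝ) := by
      have h5 : L ^ (E + 2) ≤ L ^ (3 * E + 4) := pow_le_pow_right₀ hL1 (by omega)
      have h6 : 0 ≤ L ^ (3 * E + 4) := by positivity
      linarith
    have hXlog2 : Real.log (Xs : ℝ) ≤ 2 * L := by
      have h5 : Real.log (L ^ (E + 2)) ≤ L := by
        rw [hLd]
        apply Real.log_le_log (by positivity)
        refine hLE2.trans ?_
        rw [Real.sqrt_le_left hN0.le]
        nlinarith
      linarith
    have hXlog0 : 0 ≤ Real.log (Xs : ℝ) := Real.log_natCast_nonneg _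
    have hLX : L ≤ Real.log (Xs : ℝ) := Real.log_le_log hN0 hXsN
    have key := h1 M w (Xs : ℝ) (fun _ => 2 * N) (fun i m => F i (l i) (f m)) (fun _ => z) (fun _ => (N : ℝ)) (fun _ => Xs) hM1
      (fun _ => by omega) hw1 hw2 (by
        calc Real.log (Xs : ℝ) ^ C ≤ (2 * L) ^ C := pow_le_pow_left₀ hXlog0 hXlog2 _
          _ = 2 ^ C * L ^ C := mul_pow _ _ _
          _ ≤ L * L ^ C := by
              apply mul_le_mul_of_nonneg_right _ (by positivity)
              refine le_trans ?_ hLC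
              exact pow_le_pow_right₀ (by norm_num) (le_max_left _ _)
          _ = L ^ (C + 1) := by ring
          _ ≤ L ^ (max C Q + 1) := pow_le_pow_right₀ hL1 (by have := le_max_left C Q; omega)
          _ ≤ M := hMC)
      (fun _ => by
        refine hME.trans ?_
        calc L ^ E ≤ L ^ (E + 1) := pow_le_pow_right₀ hL1 (by omega)
          _ ≤ _ := pow_le_pow_left₀ hL0.le hlog2N _)
      (fun _ => ⟨by
        have h5 : (M : ℝ) ≤ z := hME.trans ((pow_le_pow_right₀ hL1 (le_trans (by omega) (le_max_right _ _))).trans hz1)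
        exact_mod_cast h5, hz3.trans (pow_le_pow_left₀ hL0.le hlog2N _)⟩)
      (fun i => by
        have h5 : Cor (fun m => F i (l i) (e m)) (2 * N) I.card z (1 / L ^ E) := (mem_filter.1 (hl i)).2.1
        have h6 := h5.comp hMI c (fun m hm => (hc m hm).1) hcinj
        have h7 : Cor (fun m => F i (l i) (f m)) (2 * N) M z (1 / L ^ E) := by
          intro n hn n' hn' hne
          have h8 := h6 n hn n' hn' hne
          simp only [(hc n hn).2, (hc n' hn').2] at h8
          exact h8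
        exact h7.mono' (one_div_le_one_div_of_le hM0r hME))
      (fun i m hm => hFX i (l i) (hlI i) (f m) (h𝒩 (f1 m hm)))
      (fun _ => le_rfl)
      (fun i m hm m' hm' hne h5 => by
        have h6 := hFz i (l i) (hlI i) (f m) (h𝒩 (f1 m hm))
        have h7 := hFz i (l i) (hlI i) (f m') (h𝒩 (f1 m' hm'))
        apply (mem_filter.1 (hl i)).2.2
        refine ⟨f m, h𝒩 (f1 m hm), f m', h𝒩 (f1 m' hm'), f2 m hm m' hm' hne, ?_⟩
        rw [← h6, ← h7]
        exact_mod_cast h5)
      (fun _ => by linarith)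
      (fun i m _ => by
        rw [hF]
        push_cast
        have h5 : (0 : ℝ) ≤ Nat.nth Nat.Prime (f m - 1) := Nat.cast_nonneg _
        have h6 : (0 : ℝ) ≤ ((s i (l i) * g i (f m) + h i (f m)).toNat : ℝ) := Nat.cast_nonneg _
        linarith)
      (fun _ => by
        have h5 : Real.log (L ^ (E + 2)) ≤ η * L := by
          rw [hLd, ← Real.log_rpow hN0, ← hLd]
          exact Real.log_le_log (by positivity) a4
        linarith)
      (fun _ => by
        have f1 : √(Xs : ℝ) ≤ √(N : ℝ) * (14 * L ^ E) := by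
          have f2 : (Xs : ℝ) ≤ N * (14 * L ^ E) ^ 2 := by
            refine hXs14.trans ?_
            have f3 : 14 * L ^ E ≤ (14 * L ^ E) ^ 2 := by nlinarith
            calc 14 * (N : ℝ) * L ^ E = N * (14 * L ^ E) := by ring
              _ ≤ _ := mul_le_mul_of_nonneg_left f3 hN0.le
          calc √(Xs : ℝ) ≤ √(N * (14 * L ^ E) ^ 2) := Real.sqrt_le_sqrt f2
            _ = √(N : ℝ) * (14 * L ^ E) := by
                rw [Real.sqrt_mul hN0.le, Real.sqrt_sq (by positivity)]
        have f2 : (M : ℝ) ^ 2 ≤ (L ^ E) ^ 2 := pow_le_pow_left₀ hM0r.le hME 2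
        calc (M : ℝ) ^ 2 * (4 * (√(Xs : ℝ) * Real.log Xs)) ≤ (L ^ E) ^ 2 * (4 * ((√(N : ℝ) * (14 * L ^ E)) * (2 * L))) := by
              apply mul_le_mul f2 _ (by positivity) (by positivity)
              apply mul_le_mul_of_nonneg_left _ (by norm_num)
              exact mul_le_mul f1 hXlog2 hXlog0 (by positivity)
          _ = (112 * L ^ (3 * E + 1)) * √(N : ℝ) := by
              rw [pow_add, pow_one, mul_comm 3 E, pow_mul]
              ring
          _ ≤ √(N : ℝ) * √(N : ℝ) := by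
              apply mul_le_mul_of_nonneg_right _ hsq0.le
              refine le_trans ?_ a3
              have f3 : L ^ (3 * E + 4) = L ^ (3 * E + 1) * L ^ 3 := by rw [← pow_add]
              have f4 : 2 ≤ L ^ 3 := by
                calc (2 : ℝ) ≤ L := by linarith
                  _ = L ^ 1 := (pow_one _).symm
                  _ ≤ L ^ 3 := pow_le_pow_right₀ hL1 (by norm_num)
              rw [f3]
              have f5 : 0 ≤ L ^ (3 * E + 1) := by positivity
              nlinarith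
          _ = N := hsqN
          _ ≤ ((2 * N : ℕ) : ℝ) := by push_cast; linarith)
    -- the shifts
    have hpv : ∀ b : Fin k → ℕ, (∀ i, N < b i) → ∀ m ∈ Icc 1 M, ∀ i, F i (l i) (f m) + 2 * (b i - N) =
        pv (f m) (s i (l i) * g i (f m) + h i (f m) + b i) := by
      intro b hb m hm i
      have h5 := (hsg i (l i) (hlI i) (f m) (h𝒩 (f1 m hm))).1
      have h6 := hb i
      have h7 : ((F i (l i) (f m) + 2 * (b i - N) : ℕ) : ℤ) = ((Nat.nth Nat.Prime (f m - 1) : ℕ) : ℤ) +
          2 * (s i (l i) * g i (f m) + h i (f m) + b i) := by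
        rw [hF]
        push_cast [Nat.cast_sub h6.le]
        rw [Int.toNat_of_nonneg h5]
        ring
      unfold pv
      rw [← h7, Int.toNat_natCast]
    have hcard : (((Fintype.piFinset (fun _ : Fin k => Ioc N (2 * N))).filter (fun b => ¬
          |((𝒩.filter (fun n => ∀ i, (pv n (s i (l i) * g i n + h i n + b i)).Prime)).card : ℝ) * L ^ k -
            (Vz w)⁻¹ ^ k * (𝒩.filter (fun n => ∀ p ∈ pz w, ∀ i, ¬ p ∣ pv n (s i (l i) * g i n + h i n + b i))).card| ≤
            ε * ((Vz w)⁻¹ ^ k * (𝒩.filter (fun n => ∀ p ∈ pz w, ∀ i, ¬ p ∣ pv n (s i (l i) * g i n + h i n + b i))).card) +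
              M / L ^ A')).card : ℝ) ≤ (((Fintype.piFinset (fun _ : Fin k => Icc 1 (2 * N))).filter (fun b => ¬
          |cnt (fun i m => F i (l i) (f m)) b M * ∏ _i : Fin k, Real.log (N : ℝ) - Sf (fun i m => F i (l i) (f m)) b M w| ≤
            ε * Sf (fun i m => F i (l i) (f m)) b M w + M / Real.log (Xs : ℝ) ^ A')).card : ℝ) := by
      have h5 := card_le_card_of_injOn (s := (Fintype.piFinset (fun _ : Fin k => Ioc N (2 * N))).filter (fun b => ¬
          |((𝒩.filter (fun n => ∀ i, (pv n (s i (l i) * g i n + h i n + b i)).Prime)).card : ℝ) * L ^ k -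
            (Vz w)⁻¹ ^ k * (𝒩.filter (fun n => ∀ p ∈ pz w, ∀ i, ¬ p ∣ pv n (s i (l i) * g i n + h i n + b i))).card| ≤
            ε * ((Vz w)⁻¹ ^ k * (𝒩.filter (fun n => ∀ p ∈ pz w, ∀ i, ¬ p ∣ pv n (s i (l i) * g i n + h i n + b i))).card) +
              M / L ^ A'))
        (t := (Fintype.piFinset (fun _ : Fin k => Icc 1 (2 * N))).filter (fun b => ¬
          |cnt (fun i m => F i (l i) (f m)) b M * ∏ _i : Fin k, Real.log (N : ℝ) - Sf (fun i m => F i (l i) (f m)) b M w| ≤
            ε * Sf (fun i m => F i (l i) (f m)) b M w + M / Real.log (Xs : ℝ) ^ A'))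
        (fun b i => 2 * (b i - N)) (by
          intro b hb
          rw [mem_coe, mem_filter, Fintype.mem_piFinset] at hb
          rw [mem_coe, mem_filter, Fintype.mem_piFinset]
          have hb1 : ∀ i, N < b i := fun i => (mem_Ioc.1 (hb.1 i)).1
          refine ⟨fun i => ?_, fun h5 => hb.2 ?_⟩
          · have := mem_Ioc.1 (hb.1 i)
            change 2 * (b i - N) ∈ Icc 1 (2 * N)
            rw [mem_Icc]
            omega
          · have c1 : cnt (fun i m => F i (l i) (f m)) (fun i => 2 * (b i - N)) M =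
                (𝒩.filter (fun n => ∀ i, (pv n (s i (l i) * g i n + h i n + b i)).Prime)).card := by
              calc cnt (fun i m => F i (l i) (f m)) (fun i => 2 * (b i - N)) M =
                    ((Icc 1 M).filter (fun m => ∀ i, (pv (f m) (s i (l i) * g i (f m) + h i (f m) + b i)).Prime)).card := by
                    unfold cnt
                    congr 1
                    ext m
                    simp only [mem_filter]
                    constructor
                    · rintro ⟨hm, h6⟩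
                      exact ⟨hm, fun i => by rw [← hpv b hb1 m hm i]; exact h6 i⟩
                    · rintro ⟨hm, h6⟩
                      exact ⟨hm, fun i => by rw [hpv b hb1 m hm i]; exact h6 i⟩
                _ = _ := by convert f3 (fun n => ∀ i, (pv n (s i (l i) * g i n + h i n + b i)).Prime)
            have c2 : Sf (fun i m => F i (l i) (f m)) (fun i => 2 * (b i - N)) M w = (Vz w)⁻¹ ^ k *
                (𝒩.filter (fun n => ∀ p ∈ pz w, ∀ i, ¬ p ∣ pv n (s i (l i) * g i n + h i n + b i))).card := by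
              have c3 : ((Icc 1 M).filter (fun m => ∀ p ∈ pz w, ∀ i, ¬ p ∣ F i (l i) (f m) + 2 * (b i - N))).card =
                  (𝒩.filter (fun n => ∀ p ∈ pz w, ∀ i, ¬ p ∣ pv n (s i (l i) * g i n + h i n + b i))).card := by
                calc ((Icc 1 M).filter (fun m => ∀ p ∈ pz w, ∀ i, ¬ p ∣ F i (l i) (f m) + 2 * (b i - N))).card =
                      ((Icc 1 M).filter (fun m => ∀ p ∈ pz w, ∀ i, ¬ p ∣ pv (f m) (s i (l i) * g i (f m) + h i (f m) + b i))).card := by
                      congr 1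
                      ext m
                      simp only [mem_filter]
                      constructor
                      · rintro ⟨hm, h6⟩
                        exact ⟨hm, fun p hp i => by rw [← hpv b hb1 m hm i]; exact h6 p hp i⟩
                      · rintro ⟨hm, h6⟩
                        exact ⟨hm, fun p hp i => by rw [hpv b hb1 m hm i]; exact h6 p hp i⟩
                  _ = _ := by convert f3 (fun n => ∀ p ∈ pz w, ∀ i, ¬ p ∣ pv n (s i (l i) * g i n + h i n + b i))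
              unfold Sf
              rw [← c3]
            rw [c1, c2, prod_const, card_univ, Fintype.card_fin, ← hLd] at h5
            refine h5.trans ?_
            apply add_le_add le_rfl
            apply div_le_div_of_nonneg_left hM0r.le (by positivity)
            exact pow_le_pow_left₀ hL0.le hLX _)
        (by
          intro b hb b' hb' hbb
          rw [mem_coe, mem_filter, Fintype.mem_piFinset] at hb hb'
          funext i
          have h6 := congrFun hbb i
          simp only at h6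
          have h7 := mem_Ioc.1 (hb.1 i)
          have h8 := mem_Ioc.1 (hb'.1 i)
          omega)
      exact_mod_cast h5
    refine hcard.trans (key.trans ?_)
    -- the final bound
    have hwpos : 1 ≤ w := by
      by_contra h
      have hw0 : w = 0 := by omega
      rw [hw0, zero_add, one_pow] at hw2
      omega
    have hlQ : L ≤ w + 1 := by
      have h5 : L ^ Q ≤ ((w : ℝ) + 1) ^ Q := by
        calc L ^ Q ≤ L ^ (max C Q + 1) := by
              apply pow_le_pow_right₀ hL1
              have := le_max_right C Q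
              omega
          _ ≤ M := hMC
          _ ≤ ((w : ℝ) + 1) ^ Q := by exact_mod_cast hw2.le
      exact le_of_pow_le_pow_left₀ (by omega) (by positivity) h5
    have hκ := kappa_bound' ((2 : ℝ) ^ (k + 1)) (by positivity) Q M w hM1 hw2 hQ hwpos (by
      have e5 : ((2 : ℝ) ^ (k + 1)) ^ 4 = 2 ^ (4 * (k + 1)) := by rw [← pow_mul, mul_comm]
      rw [e5]
      have : (0 : ℝ) < 2 ^ (4 * (k + 1)) := by positivity
      linarith)
    calc 2 * ((∏ _i : Fin k, ((2 * N : ℕ) : ℝ)) / √(w : ℝ)) = ((2 : ℝ) ^ (k + 1) / √(w : ℝ)) * (N : ℝ) ^ k := by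
          rw [prod_const, card_univ, Fintype.card_fin]
          push_cast
          rw [mul_pow]
          ring
      _ ≤ _ := mul_le_mul_of_nonneg_right hκ (by positivity)

end Pool.Agent.K7.H49.LT
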