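import Mathlib
import Pool.Agent.K7.H49.LT.DN1
import Pool.Agent.K7.H49.LT.Nth

set_option autoImplicit false

/-! Dense sequences and thin families of shifts: the number of prime tuples. -/

namespace Pool.Agent.K7.H49.LT
open Finset Pool.Agent.H373R2.T7

/-- the number of the `n` for which the values have no prime factor `≤ z`, times the Mertens factor -/
noncomputable def SfD {k : ℕ} (f : Fin k → ℕ → ℕ) (c : Fin k → ℤ) (𝒩 : Finset ℕ) (z : ℕ) : ℝ :=
  (Vz z)⁻¹ ^ k * (𝒩.filter (fun n => ∀ p ∈ pz z, ∀ i, ¬ (p : ℤ) ∣ (f i n : ℤ) + c i)).card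

/-- the number of the `n` for which all values are prime -/
noncomputable def cntD {k : ℕ} (f : Fin k → ℕ → ℕ) (c : Fin k → ℤ) (𝒩 : Finset ℕ) : ℕ :=
  (𝒩.filter (fun n => ∀ i, ((f i n : ℤ) + c i).toNat.Prime)).card

lemma SfD_eq {k : ℕ} (f : Fin k → ℕ → ℕ) (c : Fin k → ℤ) (𝒩 : Finset ℕ) (z : ℕ) (h : ∀ i, ∀ n ∈ 𝒩, 0 < (f i n : ℤ) + c i) :
    ∑ n ∈ 𝒩, ∏ i, lamzI z ((f i n : ℤ) + c i) = SfD f c 𝒩 z := by
  unfold SfD
  rw [card_filter]
  push_cast
  rw [mul_sum]
  apply sum_congr rfl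
  intro n hn
  have g1 : ∀ i, lamzI z ((f i n : ℤ) + c i) = if ∀ p ∈ pz z, ¬ (p : ℤ) ∣ (f i n : ℤ) + c i then (Vz z)⁻¹ else 0 := by
    intro i
    have h1 := h i n hn
    unfold lamzI lamz
    rw [if_pos (by omega)]
    have h2 : ∀ p : ℕ, p ∣ ((f i n : ℤ) + c i).toNat ↔ (p : ℤ) ∣ (f i n : ℤ) + c i := by
      intro p
      rw [← Int.natCast_dvd_natCast, Int.toNat_of_nonneg h1.le]
    simp only [h2]
  rw [prod_congr rfl fun i _ => g1 i]
  by_cases ha : ∀ p ∈ pz z, ∀ i, ¬ (p : ℤ) ∣ (f i n : ℤ) + c i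
  · rw [if_pos ha, mul_one]
    have : ∀ i ∈ (univ : Finset (Fin k)), (if ∀ p ∈ pz z, ¬ (p : ℤ) ∣ (f i n : ℤ) + c i then (Vz z)⁻¹ else 0) = (Vz z)⁻¹ := by
      intro i _
      rw [if_pos]
      intro p hp
      exact ha p hp i
    rw [prod_congr rfl this, prod_const, card_univ, Fintype.card_fin]
  · rw [if_neg ha, mul_zero]
    push Not at ha
    obtain ⟨p, hp, i, hi⟩ := ha
    apply prod_eq_zero (mem_univ i)
    rw [if_neg]
    intro h
    exact h p hp hi

/-- the number of `n` with some value in a given set -/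
lemma card_some {k : ℕ} (v : Fin k → ℕ → ℕ) (𝒩 : Finset ℕ) (S : Finset ℕ) (hinj : ∀ i, ∀ n ∈ 𝒩, ∀ n' ∈ 𝒩, n ≠ n' → v i n ≠ v i n') :
    (𝒩.filter (fun n => ∃ i, v i n ∈ S)).card ≤ k * S.card := by
  classical
  have h1 : 𝒩.filter (fun n => ∃ i, v i n ∈ S) ⊆ (univ : Finset (Fin k)).biUnion (fun i => 𝒩.filter (fun n => v i n ∈ S)) := by
    intro n hn
    rw [mem_filter] at hn
    obtain ⟨hn1, i, hi⟩ := hn
    rw [mem_biUnion]
    exact ⟨i, mem_univ _, mem_filter.2 ⟨hn1, hi⟩⟩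
  calc _ ≤ ((univ : Finset (Fin k)).biUnion (fun i => 𝒩.filter (fun n => v i n ∈ S))).card := card_le_card h1
    _ ≤ ∑ i, (𝒩.filter (fun n => v i n ∈ S)).card := card_biUnion_le
    _ ≤ ∑ _i : Fin k, S.card := by
        apply sum_le_sum
        intro i _
        apply card_le_card_of_injOn (v i)
        · intro n hn
          rw [mem_coe, mem_filter] at hn
          exact hn.2
        · intro n hn n' hn' h2
          rw [mem_coe, mem_filter] at hn hn'
          by_contra hne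
          exact hinj i n hn.1 n' hn'.1 hne h2
    _ = k * S.card := by rw [sum_const, card_univ, Fintype.card_fin, smul_eq_mul]

/-- the comparison of the weighted sum with the number of primes -/
lemma weigh {k : ℕ} (v : Fin k → ℕ → ℕ) (𝒩 : Finset ℕ) (X2 : ℕ) (L η Y : ℝ) (hL : 1 ≤ L) (hη : 0 < η) (hη1 : η < 1) (hY : 0 ≤ Y)
    (hinj : ∀ i, ∀ n ∈ 𝒩, ∀ n' ∈ 𝒩, n ≠ n' → v i n ≠ v i n')
    (hv1 : ∀ i, ∀ n ∈ 𝒩, 1 ≤ v i n ∧ v i n ≤ X2) (hlogX : Real.log X2 ≤ (1 + η) * L) (hlogY : ∀ m : ℕ, Y < m → (1 - η) * L ≤ Real.log m) :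
    ∑ n ∈ 𝒩, ∏ i, ArithmeticFunction.vonMangoldt (v i n) ≤ (1 + η) ^ k * L ^ k * (𝒩.filter (fun n => ∀ i, (v i n).Prime)).card +
      (2 * L) ^ k * (k * (PP X2).card) ∧
    (1 - η) ^ k * L ^ k * ((𝒩.filter (fun n => ∀ i, (v i n).Prime)).card - k * Y) ≤
      ∑ n ∈ 𝒩, ∏ i, ArithmeticFunction.vonMangoldt (v i n) := by
  classical
  set Pn := 𝒩.filter (fun n => ∀ i, (v i n).Prime) with hPn
  have hΛ : ∀ i, ∀ n ∈ 𝒩, ArithmeticFunction.vonMangoldt (v i n) ≤ (1 + η) * L := by
    intro i n hn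
    refine ArithmeticFunction.vonMangoldt_le_log.trans ((Real.log_le_log ?_ ?_).trans hlogX)
    · exact_mod_cast (hv1 i n hn).1
    · exact_mod_cast (hv1 i n hn).2
  have hprod : ∀ n ∈ 𝒩, ∏ i, ArithmeticFunction.vonMangoldt (v i n) ≤ ((1 + η) * L) ^ k := by
    intro n hn
    calc ∏ i, ArithmeticFunction.vonMangoldt (v i n) ≤ ∏ _i : Fin k, ((1 + η) * L) := by
          apply prod_le_prod
          · intro i _
            exact ArithmeticFunction.vonMangoldt_nonneg
          · intro i _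
            exact hΛ i n hn
      _ = _ := by rw [prod_const, card_univ, Fintype.card_fin]
  constructor
  · have h1 : ∀ n ∈ 𝒩, ∏ i, ArithmeticFunction.vonMangoldt (v i n) ≤
        (if ∀ i, (v i n).Prime then (1 + η) ^ k * L ^ k else 0) + (if ∃ i, v i n ∈ PP X2 then (2 * L) ^ k else 0) := by
      intro n hn
      by_cases h2 : ∀ i, (v i n).Prime
      · rw [if_pos h2, ← mul_pow]
        have : (0 : ℝ) ≤ if ∃ i, v i n ∈ PP X2 then (2 * L) ^ k else 0 := by
          split_ifs <;> positivity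
        linarith [hprod n hn]
      · rw [if_neg h2, zero_add]
        by_cases h3 : ∃ i, v i n ∈ PP X2
        · rw [if_pos h3]
          refine (hprod n hn).trans ?_
          apply pow_le_pow_left₀ (by positivity)
          nlinarith
        · rw [if_neg h3]
          push Not at h2 h3
          obtain ⟨i, hi⟩ := h2
          apply le_of_eq
          apply prod_eq_zero (mem_univ i)
          by_contra h4
          apply h3 i
          unfold PP
          rw [mem_filter, mem_Icc]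
          exact ⟨hv1 i n hn, h4, hi⟩
    refine (sum_le_sum h1).trans ?_
    rw [sum_add_distrib, ← sum_filter, ← sum_filter, sum_const, sum_const, nsmul_eq_mul, nsmul_eq_mul, mul_comm]
    apply add_le_add le_rfl
    rw [mul_comm]
    apply mul_le_mul_of_nonneg_left _ (by positivity)
    exact_mod_cast card_some v 𝒩 (PP X2) hinj
  · set small := 𝒩.filter (fun n => ∃ i, v i n ∈ Icc 1 ⌊Y⌋₊) with hsmall
    have hsm : (small.card : ℝ) ≤ k * Y := by
      have h1 := card_some v 𝒩 (Icc 1 ⌊Y⌋₊) hinj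
      rw [Nat.card_Icc, Nat.add_sub_cancel] at h1
      calc (small.card : ℝ) ≤ ((k * ⌊Y⌋₊ : ℕ) : ℝ) := by exact_mod_cast h1
        _ = k * (⌊Y⌋₊ : ℝ) := by push_cast; ring
        _ ≤ k * Y := mul_le_mul_of_nonneg_left (Nat.floor_le hY) (Nat.cast_nonneg _)
    have h1 : (Pn.card : ℝ) - k * Y ≤ ((Pn \ small).card : ℝ) := by
      have h2 : Pn.card ≤ (Pn \ small).card + small.card := by
        have := card_le_card (show Pn ⊆ (Pn \ small) ∪ small by
          intro n hn
          rw [mem_union, mem_sdiff]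
          by_cases h : n ∈ small
          · exact Or.inr h
          · exact Or.inl ⟨hn, h⟩)
        exact this.trans (card_union_le _ _)
      have h3 : (Pn.card : ℝ) ≤ (Pn \ small).card + small.card := by exact_mod_cast h2
      linarith
    have hη2 : 0 < 1 - η := by linarith
    calc (1 - η) ^ k * L ^ k * (Pn.card - k * Y) ≤ (1 - η) ^ k * L ^ k * ((Pn \ small).card : ℝ) :=
          mul_le_mul_of_nonneg_left h1 (by positivity)
      _ = ∑ _n ∈ Pn \ small, ((1 - η) * L) ^ k := by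
          rw [sum_const, nsmul_eq_mul, mul_pow]
          ring
      _ ≤ ∑ n ∈ Pn \ small, ∏ i, ArithmeticFunction.vonMangoldt (v i n) := by
          apply sum_le_sum
          intro n hn
          rw [mem_sdiff, hPn, mem_filter] at hn
          calc ((1 - η) * L) ^ k = ∏ _i : Fin k, ((1 - η) * L) := by rw [prod_const, card_univ, Fintype.card_fin]
            _ ≤ ∏ i, ArithmeticFunction.vonMangoldt (v i n) := by
                apply prod_le_prod
                · intro i _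
                  positivity
                · intro i _
                  rw [ArithmeticFunction.vonMangoldt_apply_prime (hn.1.2 i)]
                  apply hlogY
                  by_contra hcon
                  rw [not_lt] at hcon
                  apply hn.2
                  rw [hsmall, mem_filter]
                  exact ⟨hn.1.1, i, mem_Icc.2 ⟨(hv1 i n hn.1.1).1, Nat.le_floor hcon⟩⟩
      _ ≤ _ := by
          apply sum_le_sum_of_subset_of_nonneg
          · intro n hn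
            rw [mem_sdiff, hPn, mem_filter] at hn
            exact hn.1.1
          · intro n _ _
            exact prod_nonneg fun i _ => ArithmeticFunction.vonMangoldt_nonneg

lemma fin_arith (c S R δ ε ε' NA : ℝ) (hε'0 : 0 < ε') (hε'1 : ε' ≤ 1 / 4) (hε'2 : 4 * ε' ≤ ε) (hS0 : 0 ≤ S) (hcL : 0 ≤ c)
    (hδ0 : 0 < δ) (hδA : 8 * δ ≤ NA) (q1 : R ≤ (1 + ε') * c + δ / 2) (q2 : (1 - ε') * c - δ / 2 ≤ R) (hcon : |R - S| ≤ δ) :
    |c - S| ≤ ε * S + NA := by
  rw [abs_le] at hcon ⊢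
  have q3 : ε' * S ≤ ε / 4 * S := mul_le_mul_of_nonneg_right (by linarith) hS0
  have q4 : 0 ≤ ε' * δ := by positivity
  have q5 : ε' * δ ≤ δ := by nlinarith
  constructor
  · -- lower bound for the count
    have g1 : (1 + ε') * c ≥ S - 3 / 2 * δ := by linarith [hcon.1]
    have g2 : (1 - ε') * (S - 3 / 2 * δ) ≤ c := by
      have g3 : (1 - ε') * (S - 3 / 2 * δ) ≤ (1 - ε') * ((1 + ε') * c) := mul_le_mul_of_nonneg_left g1 (by linarith)
      have g4 : (1 - ε') * ((1 + ε') * c) = (1 - ε' ^ 2) * c := by ring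
      have g5 : (1 - ε' ^ 2) * c ≤ 1 * c := mul_le_mul_of_nonneg_right (by nlinarith) hcL
      linarith
    nlinarith
  · -- upper bound for the count
    have g1 : (1 - ε') * c ≤ S + 3 / 2 * δ := by linarith [hcon.2]
    have g2 : c ≤ (1 + 2 * ε') * (S + 3 / 2 * δ) := by
      have g3 : (1 + 2 * ε') * ((1 - ε') * c) ≤ (1 + 2 * ε') * (S + 3 / 2 * δ) := mul_le_mul_of_nonneg_left g1 (by linarith)
      have g4 : (1 + 2 * ε') * ((1 - ε') * c) = (1 + ε' * (1 - 2 * ε')) * c := by ring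
      have g5 : 1 * c ≤ (1 + ε' * (1 - 2 * ε')) * c := by
        apply mul_le_mul_of_nonneg_right _ hcL
        have : 0 ≤ ε' * (1 - 2 * ε') := mul_nonneg hε'0.le (by linarith)
        linarith
      linarith
    nlinarith

set_option maxHeartbeats 2000000 in
open Classical in
theorem dense_primes (k A B H : ℕ) (ε : ℝ) (hε : 0 < ε) : ∃ D : ℕ, ∀ E1 : ℕ, ∃ N0 : ℕ, ∀ N : ℕ, N0 ≤ N →
    ∀ (x : Fin k → ℕ) (s : Fin k → ℕ → ℤ) (𝒩 : Finset ℕ) (f : Fin k → ℕ → ℕ),
    (∀ i, ∀ n ∈ 𝒩, 1 ≤ f i n ∧ (f i n : ℝ) ≤ N * Real.log N ^ B) →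
    (∀ i, ∀ n ∈ 𝒩, ∀ n' ∈ 𝒩, n ≠ n' → f i n ≠ f i n') →
    (∀ i, ∀ l ∈ Icc 1 (x i), |(s i l : ℝ)| ≤ N * Real.log N ^ B) →
    (∀ i, ∀ l ∈ Icc 1 (x i), ∀ n ∈ 𝒩, 0 < (f i n : ℤ) + s i l) →
    (∀ i, ∃ r ≤ H, (Pool.Agent.H373R2.T7.energy r (x i) (s i) : ℝ) * N ≤ Real.log N ^ B * (x i : ℝ) ^ (2 * r)) →
    ∀ z : ℕ, Real.log N ^ D ≤ z → (z : ℝ) ≤ Real.log N ^ E1 →
    (((Fintype.piFinset (fun i => Icc 1 (x i))).filter (fun l => ¬
      |(cntD f (fun i => s i (l i)) 𝒩 : ℝ) * Real.log N ^ k - SfD f (fun i => s i (l i)) 𝒩 z| ≤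
        ε * SfD f (fun i => s i (l i)) 𝒩 z + N / Real.log N ^ A)).card : ℝ) ≤
      (∏ i, (x i : ℝ)) / Real.log N ^ A := by
  set ε' : ℝ := min ε 1 / 4 with hε'
  have hε'0 : 0 < ε' := by have := lt_min hε one_pos; positivity
  have hε'1 : ε' ≤ 1 / 4 := by rw [hε']; have := min_le_right ε 1; linarith
  have hε'2 : 4 * ε' ≤ ε := by rw [hε']; have := min_le_left ε 1; linarith
  set η : ℝ := ε' / (2 * (k + 1)) with hη
  have hη0 : 0 < η := by positivity
  have hk0 : (0 : ℝ) ≤ k := Nat.cast_nonneg _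
  have hη1 : η ≤ 1 / 8 := by
    rw [hη, div_le_iff₀ (by positivity)]
    nlinarith
  have hkη : k * η ≤ ε' / 2 := by
    rw [hη]
    have : (k : ℝ) * (ε' / (2 * (k + 1))) = (ε' / 2) * (k / (k + 1)) := by field_simp
    rw [this]
    have h2 : (k : ℝ) / (k + 1) ≤ 1 := by rw [div_le_one (by positivity)]; linarith
    nlinarith
  have hup : (1 + η) ^ k ≤ 1 + ε' := by
    have h1 : (1 + η) ^ k ≤ Real.exp (k * η) := by
      rw [Real.exp_nat_mul]
      apply pow_le_pow_left₀ (by positivity)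
      have := Real.add_one_le_exp η
      linarith
    have h2 : Real.exp (k * η) ≤ Real.exp (ε' / 2) := Real.exp_le_exp.2 hkη
    have h3 := Real.abs_exp_sub_one_sub_id_le (show |ε' / 2| ≤ 1 by rw [abs_of_nonneg (by positivity)]; linarith)
    have h4 := (abs_le.1 h3).2
    nlinarith
  have hlow : 1 - ε' ≤ (1 - η) ^ k := by
    have h1 := one_add_mul_le_pow (show (-2 : ℝ) ≤ -η by linarith) k
    have h2 : (1 + -η) ^ k = (1 - η) ^ k := by ring
    rw [h2] at h1
    linarith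
  obtain ⟨D, hD⟩ := dense_main k (A + 1) B H
  refine ⟨D, fun E1 => ?_⟩
  obtain ⟨n1, h1⟩ := hD E1
  obtain ⟨n2, h2⟩ := ev_L' 8
  obtain ⟨n3, h3⟩ := ev_log' (B + k + A + 2) (64 * k * 2 ^ k)
  obtain ⟨n4, h4⟩ := Pool.Agent.K7.H49.PR.ev_pow (B + 1) 1 η hη0
  obtain ⟨n5, h5⟩ := Pool.Agent.K7.H49.PR.ev_pow (k + A + 1) (2 * k) η hη0
  refine ⟨max (max n1 n2) (max n3 (max n4 (max n5 3))), fun N hN x s 𝒩 f hf hinj hs hpos hE z hz1 hz2 => ?_⟩
  have b1 : n1 ≤ N := le_trans (le_trans (le_max_left _ _) (le_max_left _ _)) hN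
  have b2 : n2 ≤ N := le_trans (le_trans (le_max_right _ _) (le_max_left _ _)) hN
  have b3 : n3 ≤ N := le_trans (le_trans (le_max_left _ _) (le_max_right _ _)) hN
  have b4 : n4 ≤ N := le_trans (le_trans (le_trans (le_max_left _ _) (le_max_right _ _)) (le_max_right _ _)) hN
  have b5 : n5 ≤ N := le_trans (le_trans (le_trans (le_trans (le_max_left _ _) (le_max_right _ _)) (le_max_right _ _)) (le_max_right _ _)) hN
  have b6 : 3 ≤ N := le_trans (le_trans (le_trans (le_trans (le_max_right _ _) (le_max_right _ _)) (le_max_right _ _)) (le_max_right _ _)) hN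
  have key := h1 N b1 x s 𝒩 f hf hinj hs hE z hz1 hz2
  have hL8 := h2 N b2
  have a3 := h3 N b3
  have a4 := h4 N b4
  have a5 := h5 N b5
  rw [one_mul] at a4
  have hNr : (3 : ℝ) ≤ N := by exact_mod_cast b6
  have hN0 : (0 : ℝ) < N := by linarith
  set L := Real.log N with hLd
  have hL1 : 1 ≤ L := by linarith
  have hL0 : 0 < L := by linarith
  have hLB1 : 1 ≤ L ^ B := one_le_pow₀ hL1
  set X2 : ℕ := ⌊2 * N * L ^ B⌋₊ with hX2
  have hX2r : (X2 : ℝ) ≤ 2 * N * L ^ B := Nat.floor_le (by positivity)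
  have hX21 : 1 ≤ X2 := by
    apply Nat.le_floor
    push_cast
    nlinarith
  have hX2r1 : (1 : ℝ) ≤ X2 := by exact_mod_cast hX21
  have hlogX2 : Real.log X2 ≤ (1 + η) * L := by
    have g1 : (X2 : ℝ) ≤ N * (N : ℝ) ^ η := by
      refine hX2r.trans ?_
      calc 2 * N * L ^ B ≤ N * L ^ (B + 1) := by rw [pow_succ]; nlinarith
        _ ≤ N * (N : ℝ) ^ η := mul_le_mul_of_nonneg_left a4 hN0.le
    have g2 := Real.log_le_log (by linarith) g1
    rw [Real.log_mul hN0.ne' (by positivity), Real.log_rpow hN0] at g2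
    linarith
  set Y : ℝ := (N : ℝ) ^ (1 - η) with hY
  have hlogY : ∀ m : ℕ, Y < m → (1 - η) * L ≤ Real.log m := by
    intro m hm
    have g1 := Real.log_le_log (by positivity) hm.le
    rwa [hY, Real.log_rpow hN0] at g1
  -- the errors
  have hPPc : ((PP X2).card : ℝ) ≤ 16 * (√(N : ℝ) * L ^ (B + 1)) := by
    have g1 := pp_card X2 hX21
    have g2 : √(X2 : ℝ) ≤ √(N : ℝ) * (2 * L ^ B) := by
      calc √(X2 : ℝ) ≤ √(N * (2 * L ^ B) ^ 2) := by
            apply Real.sqrt_le_sqrt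
            refine hX2r.trans ?_
            nlinarith
        _ = √(N : ℝ) * (2 * L ^ B) := by rw [Real.sqrt_mul hN0.le, Real.sqrt_sq (by positivity)]
    have g3 : Real.log X2 ≤ 2 * L := by nlinarith
    have g4 : 0 ≤ Real.log (X2 : ℝ) := Real.log_natCast_nonneg _
    calc ((PP X2).card : ℝ) ≤ 4 * (√(X2 : ℝ) * Real.log X2) := g1
      _ ≤ 4 * ((√(N : ℝ) * (2 * L ^ B)) * (2 * L)) := by
          apply mul_le_mul_of_nonneg_left _ (by norm_num)
          exact mul_le_mul g2 g3 g4 (by positivity)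
      _ = _ := by rw [pow_succ]; ring
  set δ : ℝ := N / L ^ (A + 1) with hδ
  have hδ0 : 0 < δ := by positivity
  have herr1 : (2 * L) ^ k * (k * (PP X2).card) ≤ δ / 2 := by
    rw [hδ, div_div, le_div_iff₀ (by positivity)]
    calc (2 * L) ^ k * (k * (PP X2).card) * (L ^ (A + 1) * 2) ≤
          (2 * L) ^ k * (k * (16 * (√(N : ℝ) * L ^ (B + 1)))) * (L ^ (A + 1) * 2) := by
          apply mul_le_mul_of_nonneg_right _ (by positivity)
          apply mul_le_mul_of_nonneg_left _ (by positivity)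
          exact mul_le_mul_of_nonneg_left hPPc hk0
      _ = (32 * k * 2 ^ k * L ^ (B + k + A + 2)) * √(N : ℝ) := by
          have e : L ^ (B + k + A + 2) = L ^ k * L ^ (B + 1) * L ^ (A + 1) := by
            rw [← pow_add, ← pow_add]
            congr 1
            omega
          rw [e, mul_pow]
          ring
      _ ≤ √(N : ℝ) * √(N : ℝ) := by
          apply mul_le_mul_of_nonneg_right _ (Real.sqrt_nonneg _)
          refine le_trans ?_ a3
          apply mul_le_mul_of_nonneg_right _ (by positivity)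
          have : (0 : ℝ) ≤ k * 2 ^ k := by positivity
          nlinarith
      _ = N := Real.mul_self_sqrt hN0.le
  have herr2 : L ^ k * (k * Y) ≤ δ / 2 := by
    rw [hδ, div_div, le_div_iff₀ (by positivity)]
    calc L ^ k * (k * Y) * (L ^ (A + 1) * 2) = (2 * k * L ^ (k + A + 1)) * Y := by
          have e : L ^ (k + A + 1) = L ^ k * L ^ (A + 1) := by rw [← pow_add]; congr 1
          rw [e]
          ring
      _ ≤ (N : ℝ) ^ η * Y := mul_le_mul_of_nonneg_right a5 (by positivity)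
      _ = N := by
          rw [hY, ← Real.rpow_add hN0]
          simp
  -- the inclusion
  refine le_trans ?_ (key.trans ?_)
  · apply Nat.cast_le.2
    apply card_le_card
    intro l hl
    rw [mem_filter] at hl ⊢
    refine ⟨hl.1, ?_⟩
    by_contra hcon
    rw [not_lt] at hcon
    apply hl.2
    have hlx := Fintype.mem_piFinset.1 hl.1
    have hp : ∀ i, ∀ n ∈ 𝒩, 0 < (f i n : ℤ) + s i (l i) := fun i n hn => hpos i (l i) (hlx i) n hn
    have hSf := SfD_eq f (fun i => s i (l i)) 𝒩 z hp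
    set S := SfD f (fun i => s i (l i)) 𝒩 z with hS
    have hS0 : 0 ≤ S := by
      rw [hS]
      unfold SfD
      have := Vz_pos z
      positivity
    set v : Fin k → ℕ → ℕ := fun i n => ((f i n : ℤ) + s i (l i)).toNat with hv
    have hvz : ∀ i, ∀ n ∈ 𝒩, ((v i n : ℕ) : ℤ) = (f i n : ℤ) + s i (l i) := fun i n hn => Int.toNat_of_nonneg (hp i n hn).le
    have hW := weigh v 𝒩 X2 L η Y hL1 hη0 (by linarith) (by positivity)
      (fun i n hn n' hn' hne h => by
        apply hinj i n hn n' hn' hne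
        have g1 := hvz i n hn
        have g2 := hvz i n' hn'
        rw [h, g2] at g1
        have : (f i n' : ℤ) = f i n := by linarith
        exact_mod_cast this.symm)
      (fun i n hn => by
        have g1 := hvz i n hn
        have g2 := hp i n hn
        refine ⟨by omega, ?_⟩
        apply Nat.le_floor
        have g3 : ((v i n : ℕ) : ℝ) = (f i n : ℝ) + s i (l i) := by exact_mod_cast congrArg (fun t : ℤ => (t : ℝ)) g1
        rw [g3]
        have g4 := (hf i n hn).2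
        have g5 := (abs_le.1 (hs i (l i) (hlx i))).2
        linarith) hlogX2 hlogY
    have hR : ∑ n ∈ 𝒩, ∏ i, lamI ((f i n : ℤ) + s i (l i)) = ∑ n ∈ 𝒩, ∏ i, ArithmeticFunction.vonMangoldt (v i n) := by
      apply sum_congr rfl
      intro n hn
      apply prod_congr rfl
      intro i _
      unfold lamI
      have := hp i n hn
      rw [if_pos (by omega)]
    rw [sum_sub_distrib, hSf, hR] at hcon
    set R := ∑ n ∈ 𝒩, ∏ i, ArithmeticFunction.vonMangoldt (v i n) with hRd
    have hcnt : ((𝒩.filter (fun n => ∀ i, (v i n).Prime)).card : ℝ) = cntD f (fun i => s i (l i)) 𝒩 := rfl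
    rw [hcnt] at hW
    set ct : ℝ := (cntD f (fun i => s i (l i)) 𝒩 : ℝ) with hct
    have hct0 : 0 ≤ ct := Nat.cast_nonneg _
    obtain ⟨w1, w2⟩ := hW
    have hLk0 : 0 < L ^ k := by positivity
    have hcL : 0 ≤ ct * L ^ k := by positivity
    -- upper bound for R
    have q1 : R ≤ (1 + ε') * (ct * L ^ k) + δ / 2 := by
      refine w1.trans (add_le_add ?_ herr1)
      calc (1 + η) ^ k * L ^ k * ct = (1 + η) ^ k * (ct * L ^ k) := by ring
        _ ≤ _ := mul_le_mul_of_nonneg_right hup hcL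
    have q2 : (1 - ε') * (ct * L ^ k) - δ / 2 ≤ R := by
      have g1 : (1 - η) ^ k ≤ 1 := pow_le_one₀ (by linarith) (by linarith)
      have g2 : (1 - η) ^ k * L ^ k * (ct - k * Y) = (1 - η) ^ k * (ct * L ^ k) - (1 - η) ^ k * (L ^ k * (k * Y)) := by ring
      rw [g2] at w2
      have g3 : (1 - ε') * (ct * L ^ k) ≤ (1 - η) ^ k * (ct * L ^ k) := mul_le_mul_of_nonneg_right hlow hcL
      have g4 : 0 ≤ L ^ k * (k * Y) := by positivity
      have g5 : (1 - η) ^ k * (L ^ k * (k * Y)) ≤ 1 * (L ^ k * (k * Y)) := mul_le_mul_of_nonneg_right g1 g4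
      linarith
    have hδA : 8 * δ ≤ N / L ^ A := by
      have e : (N : ℝ) / L ^ A = L * δ := by rw [hδ, pow_succ]; field_simp
      rw [e]
      exact mul_le_mul_of_nonneg_right hL8 hδ0.le
    exact fin_arith (ct * L ^ k) S R δ ε ε' (N / L ^ A) hε'0 hε'1 hε'2 hS0 hcL hδ0 hδA q1 q2 hcon
  · apply div_le_div_of_nonneg_left (prod_nonneg fun _ _ => Nat.cast_nonneg _) (by positivity)
    exact pow_le_pow_right₀ hL1 (by omega)

end Pool.Agent.K7.H49.LT
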