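import Mathlib
import Pool.Agent.K7.H49.LT.LinFam

set_option autoImplicit false

/-! The set of good leading coefficients contains almost all integers and almost all members of
families of nearly minimal additive energy. -/

namespace Pool.Agent.K7.H49.LT
open Finset

open Classical in
theorem dens (E A B H : ℕ) : ∃ E1 N0 : ℕ,
    (∀ N : ℕ, N0 ≤ N → (((Icc 1 N).filter (fun a => ¬ Gd E E1 a)).card : ℝ) ≤ N / Real.log N ^ A) ∧
    (∀ h : ℕ, h ≤ H → ∀ N : ℕ, N0 ≤ N → ∀ (x : ℕ) (s : ℕ → ℕ), (∀ l ∈ Icc 1 x, s l ≤ B * N) →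
      (Pool.Agent.H373R2.T7.energy h x (fun l => (s l : ℤ)) : ℝ) * N ≤ Real.log N ^ B * (x : ℝ) ^ (2 * h) →
      (((Icc 1 x).filter (fun l => (N : ℝ) ≤ Real.log N ^ B * s l ∧ ¬ Gd E E1 (s l))).card : ℝ) ≤ x / Real.log N ^ A) := by
  obtain ⟨E1, n1, h1⟩ := lin_fam E (A + 1) (max B (A + 2)) (max H 1)
  obtain ⟨n3, h3⟩ := Pool.Agent.H373R2.T7.ev_L' 4
  refine ⟨E1, max n1 (max n3 3), ?_, ?_⟩
  · intro N hN
    have b1 : n1 ≤ N := (le_max_left _ _).trans hN
    have b3 : n3 ≤ N := ((le_max_left _ _).trans (le_max_right _ _)).trans hN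
    have b4 : 3 ≤ N := ((le_max_right _ _).trans (le_max_right _ _)).trans hN
    have hL := h3 N b3
    have hNr : (3 : ℝ) ≤ N := by exact_mod_cast b4
    set L := Real.log N with hLd
    have hL0 : 0 < L := by linarith
    have hL1 : 1 ≤ L := by linarith
    have hen : Pool.Agent.H373R2.T7.energy 1 N (fun l => ((l : ℕ) : ℤ)) ≤ N := by
      unfold Pool.Agent.H373R2.T7.energy
      calc _ ≤ (Fintype.piFinset fun _ : Fin 1 => Icc 1 N).card := by
            apply card_le_card_of_injOn (fun q => q.1)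
            · intro q hq
              rw [mem_coe, mem_filter, mem_product] at hq
              exact hq.1.1
            · intro q hq q' hq' hqq
              rw [mem_coe, mem_filter] at hq hq'
              simp only at hqq
              have e1 := hq.2
              have e2 := hq'.2
              simp only [univ_unique, Fin.default_eq_zero, Fin.isValue, sum_singleton, Nat.cast_inj] at e1 e2
              have e3 : q.2 = q'.2 := by
                funext i
                have hi : i = 0 := Subsingleton.elim _ _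
                rw [hi, ← e1, ← e2, hqq]
              exact Prod.ext hqq e3
        _ = N := by simp
    have key := h1 1 (le_max_right _ _) N b1 N (fun l => l) (fun l hl => by
        have h5 := (mem_Icc.1 hl).2
        have h6 : 1 ≤ max B (A + 2) := le_trans (by omega) (le_max_right _ _)
        calc l ≤ N := h5
          _ ≤ max B (A + 2) * N := Nat.le_mul_of_pos_left _ h6) (by
        have h5 : (Pool.Agent.H373R2.T7.energy 1 N (fun l => ((l : ℕ) : ℤ)) : ℝ) ≤ N := by exact_mod_cast hen
        have h6 : 1 ≤ L ^ max B (A + 2) := one_le_pow₀ hL1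
        have h7 : (0 : ℝ) ≤ (N : ℝ) ^ 2 := by positivity
        calc _ ≤ (N : ℝ) * N := mul_le_mul_of_nonneg_right h5 (by positivity)
          _ = 1 * (N : ℝ) ^ (2 * 1) := by ring
          _ ≤ _ := mul_le_mul_of_nonneg_right h6 (by positivity))
    have hsub : (Icc 1 N).filter (fun a => ¬ Gd E E1 a) ⊆
        ((Icc 1 N).filter (fun l => (N : ℝ) ≤ L ^ max B (A + 2) * l ∧ ¬ Gd E E1 l)) ∪
        Icc 1 ⌊(N : ℝ) / L ^ (A + 2)⌋₊ := by
      intro l hl
      rw [mem_filter] at hl
      rw [mem_union]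
      by_cases h5 : (N : ℝ) ≤ L ^ max B (A + 2) * l
      · left
        rw [mem_filter]
        exact ⟨hl.1, h5, hl.2⟩
      · right
        rw [mem_Icc]
        refine ⟨(mem_Icc.1 hl.1).1, Nat.le_floor ?_⟩
        rw [not_le] at h5
        rw [le_div_iff₀ (by positivity)]
        have h6 : L ^ (A + 2) ≤ L ^ max B (A + 2) := pow_le_pow_right₀ hL1 (le_max_right _ _)
        have h7 : (0 : ℝ) ≤ l := Nat.cast_nonneg _
        nlinarith
    have h5 : (((Icc 1 N).filter (fun a => ¬ Gd E E1 a)).card : ℝ) ≤ N / L ^ (A + 1) + N / L ^ (A + 2) := by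
      have h6 := (card_le_card hsub).trans (card_union_le _ _)
      rw [Nat.card_Icc, Nat.add_sub_cancel] at h6
      have h7 : (((Icc 1 N).filter (fun a => ¬ Gd E E1 a)).card : ℝ) ≤
          (((Icc 1 N).filter (fun l : ℕ => (N : ℝ) ≤ L ^ max B (A + 2) * l ∧ ¬ Gd E E1 l)).card : ℝ) +
          (⌊(N : ℝ) / L ^ (A + 2)⌋₊ : ℝ) := by exact_mod_cast h6
      refine h7.trans (add_le_add key ?_)
      exact Nat.floor_le (by positivity)
    refine h5.trans ?_
    have e1 : (N : ℝ) / L ^ (A + 1) = (N / L ^ A) * (1 / L) := by rw [pow_succ]; field_simp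
    have e2 : (N : ℝ) / L ^ (A + 2) = (N / L ^ A) * (1 / L) ^ 2 := by rw [pow_add]; field_simp
    rw [e1, e2, ← mul_add]
    have h6 : 1 / L ≤ 1 / 4 := one_div_le_one_div_of_le (by norm_num) hL
    have h7 : 0 ≤ 1 / L := by positivity
    have h8 : 1 / L + (1 / L) ^ 2 ≤ 1 := by nlinarith
    have h9 : 0 ≤ (N : ℝ) / L ^ A := by positivity
    nlinarith
  · intro h hh N hN x s hs hE
    have b1 : n1 ≤ N := (le_max_left _ _).trans hN
    have b3 : n3 ≤ N := ((le_max_left _ _).trans (le_max_right _ _)).trans hN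
    have hL := h3 N b3
    set L := Real.log N with hLd
    have hL1 : 1 ≤ L := by linarith
    have hpw : L ^ B ≤ L ^ max B (A + 2) := pow_le_pow_right₀ hL1 (le_max_left _ _)
    have key := h1 h (hh.trans (le_max_left _ _)) N b1 x s (fun l hl => (hs l hl).trans (Nat.mul_le_mul_right _ (le_max_left _ _)))
      (hE.trans (mul_le_mul_of_nonneg_right hpw (by positivity)))
    have hsub : (Icc 1 x).filter (fun l => (N : ℝ) ≤ L ^ B * s l ∧ ¬ Gd E E1 (s l)) ⊆
        (Icc 1 x).filter (fun l => (N : ℝ) ≤ L ^ max B (A + 2) * s l ∧ ¬ Gd E E1 (s l)) := by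
      intro l hl
      rw [mem_filter] at hl ⊢
      exact ⟨hl.1, hl.2.1.trans (mul_le_mul_of_nonneg_right hpw (Nat.cast_nonneg _)), hl.2.2⟩
    have h5 : (((Icc 1 x).filter (fun l => (N : ℝ) ≤ L ^ B * s l ∧ ¬ Gd E E1 (s l))).card : ℝ) ≤ x / L ^ (A + 1) :=
      le_trans (by exact_mod_cast card_le_card hsub) key
    refine h5.trans ?_
    apply div_le_div_of_nonneg_left (Nat.cast_nonneg _) (by positivity)
    exact pow_le_pow_right₀ hL1 (by omega)

end Pool.Agent.K7.H49.LT
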