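import Mathlib
import Pool.Agent.K7.H49.LT.Coll

set_option autoImplicit false

/-! Prime divisors of the members of families of nearly minimal energy. -/

namespace Pool.Agent.K7.H49.LT
open Finset

/-- the sum of `1 / p` over the elements of `P` dividing `m` -/
noncomputable def Om (P : Finset ℕ) (m : ℤ) : ℝ := ∑ p ∈ P, if (p : ℤ) ∣ m then 1 / (p : ℝ) else 0

lemma Om_nonneg (P : Finset ℕ) (m : ℤ) : 0 ≤ Om P m := sum_nonneg fun p _ => by split_ifs <;> positivity

lemma class_card (G H : ℤ) (e Y : ℕ) (he : 1 ≤ e) (heY : e ≤ Y) (hG : IsCoprime (e : ℤ) G) :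
    (((Icc (-(Y : ℤ)) Y).filter (fun m => (e : ℤ) ∣ G * m + H)).card : ℝ) ≤ 4 * Y / e := by
  have he0 : (0 : ℤ) < e := by exact_mod_cast he
  have h1 : ((Icc (-(Y : ℤ)) Y).filter (fun m => (e : ℤ) ∣ G * m + H)).card ≤ (range (2 * Y / e + 1)).card := by
    apply card_le_card_of_injOn (fun m : ℤ => ((m + (Y : ℤ)) / (e : ℤ)).toNat)
    · intro m hm
      rw [mem_coe, mem_filter, mem_Icc] at hm
      rw [mem_coe, mem_range]
      have h2 : (m + Y) / (e : ℤ) ≤ ((2 * Y / e : ℕ) : ℤ) := by
        push_cast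
        apply Int.ediv_le_ediv he0
        linarith [hm.1.2]
      have h3 : 0 ≤ (m + Y) / (e : ℤ) := Int.ediv_nonneg (by linarith [hm.1.1]) he0.le
      simp only
      omega
    · intro m hm m' hm' h2
      rw [mem_coe, mem_filter, mem_Icc] at hm hm'
      simp only at h2
      have h3 : 0 ≤ (m + Y) / (e : ℤ) := Int.ediv_nonneg (by linarith [hm.1.1]) he0.le
      have h4 : 0 ≤ (m' + Y) / (e : ℤ) := Int.ediv_nonneg (by linarith [hm'.1.1]) he0.le
      have h5 : (m + Y) / (e : ℤ) = (m' + Y) / (e : ℤ) := by omega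
      have h6 : (e : ℤ) ∣ (m' + Y) - (m + Y) := by
        have h7 : (e : ℤ) ∣ G * (m' - m) := by
          have h8 := dvd_sub hm'.2 hm.2
          have h9 : G * m' + H - (G * m + H) = G * (m' - m) := by ring
          rwa [h9] at h8
        have h8 := hG.dvd_of_dvd_mul_left h7
        have h9 : (m' + Y : ℤ) - (m + Y) = m' - m := by ring
        rwa [h9]
      have h7 := Int.emod_add_mul_ediv (m + Y) e
      have h8 := Int.emod_add_mul_ediv (m' + Y) e
      have h9 : (m + Y) % (e : ℤ) = (m' + Y) % (e : ℤ) := Int.modEq_iff_dvd.2 h6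
      rw [h5, h9] at h7
      linarith
  rw [card_range] at h1
  have her : (0 : ℝ) < e := by exact_mod_cast he
  have h2 : (((2 * Y / e + 1 : ℕ) : ℕ) : ℝ) ≤ 4 * Y / e := by
    push_cast
    have h3 : ((2 * Y / e : ℕ) : ℝ) ≤ 2 * Y / e := by
      have := Nat.cast_div_le (α := ℝ) (m := 2 * Y) (n := e)
      push_cast at this
      exact this
    have h4 : (1 : ℝ) ≤ Y / e := by
      rw [le_div_iff₀ her, one_mul]
      exact_mod_cast heY
    have h5 : (4 : ℝ) * Y / e = 2 * Y / e + 2 * (Y / e) := by ring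
    rw [h5]
    linarith
  exact le_trans (by exact_mod_cast h1) h2

lemma sum_sq_le (P : Finset ℕ) (w : ℕ) (hw : 1 ≤ w) (hP : ∀ p ∈ P, w < p) : ∑ p ∈ P, 1 / (p : ℝ) ^ 2 ≤ 1 / (w : ℝ) := by
  set n := max (P.sup id) w with hn
  have h1 : P ⊆ Ioc w n := by
    intro p hp
    rw [mem_Ioc]
    exact ⟨hP p hp, (le_sup (f := id) hp).trans (le_max_left _ _)⟩
  have h2 := sum_Ioc_inv_sq_le_sub (α := ℝ) (show w ≠ 0 by omega) (show w ≤ n from le_max_right _ _)
  calc ∑ p ∈ P, 1 / (p : ℝ) ^ 2 ≤ ∑ p ∈ Ioc w n, 1 / (p : ℝ) ^ 2 :=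
        sum_le_sum_of_subset_of_nonneg h1 (fun _ _ _ => by positivity)
    _ = ∑ p ∈ Ioc w n, ((p : ℝ) ^ 2)⁻¹ := sum_congr rfl fun p _ => one_div _
    _ ≤ (w : ℝ)⁻¹ - (n : ℝ)⁻¹ := h2
    _ ≤ 1 / w := by
        rw [one_div]
        have : 0 ≤ (n : ℝ)⁻¹ := by positivity
        linarith

/-- the moments of `Om` over a class -/
lemma moment (P : Finset ℕ) (w z Y : ℕ) (G H : ℤ) (hw : 1 ≤ w)
    (hP : ∀ p ∈ P, p.Prime ∧ w < p ∧ p ≤ z ∧ ¬ (p : ℤ) ∣ G) : ∀ q J e : ℕ, Squarefree e → e.primeFactors ⊆ P →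
    e.primeFactors.card ≤ J → e * z ^ q ≤ Y →
    ∑ m ∈ (Icc (-(Y : ℤ)) Y).filter (fun m => (e : ℤ) ∣ G * m + H), Om P (G * m + H) ^ q ≤
      4 * Y / e * ∏ j ∈ range q, (((J : ℝ) + 1 + j) / w) := by
  have hwr : (1 : ℝ) ≤ w := by exact_mod_cast hw
  have hw0 : (0 : ℝ) < w := by linarith
  intro q
  induction q with
  | zero =>
    intro J e he heP hJ hY
    simp only [pow_zero, sum_const, nsmul_eq_mul, mul_one, range_zero, prod_empty]
    apply class_card G H e Y (Nat.pos_of_ne_zero he.ne_zero) (by simpa using hY)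
    -- coprime
    rw [Int.isCoprime_iff_gcd_eq_one]
    by_contra h
    obtain ⟨p, hp, hpd⟩ := Nat.exists_prime_and_dvd h
    have h1 : (p : ℤ) ∣ (Int.gcd (e : ℤ) G : ℤ) := by exact_mod_cast hpd
    have h2 : (p : ℤ) ∣ (e : ℤ) := h1.trans (Int.gcd_dvd_left _ _)
    have h3 : (p : ℤ) ∣ G := h1.trans (Int.gcd_dvd_right _ _)
    have h4 : p ∈ e.primeFactors := Nat.mem_primeFactors.2 ⟨hp, by exact_mod_cast h2, he.ne_zero⟩
    exact (hP p (heP h4)).2.2.2 h3
  | succ q ih =>
    intro J e he heP hJ hY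
    have he1 : 1 ≤ e := Nat.pos_of_ne_zero he.ne_zero
    have her : (0 : ℝ) < e := by exact_mod_cast he1
    set A := (Icc (-(Y : ℤ)) Y).filter (fun m => (e : ℤ) ∣ G * m + H) with hA
    set B1 : ℝ := ∏ j ∈ range q, (((J : ℝ) + 2 + j) / w) with hB1
    have hB10 : 0 ≤ B1 := prod_nonneg fun _ _ => by positivity
    have hB2 : ∏ j ∈ range q, (((J : ℝ) + 1 + j) / w) ≤ B1 := by
      apply prod_le_prod
      · intro _ _
        positivity
      · intro j _
        apply div_le_div_of_nonneg_right _ hw0.le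
        linarith
    have h1 : ∑ m ∈ A, Om P (G * m + H) ^ (q + 1) = ∑ p ∈ P, (1 / (p : ℝ)) * ∑ m ∈ A.filter (fun m => (p : ℤ) ∣ G * m + H), Om P (G * m + H) ^ q := by
      calc ∑ m ∈ A, Om P (G * m + H) ^ (q + 1) = ∑ m ∈ A, ∑ p ∈ P, (if (p : ℤ) ∣ G * m + H then (1 / (p : ℝ)) * Om P (G * m + H) ^ q else 0) := by
            apply sum_congr rfl
            intro m _
            rw [pow_succ]
            conv_lhs => rw [show Om P (G * m + H) ^ q * Om P (G * m + H) = Om P (G * m + H) ^ q * ∑ p ∈ P, (if (p : ℤ) ∣ G * m + H then 1 / (p : ℝ) else 0) from rfl]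
            rw [mul_sum]
            apply sum_congr rfl
            intro p _
            split_ifs
            · ring
            · ring
        _ = ∑ p ∈ P, ∑ m ∈ A, (if (p : ℤ) ∣ G * m + H then (1 / (p : ℝ)) * Om P (G * m + H) ^ q else 0) := sum_comm
        _ = _ := by
            apply sum_congr rfl
            intro p _
            rw [mul_sum, sum_filter (s := A)]
    rw [h1]
    -- the two kinds of primes
    have h2 : ∀ p ∈ P, (1 / (p : ℝ)) * ∑ m ∈ A.filter (fun m => (p : ℤ) ∣ G * m + H), Om P (G * m + H) ^ q ≤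
        (if p ∈ e.primeFactors then (1 / (w : ℝ)) * (4 * Y / e * B1) else 0) + (1 / (p : ℝ) ^ 2) * (4 * Y / e * B1) := by
      intro p hp
      obtain ⟨hpp, hwp, hpz, hpG⟩ := hP p hp
      have hpr : (0 : ℝ) < p := by exact_mod_cast hpp.pos
      have hYe : 0 ≤ 4 * (Y : ℝ) / e * B1 := by positivity
      by_cases hpe : p ∈ e.primeFactors
      · rw [if_pos hpe]
        have h3 : ∑ m ∈ A.filter (fun m => (p : ℤ) ∣ G * m + H), Om P (G * m + H) ^ q ≤ 4 * Y / e * B1 := by
          calc ∑ m ∈ A.filter (fun m => (p : ℤ) ∣ G * m + H), Om P (G * m + H) ^ q ≤ ∑ m ∈ A, Om P (G * m + H) ^ q :=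
                sum_le_sum_of_subset_of_nonneg (filter_subset _ _) (fun m _ _ => pow_nonneg (Om_nonneg _ _) _)
            _ ≤ 4 * Y / e * ∏ j ∈ range q, (((J : ℝ) + 1 + j) / w) := by
                apply ih J e he heP hJ
                refine le_trans ?_ hY
                apply Nat.mul_le_mul_left
                exact Nat.pow_le_pow_right (by omega) (by omega)
            _ ≤ _ := mul_le_mul_of_nonneg_left hB2 (by positivity)
        have h4 : 1 / (p : ℝ) ≤ 1 / w := one_div_le_one_div_of_le hw0 (by exact_mod_cast hwp.le)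
        have h5 : (1 / (p : ℝ)) * ∑ m ∈ A.filter (fun m => (p : ℤ) ∣ G * m + H), Om P (G * m + H) ^ q ≤ (1 / (w : ℝ)) * (4 * Y / e * B1) :=
          mul_le_mul h4 h3 (sum_nonneg fun m _ => pow_nonneg (Om_nonneg _ _) _) (by positivity)
        have h6 : 0 ≤ (1 / (p : ℝ) ^ 2) * (4 * Y / e * B1) := by positivity
        linarith
      · rw [if_neg hpe, zero_add]
        have hpe2 : ¬ p ∣ e := fun h => hpe (Nat.mem_primeFactors.2 ⟨hpp, h, he.ne_zero⟩)
        have hcop : Nat.Coprime e p := (hpp.coprime_iff_not_dvd.2 hpe2).symm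
        have h3 : A.filter (fun m => (p : ℤ) ∣ G * m + H) ⊆ (Icc (-(Y : ℤ)) Y).filter (fun m => ((e * p : ℕ) : ℤ) ∣ G * m + H) := by
          intro m hm
          rw [hA, mem_filter, mem_filter] at hm
          rw [mem_filter]
          refine ⟨hm.1.1, ?_⟩
          push_cast
          apply IsCoprime.mul_dvd _ hm.1.2 hm.2
          exact Nat.isCoprime_iff_coprime.2 hcop
        have h4 : ∑ m ∈ A.filter (fun m => (p : ℤ) ∣ G * m + H), Om P (G * m + H) ^ q ≤ 4 * Y / ((e * p : ℕ) : ℝ) * B1 := by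
          refine (sum_le_sum_of_subset_of_nonneg h3 (fun m _ _ => pow_nonneg (Om_nonneg _ _) _)).trans ?_
          have h5 := ih (J + 1) (e * p) ((Nat.squarefree_mul hcop).2 ⟨he, hpp.squarefree⟩)
            (by
              rw [Nat.primeFactors_mul he.ne_zero hpp.ne_zero, hpp.primeFactors]
              intro x hx
              rw [mem_union, mem_singleton] at hx
              rcases hx with hx | rfl
              · exact heP hx
              · exact hp)
            (by
              rw [Nat.primeFactors_mul he.ne_zero hpp.ne_zero, hpp.primeFactors]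
              refine (card_union_le _ _).trans ?_
              rw [card_singleton]
              omega)
            (by
              refine le_trans ?_ hY
              rw [pow_succ, mul_assoc]
              apply Nat.mul_le_mul_left
              rw [mul_comm]
              exact Nat.mul_le_mul_left _ hpz)
          refine h5.trans (le_of_eq ?_)
          congr 1
          rw [hB1]
          apply prod_congr rfl
          intro j _
          push_cast
          ring
        calc (1 / (p : ℝ)) * ∑ m ∈ A.filter (fun m => (p : ℤ) ∣ G * m + H), Om P (G * m + H) ^ q ≤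
              (1 / (p : ℝ)) * (4 * Y / ((e * p : ℕ) : ℝ) * B1) := mul_le_mul_of_nonneg_left h4 (by positivity)
          _ = _ := by
              push_cast
              field_simp
    refine (sum_le_sum h2).trans ?_
    rw [sum_add_distrib, ← sum_mul, ← sum_filter, sum_const, nsmul_eq_mul]
    have h3 : ((P.filter (fun p => p ∈ e.primeFactors)).card : ℝ) ≤ J := by
      have : (P.filter (fun p => p ∈ e.primeFactors)).card ≤ e.primeFactors.card := by
        apply card_le_card
        intro p hp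
        exact (mem_filter.1 hp).2
      exact_mod_cast this.trans hJ
    have h4 := sum_sq_le P w hw (fun p hp => (hP p hp).2.1)
    have hYe : 0 ≤ 4 * (Y : ℝ) / e * B1 := by positivity
    have h5 : ∏ j ∈ range (q + 1), (((J : ℝ) + 1 + j) / w) = B1 * ((J + 1) / w) := by
      rw [prod_range_succ', hB1]
      push_cast
      rw [add_zero]
      congr 1
      apply prod_congr rfl
      intro j _
      ring
    rw [h5]
    calc ((P.filter (fun p => p ∈ e.primeFactors)).card : ℝ) * ((1 / (w : ℝ)) * (4 * Y / e * B1)) + (∑ p ∈ P, 1 / (p : ℝ) ^ 2) * (4 * Y / e * B1) ≤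
          J * ((1 / (w : ℝ)) * (4 * Y / e * B1)) + (1 / w) * (4 * Y / e * B1) := by
          apply add_le_add
          · exact mul_le_mul_of_nonneg_right h3 (by positivity)
          · exact mul_le_mul_of_nonneg_right h4 hYe
      _ = _ := by ring

end Pool.Agent.K7.H49.LT
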