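import Mathlib
import Pool.Agent.K7.H49.LT.Off

set_option autoImplicit false

/-! Tails of products of local factors, in terms of the sum of the reciprocals of the bad primes. -/

namespace Pool.Agent.K7.H49.LT
open Finset Pool.Agent.H373R2.T7

lemma sg_tail2 (m : ℕ) (hm : 1 ≤ m) (ν : ℕ → ℕ) (z z' : ℕ) (hz : 3 * m ≤ z) (hzz : z ≤ z') (bad : Finset ℕ) (S : ℝ)
    (h1 : ∀ p : ℕ, p.Prime → z < p → p ≤ z' → ν p ≤ m) (h2 : ∀ p : ℕ, p.Prime → z < p → p ≤ z' → p ∉ bad → m ≤ ν p)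
    (hS : ∑ p ∈ bad.filter (fun p => z < p), 1 / (p : ℝ) ≤ S) :
    ∃ R : ℝ, sg m ν z' = sg m ν z * R ∧ Real.exp (-((m : ℝ) ^ 2 / z)) ≤ R ∧
      R ≤ Real.exp (2 * (m : ℝ) * S) := by
  have hz0 : (0 : ℝ) < z := by exact_mod_cast (by omega : 0 < z)
  have hmem : ∀ p ∈ (pz z').filter (fun p => ¬ p ≤ z), p.Prime ∧ z < p ∧ p ≤ z' := by
    intro p hp
    rw [mem_filter, mem_pz] at hp
    exact ⟨hp.1.2, by omega, hp.1.1⟩
  refine ⟨∏ p ∈ (pz z').filter (fun p => ¬ p ≤ z), fac m ν p, ?_, ?_, ?_⟩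
  · unfold sg
    rw [← prod_filter_mul_prod_filter_not (pz z') (fun p => p ≤ z)]
    congr 1
    apply prod_congr _ (fun _ _ => rfl)
    ext p
    rw [mem_filter, mem_pz, mem_pz]
    constructor
    · rintro ⟨⟨_, h1⟩, h2⟩; exact ⟨h2, h1⟩
    · rintro ⟨h1, h2⟩; exact ⟨⟨h1.trans hzz, h2⟩, h1⟩
  · have h1' : ∀ p ∈ (pz z').filter (fun p => ¬ p ≤ z), Real.exp (-((m : ℝ) ^ 2 * (1 / (p : ℝ) ^ 2))) ≤ fac m ν p := by
      intro p hp
      obtain ⟨g1, g2, g3⟩ := hmem p hp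
      exact (fac_bounds m hm ν p g1 (by omega) (h1 p g1 g2 g3)).1
    refine le_trans ?_ (prod_le_prod (fun p _ => (Real.exp_pos _).le) h1')
    rw [← Real.exp_sum]
    apply Real.exp_le_exp.2
    rw [sum_neg_distrib, ← mul_sum]
    have h2 : ∑ p ∈ (pz z').filter (fun p => ¬ p ≤ z), 1 / (p : ℝ) ^ 2 ≤ ∑ n ∈ Ioc z z', 1 / (n : ℝ) ^ 2 := by
      apply sum_le_sum_of_subset_of_nonneg
      · intro p hp
        obtain ⟨g1, g2, g3⟩ := hmem p hp
        rw [mem_Ioc]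
        exact ⟨g2, g3⟩
      · intro _ _ _; positivity
    have h3 := tail_sq z z' (by omega) hzz
    have h4 : (0 : ℝ) ≤ 1 / (z' : ℝ) := by positivity
    have h5 : (m : ℝ) ^ 2 * ∑ p ∈ (pz z').filter (fun p => ¬ p ≤ z), 1 / (p : ℝ) ^ 2 ≤ (m : ℝ) ^ 2 * (1 / z) :=
      mul_le_mul_of_nonneg_left (by linarith) (by positivity)
    rw [mul_one_div] at h5
    linarith
  · have h1' : ∀ p ∈ (pz z').filter (fun p => ¬ p ≤ z), fac m ν p ≤ Real.exp (if p ∈ bad then 2 * (m : ℝ) / p else 0) := by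
      intro p hp
      obtain ⟨g1, g2, g3⟩ := hmem p hp
      refine (fac_bounds m hm ν p g1 (by omega) (h1 p g1 g2 g3)).2.trans ?_
      apply Real.exp_le_exp.2
      by_cases hb : p ∈ bad
      · rw [if_pos hb]
        split_ifs
        · positivity
        · exact le_rfl
      · rw [if_neg hb, if_pos (h2 p g1 g2 g3 hb)]
    have h0 : ∀ p ∈ (pz z').filter (fun p => ¬ p ≤ z), 0 ≤ fac m ν p := by
      intro p hp
      obtain ⟨g1, g2, g3⟩ := hmem p hp
      exact (Real.exp_pos _).le.trans (fac_bounds m hm ν p g1 (by omega) (h1 p g1 g2 g3)).1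
    refine (prod_le_prod h0 h1').trans ?_
    rw [← Real.exp_sum]
    apply Real.exp_le_exp.2
    rw [← sum_filter]
    calc ∑ p ∈ ((pz z').filter (fun p => ¬ p ≤ z)).filter (fun p => p ∈ bad), 2 * (m : ℝ) / p
        ≤ ∑ p ∈ bad.filter (fun p => z < p), 2 * (m : ℝ) / p := by
          apply sum_le_sum_of_subset_of_nonneg
          · intro p hp
            rw [mem_filter, mem_filter] at hp
            rw [mem_filter]
            exact ⟨hp.2, by omega⟩
          · intro _ _ _; positivity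
      _ = 2 * (m : ℝ) * ∑ p ∈ bad.filter (fun p => z < p), 1 / (p : ℝ) := by
          rw [mul_sum]
          apply sum_congr rfl
          intro p _
          ring
      _ ≤ _ := mul_le_mul_of_nonneg_left hS (by positivity)

/-- closeness of truncated products -/
lemma sg_close2 (m : ℕ) (hm : 1 ≤ m) (ν : ℕ → ℕ) (z z' : ℕ) (hz : 3 * m ≤ z) (hzz : z ≤ z') (bad : Finset ℕ) (S : ℝ)
    (h1 : ∀ p : ℕ, p.Prime → z < p → p ≤ z' → ν p ≤ m) (h2 : ∀ p : ℕ, p.Prime → z < p → p ≤ z' → p ∉ bad → m ≤ ν p)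
    (h0 : ∀ p ∈ pz z, ν p ≤ p) (hS : ∑ p ∈ bad.filter (fun p => z < p), 1 / (p : ℝ) ≤ S) (hS0 : 0 ≤ S) (hb : 2 * (m : ℝ) * S ≤ 1) :
    |sg m ν z' - sg m ν z| ≤ sg m ν z * (4 * (m : ℝ) * S + m ^ 2 / z) := by
  obtain ⟨R, e, r1, r2⟩ := sg_tail2 m hm ν z z' hz hzz bad S h1 h2 hS
  have hz0 : (0 : ℝ) < z := by exact_mod_cast (by omega : 0 < z)
  have hs := sg_nonneg m ν z h0
  have e2 : sg m ν z' - sg m ν z = sg m ν z * (R - 1) := by rw [e]; ring
  rw [e2, abs_mul, abs_of_nonneg hs]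
  apply mul_le_mul_of_nonneg_left _ hs
  have h3 : R ≤ 1 + 4 * (m : ℝ) * S := by
    refine r2.trans ?_
    set t := 2 * (m : ℝ) * S with ht
    have ht0 : 0 ≤ t := by positivity
    have ht1 : t ≤ 1 := hb
    have h4 : Real.exp t ≤ 1 + t + t ^ 2 := by
      have := Real.abs_exp_sub_one_sub_id_le (show |t| ≤ 1 by rw [abs_of_nonneg ht0]; exact ht1)
      have h5 := (abs_le.1 this).2
      linarith
    have h5 : t ^ 2 ≤ t := by nlinarith
    have h6 : 4 * (m : ℝ) * S = 2 * t := by rw [ht]; ring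
    rw [h6]
    linarith
  have h4 : 1 - (m : ℝ) ^ 2 / z ≤ R := by
    refine le_trans ?_ r1
    have := Real.add_one_le_exp (-((m : ℝ) ^ 2 / z))
    linarith
  have h6 : 0 ≤ (m : ℝ) ^ 2 / z := by positivity
  have h7 : 0 ≤ 4 * (m : ℝ) * S := by positivity
  rw [abs_le]
  constructor <;> linarith

/-- closeness of the pair products -/
lemma pair_close2 (α β w z : ℕ) (hne : α ≠ β) (hw : 6 ≤ w) (hwz : w ≤ z) (S : ℝ) (hS0 : 0 ≤ S) (hS4 : 4 * S ≤ 1)
    (hS : ∑ p ∈ (((α : ℤ) - β).natAbs).primeFactors.filter (fun p => w < p), 1 / (p : ℝ) ≤ S) :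
    |sg 2 (nu2 α β) z - sg 2 (nu2 α β) w| ≤ (Vz w)⁻¹ ^ 2 * (8 * S + 4 / w) := by
  have hw0 : (0 : ℝ) < w := by exact_mod_cast (by omega : 0 < w)
  set d : ℕ := ((α : ℤ) - β).natAbs with hd
  have hd0 : d ≠ 0 := by
    rw [hd]
    omega
  have h0 : ∀ p ∈ pz w, nu2 α β p ≤ p := fun p _ => nu2_le' α β p
  have key := sg_close2 2 (by norm_num) (nu2 α β) w z (by omega) hwz d.primeFactors S
    (fun p hp _ _ => nu2_le α β p hp.pos) (fun p hp _ _ hb => nu2_ge α β p hp.pos (fun h => hb (by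
      rw [Nat.mem_primeFactors]
      exact ⟨hp, Int.natCast_dvd.1 h, hd0⟩))) h0 hS hS0 (by push_cast; linarith)
  refine key.trans ?_
  apply mul_le_mul (sg_le_V 2 _ w h0) _ (by positivity) (by have := Vz_pos w; positivity)
  apply le_of_eq
  push_cast
  ring

/-- a small power bounds the Mertens product -/
lemma Vz_pow_small (c : ℝ) (hc : 0 < c) : ∃ w0 : ℕ, ∀ w : ℕ, w0 ≤ w → (Vz w)⁻¹ ≤ (w : ℝ) ^ c := by
  obtain ⟨E, hE⟩ := exists_nat_gt (2 / c)
  have hE0 : (0 : ℝ) < E := lt_trans (by positivity) hE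
  have hE1 : 1 ≤ E := by
    have : (0 : ℝ) < E := hE0
    exact_mod_cast this
  obtain ⟨N0, h0⟩ := Vz_inv_small E
  -- threshold: `w ≥ w0` implies `exp (w ^ (1 / E)) ≥ N0` and `w ^ (1 / E) + 1 ≤ w ^ c`
  have hc2 : 1 / (E : ℝ) < c / 2 := by
    rw [div_lt_iff₀ hE0]
    rw [div_lt_iff₀ hc] at hE
    linarith
  have ht : Filter.Tendsto (fun w : ℕ => (w : ℝ) ^ (c / 2)) Filter.atTop Filter.atTop :=
    (tendsto_rpow_atTop (by positivity)).comp tendsto_natCast_atTop_atTop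
  have ht2 : Filter.Tendsto (fun w : ℕ => (w : ℝ) ^ (1 / (E : ℝ))) Filter.atTop Filter.atTop :=
    (tendsto_rpow_atTop (by positivity)).comp tendsto_natCast_atTop_atTop
  obtain ⟨w1, hw1⟩ := Filter.eventually_atTop.1 (ht.eventually_ge_atTop 3)
  obtain ⟨w2, hw2⟩ := Filter.eventually_atTop.1 (ht2.eventually_ge_atTop (N0 : ℝ))
  refine ⟨max (max w1 w2) 1, fun w hw => ?_⟩
  have b1 : w1 ≤ w := ((le_max_left _ _).trans (le_max_left _ _)).trans hw
  have b2 : w2 ≤ w := ((le_max_right _ _).trans (le_max_left _ _)).trans hw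
  have b3 : 1 ≤ w := (le_max_right _ _).trans hw
  have hwr : (1 : ℝ) ≤ w := by exact_mod_cast b3
  have hw0 : (0 : ℝ) < w := by linarith
  set t : ℝ := (w : ℝ) ^ (1 / (E : ℝ)) with htd
  have ht1 : 1 ≤ t := Real.one_le_rpow hwr (by positivity)
  set N : ℕ := ⌈Real.exp t⌉₊ with hN
  have hNe : Real.exp t ≤ N := Nat.le_ceil _
  have hNt : t ≤ Real.log N := by
    rw [Real.le_log_iff_exp_le (lt_of_lt_of_le (Real.exp_pos _) hNe)]
    exact hNe
  have hN0 : N0 ≤ N := by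
    have h1 := hw2 w b2
    have h2 := Real.add_one_le_exp t
    have h3 : (N0 : ℝ) ≤ N := by linarith
    exact_mod_cast h3
  have hNup : Real.log N ≤ t + 1 := by
    have h1 : (N : ℝ) ≤ Real.exp (t + 1) := by
      have h2 := Nat.ceil_lt_add_one (Real.exp_pos t).le
      have h3 : Real.exp (t + 1) = Real.exp t * Real.exp 1 := Real.exp_add _ _
      have h4 := Real.exp_one_gt_d9
      have h5 : 1 ≤ Real.exp t := Real.one_le_exp (by linarith)
      rw [h3]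
      nlinarith
    have hNpos : (0 : ℝ) < N := lt_of_lt_of_le (Real.exp_pos _) hNe
    have := Real.log_le_log hNpos h1
    rwa [Real.log_exp] at this
  have key := h0 N hN0 w b3 (by
    calc (w : ℝ) = t ^ E := by
          rw [htd, ← Real.rpow_natCast, ← Real.rpow_mul hw0.le]
          rw [one_div, inv_mul_cancel₀ (by positivity), Real.rpow_one]
      _ ≤ Real.log N ^ E := pow_le_pow_left₀ (by linarith) hNt _)
  refine key.trans (hNup.trans ?_)
  have h3 := hw1 w b1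
  have h4 : t ≤ (w : ℝ) ^ (c / 2) := Real.rpow_le_rpow_of_exponent_le hwr hc2.le
  have h5 : (w : ℝ) ^ c = (w : ℝ) ^ (c / 2) * (w : ℝ) ^ (c / 2) := by
    rw [← Real.rpow_add hw0]
    congr 1
    ring
  rw [h5]
  nlinarith

end Pool.Agent.K7.H49.LT
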