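import Mathlib
import Pool.Agent.K7.H49.LT.Tail2

set_option autoImplicit false

/-! The off-diagonal and diagonal terms, for a small sieve level. -/

namespace Pool.Agent.K7.H49.LT
open Finset Pool.Agent.H373R2.T7

lemma lamzI_one (m : ℤ) (hm : 0 < m) : lamzI 1 m = 1 := by
  have h : pz 1 = ∅ := by
    ext p
    rw [mem_pz]
    constructor
    · rintro ⟨h1, h2⟩
      have := h2.two_le
      omega
    · intro h
      exact absurd h (notMem_empty _)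
  have hV : Vz 1 = 1 := by
    unfold Vz
    rw [h, prod_empty]
  unfold lamzI lamz
  rw [if_pos (by omega), h, hV]
  simp

theorem off2 (E U : ℕ) : ∃ N0 : ℕ, ∀ T : ℕ, N0 ≤ T → ∀ (φ : ℕ → ℕ) (M z w : ℕ) (δ S : ℝ), Cor φ T M z δ → 0 ≤ δ → w ≤ M → 6 ≤ w → w ≤ z →
    (z : ℝ) ≤ Real.log T ^ E → 0 ≤ S → 4 * S ≤ 1 →
    ∀ n ∈ Icc 1 M, ∀ n' ∈ Icc 1 M, n ≠ n' → φ n ≠ φ n' →
    ∑ p ∈ (((φ n : ℤ) - φ n').natAbs).primeFactors.filter (fun p => w < p), 1 / (p : ℝ) ≤ S →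
    |∑ b ∈ Icc 1 T, lamI ((φ n : ℤ) + b) * lamI ((φ n' : ℤ) + b) - ∑ b ∈ Icc 1 T, lamzI w ((φ n : ℤ) + b) * lamzI w ((φ n' : ℤ) + b)| ≤
      (2 * δ + 2 / Real.log T ^ U + (Vz w)⁻¹ ^ 2 * (8 * S + 4 / w)) * T ∧
    |∑ b ∈ Icc 1 T, lamI ((φ n : ℤ) + b) * lamzI w ((φ n' : ℤ) + b) - ∑ b ∈ Icc 1 T, lamzI w ((φ n : ℤ) + b) * lamzI w ((φ n' : ℤ) + b)| ≤
      (2 * δ + 2 / Real.log T ^ U + (Vz w)⁻¹ ^ 2 * (8 * S + 4 / w)) * T ∧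
    |∑ b ∈ Icc 1 T, lamzI w ((φ n : ℤ) + b) * lamzI w ((φ n' : ℤ) + b)| ≤ ((Vz w)⁻¹ ^ 2 + 1 / Real.log T ^ U) * T := by
  obtain ⟨N0, h0⟩ := model E U
  refine ⟨N0, fun T hT φ M z w δ S hC hδ hwM hw6 hwz hz hS0 hS4 n hn n' hn' hne hφ hS => ?_⟩
  have hT0 : (0 : ℝ) ≤ T := Nat.cast_nonneg _
  have hlT : 0 ≤ Real.log T := Real.log_natCast_nonneg T
  have hpos3 : 0 ≤ (Vz w)⁻¹ ^ 2 * (8 * S + 4 / w) := by
    have := Vz_pos w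
    positivity
  have c1 := hC n hn n' hn' hne
  have c2 := hC n' hn' n hn hne.symm
  have m1 := h0 T hT (φ n) (φ n') z z (by omega) le_rfl hz
  have m2 := h0 T hT (φ n) (φ n') w w (by omega) le_rfl (le_trans (by exact_mod_cast hwz) hz)
  have m3 := h0 T hT (φ n) (φ n') w z (by omega) hwz hz
  have pc := pair_close2 (φ n) (φ n') w z hφ hw6 hwz S hS0 hS4 hS
  have d1 := c1.2
  have d2 := c2.1 z (Or.inr rfl)
  have d3 := c2.1 w (Or.inl hwM)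
  have e1 : ∑ b ∈ Icc 1 T, lamI ((φ n : ℤ) + b) * (lamI ((φ n' : ℤ) + b) - lamzI z ((φ n' : ℤ) + b)) =
      ∑ b ∈ Icc 1 T, lamI ((φ n : ℤ) + b) * lamI ((φ n' : ℤ) + b) - ∑ b ∈ Icc 1 T, lamI ((φ n : ℤ) + b) * lamzI z ((φ n' : ℤ) + b) := by
    rw [← sum_sub_distrib]
    exact sum_congr rfl fun b _ => by ring
  have e2 : ∑ b ∈ Icc 1 T, lamzI z ((φ n' : ℤ) + b) * (lamI ((φ n : ℤ) + b) - lamzI z ((φ n : ℤ) + b)) =
      ∑ b ∈ Icc 1 T, lamI ((φ n : ℤ) + b) * lamzI z ((φ n' : ℤ) + b) - ∑ b ∈ Icc 1 T, lamzI z ((φ n : ℤ) + b) * lamzI z ((φ n' : ℤ) + b) := by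
    rw [← sum_sub_distrib]
    exact sum_congr rfl fun b _ => by ring
  have e3 : ∑ b ∈ Icc 1 T, lamzI w ((φ n' : ℤ) + b) * (lamI ((φ n : ℤ) + b) - lamzI z ((φ n : ℤ) + b)) =
      ∑ b ∈ Icc 1 T, lamI ((φ n : ℤ) + b) * lamzI w ((φ n' : ℤ) + b) - ∑ b ∈ Icc 1 T, lamzI z ((φ n : ℤ) + b) * lamzI w ((φ n' : ℤ) + b) := by
    rw [← sum_sub_distrib]
    exact sum_congr rfl fun b _ => by ring
  rw [e1] at d1
  rw [e2] at d2
  rw [e3] at d3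
  set Sll := ∑ b ∈ Icc 1 T, lamI ((φ n : ℤ) + b) * lamI ((φ n' : ℤ) + b) with hSll
  set Slz := ∑ b ∈ Icc 1 T, lamI ((φ n : ℤ) + b) * lamzI z ((φ n' : ℤ) + b) with hSlz
  set Slw := ∑ b ∈ Icc 1 T, lamI ((φ n : ℤ) + b) * lamzI w ((φ n' : ℤ) + b) with hSlw
  set Szz := ∑ b ∈ Icc 1 T, lamzI z ((φ n : ℤ) + b) * lamzI z ((φ n' : ℤ) + b) with hSzz
  set Szw := ∑ b ∈ Icc 1 T, lamzI z ((φ n : ℤ) + b) * lamzI w ((φ n' : ℤ) + b) with hSzw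
  set Sww := ∑ b ∈ Icc 1 T, lamzI w ((φ n : ℤ) + b) * lamzI w ((φ n' : ℤ) + b) with hSww
  set sz := sg 2 (nu2 (φ n) (φ n')) z with hsz
  set sw := sg 2 (nu2 (φ n) (φ n')) w with hsw
  have pc' : |(T : ℝ) * sz - T * sw| ≤ (Vz w)⁻¹ ^ 2 * (8 * S + 4 / w) * T := by
    rw [← mul_sub, abs_mul, abs_of_nonneg hT0, mul_comm]
    exact mul_le_mul_of_nonneg_right pc hT0
  have hsw0 : 0 ≤ sw := sg_nonneg 2 _ w fun p _ => nu2_le' _ _ p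
  have hswV : sw ≤ (Vz w)⁻¹ ^ 2 := sg_le_V 2 _ w fun p _ => nu2_le' _ _ p
  have hU : 2 / Real.log T ^ U * T = 2 * (T / Real.log T ^ U) := by ring
  have hU1 : 1 / Real.log T ^ U * T = T / Real.log T ^ U := by ring
  have hU0 : (0 : ℝ) ≤ T / Real.log T ^ U := by positivity
  rw [abs_le] at d1 d2 d3 m1 m2 m3 pc'
  rw [abs_le, abs_le, abs_le, add_mul, add_mul, hU, add_mul, hU1]
  have hδT : 0 ≤ δ * T := by positivity
  have hp3T := mul_nonneg hpos3 hT0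
  have hTs : (T : ℝ) * sw ≤ (Vz w)⁻¹ ^ 2 * T := by
    rw [mul_comm]
    exact mul_le_mul_of_nonneg_right hswV hT0
  have hTs0 : 0 ≤ (T : ℝ) * sw := by positivity
  refine ⟨⟨?_, ?_⟩, ⟨?_, ?_⟩, ⟨?_, ?_⟩⟩ <;> linarith [d1.1, d1.2, d2.1, d2.2, d3.1, d3.2, m1.1, m1.2, m2.1, m2.2, m3.1, m3.2, pc'.1, pc'.2]

theorem diag (E : ℕ) : ∃ N0 : ℕ, ∀ T : ℕ, N0 ≤ T → ∀ (φ : ℕ → ℕ) (M z w : ℕ) (δ X : ℝ), Cor φ T M z δ → δ ≤ 1 / 2 → 2 ≤ M →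
    1 ≤ w → w ≤ z → (z : ℝ) ≤ Real.log T ^ E → 1 ≤ X → ∀ n ∈ Icc 1 M, (φ n : ℝ) + T ≤ X →
    ∑ b ∈ Icc 1 T, lamI ((φ n : ℤ) + b) ≤ 2 * T ∧
    ∑ b ∈ Icc 1 T, lamI ((φ n : ℤ) + b) ^ 2 ≤ 2 * Real.log X * T ∧
    ∑ b ∈ Icc 1 T, lamzI w ((φ n : ℤ) + b) ^ 2 ≤ 2 * (Vz w)⁻¹ * T := by
  obtain ⟨N1, h1⟩ := model E 1
  obtain ⟨n2, h2⟩ := ev_L' 2
  refine ⟨max N1 n2, fun T hT φ M z w δ X hC hδ hM hw hwz hz hX n hn hφX => ?_⟩
  have hT1 : N1 ≤ T := (le_max_left _ _).trans hT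
  have hL2 := h2 T ((le_max_right _ _).trans hT)
  have hT0 : (0 : ℝ) ≤ T := Nat.cast_nonneg _
  have hlX : 0 ≤ Real.log X := Real.log_nonneg hX
  have hsmall : (T : ℝ) / Real.log T ^ 1 ≤ T / 2 := by
    rw [pow_one]
    exact div_le_div_of_nonneg_left hT0 (by norm_num) hL2
  -- another argument
  obtain ⟨n', hn', hne⟩ : ∃ n' ∈ Icc 1 M, n' ≠ n := by
    by_cases h : n = 1
    · exact ⟨2, mem_Icc.2 ⟨by norm_num, hM⟩, by omega⟩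
    · exact ⟨1, mem_Icc.2 ⟨le_rfl, by omega⟩, by omega⟩
  have c1 := (hC n' hn' n hn hne).1 1 (Or.inl (by omega))
  have hmod : ∀ y : ℕ, 1 ≤ y → (y : ℝ) ≤ Real.log T ^ E → ∑ b ∈ Icc 1 T, lamzI y ((φ n : ℤ) + b) ≤ T + T / 2 := by
    intro y hy hyz
    have m1 := h1 T hT1 (φ n) (φ n) 1 y le_rfl hy hyz
    have e1 : ∑ b ∈ Icc 1 T, lamzI y ((φ n : ℤ) + b) * lamzI 1 ((φ n : ℤ) + b) = ∑ b ∈ Icc 1 T, lamzI y ((φ n : ℤ) + b) := by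
      apply sum_congr rfl
      intro b hb
      have := (mem_Icc.1 hb).1
      rw [lamzI_one _ (by omega), mul_one]
    have e2 : sg 2 (nu2 (φ n) (φ n)) 1 = 1 := by
      unfold sg
      have h : pz 1 = ∅ := by
        ext p
        rw [mem_pz]
        constructor
        · rintro ⟨h1, h2⟩
          have := h2.two_le
          omega
        · intro h
          exact absurd h (notMem_empty _)
      rw [h, prod_empty]
    rw [e1, e2, mul_one] at m1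
    have := (abs_le.1 m1).2
    linarith
  have hz1 := hmod z (hw.trans hwz) hz
  have hw1 := hmod w hw (le_trans (by exact_mod_cast hwz) hz)
  have e3 : ∑ b ∈ Icc 1 T, lamzI 1 ((φ n' : ℤ) + b) * (lamI ((φ n : ℤ) + b) - lamzI z ((φ n : ℤ) + b)) =
      ∑ b ∈ Icc 1 T, lamI ((φ n : ℤ) + b) - ∑ b ∈ Icc 1 T, lamzI z ((φ n : ℤ) + b) := by
    rw [← sum_sub_distrib]
    apply sum_congr rfl
    intro b hb
    have := (mem_Icc.1 hb).1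
    rw [lamzI_one _ (by omega), one_mul]
  rw [e3] at c1
  have hδT : δ * T ≤ 1 / 2 * T := mul_le_mul_of_nonneg_right hδ hT0
  have g1 : ∑ b ∈ Icc 1 T, lamI ((φ n : ℤ) + b) ≤ 2 * T := by
    have := (abs_le.1 c1).2
    linarith
  refine ⟨g1, ?_, ?_⟩
  · calc ∑ b ∈ Icc 1 T, lamI ((φ n : ℤ) + b) ^ 2 ≤ ∑ b ∈ Icc 1 T, Real.log X * lamI ((φ n : ℤ) + b) := by
          apply sum_le_sum
          intro b hb
          rw [pow_two]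
          apply mul_le_mul_of_nonneg_right _ (lamI_nonneg _)
          apply lamI_le _ X hX
          have h6 : (b : ℝ) ≤ T := by exact_mod_cast (mem_Icc.1 hb).2
          push_cast
          linarith
      _ = Real.log X * ∑ b ∈ Icc 1 T, lamI ((φ n : ℤ) + b) := by rw [mul_sum]
      _ ≤ Real.log X * (2 * T) := mul_le_mul_of_nonneg_left g1 hlX
      _ = _ := by ring
  · have hV := Vz_pos w
    calc ∑ b ∈ Icc 1 T, lamzI w ((φ n : ℤ) + b) ^ 2 ≤ ∑ b ∈ Icc 1 T, (Vz w)⁻¹ * lamzI w ((φ n : ℤ) + b) := by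
          apply sum_le_sum
          intro b _
          rw [pow_two]
          exact mul_le_mul_of_nonneg_right (lamzI_le w _) (lamzI_nonneg _ _)
      _ = (Vz w)⁻¹ * ∑ b ∈ Icc 1 T, lamzI w ((φ n : ℤ) + b) := by rw [mul_sum]
      _ ≤ (Vz w)⁻¹ * (2 * T) := mul_le_mul_of_nonneg_left (by linarith) (by positivity)
      _ = _ := by ring

end Pool.Agent.K7.H49.LT
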