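import Mathlib
import Pool.Agent.K7.H49.LT.Var

set_option autoImplicit false

/-! The variance of the number of prime tuples: an inequality with the diagonal terms apart. -/

namespace Pool.Agent.K7.H49.LT
open Finset

theorem variance2 {k : ℕ} (M : ℕ) (T : Fin k → ℕ) (u v : Fin k → ℕ → ℕ → ℝ) (K δ : ℝ) (D : Fin k → ℝ) (hK : 1 ≤ K) (hδ : 0 ≤ δ)
    (hu0 : ∀ i, ∀ n ∈ Icc 1 M, ∀ b ∈ Icc 1 (T i), 0 ≤ u i n b)
    (hv0 : ∀ i, ∀ n ∈ Icc 1 M, ∀ b ∈ Icc 1 (T i), 0 ≤ v i n b)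
    (hD : ∀ i, ∀ n ∈ Icc 1 M, ∑ b ∈ Icc 1 (T i), u i n b ^ 2 ≤ D i * T i ∧ ∑ b ∈ Icc 1 (T i), v i n b ^ 2 ≤ D i * T i)
    (hcor : ∀ i, ∀ n ∈ Icc 1 M, ∀ n' ∈ Icc 1 M, n ≠ n' →
      |∑ b ∈ Icc 1 (T i), v i n b * v i n' b| ≤ (K - δ) * T i)
    (hoff : ∀ i, ∀ n ∈ Icc 1 M, ∀ n' ∈ Icc 1 M, n ≠ n' →
      |∑ b ∈ Icc 1 (T i), u i n b * u i n' b - ∑ b ∈ Icc 1 (T i), v i n b * v i n' b| ≤ δ * T i ∧
      |∑ b ∈ Icc 1 (T i), u i n b * v i n' b - ∑ b ∈ Icc 1 (T i), v i n b * v i n' b| ≤ δ * T i) :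
    ∑ b ∈ Fintype.piFinset (fun i => Icc 1 (T i)), (∑ n ∈ Icc 1 M, (∏ i, u i n (b i) - ∏ i, v i n (b i))) ^ 2 ≤
      (∏ i, (T i : ℝ)) * (3 * k * δ * K ^ k * M ^ 2 + 2 * M * ∏ i, D i) := by
  classical
  set P : ℝ := ∏ i, (T i : ℝ) with hP
  have hP0 : 0 ≤ P := prod_nonneg fun _ _ => Nat.cast_nonneg _
  have hK0 : 0 ≤ K := by linarith
  -- the correlation of products
  have hS : ∀ (f g : Fin k → ℕ → ℝ), ∑ b ∈ Fintype.piFinset (fun i => Icc 1 (T i)), (∏ i, f i (b i)) * (∏ i, g i (b i)) =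
      ∏ i, ∑ b ∈ Icc 1 (T i), f i b * g i b := by
    intro f g
    rw [prod_univ_sum]
    apply sum_congr rfl
    intro b _
    rw [prod_mul_distrib]
  have hexp : ∑ b ∈ Fintype.piFinset (fun i => Icc 1 (T i)), (∑ n ∈ Icc 1 M, (∏ i, u i n (b i) - ∏ i, v i n (b i))) ^ 2 =
      ∑ n ∈ Icc 1 M, ∑ n' ∈ Icc 1 M, ∑ b ∈ Fintype.piFinset (fun i => Icc 1 (T i)),
        (∏ i, u i n (b i) - ∏ i, v i n (b i)) * (∏ i, u i n' (b i) - ∏ i, v i n' (b i)) := by
    calc _ = ∑ b ∈ Fintype.piFinset (fun i => Icc 1 (T i)), ∑ n ∈ Icc 1 M, ∑ n' ∈ Icc 1 M,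
          (∏ i, u i n (b i) - ∏ i, v i n (b i)) * (∏ i, u i n' (b i) - ∏ i, v i n' (b i)) := by
          apply sum_congr rfl
          intro b _
          rw [pow_two, sum_mul_sum]
      _ = _ := by
          rw [sum_comm]
          apply sum_congr rfl
          intro n _
          rw [sum_comm]
  have hTP : ∀ i : Fin k, (0 : ℝ) ≤ T i := fun _ => Nat.cast_nonneg _
  have hdiag : ∀ n ∈ Icc 1 M, ∑ b ∈ Fintype.piFinset (fun i => Icc 1 (T i)),
        (∏ i, u i n (b i) - ∏ i, v i n (b i)) * (∏ i, u i n (b i) - ∏ i, v i n (b i)) ≤ 2 * ((∏ i, D i) * P) := by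
    intro n hn
    have e1 : ∑ b ∈ Fintype.piFinset (fun i => Icc 1 (T i)),
        (∏ i, u i n (b i) - ∏ i, v i n (b i)) * (∏ i, u i n (b i) - ∏ i, v i n (b i)) ≤
        ∑ b ∈ Fintype.piFinset (fun i => Icc 1 (T i)), ((∏ i, u i n (b i)) * (∏ i, u i n (b i)) + (∏ i, v i n (b i)) * (∏ i, v i n (b i))) := by
      apply sum_le_sum
      intro b hb
      rw [Fintype.mem_piFinset] at hb
      have h1 : 0 ≤ ∏ i, u i n (b i) := prod_nonneg fun i _ => hu0 i n hn (b i) (hb i)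
      have h3 : 0 ≤ ∏ i, v i n (b i) := prod_nonneg fun i _ => hv0 i n hn (b i) (hb i)
      nlinarith [mul_nonneg h1 h3]
    refine e1.trans ?_
    rw [sum_add_distrib, hS, hS]
    have g1 : ∏ i, ∑ b ∈ Icc 1 (T i), u i n b * u i n b ≤ ∏ i, (D i * T i) := by
      apply prod_le_prod
      · intro i _
        exact sum_nonneg fun b _ => mul_self_nonneg _
      · intro i _
        refine le_trans (le_of_eq ?_) (hD i n hn).1
        exact sum_congr rfl fun b _ => by ring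
    have g2 : ∏ i, ∑ b ∈ Icc 1 (T i), v i n b * v i n b ≤ ∏ i, (D i * T i) := by
      apply prod_le_prod
      · intro i _
        exact sum_nonneg fun b _ => mul_self_nonneg _
      · intro i _
        refine le_trans (le_of_eq ?_) (hD i n hn).2
        exact sum_congr rfl fun b _ => by ring
    rw [prod_mul_distrib] at g1 g2
    linarith
  have hoffd : ∀ n ∈ Icc 1 M, ∀ n' ∈ Icc 1 M, n ≠ n' → ∑ b ∈ Fintype.piFinset (fun i => Icc 1 (T i)),
        (∏ i, u i n (b i) - ∏ i, v i n (b i)) * (∏ i, u i n' (b i) - ∏ i, v i n' (b i)) ≤ 3 * (k * δ * K ^ k * P) := by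
    intro n hn n' hn' hne
    have e1 : ∑ b ∈ Fintype.piFinset (fun i => Icc 1 (T i)),
        (∏ i, u i n (b i) - ∏ i, v i n (b i)) * (∏ i, u i n' (b i) - ∏ i, v i n' (b i)) =
        (∏ i, ∑ b ∈ Icc 1 (T i), u i n b * u i n' b) - (∏ i, ∑ b ∈ Icc 1 (T i), u i n b * v i n' b) -
        (∏ i, ∑ b ∈ Icc 1 (T i), v i n b * u i n' b) + (∏ i, ∑ b ∈ Icc 1 (T i), v i n b * v i n' b) := by
      rw [← hS, ← hS, ← hS, ← hS, ← sum_sub_distrib, ← sum_sub_distrib, ← sum_add_distrib]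
      apply sum_congr rfl
      intro b _
      ring
    rw [e1]
    have hpd : ∀ (x y : Fin k → ℝ), (∀ i, |y i| ≤ (K - δ) * T i) → (∀ i, |x i - y i| ≤ δ * T i) →
        |∏ i, x i - ∏ i, y i| ≤ k * δ * K ^ k * P := by
      intro x y hy hxy
      have h1 := prod_diff univ x y (fun i => (T i : ℝ)) δ K hK hδ (fun _ _ => Nat.cast_nonneg _)
        (fun i _ => by
          have h2 := abs_add_le (x i - y i) (y i)
          rw [sub_add_cancel] at h2
          have := hxy i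
          have := hy i
          linarith) (fun i _ => by
          have h2 := hy i
          have h3 : 0 ≤ δ * T i := mul_nonneg hδ (hTP i)
          linarith) (fun i _ => hxy i)
      rw [card_univ, Fintype.card_fin] at h1
      exact h1
    have b4 := fun i => hcor i n hn n' hn' hne
    have d1 := hpd _ _ b4 (fun i => (hoff i n hn n' hn' hne).1)
    have d2 := hpd _ _ b4 (fun i => (hoff i n hn n' hn' hne).2)
    have d3 := hpd _ _ b4 (fun i => by
      have h1 := (hoff i n' hn' n hn hne.symm).2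
      have e2 : ∑ b ∈ Icc 1 (T i), u i n' b * v i n b = ∑ b ∈ Icc 1 (T i), v i n b * u i n' b := sum_congr rfl fun b _ => mul_comm _ _
      have e3 : ∑ b ∈ Icc 1 (T i), v i n' b * v i n b = ∑ b ∈ Icc 1 (T i), v i n b * v i n' b := sum_congr rfl fun b _ => mul_comm _ _
      rw [e2, e3] at h1
      exact h1)
    have g1 := (abs_le.1 d1).2
    have g2 := (abs_le.1 d2).1
    have g3 := (abs_le.1 d3).1
    linarith
  rw [hexp]
  calc _ ≤ ∑ n ∈ Icc 1 M, ∑ n' ∈ Icc 1 M, ((if n = n' then 2 * ((∏ i, D i) * P) else 0) + 3 * (k * δ * K ^ k * P)) := by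
        apply sum_le_sum
        intro n hn
        apply sum_le_sum
        intro n' hn'
        have hpos : 0 ≤ 3 * (k * δ * K ^ k * P) := by positivity
        split_ifs with h
        · rw [← h]
          have := hdiag n hn
          linarith
        · have := hoffd n hn n' hn' h
          linarith
    _ = _ := by
        simp only [sum_add_distrib, sum_const, Nat.card_Icc, nsmul_eq_mul, Nat.add_sub_cancel]
        have e : ∑ n ∈ Icc 1 M, ∑ n' ∈ Icc 1 M, (if n = n' then 2 * ((∏ i, D i) * P) else 0) = M * (2 * ((∏ i, D i) * P)) := by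
          calc _ = ∑ n ∈ Icc 1 M, 2 * ((∏ i, D i) * P) := by
                apply sum_congr rfl
                intro n hn
                rw [sum_ite_eq, if_pos hn]
            _ = _ := by rw [sum_const, nsmul_eq_mul, Nat.card_Icc, Nat.add_sub_cancel]
        rw [e]
        ring

end Pool.Agent.K7.H49.LT
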