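import Mathlib
import Pool.Agent.K7.H49.LT.DivC
import Pool.Agent.K7.H49.LT.MainO

set_option autoImplicit false

/-! Prime divisors of the members of families of nearly minimal energy: the energy argument. -/

namespace Pool.Agent.K7.H49.LT
open Finset

open Classical in
lemma energy_cs (r x Y : ℕ) (s : ℕ → ℤ) (T : Finset ℕ) (hT : T ⊆ Icc 1 x)
    (hY : ∀ v ∈ Fintype.piFinset (fun _ : Fin r => T), |∑ i, s (v i)| ≤ (Y : ℤ)) (Φ : ℤ → ℝ) :
    (∑ v ∈ Fintype.piFinset (fun _ : Fin r => T), Φ (∑ i, s (v i))) ^ 2 ≤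
      (Pool.Agent.H373R2.T7.energy r x s : ℝ) * ∑ m ∈ Icc (-(Y : ℤ)) Y, Φ m ^ 2 := by
  set V := Fintype.piFinset (fun _ : Fin r => T) with hV
  set f : (Fin r → ℕ) → ℤ := fun v => ∑ i, s (v i) with hf
  have hmaps : ∀ v ∈ V, f v ∈ Icc (-(Y : ℤ)) Y := by
    intro v hv
    rw [mem_Icc]
    exact abs_le.1 (hY v hv)
  set R : ℤ → ℝ := fun m => ((V.filter (fun v => f v = m)).card : ℝ) with hR
  have h1 : ∑ v ∈ V, Φ (f v) = ∑ m ∈ Icc (-(Y : ℤ)) Y, R m * Φ m := by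
    rw [← sum_fiberwise_of_maps_to hmaps]
    apply sum_congr rfl
    intro m _
    rw [hR]
    simp only
    rw [← nsmul_eq_mul, ← sum_const]
    apply sum_congr rfl
    intro v hv
    rw [(mem_filter.1 hv).2]
  have h2 : ∑ m ∈ Icc (-(Y : ℤ)) Y, R m ^ 2 ≤ (Pool.Agent.H373R2.T7.energy r x s : ℝ) := by
    have h3 : ∑ m ∈ Icc (-(Y : ℤ)) Y, R m ^ 2 = (((V ×ˢ V).filter (fun q => f q.1 = f q.2)).card : ℝ) := by
      have h4 : ((V ×ˢ V).filter (fun q => f q.1 = f q.2)).card =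
          ∑ m ∈ Icc (-(Y : ℤ)) Y, (((V ×ˢ V).filter (fun q => f q.1 = f q.2)).filter (fun q => f q.1 = m)).card := by
        apply card_eq_sum_card_fiberwise
        intro q hq
        rw [mem_coe, mem_filter, mem_product] at hq
        exact hmaps q.1 hq.1.1
      rw [h4]
      push_cast
      apply sum_congr rfl
      intro m _
      rw [hR]
      simp only
      rw [pow_two, ← Nat.cast_mul, ← card_product]
      congr 2
      ext q
      simp only [mem_filter, mem_product]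
      constructor
      · rintro ⟨⟨h5, h6⟩, h7, h8⟩
        exact ⟨⟨⟨h5, h7⟩, by rw [h6, h8]⟩, h6⟩
      · rintro ⟨⟨⟨h5, h6⟩, h7⟩, h8⟩
        exact ⟨⟨h5, h8⟩, h6, by rw [← h7, h8]⟩
    rw [h3]
    unfold Pool.Agent.H373R2.T7.energy
    apply Nat.cast_le.2
    apply card_le_card
    intro q hq
    rw [mem_filter, mem_product] at hq ⊢
    refine ⟨⟨?_, ?_⟩, hq.2⟩
    · rw [Fintype.mem_piFinset]
      intro i
      exact hT (Fintype.mem_piFinset.1 hq.1.1 i)
    · rw [Fintype.mem_piFinset]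
      intro i
      exact hT (Fintype.mem_piFinset.1 hq.1.2 i)
  have h3 : (∑ v ∈ V, Φ (∑ i, s (v i))) = ∑ v ∈ V, Φ (f v) := rfl
  rw [h3, h1]
  refine (sum_mul_sq_le_sq_mul_sq _ _ _).trans ?_
  exact mul_le_mul_of_nonneg_right h2 (sum_nonneg fun _ _ => sq_nonneg _)

open Classical in
/-- the Hölder step -/
lemma div_energy (r x q Y : ℕ) (s : ℕ → ℤ) (T P : Finset ℕ) (G H : ℤ) (δ S : ℝ) (hT : T ⊆ Icc 1 x) (hr : 1 ≤ r) (hq : 1 ≤ q)
    (hδ : 0 ≤ δ) (hS : ∑ p ∈ P, 1 / (p : ℝ) ≤ S) (hS0 : 0 < S) (hP : ∀ p ∈ P, 1 ≤ p) (hTδ : ∀ l ∈ T, δ ≤ Om P (s l * G + H))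
    (hY : ∀ v ∈ Fintype.piFinset (fun _ : Fin r => T), |∑ i, s (v i)| ≤ (Y : ℤ)) :
    ((δ * T.card) ^ r) ^ (2 * q) ≤ (S ^ (r - 1)) ^ (2 * q) * (((T.card : ℝ) ^ r) ^ (2 * (q - 1)) *
      ((Pool.Agent.H373R2.T7.energy r x s : ℝ) * ∑ m ∈ Icc (-(Y : ℤ)) Y, Om P (G * m + r * H) ^ (2 * q))) := by
  set V := Fintype.piFinset (fun _ : Fin r => T) with hV
  have hVc : (V.card : ℝ) = (T.card : ℝ) ^ r := by
    rw [hV, Fintype.card_piFinset, prod_const, card_univ, Fintype.card_fin]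
    push_cast
    rfl
  set t : ℕ → ℝ := fun p => ((T.filter (fun l => (p : ℤ) ∣ s l * G + H)).card : ℝ) with ht
  set S1 : ℝ := ∑ p ∈ P, 1 / (p : ℝ) with hS1
  have ht0 : ∀ p, 0 ≤ t p := fun p => Nat.cast_nonneg _
  -- the first moment
  have h1 : δ * T.card ≤ ∑ p ∈ P, (1 / (p : ℝ)) * t p := by
    calc δ * T.card = ∑ _l ∈ T, δ := by rw [sum_const, nsmul_eq_mul, mul_comm]
      _ ≤ ∑ l ∈ T, Om P (s l * G + H) := sum_le_sum hTδ
      _ = ∑ p ∈ P, ∑ l ∈ T, (if (p : ℤ) ∣ s l * G + H then 1 / (p : ℝ) else 0) := by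
          unfold Om
          exact sum_comm
      _ = _ := by
          apply sum_congr rfl
          intro p _
          rw [ht]
          simp only
          rw [← sum_filter, sum_const, nsmul_eq_mul, mul_comm]
  -- Hölder
  have h2 : (∑ p ∈ P, (1 / (p : ℝ)) * t p) ^ r ≤ S ^ (r - 1) * ∑ p ∈ P, (1 / (p : ℝ)) * t p ^ r := by
    rcases P.eq_empty_or_nonempty with hPe | hPe
    · rw [hPe]
      simp only [sum_empty, mul_zero]
      rw [zero_pow (by omega)]
    · have hS10 : 0 < S1 := by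
        rw [hS1]
        apply sum_pos _ hPe
        intro p hp
        have : (0 : ℝ) < p := by exact_mod_cast hP p hp
        positivity
      have h3 := Real.pow_arith_mean_le_arith_mean_pow P (fun p => (1 / (p : ℝ)) / S1) t (fun p _ => by positivity)
        (by rw [← sum_div, ← hS1, div_self hS10.ne']) (fun p _ => ht0 p) r
      have h4 : ∑ p ∈ P, (1 / (p : ℝ)) / S1 * t p = (∑ p ∈ P, (1 / (p : ℝ)) * t p) / S1 := by
        rw [sum_div]
        apply sum_congr rfl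
        intro p _
        ring
      have h5 : ∑ p ∈ P, (1 / (p : ℝ)) / S1 * t p ^ r = (∑ p ∈ P, (1 / (p : ℝ)) * t p ^ r) / S1 := by
        rw [sum_div]
        apply sum_congr rfl
        intro p _
        ring
      rw [h4, h5, div_pow, div_le_div_iff₀ (by positivity) hS10] at h3
      have h6 : S1 ^ r = S1 ^ (r - 1) * S1 := by
        rw [← pow_succ]
        congr 1
        omega
      rw [h6] at h3
      have h7 : (∑ p ∈ P, (1 / (p : ℝ)) * t p) ^ r ≤ S1 ^ (r - 1) * ∑ p ∈ P, (1 / (p : ℝ)) * t p ^ r := by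
        have h8 : (∑ p ∈ P, (1 / (p : ℝ)) * t p) ^ r * S1 ≤ (S1 ^ (r - 1) * ∑ p ∈ P, (1 / (p : ℝ)) * t p ^ r) * S1 := by
          calc _ ≤ _ := h3
            _ = _ := by ring
        exact le_of_mul_le_mul_right h8 hS10
      refine h7.trans ?_
      apply mul_le_mul_of_nonneg_right _ (sum_nonneg fun p _ => by have := ht0 p; positivity)
      exact pow_le_pow_left₀ hS10.le hS _
  -- the common primes
  have h3 : ∑ p ∈ P, (1 / (p : ℝ)) * t p ^ r ≤ ∑ v ∈ V, Om P (G * (∑ i, s (v i)) + r * H) := by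
    have h4 : ∀ p, t p ^ r = ∑ v ∈ V, (if ∀ i, (p : ℤ) ∣ s (v i) * G + H then (1 : ℝ) else 0) := by
      intro p
      rw [ht]
      simp only
      rw [← sum_filter, sum_const, nsmul_eq_mul, mul_one, ← Nat.cast_pow]
      congr 1
      have h5 : V.filter (fun v => ∀ i, (p : ℤ) ∣ s (v i) * G + H) =
          Fintype.piFinset (fun _ : Fin r => T.filter (fun l => (p : ℤ) ∣ s l * G + H)) := by
        ext v
        simp only [hV, mem_filter, Fintype.mem_piFinset]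
        constructor
        · rintro ⟨h6, h7⟩ i
          exact ⟨h6 i, h7 i⟩
        · intro h6
          exact ⟨fun i => (h6 i).1, fun i => (h6 i).2⟩
      rw [h5, Fintype.card_piFinset, prod_const, card_univ, Fintype.card_fin]
    calc ∑ p ∈ P, (1 / (p : ℝ)) * t p ^ r = ∑ v ∈ V, ∑ p ∈ P, (1 / (p : ℝ)) * (if ∀ i, (p : ℤ) ∣ s (v i) * G + H then (1 : ℝ) else 0) := by
          rw [sum_comm]
          apply sum_congr rfl
          intro p _
          rw [h4, mul_sum]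
      _ ≤ ∑ v ∈ V, Om P (G * (∑ i, s (v i)) + r * H) := by
          apply sum_le_sum
          intro v _
          unfold Om
          apply sum_le_sum
          intro p _
          by_cases h5 : ∀ i, (p : ℤ) ∣ s (v i) * G + H
          · rw [if_pos h5, if_pos, mul_one]
            have h6 : G * (∑ i, s (v i)) + r * H = ∑ i, (s (v i) * G + H) := by
              rw [sum_add_distrib, sum_const, card_univ, Fintype.card_fin, nsmul_eq_mul, ← sum_mul]
              ring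
            rw [h6]
            exact dvd_sum fun i _ => h5 i
          · rw [if_neg h5, mul_zero]
            split_ifs <;> positivity
  set Z : ℝ := ∑ v ∈ V, Om P (G * (∑ i, s (v i)) + r * H) with hZ
  have hZ0 : 0 ≤ Z := sum_nonneg fun _ _ => Om_nonneg _ _
  have h4 : (δ * T.card) ^ r ≤ S ^ (r - 1) * Z := by
    calc (δ * T.card) ^ r ≤ (∑ p ∈ P, (1 / (p : ℝ)) * t p) ^ r := pow_le_pow_left₀ (by positivity) h1 r
      _ ≤ S ^ (r - 1) * ∑ p ∈ P, (1 / (p : ℝ)) * t p ^ r := h2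
      _ ≤ S ^ (r - 1) * Z := mul_le_mul_of_nonneg_left h3 (by positivity)
  -- the power
  set Z2 : ℝ := ∑ v ∈ V, Om P (G * (∑ i, s (v i)) + r * H) ^ q with hZ2
  have h5 : Z ^ q ≤ ((T.card : ℝ) ^ r) ^ (q - 1) * Z2 := by
    obtain ⟨q', rfl⟩ : ∃ q', q = q' + 1 := ⟨q - 1, by omega⟩
    have h6 := pow_sum_le_card_mul_sum_pow (s := V) (f := fun v => Om P (G * (∑ i, s (v i)) + r * H)) (fun _ _ => Om_nonneg _ _) q'
    rw [hVc] at h6
    simpa using h6
  have h6 : Z2 ^ 2 ≤ (Pool.Agent.H373R2.T7.energy r x s : ℝ) * ∑ m ∈ Icc (-(Y : ℤ)) Y, Om P (G * m + r * H) ^ (2 * q) := by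
    have h7 := energy_cs r x Y s T hT hY (fun m => Om P (G * m + r * H) ^ q)
    refine h7.trans (le_of_eq ?_)
    congr 1
    apply sum_congr rfl
    intro m _
    rw [← pow_mul, Nat.mul_comm q 2]
  calc ((δ * T.card) ^ r) ^ (2 * q) ≤ (S ^ (r - 1) * Z) ^ (2 * q) := pow_le_pow_left₀ (by positivity) h4 _
    _ = (S ^ (r - 1)) ^ (2 * q) * (Z ^ q) ^ 2 := by rw [mul_pow, ← pow_mul Z, mul_comm q 2]
    _ ≤ (S ^ (r - 1)) ^ (2 * q) * (((T.card : ℝ) ^ r) ^ (q - 1) * Z2) ^ 2 := by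
        apply mul_le_mul_of_nonneg_left _ (by positivity)
        exact pow_le_pow_left₀ (by positivity) h5 2
    _ = (S ^ (r - 1)) ^ (2 * q) * (((T.card : ℝ) ^ r) ^ (2 * (q - 1)) * Z2 ^ 2) := by
        rw [mul_pow, ← pow_mul ((T.card : ℝ) ^ r), mul_comm (q - 1) 2]
    _ ≤ _ := by
        apply mul_le_mul_of_nonneg_left _ (by positivity)
        exact mul_le_mul_of_nonneg_left h6 (by positivity)

lemma harm_le (z : ℕ) (P : Finset ℕ) (hP : P ⊆ Icc 1 z) : ∑ p ∈ P, 1 / (p : ℝ) ≤ 1 + Real.log z := by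
  have h1 := harmonic_le_one_add_log z
  rw [harmonic_eq_sum_Icc] at h1
  push_cast at h1
  calc ∑ p ∈ P, 1 / (p : ℝ) ≤ ∑ p ∈ Icc 1 z, 1 / (p : ℝ) := sum_le_sum_of_subset_of_nonneg hP (fun _ _ _ => by positivity)
    _ = ∑ p ∈ Icc 1 z, (p : ℝ)⁻¹ := sum_congr rfl fun _ _ => one_div _
    _ ≤ _ := h1

/-- the numerical part of `div_size` -/
lemma div_num (H B E A q r : ℕ) (c1 κ L N x t S δ w Y En : ℝ) (hr1 : 1 ≤ r) (hr : r ≤ H) (hq1 : 1 ≤ q) (hc1 : 0 < c1) (hκ0 : 0 < κ)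
    (hκH : κ * H = c1 / 4) (hq2 : (B : ℝ) + E + 1 + 2 * H * A ≤ c1 * q / 2) (hL1 : 1 ≤ L) (hLq : 8 * H * (2 * q : ℝ) ^ (2 * q) ≤ L)
    (hN0 : 0 < N) (hx : 0 ≤ x) (ht0 : 0 < t) (hS : S = L ^ κ) (hδ : δ = L ^ (-(2 * κ))) (hw : L ^ c1 ≤ w) (hY0 : 0 ≤ Y)
    (hY2 : Y ≤ 2 * H * (N * L ^ E)) (hEn0 : 0 ≤ En) (hE : En * N ≤ L ^ B * x ^ (2 * r))
    (key : ((δ * t) ^ r) ^ (2 * q) ≤ (S ^ (r - 1)) ^ (2 * q) * ((t ^ r) ^ (2 * (q - 1)) * (En * (4 * Y * (2 * q / w) ^ (2 * q))))) :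
    t ≤ x / L ^ A := by
  have hL0 : 0 < L := by linarith
  have hwr0 : 0 < w := lt_of_lt_of_le (by positivity) hw
  have hS0 : 0 < S := by rw [hS]; positivity
  have hδ0 : 0 < δ := by rw [hδ]; positivity
  -- cancel
  have k5 : (δ ^ r) ^ (2 * q) * (t ^ r) ^ 2 ≤ (S ^ (r - 1)) ^ (2 * q) * (En * (4 * Y * (2 * q / w) ^ (2 * q))) := by
    have g1 : ((δ * t) ^ r) ^ (2 * q) = (t ^ r) ^ (2 * (q - 1)) * ((δ ^ r) ^ (2 * q) * (t ^ r) ^ 2) := by
      have e1 : (t ^ r) ^ (2 * q) = (t ^ r) ^ (2 * (q - 1)) * (t ^ r) ^ 2 := by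
        rw [← pow_add]
        congr 1
        omega
      rw [mul_pow, mul_pow, e1]
      ring
    rw [g1] at key
    have g2 : (0 : ℝ) < (t ^ r) ^ (2 * (q - 1)) := by positivity
    apply le_of_mul_le_mul_left _ g2
    refine key.trans (le_of_eq ?_)
    ring
  -- powers of L
  have hrr : (r : ℝ) ≤ H := by exact_mod_cast hr
  have hκr : κ * r ≤ c1 / 4 := by
    rw [← hκH]
    exact mul_le_mul_of_nonneg_left hrr hκ0.le
  have hq0 : (0 : ℝ) ≤ q := Nat.cast_nonneg _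
  have e1 : L ^ (-(c1 * q)) ≤ (δ ^ r) ^ (2 * q) := by
    rw [hδ, ← pow_mul, ← Real.rpow_natCast, ← Real.rpow_mul hL0.le]
    apply Real.rpow_le_rpow_of_exponent_le hL1
    push_cast
    nlinarith
  have e2 : (S ^ (r - 1)) ^ (2 * q) ≤ L ^ (c1 * q / 2) := by
    rw [hS, ← pow_mul, ← Real.rpow_natCast, ← Real.rpow_mul hL0.le]
    apply Real.rpow_le_rpow_of_exponent_le hL1
    push_cast [Nat.cast_sub hr1]
    have g3 : κ * ((r : ℝ) - 1) ≤ c1 / 4 := by nlinarith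
    nlinarith
  have e3 : (2 * q / w) ^ (2 * q) ≤ (2 * q : ℝ) ^ (2 * q) * L ^ (-(2 * c1 * q)) := by
    rw [div_pow, div_eq_mul_inv]
    apply mul_le_mul_of_nonneg_left _ (by positivity)
    have g1 : L ^ (-(2 * c1 * q)) = ((L ^ c1) ^ (2 * q))⁻¹ := by
      rw [Real.rpow_neg hL0.le, ← Real.rpow_natCast, ← Real.rpow_mul hL0.le]
      congr 2
      push_cast
      ring
    rw [g1]
    exact inv_anti₀ (by positivity) (pow_le_pow_left₀ (by positivity) hw _)
  have e4 : En * (4 * Y) ≤ 8 * H * L ^ (B + E) * x ^ (2 * r) := by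
    calc En * (4 * Y) ≤ En * (4 * (2 * H * (N * L ^ E))) := by
          apply mul_le_mul_of_nonneg_left _ hEn0
          linarith
      _ = (En * N) * (8 * H * L ^ E) := by ring
      _ ≤ (L ^ B * x ^ (2 * r)) * (8 * H * L ^ E) := mul_le_mul_of_nonneg_right hE (by positivity)
      _ = _ := by rw [pow_add]; ring
  have hD0 : 0 ≤ L ^ (c1 * q / 2) := by positivity
  have hD1 : 0 ≤ 8 * H * L ^ (B + E) * x ^ (2 * r) := by positivity
  have hD2 : 0 ≤ (2 * q / w) ^ (2 * q) := by positivity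
  have hD3 : 0 ≤ En * (4 * Y) := by positivity
  have e5 : (t ^ r) ^ 2 ≤ x ^ (2 * r) * (L ^ (-(c1 * q / 2)) * (8 * H * (2 * q : ℝ) ^ (2 * q)) * L ^ (B + E)) := by
    have g1 : L ^ (-(c1 * q)) * (t ^ r) ^ 2 ≤ L ^ (c1 * q / 2) * ((8 * H * L ^ (B + E) * x ^ (2 * r)) * ((2 * q : ℝ) ^ (2 * q) * L ^ (-(2 * c1 * q)))) := by
      calc L ^ (-(c1 * q)) * (t ^ r) ^ 2 ≤ (δ ^ r) ^ (2 * q) * (t ^ r) ^ 2 := mul_le_mul_of_nonneg_right e1 (by positivity)
        _ ≤ (S ^ (r - 1)) ^ (2 * q) * (En * (4 * Y * (2 * q / w) ^ (2 * q))) := k5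
        _ = (S ^ (r - 1)) ^ (2 * q) * ((En * (4 * Y)) * (2 * q / w) ^ (2 * q)) := by ring
        _ ≤ _ := mul_le_mul e2 (mul_le_mul e4 e3 hD2 hD1) (mul_nonneg hD3 hD2) hD0
    have g2 : L ^ (c1 * q) * L ^ (-(c1 * q)) = 1 := by
      rw [← Real.rpow_add hL0]
      simp
    have g3 : L ^ (c1 * q) * (L ^ (c1 * q / 2) * L ^ (-(2 * c1 * q))) = L ^ (-(c1 * q / 2)) := by
      rw [← Real.rpow_add hL0, ← Real.rpow_add hL0]
      congr 1
      ring
    have g4 : 0 < L ^ (c1 * q) := by positivity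
    calc (t ^ r) ^ 2 = L ^ (c1 * q) * (L ^ (-(c1 * q)) * (t ^ r) ^ 2) := by rw [← mul_assoc, g2, one_mul]
      _ ≤ L ^ (c1 * q) * (L ^ (c1 * q / 2) * ((8 * H * L ^ (B + E) * x ^ (2 * r)) * ((2 * q : ℝ) ^ (2 * q) * L ^ (-(2 * c1 * q))))) :=
          mul_le_mul_of_nonneg_left g1 g4.le
      _ = x ^ (2 * r) * ((L ^ (c1 * q) * (L ^ (c1 * q / 2) * L ^ (-(2 * c1 * q)))) * (8 * H * (2 * q : ℝ) ^ (2 * q)) * L ^ (B + E)) := by ring
      _ = _ := by rw [g3]
  have e6 : L ^ (-(c1 * q / 2)) * (8 * H * (2 * q : ℝ) ^ (2 * q)) * L ^ (B + E) ≤ 1 / (L ^ A) ^ (2 * r) := by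
    have g1 : L ^ (-(c1 * q / 2)) ≤ L ^ (-((B : ℝ) + E + 1 + 2 * H * A)) :=
      Real.rpow_le_rpow_of_exponent_le hL1 (by linarith)
    have g2 : L ^ (-((B : ℝ) + E + 1 + 2 * H * A)) = 1 / (L ^ (B + E) * L * L ^ (2 * H * A)) := by
      rw [Real.rpow_neg hL0.le, one_div, ← pow_succ, ← pow_add, ← Real.rpow_natCast]
      congr 2
      push_cast
      ring
    have g3 : (L ^ A) ^ (2 * r) ≤ L ^ (2 * H * A) := by
      rw [← pow_mul]
      apply pow_le_pow_right₀ hL1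
      calc A * (2 * r) = 2 * r * A := by ring
        _ ≤ 2 * H * A := Nat.mul_le_mul_right _ (Nat.mul_le_mul_left _ hr)
    have g4 : 0 ≤ L ^ (B + E) := by positivity
    have g5 : 0 ≤ 8 * H * (2 * q : ℝ) ^ (2 * q) := by positivity
    have g6 : 0 ≤ 1 / (L ^ (B + E) * L * L ^ (2 * H * A)) := by positivity
    calc L ^ (-(c1 * q / 2)) * (8 * H * (2 * q : ℝ) ^ (2 * q)) * L ^ (B + E) ≤
          (1 / (L ^ (B + E) * L * L ^ (2 * H * A))) * L * L ^ (B + E) := by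
          apply mul_le_mul_of_nonneg_right _ g4
          exact mul_le_mul (by rw [← g2]; exact g1) hLq g5 g6
      _ = 1 / L ^ (2 * H * A) := by field_simp
      _ ≤ 1 / (L ^ A) ^ (2 * r) := one_div_le_one_div_of_le (by positivity) g3
  have e7 : t ^ (2 * r) ≤ (x / L ^ A) ^ (2 * r) := by
    calc t ^ (2 * r) = (t ^ r) ^ 2 := by rw [← pow_mul, mul_comm r 2]
      _ ≤ _ := e5
      _ ≤ x ^ (2 * r) * (1 / (L ^ A) ^ (2 * r)) := mul_le_mul_of_nonneg_left e6 (by positivity)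
      _ = _ := by rw [div_pow]; ring
  exact le_of_pow_le_pow_left₀ (by omega) (by positivity) e7

/-- the sum over the large prime divisors splits -/
lemma div_split (E : ℕ) (κ c1 L N : ℝ) (w z : ℕ) (D G : ℤ) (P : Finset ℕ) (hL1 : 1 ≤ L) (hLN : L = Real.log N) (hN0 : 1 ≤ N) (hκ0 : 0 < κ) (hκc : κ ≤ c1 / 4)
    (hc1' : c1 ≤ 1) (k2 : 12 ≤ L ^ (κ / 2)) (k3 : 6 * E / κ ≤ L ^ (κ / 2)) (hzL2 : L ^ 2 < (z : ℝ) + 1)
    (hw : L ^ c1 ≤ w) (hP : P = (Icc 1 z).filter (fun p => p.Prime ∧ w < p ∧ ¬ (p : ℤ) ∣ G)) (hD0 : D ≠ 0) (hDN : |(D : ℝ)| ≤ N ^ 2)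
    (hG0 : G ≠ 0) (hG : |(G : ℝ)| ≤ L ^ E) (hcon : Om P D < L ^ (-(2 * κ))) :
    ∑ p ∈ D.natAbs.primeFactors.filter (fun p => w < p), 1 / (p : ℝ) ≤ L ^ (-κ) := by
  have hL0 : 0 < L := by linarith
  have kk : L ^ (κ / 2) ≤ L ^ κ := Real.rpow_le_rpow_of_exponent_le hL1 (by linarith)
  have hLk0 : 0 < L ^ κ := by positivity
  have hlogL : Real.log L ≤ L ^ κ / κ := Real.log_le_rpow_div hL0.le hκ0
  have hlogL0 : 0 ≤ Real.log L := Real.log_nonneg hL1
  have hDn : D.natAbs ≠ 0 := Int.natAbs_ne_zero.2 hD0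
  have hGn : G.natAbs ≠ 0 := Int.natAbs_ne_zero.2 hG0
  have hsub2 : D.natAbs.primeFactors.filter (fun p => w < p) ⊆
      (D.natAbs.primeFactors.filter (fun p => z < p)) ∪ (G.natAbs.primeFactors.filter (fun p => w < p)) ∪
        (P.filter (fun p : ℕ => (p : ℤ) ∣ D)) := by
    intro p hp
    rw [mem_filter] at hp
    have hpp := Nat.prime_of_mem_primeFactors hp.1
    have hpd : (p : ℤ) ∣ D := Int.natCast_dvd.2 (Nat.dvd_of_mem_primeFactors hp.1)
    rw [mem_union, mem_union, mem_filter, mem_filter, mem_filter]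
    by_cases h5 : z < p
    · exact Or.inl (Or.inl ⟨hp.1, h5⟩)
    · by_cases h6 : (p : ℤ) ∣ G
      · exact Or.inl (Or.inr ⟨Nat.mem_primeFactors.2 ⟨hpp, Int.natCast_dvd.1 h6, hGn⟩, hp.2⟩)
      · refine Or.inr ⟨?_, hpd⟩
        rw [hP, mem_filter, mem_Icc]
        exact ⟨⟨hpp.one_le, by omega⟩, hpp, hp.2, h6⟩
  have s1 : ∑ p ∈ D.natAbs.primeFactors.filter (fun p => z < p), 1 / (p : ℝ) ≤ 4 / L := by
    have g1 : ((D.natAbs.primeFactors.filter (fun p => z < p)).card : ℝ) ≤ 4 * L := by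
      have g2 : ((D.natAbs.primeFactors.filter (fun p => z < p)).card : ℝ) ≤ D.natAbs.primeFactors.card := by
        exact_mod_cast card_le_card (filter_subset _ _)
      have g3 := card_pf D.natAbs hDn
      have g4 : Real.log (D.natAbs : ℝ) ≤ 2 * L := by
        have g5 : ((D.natAbs : ℕ) : ℝ) ≤ N ^ 2 := by
          rw [Nat.cast_natAbs, Int.cast_abs]
          exact hDN
        have g6 := Real.log_le_log (by exact_mod_cast Nat.pos_of_ne_zero hDn) g5
        rw [Real.log_pow] at g6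
        rw [hLN]
        exact_mod_cast g6
      linarith
    calc ∑ p ∈ D.natAbs.primeFactors.filter (fun p => z < p), 1 / (p : ℝ) ≤
          ∑ _p ∈ D.natAbs.primeFactors.filter (fun p => z < p), 1 / L ^ 2 := by
          apply sum_le_sum
          intro p hp
          apply one_div_le_one_div_of_le (by positivity)
          have : (z : ℝ) + 1 ≤ p := by exact_mod_cast (mem_filter.1 hp).2
          linarith
      _ = ((D.natAbs.primeFactors.filter (fun p => z < p)).card : ℝ) * (1 / L ^ 2) := by rw [sum_const, nsmul_eq_mul]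
      _ ≤ (4 * L) * (1 / L ^ 2) := mul_le_mul_of_nonneg_right g1 (by positivity)
      _ = 4 / L := by field_simp
  have s2 : ∑ p ∈ G.natAbs.primeFactors.filter (fun p => w < p), 1 / (p : ℝ) ≤ (2 * (E * Real.log L)) * (1 / L ^ c1) := by
    have g1 : ((G.natAbs.primeFactors.filter (fun p => w < p)).card : ℝ) ≤ 2 * (E * Real.log L) := by
      have g2 : ((G.natAbs.primeFactors.filter (fun p => w < p)).card : ℝ) ≤ G.natAbs.primeFactors.card := by
        exact_mod_cast card_le_card (filter_subset _ _)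
      have g3 := card_pf G.natAbs hGn
      have g4 : Real.log (G.natAbs : ℝ) ≤ E * Real.log L := by
        have g5 : ((G.natAbs : ℕ) : ℝ) ≤ L ^ E := by
          rw [Nat.cast_natAbs, Int.cast_abs]
          exact hG
        have g6 := Real.log_le_log (by exact_mod_cast Nat.pos_of_ne_zero hGn) g5
        rw [Real.log_pow] at g6
        exact g6
      linarith
    calc ∑ p ∈ G.natAbs.primeFactors.filter (fun p => w < p), 1 / (p : ℝ) ≤
          ∑ _p ∈ G.natAbs.primeFactors.filter (fun p => w < p), 1 / L ^ c1 := by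
          apply sum_le_sum
          intro p hp
          apply one_div_le_one_div_of_le (by positivity)
          have : (w : ℝ) ≤ p := by exact_mod_cast (mem_filter.1 hp).2.le
          linarith
      _ = ((G.natAbs.primeFactors.filter (fun p => w < p)).card : ℝ) * (1 / L ^ c1) := by rw [sum_const, nsmul_eq_mul]
      _ ≤ _ := mul_le_mul_of_nonneg_right g1 (by positivity)
  have s3 : ∑ p ∈ P.filter (fun p : ℕ => (p : ℤ) ∣ D), 1 / (p : ℝ) = Om P D := by
    unfold Om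
    rw [sum_filter]
  have u1 : ∀ A B : Finset ℕ, ∑ p ∈ A ∪ B, 1 / (p : ℝ) ≤ ∑ p ∈ A, 1 / (p : ℝ) + ∑ p ∈ B, 1 / (p : ℝ) := by
    intro A B
    rw [← sum_union_inter]
    have : 0 ≤ ∑ p ∈ A ∩ B, 1 / (p : ℝ) := sum_nonneg fun _ _ => by positivity
    linarith
  have s4 : ∑ p ∈ D.natAbs.primeFactors.filter (fun p => w < p), 1 / (p : ℝ) ≤
      4 / L + (2 * (E * Real.log L)) * (1 / L ^ c1) + L ^ (-(2 * κ)) := by
    refine (sum_le_sum_of_subset_of_nonneg hsub2 (fun _ _ _ => by positivity)).trans ?_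
    refine (u1 _ _).trans ?_
    have u2 := u1 (D.natAbs.primeFactors.filter (fun p => z < p)) (G.natAbs.primeFactors.filter (fun p => w < p))
    rw [s3]
    linarith
  -- numerical
  have hκ1 : L ^ (-κ) = 1 / L ^ κ := by rw [Real.rpow_neg hL0.le, one_div]
  have t1 : 4 / L ≤ L ^ (-κ) / 3 := by
    rw [hκ1, div_div, div_le_div_iff₀ hL0 (by positivity)]
    have g1 : L ^ κ * L ^ (1 - κ) = L := by
      rw [← Real.rpow_add hL0]
      simp
    have g2 : L ^ κ ≤ L ^ (1 - κ) := Real.rpow_le_rpow_of_exponent_le hL1 (by linarith)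
    have g3 : 12 ≤ L ^ (1 - κ) := (k2.trans kk).trans g2
    nlinarith
  have t2 : (2 * (E * Real.log L)) * (1 / L ^ c1) ≤ L ^ (-κ) / 3 := by
    rw [hκ1, mul_one_div, div_div, div_le_div_iff₀ (by positivity) (by positivity), one_mul]
    have g1 : L ^ κ * (L ^ κ * L ^ (c1 - 2 * κ)) = L ^ c1 := by
      rw [← Real.rpow_add hL0, ← Real.rpow_add hL0]
      congr 1
      ring
    have g2 : L ^ (κ / 2) ≤ L ^ (c1 - 2 * κ) := Real.rpow_le_rpow_of_exponent_le hL1 (by linarith)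
    have g3 : 6 * (E * Real.log L) ≤ L ^ κ * L ^ (c1 - 2 * κ) := by
      calc 6 * (E * Real.log L) ≤ 6 * (E * (L ^ κ / κ)) := by
            have : (0 : ℝ) ≤ E := Nat.cast_nonneg _
            nlinarith
        _ = L ^ κ * (6 * E / κ) := by ring
        _ ≤ L ^ κ * L ^ (c1 - 2 * κ) := mul_le_mul_of_nonneg_left (k3.trans g2) hLk0.le
    calc 2 * (E * Real.log L) * (L ^ κ * 3) = L ^ κ * (6 * (E * Real.log L)) := by ring
      _ ≤ L ^ κ * (L ^ κ * L ^ (c1 - 2 * κ)) := mul_le_mul_of_nonneg_left g3 hLk0.le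
      _ = L ^ c1 := g1
  have t3 : L ^ (-(2 * κ)) ≤ L ^ (-κ) / 3 := by
    have g1 : L ^ (-(2 * κ)) = L ^ (-κ) * L ^ (-κ) := by
      rw [← Real.rpow_add hL0]
      congr 1
      ring
    rw [g1]
    have g2 : L ^ (-κ) ≤ 1 / 3 := by
      rw [hκ1]
      apply one_div_le_one_div_of_le (by norm_num)
      linarith [k2.trans kk]
    have g3 : 0 ≤ L ^ (-κ) := by positivity
    nlinarith
  linarith

lemma prod_bound (q : ℕ) (w : ℝ) (hw : 0 < w) :
    ∏ j ∈ range (2 * q), ((((0 : ℕ) : ℝ) + 1 + j) / w) ≤ (2 * q / w) ^ (2 * q) := by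
  have g3 : ∏ j ∈ range (2 * q), ((((0 : ℕ) : ℝ) + 1 + j) / w) ≤ ∏ _j ∈ range (2 * q), (2 * q / (w : ℝ)) := by
    apply prod_le_prod
    · intro j _
      positivity
    · intro j hj
      apply div_le_div_of_nonneg_right _ hw.le
      have : ((j + 1 : ℕ) : ℝ) ≤ ((2 * q : ℕ) : ℝ) := by exact_mod_cast mem_range.1 hj
      push_cast at this ⊢
      linarith
  rwa [prod_const, card_range] at g3

/-- the second moment, the case used -/
lemma moment' (P : Finset ℕ) (w z Y q : ℕ) (G H : ℤ) (hw : 1 ≤ w) (hP : ∀ p ∈ P, p.Prime ∧ w < p ∧ p ≤ z ∧ ¬ (p : ℤ) ∣ G)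
    (hz : z ^ (2 * q) ≤ Y) : ∑ m ∈ Icc (-(Y : ℤ)) Y, Om P (G * m + H) ^ (2 * q) ≤ 4 * Y * (2 * q / w) ^ (2 * q) := by
  have hmom := moment P w z Y G H hw hP (2 * q) 0 1 squarefree_one (by simp) (by simp) (by rw [one_mul]; exact hz)
  have g1 : (Icc (-(Y : ℤ)) Y).filter (fun m => ((1 : ℕ) : ℤ) ∣ G * m + H) = Icc (-(Y : ℤ)) Y := by
    apply filter_true_of_mem
    intro m _
    rw [Nat.cast_one]
    exact one_dvd _
  rw [g1] at hmom
  refine hmom.trans ?_
  rw [Nat.cast_one, div_one]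
  apply mul_le_mul_of_nonneg_left _ (by positivity)
  exact prod_bound q w (by exact_mod_cast hw)

set_option maxHeartbeats 1000000 in
open Classical in
theorem pair_div (H B E A : ℕ) (hH : 1 ≤ H) (c1 : ℝ) (hc1 : 0 < c1) (hc1' : c1 ≤ 1) : ∃ N0 : ℕ, ∀ N : ℕ, N0 ≤ N → ∀ r : ℕ, 1 ≤ r → r ≤ H →
    ∀ (x : ℕ) (s : ℕ → ℤ) (G H0 : ℤ) (w : ℕ), (Pool.Agent.H373R2.T7.energy r x s : ℝ) * N ≤ Real.log N ^ B * (x : ℝ) ^ (2 * r) →
    (∀ l ∈ Icc 1 x, |(s l : ℝ)| ≤ N * Real.log N ^ E) → G ≠ 0 → |(G : ℝ)| ≤ Real.log N ^ E → Real.log N ^ c1 ≤ w →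
    (((Icc 1 x).filter (fun l => s l * G + H0 ≠ 0 ∧ |((s l * G + H0 : ℤ) : ℝ)| ≤ (N : ℝ) ^ 2 ∧
      Real.log N ^ (-(c1 / (4 * H))) < ∑ p ∈ (s l * G + H0).natAbs.primeFactors.filter (fun p => w < p), 1 / (p : ℝ))).card : ℝ) ≤
      x / Real.log N ^ A := by
  have hHr : (1 : ℝ) ≤ H := by exact_mod_cast hH
  set κ : ℝ := c1 / (4 * H) with hκ
  have hκ0 : 0 < κ := by positivity
  have hκc : κ ≤ c1 / 4 := by
    rw [hκ]
    apply div_le_div_of_nonneg_left hc1.le (by norm_num)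
    linarith
  have hκH : κ * H = c1 / 4 := by rw [hκ]; field_simp
  obtain ⟨q, hq⟩ := exists_nat_ge (2 * ((B : ℝ) + E + 1 + 2 * H * A) / c1)
  have hq2 : (B : ℝ) + E + 1 + 2 * H * A ≤ c1 * q / 2 := by
    rw [div_le_iff₀ hc1] at hq
    linarith
  have hq1 : 1 ≤ q := by
    by_contra h
    have h0 : q = 0 := by omega
    rw [h0] at hq2
    simp only [Nat.cast_zero, mul_zero, zero_div] at hq2
    have : (0 : ℝ) ≤ (B : ℝ) + E + 2 * H * A := by positivity
    linarith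
  obtain ⟨n1, h1⟩ := ev_rpow (κ / 2) (max (1 + 4 / κ) (max 12 (6 * E / κ))) (by positivity)
  obtain ⟨n2, h2⟩ := Pool.Agent.H373R2.T7.ev_L' (max 4 (8 * H * (2 * q) ^ (2 * q)))
  obtain ⟨n3, h3⟩ := Pool.Agent.H373R2.T7.ev_log' (4 * q) 1
  refine ⟨max (max n1 n2) (max n3 3), fun N hN r hr1 hr x s G H0 w hE hs hG0 hG hw => ?_⟩
  have b1 : n1 ≤ N := le_trans (le_trans (le_max_left _ _) (le_max_left _ _)) hN
  have b2 : n2 ≤ N := le_trans (le_trans (le_max_right _ _) (le_max_left _ _)) hN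
  have b3 : n3 ≤ N := le_trans (le_trans (le_max_left _ _) (le_max_right _ _)) hN
  have b4 : 3 ≤ N := le_trans (le_trans (le_max_right _ _) (le_max_right _ _)) hN
  have a1 := h1 N b1
  have a2 := h2 N b2
  have a3 := h3 N b3
  rw [one_mul] at a3
  have hNr : (3 : ℝ) ≤ N := by exact_mod_cast b4
  have hN0 : (0 : ℝ) < N := by linarith
  set L := Real.log N with hLd
  have hL4 : 4 ≤ L := (le_max_left _ _).trans a2
  have hLq : 8 * H * (2 * q : ℝ) ^ (2 * q) ≤ L := (le_max_right _ _).trans a2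
  have hL1 : 1 ≤ L := by linarith
  have hL0 : 0 < L := by linarith
  have k1 : 1 + 4 / κ ≤ L ^ (κ / 2) := (le_max_left _ _).trans a1
  have k2 : 12 ≤ L ^ (κ / 2) := ((le_max_left _ _).trans (le_max_right _ _)).trans a1
  have k3 : 6 * E / κ ≤ L ^ (κ / 2) := ((le_max_right _ _).trans (le_max_right _ _)).trans a1
  have hLk0 : 0 < L ^ κ := by positivity
  -- the parameters
  set z : ℕ := ⌊L ^ 2⌋₊ with hz
  have hzL : (z : ℝ) ≤ L ^ 2 := Nat.floor_le (by positivity)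
  have hzL2 : L ^ 2 < (z : ℝ) + 1 := Nat.lt_floor_add_one _
  have hz1 : 1 ≤ z := by
    have : (1 : ℝ) ≤ L ^ 2 := one_le_pow₀ hL1
    rw [hz]
    exact Nat.le_floor (by exact_mod_cast this)
  set P : Finset ℕ := (Icc 1 z).filter (fun p => p.Prime ∧ w < p ∧ ¬ (p : ℤ) ∣ G) with hP
  have hPp : ∀ p ∈ P, p.Prime ∧ w < p ∧ p ≤ z ∧ ¬ (p : ℤ) ∣ G := by
    intro p hp
    rw [hP, mem_filter, mem_Icc] at hp
    exact ⟨hp.2.1, hp.2.2.1, hp.1.2, hp.2.2.2⟩
  set δ : ℝ := L ^ (-(2 * κ)) with hδ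
  have hδ0 : 0 < δ := by positivity
  have hwr0 : (0 : ℝ) < w := lt_of_lt_of_le (by positivity) hw
  have hw1 : 1 ≤ w := by exact_mod_cast hwr0
  set T := (Icc 1 x).filter (fun l => δ ≤ Om P (s l * G + H0)) with hT
  have hlogL2 : Real.log L ≤ L ^ (κ / 2) / (κ / 2) := Real.log_le_rpow_div hL0.le (by positivity)
  -- the set is contained in T
  have hsub : (Icc 1 x).filter (fun l => s l * G + H0 ≠ 0 ∧ |((s l * G + H0 : ℤ) : ℝ)| ≤ (N : ℝ) ^ 2 ∧
      L ^ (-κ) < ∑ p ∈ (s l * G + H0).natAbs.primeFactors.filter (fun p => w < p), 1 / (p : ℝ)) ⊆ T := by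
    intro l hl
    rw [mem_filter] at hl
    obtain ⟨hlx, hD0, hDN, hlt⟩ := hl
    rw [hT, mem_filter]
    refine ⟨hlx, ?_⟩
    by_contra hcon
    rw [not_le] at hcon
    have := div_split E κ c1 L N w z (s l * G + H0) G P hL1 hLd (by linarith) hκ0 hκc hc1' k2 k3 hzL2 hw hP hD0 hDN hG0 hG hcon
    linarith
  -- the size of T
  have hTc : (T.card : ℝ) ≤ x / L ^ A := by
    rcases T.eq_empty_or_nonempty with hTe | hTe
    · rw [hTe, card_empty, Nat.cast_zero]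
      positivity
    have ht1 : 1 ≤ T.card := card_pos.2 hTe
    have ht0 : (0 : ℝ) < T.card := by exact_mod_cast ht1
    set Y : ℕ := ⌈H * (N * L ^ E)⌉₊ with hYd
    have hLE1 : 1 ≤ L ^ E := one_le_pow₀ hL1
    have hY1 : H * (N * L ^ E) ≤ Y := Nat.le_ceil _
    have g2' : (N : ℝ) ≤ H * (N * L ^ E) := by
      calc (N : ℝ) = 1 * (N * 1) := by ring
        _ ≤ H * (N * L ^ E) := by
            apply mul_le_mul hHr _ (by positivity) (by positivity)
            exact mul_le_mul_of_nonneg_left hLE1 hN0.le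
    have hY2 : (Y : ℝ) ≤ 2 * H * (N * L ^ E) := by
      have g1 := Nat.ceil_lt_add_one (show 0 ≤ H * (N * L ^ E) by positivity)
      linarith
    have hNY : N ≤ Y := by exact_mod_cast g2'.trans hY1
    have hYv : ∀ v ∈ Fintype.piFinset (fun _ : Fin r => T), |∑ i, s (v i)| ≤ (Y : ℤ) := by
      intro v hv
      have g1 : ((|∑ i, s (v i)| : ℤ) : ℝ) ≤ Y := by
        push_cast
        calc |∑ i, (s (v i) : ℝ)| ≤ ∑ i, |(s (v i) : ℝ)| := abs_sum_le_sum_abs _ _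
          _ ≤ ∑ _i : Fin r, N * L ^ E := by
              apply sum_le_sum
              intro i _
              exact hs (v i) (mem_filter.1 (Fintype.mem_piFinset.1 hv i)).1
          _ = r * (N * L ^ E) := by rw [sum_const, card_univ, Fintype.card_fin, nsmul_eq_mul]
          _ ≤ H * (N * L ^ E) := by
              apply mul_le_mul_of_nonneg_right _ (by positivity)
              exact_mod_cast hr
          _ ≤ Y := hY1
      exact_mod_cast g1
    set S : ℝ := L ^ κ with hS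
    have hSP : ∑ p ∈ P, 1 / (p : ℝ) ≤ S := by
      refine (harm_le z P (filter_subset _ _)).trans ?_
      have g1 : Real.log (z : ℝ) ≤ 2 * Real.log L := by
        have := Real.log_le_log (by exact_mod_cast hz1) hzL
        rw [Real.log_pow] at this
        exact_mod_cast this
      have g2 : S = L ^ (κ / 2) * L ^ (κ / 2) := by
        rw [hS, ← Real.rpow_add hL0]
        congr 1
        ring
      have g3 : 2 * Real.log L ≤ (4 / κ) * L ^ (κ / 2) := by
        calc 2 * Real.log L ≤ 2 * (L ^ (κ / 2) / (κ / 2)) := by linarith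
          _ = _ := by field_simp; ring
      have g4 : 0 < L ^ (κ / 2) := by positivity
      rw [g2]
      nlinarith
    have key := div_energy r x q Y s T P G H0 δ S (filter_subset _ _) hr1 hq1 hδ0.le hSP hLk0 (fun p hp => (hPp p hp).1.one_le)
      (fun l hl => (mem_filter.1 hl).2) hYv
    have hmom2 := moment' P w z Y q G (r * H0) hw1 hPp (by
      have g1 : ((z ^ (2 * q) : ℕ) : ℝ) ≤ N := by
        push_cast
        calc (z : ℝ) ^ (2 * q) ≤ (L ^ 2) ^ (2 * q) := pow_le_pow_left₀ (Nat.cast_nonneg _) hzL _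
          _ = L ^ (4 * q) := by rw [← pow_mul]; congr 1; ring
          _ ≤ √(N : ℝ) := a3
          _ ≤ N := by
              rw [Real.sqrt_le_left hN0.le]
              nlinarith
      exact le_trans (by exact_mod_cast g1) hNY)
    refine div_num H B E A q r c1 κ L N x T.card S δ w Y (Pool.Agent.H373R2.T7.energy r x s : ℝ) hr1 hr hq1 hc1 hκ0 hκH hq2 hL1 hLq hN0
      (Nat.cast_nonneg _) ht0 hS hδ hw (Nat.cast_nonneg _) hY2 (Nat.cast_nonneg _) hE (key.trans ?_)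
    apply mul_le_mul_of_nonneg_left _ (by positivity)
    apply mul_le_mul_of_nonneg_left _ (by positivity)
    exact mul_le_mul_of_nonneg_left hmom2 (Nat.cast_nonneg _)
  refine le_trans ?_ hTc
  exact_mod_cast card_le_card hsub

end Pool.Agent.K7.H49.LT
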