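import Mathlib
import Pool.Agent.K7.H49.LT.DivE
import Pool.Agent.K7.H49.LT.Fam

set_option autoImplicit false

/-! Prime divisors of all the differences. -/

namespace Pool.Agent.K7.H49.LT
open Finset

open Classical in
theorem div_all (H B E A : ℕ) (hH : 1 ≤ H) (c1 : ℝ) (hc1 : 0 < c1) (hc1' : c1 ≤ 1) : ∃ N0 : ℕ, ∀ N : ℕ, N0 ≤ N → ∀ r : ℕ, 1 ≤ r → r ≤ H →
    ∀ (x : ℕ) (s : ℕ → ℤ) (I : Finset ℕ) (u v : ℕ → ℤ) (w : ℕ),
    (Pool.Agent.H373R2.T7.energy r x s : ℝ) * N ≤ Real.log N ^ B * (x : ℝ) ^ (2 * r) →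
    (∀ l ∈ Icc 1 x, ∀ l' ∈ Icc 1 x, |((s l - s l' : ℤ) : ℝ)| ≤ N * Real.log N ^ E) → (I.card : ℝ) ≤ Real.log N ^ E →
    (∀ n ∈ I, ∀ n' ∈ I, n ≠ n' → u n ≠ u n' ∧ |((u n - u n' : ℤ) : ℝ)| ≤ Real.log N ^ E) → Real.log N ^ c1 ≤ w →
    (((Icc 1 x).filter (fun l => ∃ n ∈ I, ∃ n' ∈ I, n ≠ n' ∧ (s l * (u n - u n') + (v n - v n') ≠ 0 ∧
      |((s l * (u n - u n') + (v n - v n') : ℤ) : ℝ)| ≤ (N : ℝ) ^ 2 ∧
      Real.log N ^ (-(c1 / (4 * H))) < ∑ p ∈ (s l * (u n - u n') + (v n - v n')).natAbs.primeFactors.filter (fun p => w < p), 1 / (p : ℝ)))).card : ℝ) ≤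
      x / Real.log N ^ A := by
  obtain ⟨n1, h1⟩ := pair_div H B E (A + 2 * E) hH c1 hc1 hc1'
  obtain ⟨n2, h2⟩ := Pool.Agent.H373R2.T7.ev_L' 1
  refine ⟨max n1 n2, fun N hN r hr1 hr x s I u v w hE hs hI hu hw => ?_⟩
  have b1 : n1 ≤ N := (le_max_left _ _).trans hN
  have hL1 := h2 N ((le_max_right _ _).trans hN)
  set L := Real.log N with hLd
  have hL0 : 0 < L := by linarith
  set s' : ℕ → ℤ := fun l => s l * 1 + (-(s 1)) with hs'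
  have hen : Pool.Agent.H373R2.T7.energy r x s' = Pool.Agent.H373R2.T7.energy r x s := energy_affine r x s 1 (-(s 1)) one_ne_zero
  set S : ℕ × ℕ → Finset ℕ := fun q => (Icc 1 x).filter (fun l => s' l * (u q.1 - u q.2) + (s 1 * (u q.1 - u q.2) + (v q.1 - v q.2)) ≠ 0 ∧
    |((s' l * (u q.1 - u q.2) + (s 1 * (u q.1 - u q.2) + (v q.1 - v q.2)) : ℤ) : ℝ)| ≤ (N : ℝ) ^ 2 ∧
      L ^ (-(c1 / (4 * H))) < ∑ p ∈ (s' l * (u q.1 - u q.2) + (s 1 * (u q.1 - u q.2) + (v q.1 - v q.2))).natAbs.primeFactors.filter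
        (fun p => w < p), 1 / (p : ℝ)) with hS
  have hsub : (Icc 1 x).filter (fun l => ∃ n ∈ I, ∃ n' ∈ I, n ≠ n' ∧ (s l * (u n - u n') + (v n - v n') ≠ 0 ∧
      |((s l * (u n - u n') + (v n - v n') : ℤ) : ℝ)| ≤ (N : ℝ) ^ 2 ∧
      L ^ (-(c1 / (4 * H))) < ∑ p ∈ (s l * (u n - u n') + (v n - v n')).natAbs.primeFactors.filter (fun p => w < p), 1 / (p : ℝ))) ⊆
      ((I ×ˢ I).filter (fun q => q.1 ≠ q.2)).biUnion S := by
    intro l hl
    rw [mem_filter] at hl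
    obtain ⟨hlx, n, hn, n', hn', hne, hD⟩ := hl
    rw [mem_biUnion]
    refine ⟨(n, n'), mem_filter.2 ⟨mem_product.2 ⟨hn, hn'⟩, hne⟩, ?_⟩
    rw [hS, mem_filter]
    refine ⟨hlx, ?_⟩
    have e1 : s' l * (u n - u n') + (s 1 * (u n - u n') + (v n - v n')) = s l * (u n - u n') + (v n - v n') := by
      rw [hs']
      ring
    simp only
    rw [e1]
    exact hD
  have hSc : ∀ q ∈ (I ×ˢ I).filter (fun q => q.1 ≠ q.2), ((S q).card : ℝ) ≤ x / L ^ (A + 2 * E) := by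
    intro q hq
    rw [mem_filter, mem_product] at hq
    have hq2 := hu q.1 hq.1.1 q.2 hq.1.2 hq.2
    apply h1 N b1 r hr1 hr x s' (u q.1 - u q.2) (s 1 * (u q.1 - u q.2) + (v q.1 - v q.2)) w (by rw [hen]; exact hE) _
      (sub_ne_zero.2 hq2.1) hq2.2 hw
    intro l hl
    have h1x : 1 ∈ Icc 1 x := by
      rw [mem_Icc] at hl ⊢
      omega
    have := hs l hl 1 h1x
    rw [hs']
    convert this using 3
    push_cast
    ring
  have hIc : ((((I ×ˢ I).filter (fun q => q.1 ≠ q.2)).card : ℕ) : ℝ) ≤ L ^ E * L ^ E := by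
    have g1 : (((I ×ˢ I).filter (fun q => q.1 ≠ q.2)).card : ℝ) ≤ ((I ×ˢ I).card : ℝ) := by
      exact_mod_cast card_le_card (filter_subset _ _)
    rw [card_product] at g1
    push_cast at g1
    exact g1.trans (mul_le_mul hI hI (Nat.cast_nonneg _) (by positivity))
  calc _ ≤ ((((I ×ˢ I).filter (fun q => q.1 ≠ q.2)).biUnion S).card : ℝ) := by exact_mod_cast card_le_card hsub
    _ ≤ ∑ q ∈ (I ×ˢ I).filter (fun q => q.1 ≠ q.2), ((S q).card : ℝ) := by exact_mod_cast card_biUnion_le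
    _ ≤ ∑ _q ∈ (I ×ˢ I).filter (fun q => q.1 ≠ q.2), (x : ℝ) / L ^ (A + 2 * E) := sum_le_sum hSc
    _ = (((I ×ˢ I).filter (fun q => q.1 ≠ q.2)).card : ℝ) * (x / L ^ (A + 2 * E)) := by rw [sum_const, nsmul_eq_mul]
    _ ≤ (L ^ E * L ^ E) * (x / L ^ (A + 2 * E)) := mul_le_mul_of_nonneg_right hIc (by positivity)
    _ = x / L ^ A := by
        rw [pow_add L A, two_mul, pow_add L E]
        field_simp

end Pool.Agent.K7.H49.LT
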