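import Mathlib
import Pool.Agent.K7.H49.LT.Tail
import Pool.Agent.K7.H49.LT.Cnt

set_option autoImplicit false

/-! Roots of products of linear forms. -/

namespace Pool.Agent.K7.H49.LT
open Finset Pool.Agent.H373R2.T7

/-- number of classes -/
def rt {k : ℕ} (a b : Fin k → ℕ) (p : ℕ) : ℕ := ((range p).filter (fun n => ∃ i, p ∣ a i * n + b i)).card

lemma one_root (p a b : ℕ) (hp : p.Prime) (h : ¬ (p ∣ a ∧ p ∣ b)) : ((range p).filter (fun n => p ∣ a * n + b)).card ≤ 1 := by
  rw [card_le_one]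
  intro r hr s hs
  rw [mem_filter, mem_range] at hr hs
  by_cases ha : p ∣ a
  · exfalso
    apply h
    refine ⟨ha, ?_⟩
    exact (Nat.dvd_add_right (Dvd.dvd.mul_right ha r)).1 hr.2
  · have h1 : (p : ℤ) ∣ ((a * r + b : ℕ) : ℤ) := Int.natCast_dvd_natCast.2 hr.2
    have h2 : (p : ℤ) ∣ ((a * s + b : ℕ) : ℤ) := Int.natCast_dvd_natCast.2 hs.2
    have h3 := dvd_sub h1 h2
    push_cast at h3
    have e : (a : ℤ) * r + b - (a * s + b) = a * (r - s) := by ring
    rw [e] at h3
    have hpp : Prime (p : ℤ) := Nat.prime_iff_prime_int.1 hp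
    rcases hpp.dvd_or_dvd h3 with h4 | h4
    · exact absurd (Int.natCast_dvd_natCast.1 h4) ha
    · have h5 : |(r : ℤ) - s| < p := by rw [abs_lt]; constructor <;> omega
      have := Int.eq_zero_of_abs_lt_dvd h4 h5
      omega

lemma ex_root (p a b : ℕ) (hp : p.Prime) (ha : ¬ p ∣ a) : ∃ r ∈ range p, p ∣ a * r + b := by
  have : Fact p.Prime := ⟨hp⟩
  have ha' : (a : ZMod p) ≠ 0 := by
    rw [Ne, ZMod.natCast_eq_zero_iff]
    exact ha
  refine ⟨(-(b : ZMod p) * (a : ZMod p)⁻¹).val, mem_range.2 (ZMod.val_lt _), ?_⟩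
  rw [← ZMod.natCast_eq_zero_iff]
  push_cast
  rw [ZMod.natCast_zmod_val]
  field_simp
  ring

lemma rt_le {k : ℕ} (a b : Fin k → ℕ) (p : ℕ) (hp : p.Prime) (h : ∀ i, ¬ (p ∣ a i ∧ p ∣ b i)) : rt a b p ≤ k := by
  unfold rt
  have h1 : (range p).filter (fun n => ∃ i, p ∣ a i * n + b i) ⊆
      univ.biUnion (fun i : Fin k => (range p).filter (fun n => p ∣ a i * n + b i)) := by
    intro n hn
    rw [mem_filter] at hn
    obtain ⟨i, hi⟩ := hn.2
    rw [mem_biUnion]
    exact ⟨i, mem_univ _, mem_filter.2 ⟨hn.1, hi⟩⟩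
  refine (card_le_card h1).trans (card_biUnion_le.trans ?_)
  refine (sum_le_sum fun i _ => one_root p (a i) (b i) hp (h i)).trans ?_
  simp

lemma rt_le' {k : ℕ} (a b : Fin k → ℕ) (p : ℕ) : rt a b p ≤ p := by
  unfold rt
  exact (card_filter_le _ _).trans (by simp)

lemma le_rt {k : ℕ} (a b : Fin k → ℕ) (p : ℕ) (hp : p.Prime) (h : ∀ i, ¬ p ∣ a i)
    (h2 : ∀ i j, i ≠ j → ¬ (p : ℤ) ∣ (a i : ℤ) * b j - a j * b i) : k ≤ rt a b p := by
  choose r hr using fun i => ex_root p (a i) (b i) hp (h i)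
  have hinj : Function.Injective r := by
    intro i j hij
    by_contra hne
    apply h2 i j hne
    have h3 : (p : ℤ) ∣ ((a i * r i + b i : ℕ) : ℤ) := Int.natCast_dvd_natCast.2 (hr i).2
    have h4 : (p : ℤ) ∣ ((a j * r j + b j : ℕ) : ℤ) := Int.natCast_dvd_natCast.2 (hr j).2
    rw [← hij] at h4
    have h5 := dvd_sub (Dvd.dvd.mul_left h4 (a i : ℤ)) (Dvd.dvd.mul_left h3 (a j : ℤ))
    push_cast at h5
    have e : (a i : ℤ) * (a j * r i + b j) - a j * (a i * r i + b i) = a i * b j - a j * b i := by ring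
    rwa [e] at h5
  have h3 : (univ.image r).card = k := by
    rw [card_image_of_injective _ hinj, card_univ, Fintype.card_fin]
  refine h3.symm.le.trans ?_
  unfold rt
  apply card_le_card
  intro n hn
  rw [mem_image] at hn
  obtain ⟨i, _, rfl⟩ := hn
  rw [mem_filter]
  exact ⟨(hr i).1, i, (hr i).2⟩

/-- the exceptional primes -/
def badl {k : ℕ} (a b : Fin k → ℕ) : Finset ℕ :=
  (univ.biUnion fun i => (a i).primeFactors) ∪
    ((univ : Finset (Fin k × Fin k)).filter (fun q => q.1 ≠ q.2)).biUnion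
      fun q => ((a q.1 : ℤ) * b q.2 - a q.2 * b q.1).natAbs.primeFactors

lemma le_rt' {k : ℕ} (a b : Fin k → ℕ) (ha : ∀ i, a i ≠ 0) (hab : ∀ i j, i ≠ j → (a i : ℤ) * b j - a j * b i ≠ 0)
    (p : ℕ) (hp : p.Prime) (h : p ∉ badl a b) : k ≤ rt a b p := by
  unfold badl at h
  rw [mem_union, not_or, mem_biUnion, mem_biUnion] at h
  obtain ⟨h1, h2⟩ := h
  push Not at h1 h2
  apply le_rt a b p hp
  · intro i hi
    apply h1 i (mem_univ _)
    rw [Nat.mem_primeFactors]
    exact ⟨hp, hi, ha i⟩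
  · intro i j hij hd
    apply h2 (i, j) (by simpa using hij)
    rw [Nat.mem_primeFactors]
    exact ⟨hp, Int.natCast_dvd.1 hd, by simpa using hab i j hij⟩

lemma badl_card {k : ℕ} (a b : Fin k → ℕ) (A : ℕ) (hA : 1 ≤ A) (ha : ∀ i, a i ≠ 0) (haA : ∀ i, a i ≤ A) (hbA : ∀ i, b i ≤ A)
    (hab : ∀ i j, i ≠ j → (a i : ℤ) * b j - a j * b i ≠ 0) : ((badl a b).card : ℝ) ≤ 6 * (k : ℝ) ^ 2 * Real.log A := by
  have hlA : 0 ≤ Real.log A := Real.log_natCast_nonneg A
  have h1 : ((univ.biUnion fun i => (a i).primeFactors).card : ℝ) ≤ k * (2 * Real.log A) := by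
    calc ((univ.biUnion fun i => (a i).primeFactors).card : ℝ) ≤ ∑ i, ((a i).primeFactors.card : ℝ) := by exact_mod_cast card_biUnion_le
      _ ≤ ∑ _i : Fin k, (2 * Real.log A) := by
          apply sum_le_sum
          intro i _
          refine (card_pf _ (ha i)).trans ?_
          have := Real.log_le_log (by exact_mod_cast Nat.pos_of_ne_zero (ha i)) (show (a i : ℝ) ≤ A by exact_mod_cast haA i)
          linarith
      _ = _ := by rw [sum_const, card_univ, Fintype.card_fin, nsmul_eq_mul]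
  have h2 : ((((univ : Finset (Fin k × Fin k)).filter (fun q => q.1 ≠ q.2)).biUnion
      fun q => ((a q.1 : ℤ) * b q.2 - a q.2 * b q.1).natAbs.primeFactors).card : ℝ) ≤ k ^ 2 * (4 * Real.log A) := by
    calc _ ≤ ∑ q ∈ (univ : Finset (Fin k × Fin k)).filter (fun q => q.1 ≠ q.2), ((((a q.1 : ℤ) * b q.2 - a q.2 * b q.1).natAbs.primeFactors.card : ℕ) : ℝ) := by
          exact_mod_cast card_biUnion_le
      _ ≤ ∑ _q ∈ (univ : Finset (Fin k × Fin k)).filter (fun q => q.1 ≠ q.2), 4 * Real.log A := by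
          apply sum_le_sum
          intro q hq
          rw [mem_filter] at hq
          have hne := hab q.1 q.2 hq.2
          refine (card_pf _ (by simpa using hne)).trans ?_
          have h3 : ((a q.1 : ℤ) * b q.2 - a q.2 * b q.1).natAbs ≤ A * A := by
            have e1 : (0 : ℤ) ≤ (a q.1 : ℤ) * b q.2 := by positivity
            have e2 : (0 : ℤ) ≤ (a q.2 : ℤ) * b q.1 := by positivity
            have e3 : a q.1 * b q.2 ≤ A * A := Nat.mul_le_mul (haA _) (hbA _)
            have e4 : a q.2 * b q.1 ≤ A * A := Nat.mul_le_mul (haA _) (hbA _)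
            have e5 : ((a q.1 : ℤ) * b q.2) ≤ ((A * A : ℕ) : ℤ) := by exact_mod_cast e3
            have e6 : ((a q.2 : ℤ) * b q.1) ≤ ((A * A : ℕ) : ℤ) := by exact_mod_cast e4
            omega
          have h4 : (0 : ℝ) < (((a q.1 : ℤ) * b q.2 - a q.2 * b q.1).natAbs : ℕ) := by
            exact_mod_cast Int.natAbs_pos.2 hne
          have h5 := Real.log_le_log h4 (show ((((a q.1 : ℤ) * b q.2 - a q.2 * b q.1).natAbs : ℕ) : ℝ) ≤ ((A * A : ℕ) : ℝ) by exact_mod_cast h3)
          have hA0 : (A : ℝ) ≠ 0 := by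
            have : (1 : ℝ) ≤ A := by exact_mod_cast hA
            linarith
          push_cast at h5
          rw [Real.log_mul hA0 hA0] at h5
          push_cast
          linarith
      _ ≤ ∑ _q ∈ (univ : Finset (Fin k × Fin k)), 4 * Real.log A :=
          sum_le_sum_of_subset_of_nonneg (filter_subset _ _) (fun _ _ _ => by positivity)
      _ = _ := by
          rw [sum_const, card_univ, Fintype.card_prod, Fintype.card_fin, nsmul_eq_mul]
          push_cast
          ring
  have h3 : ((badl a b).card : ℝ) ≤ ((univ.biUnion fun i => (a i).primeFactors).card : ℝ) +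
      ((((univ : Finset (Fin k × Fin k)).filter (fun q => q.1 ≠ q.2)).biUnion
      fun q => ((a q.1 : ℤ) * b q.2 - a q.2 * b q.1).natAbs.primeFactors).card : ℝ) := by
    unfold badl
    exact_mod_cast card_union_le _ _
  have h4 : (k : ℝ) ≤ k ^ 2 := by
    have : k ≤ k ^ 2 := Nat.le_self_pow (by norm_num) k
    exact_mod_cast this
  nlinarith

end Pool.Agent.K7.H49.LT
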