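import Mathlib
import Pool.Agent.K7.H49.LT.Primes
import Pool.Agent.K7.H49.LT.LinFam
import Pool.Agent.K7.H49.LT.Roots
import Pool.Agent.K7.H49.PR.Geo

set_option autoImplicit false

/-! Prime tuples of linear forms with good leading coefficients. -/

namespace Pool.Agent.K7.H49.LT
open Finset Pool.Agent.H373R2.T7

/-- the number of `1 ≤ n ≤ M` with all `a_i n + b_i` prime -/
def cl {k : ℕ} (a b : Fin k → ℕ) (M : ℕ) : ℕ := ((Icc 1 M).filter (fun n => ∀ i, (a i * n + b i).Prime)).card

/-- the Hardy-Littlewood formula -/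
def Hol {k : ℕ} (ε : ℝ) (a b : Fin k → ℕ) (M : ℕ) : Prop :=
  ∀ y : ℕ, M ≤ y → |cl a b M * ∏ i, Real.log (a i) - M * sg k (rt a b) y| ≤ ε * (M * sg k (rt a b) y)

lemma rt_full {k : ℕ} (a b : Fin k → ℕ) (p : ℕ) (hp : p.Prime) (h : ¬ (rt a b p ≤ k ∧ rt a b p + 1 ≤ p)) : rt a b p = p := by
  have h0 := rt_le' a b p
  by_contra hne
  have h1 : rt a b p + 1 ≤ p := by omega
  have h2 : ¬ rt a b p ≤ k := fun h3 => h ⟨h3, h1⟩
  have h3 : ¬ ∀ i, ¬ (p ∣ a i ∧ p ∣ b i) := fun h4 => h2 (rt_le a b p hp h4)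
  push Not at h3
  obtain ⟨i, hi1, hi2⟩ := h3
  apply hne
  unfold rt
  rw [filter_true_of_mem, card_range]
  intro n _
  exact ⟨i, dvd_add (Dvd.dvd.mul_right hi1 n) hi2⟩

lemma hol_zero {k : ℕ} (ε : ℝ) (a b : Fin k → ℕ) (M p : ℕ) (hp : p.Prime) (hpM : p ≤ M) (hpa : ∀ i, p < a i) (h : rt a b p = p) :
    Hol ε a b M := by
  intro y hy
  have h1 : cl a b M = 0 := by
    unfold cl
    rw [card_eq_zero, filter_eq_empty_iff]
    intro n hn hpr
    have h2 : n % p ∈ (range p).filter (fun n => ∃ i, p ∣ a i * n + b i) := by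
      have h3 : (range p).filter (fun n => ∃ i, p ∣ a i * n + b i) = range p := by
        apply eq_of_subset_of_card_le (filter_subset _ _)
        unfold rt at h
        rw [h, card_range]
      rw [h3, mem_range]
      exact Nat.mod_lt _ hp.pos
    rw [mem_filter] at h2
    obtain ⟨i, hi⟩ := h2.2
    have h4 : p ∣ a i * n + b i := by
      have e : a i * n + b i = (a i * (n % p) + b i) + p * (a i * (n / p)) := by
        have := Nat.mod_add_div n p
        calc a i * n + b i = a i * (n % p + p * (n / p)) + b i := by rw [this]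
          _ = _ := by ring
      rw [e]
      exact dvd_add hi (dvd_mul_right _ _)
    have h5 := (Nat.prime_dvd_prime_iff_eq hp (hpr i)).1 h4
    have h6 := (mem_Icc.1 hn).1
    have h7 : a i ≤ a i * n := Nat.le_mul_of_pos_right _ h6
    have := hpa i
    omega
  have h2 : sg k (rt a b) y = 0 := by
    unfold sg
    apply prod_eq_zero (i := p) (mem_pz.2 ⟨hpM.trans hy, hp⟩)
    unfold fac
    rw [h]
    have : (p : ℝ) ≠ 0 := by exact_mod_cast hp.ne_zero
    rw [div_self this]
    simp
  rw [h1, h2]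
  simp

set_option maxHeartbeats 2000000 in
open Classical in
theorem lin_main (k : ℕ) (hk : 1 ≤ k) (ε : ℝ) (hε : 0 < ε) : ∃ C : ℕ, ∃ κ : ℝ, 0 < κ ∧ ∀ E E1 : ℕ, ∃ N0 : ℕ, ∀ a : Fin k → ℕ,
    (∀ i, N0 ≤ a i ∧ Gd E E1 (a i)) → ∀ M : ℕ, (∀ i, Real.log (a i) ^ C ≤ M ∧ (M : ℝ) ≤ Real.log (a i) ^ E) →
    (((Fintype.piFinset (fun i => Icc 1 (a i - 1))).filter (fun b => ¬ Hol ε a b M)).card : ℝ) ≤
      (M : ℝ) ^ (-κ) * ∏ i, (a i : ℝ) := by
  set ε' : ℝ := min ε 1 / 8 with hε'
  have hε'0 : 0 < ε' := by have := lt_min hε one_pos; positivity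
  have hε'1 : ε' ≤ 1 / 8 := by rw [hε']; have := min_le_right ε 1; linarith
  have hε'2 : 8 * ε' ≤ ε := by rw [hε']; have := min_le_left ε 1; linarith
  have hkr : (1 : ℝ) ≤ k := by exact_mod_cast hk
  obtain ⟨Q, C, η, hη, hQ, hG⟩ := primesG k k hk hk ε' hε'0
  have hQr : (1 : ℝ) ≤ Q := by exact_mod_cast hQ
  refine ⟨max C (4 * Q) + 1, 1 / (4 * Q), by positivity, fun E E1 => ?_⟩
  obtain ⟨n1, h1⟩ := hG (E + 1) (E1 + 1)
  -- thresholds
  obtain ⟨n2, h2⟩ := ev_L' (max (max ((2 : ℝ) ^ (max C (4 * Q) + 1)) (2 ^ (E + 1) + 2 ^ (E1 + 1))) (max (100 * (k : ℝ) ^ 4 / ε') 400))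
  obtain ⟨n3, h3⟩ := ev_log' (3 * E + 2) 64
  obtain ⟨n4, h4⟩ := Pool.Agent.K7.H49.PR.ev_pow (E + 1) 1 η hη
  refine ⟨max (max (n1 + 1) n2) (max n3 (max n4 3)), fun a ha M hM => ?_⟩
  have i0 : Fin k := ⟨0, hk⟩
  have b1 : ∀ i, n1 + 1 ≤ a i := fun i => le_trans (le_trans (le_max_left _ _) (le_max_left _ _)) (ha i).1
  have b2 : ∀ i, n2 ≤ a i := fun i => le_trans (le_trans (le_max_right _ _) (le_max_left _ _)) (ha i).1
  have b3 : ∀ i, n3 ≤ a i := fun i => le_trans (le_trans (le_max_left _ _) (le_max_right _ _)) (ha i).1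
  have b4 : ∀ i, n4 ≤ a i := fun i => le_trans (le_trans (le_trans (le_max_left _ _) (le_max_right _ _)) (le_max_right _ _)) (ha i).1
  have b5 : ∀ i, 3 ≤ a i := fun i => le_trans (le_trans (le_trans (le_max_right _ _) (le_max_right _ _)) (le_max_right _ _)) (ha i).1
  choose z hz1 hz2 hz3 using fun i => (ha i).2
  have hl : ∀ i, max (max ((2 : ℝ) ^ (max C (4 * Q) + 1)) (2 ^ (E + 1) + 2 ^ (E1 + 1))) (max (100 * (k : ℝ) ^ 4 / ε') 400) ≤ Real.log (a i) :=
    fun i => h2 (a i) (b2 i)
  have hlC : ∀ i, (2 : ℝ) ^ (max C (4 * Q) + 1) ≤ Real.log (a i) := fun i => ((le_max_left _ _).trans (le_max_left _ _)).trans (hl i)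
  have hlE : ∀ i, (2 : ℝ) ^ (E + 1) + 2 ^ (E1 + 1) ≤ Real.log (a i) := fun i => ((le_max_right _ _).trans (le_max_left _ _)).trans (hl i)
  have hlk : ∀ i, 100 * (k : ℝ) ^ 4 / ε' ≤ Real.log (a i) := fun i => ((le_max_left _ _).trans (le_max_right _ _)).trans (hl i)
  have hl400 : ∀ i, 400 ≤ Real.log (a i) := fun i => ((le_max_right _ _).trans (le_max_right _ _)).trans (hl i)
  have hl1 : ∀ i, 1 ≤ Real.log (a i) := fun i => by linarith [hl400 i]
  have hl0 : ∀ i, 0 < Real.log (a i) := fun i => by linarith [hl400 i]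
  have har : ∀ i, (3 : ℝ) ≤ a i := fun i => by exact_mod_cast b5 i
  -- M
  have hM1r : (1 : ℝ) ≤ M := (one_le_pow₀ (hl1 i0)).trans (hM i0).1
  have hM1 : 1 ≤ M := by exact_mod_cast hM1r
  have hM0r : (0 : ℝ) < M := by linarith
  have hone : 1 ∈ Icc 1 M := mem_Icc.2 ⟨le_rfl, hM1⟩
  -- the largest coefficient
  have : Nonempty (Fin k) := ⟨i0⟩
  obtain ⟨j, hj⟩ := Finite.exists_max a
  set lam := Real.log (a j) with hlam
  have hlaj : ∀ i, Real.log (a i) ≤ lam := fun i => Real.log_le_log (by linarith [har i]) (by exact_mod_cast hj i)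
  -- w
  obtain ⟨w, hw1, hw2⟩ : ∃ w : ℕ, w ^ Q ≤ M ∧ M < (w + 1) ^ Q := by
    have hex : ∃ w : ℕ, M < (w + 1) ^ Q := ⟨M, lt_of_lt_of_le (Nat.lt_succ_self M) (Nat.le_self_pow (by omega) _)⟩
    refine ⟨Nat.find hex, ?_, Nat.find_spec hex⟩
    rcases Nat.eq_zero_or_pos (Nat.find hex) with h5 | h5
    · rw [h5, zero_pow (by omega)]
      exact Nat.zero_le _
    · have h6 := Nat.find_min hex (m := Nat.find hex - 1) (by omega)
      rw [not_lt, Nat.sub_add_cancel h5] at h6
      exact h6
  have hwpos : 1 ≤ w := by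
    by_contra h
    have hw0 : w = 0 := by omega
    rw [hw0, zero_add, one_pow] at hw2
    omega
  have hwr1 : (1 : ℝ) ≤ w := by exact_mod_cast hwpos
  have hwr0 : (0 : ℝ) < w := by linarith
  have hwleM : w ≤ M := le_trans (by
    calc w = w ^ 1 := (pow_one w).symm
      _ ≤ w ^ Q := Nat.pow_le_pow_right hwpos hQ) hw1
  have hwMr : (w : ℝ) ≤ M := by exact_mod_cast hwleM
  have hM2w : (M : ℝ) ≤ (2 * w) ^ Q := by
    have h6 : (M : ℝ) ≤ ((w : ℝ) + 1) ^ Q := by exact_mod_cast hw2.le
    refine h6.trans (pow_le_pow_left₀ (by positivity) ?_ _)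
    linarith
  have hlam0 : 0 < lam := hl0 j
  have hlam1 : 1 ≤ lam := hl1 j
  have hlam400 : 400 ≤ lam := hl400 j
  have hlam4 : lam ^ 4 ≤ 2 * w := by
    have h5 : (lam ^ 4) ^ Q ≤ (2 * (w : ℝ)) ^ Q := by
      rw [← pow_mul]
      refine le_trans ?_ hM2w
      refine le_trans ?_ (hM j).1
      apply pow_le_pow_right₀ hlam1
      have := le_max_right C (4 * Q)
      omega
    exact le_of_pow_le_pow_left₀ (by omega) (by positivity) h5
  have hlam3 : lam ^ 3 ≤ w := by
    have h5 : lam ^ 4 = lam * lam ^ 3 := by ring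
    rw [h5] at hlam4
    have h6 : 0 ≤ lam ^ 3 := by positivity
    nlinarith
  -- T
  set T : Fin k → ℕ := fun i => a i - 1 with hT
  have hTr : ∀ i, (T i : ℝ) = a i - 1 := fun i => by
    rw [hT]
    simp only
    rw [Nat.cast_sub (by have := b5 i; omega)]
    simp
  have hTa : ∀ i, (a i : ℝ) ≤ 2 * T i := fun i => by rw [hTr]; linarith [har i]
  have hT0 : ∀ i, (0 : ℝ) < T i := fun i => by rw [hTr]; linarith [har i]
  have hlogT : ∀ i, Real.log (a i) ≤ 2 * Real.log (T i) := fun i => by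
    have h5 : (a i : ℝ) ≤ (T i : ℝ) * T i := by rw [hTr]; nlinarith [har i]
    have h6 := Real.log_le_log (by linarith [har i]) h5
    rw [Real.log_mul (hT0 i).ne' (hT0 i).ne'] at h6
    linarith
  have hpT : ∀ (i : Fin k) (F : ℕ), (2 : ℝ) ^ (F + 1) ≤ Real.log (a i) → Real.log (a i) ^ F ≤ Real.log (T i) ^ (F + 1) := by
    intro i F hF
    have h5 : (2 : ℝ) ^ F ≤ Real.log (T i) := by
      have h6 : (2 : ℝ) ^ (F + 1) = 2 * 2 ^ F := by ring
      have := hlogT i
      rw [h6] at hF
      linarith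
    have h6 : 0 < Real.log (T i) := lt_of_lt_of_le (by positivity) h5
    calc Real.log (a i) ^ F ≤ (2 * Real.log (T i)) ^ F := pow_le_pow_left₀ (hl0 i).le (hlogT i) _
      _ = 2 ^ F * Real.log (T i) ^ F := mul_pow _ _ _
      _ ≤ Real.log (T i) * Real.log (T i) ^ F := mul_le_mul_of_nonneg_right h5 (by positivity)
      _ = _ := by ring
  have hMa : ∀ i, 64 * ((M : ℝ) ^ 3 * Real.log (a i) ^ 2) ≤ √(a i : ℝ) := fun i => by
    refine le_trans ?_ (h3 (a i) (b3 i))
    apply mul_le_mul_of_nonneg_left _ (by norm_num)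
    have h5 : (M : ℝ) ^ 3 ≤ Real.log (a i) ^ (3 * E) := by
      rw [mul_comm 3 E, pow_mul]
      exact pow_le_pow_left₀ hM0r.le (hM i).2 3
    rw [pow_add]
    exact mul_le_mul_of_nonneg_right h5 (by positivity)
  have hsqa : ∀ i, √(a i : ℝ) * √(a i : ℝ) = a i := fun i => Real.mul_self_sqrt (by linarith [har i])
  have hsqa0 : ∀ i, 0 < √(a i : ℝ) := fun i => Real.sqrt_pos.2 (by linarith [har i])
  have hMsq : ∀ i, 64 * (M : ℝ) ≤ √(a i : ℝ) := fun i => by
    refine le_trans ?_ (hMa i)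
    apply mul_le_mul_of_nonneg_left _ (by norm_num)
    have h5 : (M : ℝ) ≤ M ^ 3 := by
      calc (M : ℝ) = M ^ 1 := (pow_one _).symm
        _ ≤ M ^ 3 := pow_le_pow_right₀ hM1r (by norm_num)
    have h6 : 1 ≤ Real.log (a i) ^ 2 := one_le_pow₀ (hl1 i)
    nlinarith
  have hMlta : ∀ i, (M : ℝ) + 1 ≤ a i := fun i => by
    have h5 := hMsq i
    have h6 := hsqa i
    have h7 : 64 ≤ √(a i : ℝ) := by linarith
    nlinarith
  have hwa : ∀ i, w < a i := fun i => by
    have h5 := hMlta i
    have h6 : (w : ℝ) < a i := by linarith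
    exact_mod_cast h6
  -- X
  set Xs : Fin k → ℕ := fun i => a i * (M + 1) with hXs
  have hXsr : ∀ i, (Xs i : ℝ) = a i * (M + 1) := fun i => by rw [hXs]; push_cast; ring
  have hXlog : Real.log ((Xs j : ℕ) : ℝ) ≤ 2 * lam := by
    rw [hXsr, Real.log_mul (by linarith [har j]) (by positivity)]
    have := Real.log_le_log (by positivity) (hMlta j)
    linarith
  have hXlog0 : 0 ≤ Real.log ((Xs j : ℕ) : ℝ) := Real.log_natCast_nonneg _
  have key := h1 M w (Xs j : ℝ) T (fun i n => a i * n) z (fun i => (a i : ℝ)) Xs hM1 (fun i => by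
      rw [hT]; simp only; have := b1 i; omega) hw1 hw2 (by
      calc Real.log ((Xs j : ℕ) : ℝ) ^ C ≤ (2 * lam) ^ C := pow_le_pow_left₀ hXlog0 hXlog _
        _ = 2 ^ C * lam ^ C := mul_pow _ _ _
        _ ≤ lam * lam ^ C := by
            apply mul_le_mul_of_nonneg_right _ (by positivity)
            refine le_trans ?_ (hlC j)
            apply pow_le_pow_right₀ (by norm_num)
            have := le_max_left C (4 * Q)
            omega
        _ = lam ^ (C + 1) := by ring
        _ ≤ lam ^ (max C (4 * Q) + 1) := by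
            apply pow_le_pow_right₀ hlam1
            have := le_max_left C (4 * Q)
            omega
        _ ≤ M := (hM j).1)
    (fun i => (hM i).2.trans (hpT i E (by
      refine le_trans ?_ (hlE i)
      have : (0 : ℝ) ≤ 2 ^ (E1 + 1) := by positivity
      linarith)))
    (fun i => ⟨by
      have h5 := (hM i).2.trans (hz1 i)
      exact_mod_cast h5, (hz2 i).trans (hpT i E1 (by
      refine le_trans ?_ (hlE i)
      have : (0 : ℝ) ≤ 2 ^ (E + 1) := by positivity
      linarith))⟩)
    (fun i => by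
      have h5 : M ≤ ⌊Real.log (a i) ^ E⌋₊ := Nat.le_floor (hM i).2
      apply ((hz3 i).mono h5).mono'
      exact one_div_le_one_div_of_le hM0r (hM i).2)
    (fun i n hn => by
      rw [mem_Icc] at hn
      rw [hT, hXs]
      simp only
      have h5 : a i * n ≤ a i * M := Nat.mul_le_mul_left _ hn.2
      rw [mul_add, mul_one]
      omega)
    (fun i => by
      rw [hXsr, hXsr]
      apply mul_le_mul_of_nonneg_right _ (by positivity)
      exact_mod_cast hj i)
    (fun i n _ n' _ hne h5 => hne (Nat.eq_of_mul_eq_mul_left (by have := b5 i; omega) h5))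
    (fun i p n => by
      have h5 : (n : ℤ) = ((n % p : ℕ) : ℤ) + p * ((n / p : ℕ) : ℤ) := by
        have := Nat.mod_add_div n p
        exact_mod_cast this.symm
      refine ⟨(a i : ℤ) * ((n / p : ℕ) : ℤ), ?_⟩
      push_cast at h5 ⊢
      have e : (a i : ℤ) * n - a i * (n % p) = a i * (n - n % p) := by ring
      rw [e]
      have e2 : (n : ℤ) - n % p = p * (n / p) := by linarith
      rw [e2]
      ring)
    (fun i => by linarith [har i])
    (fun i n hn => by
      rw [mem_Icc] at hn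
      exact_mod_cast Nat.le_mul_of_pos_right _ hn.1)
    (fun i => by
      rw [hXsr, Real.log_mul (by linarith [har i]) (by positivity)]
      have h5 : Real.log ((M : ℝ) + 1) ≤ η * Real.log (a i) := by
        rw [← Real.log_rpow (by linarith [har i])]
        apply Real.log_le_log (by positivity)
        have h6 := h4 (a i) (b4 i)
        rw [one_mul] at h6
        refine le_trans ?_ h6
        have h7 : 1 ≤ Real.log (a i) ^ E := one_le_pow₀ (hl1 i)
        have h8 : Real.log (a i) ^ (E + 1) = Real.log (a i) ^ E * Real.log (a i) := by rw [← pow_succ]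
        rw [h8]
        have h9 := (hM i).2
        have h10 := hl400 i
        nlinarith
      linarith)
    (fun i => by
      have e1 : √(Xs i : ℝ) ≤ √(a i : ℝ) * (M + 1) := by
        rw [hXsr, Real.sqrt_mul (by linarith [har i])]
        apply mul_le_mul_of_nonneg_left _ (hsqa0 i).le
        rw [Real.sqrt_le_left (by positivity)]
        nlinarith
      have e2 : Real.log (Xs i : ℝ) ≤ 2 * Real.log (a i) := by
        rw [hXsr, Real.log_mul (by linarith [har i]) (by positivity)]
        have := Real.log_le_log (by positivity) (hMlta i)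
        linarith
      have e3 : (0 : ℝ) ≤ Real.log (Xs i : ℝ) := Real.log_natCast_nonneg _
      have e4 : (M : ℝ) + 1 ≤ 2 * M := by linarith
      calc (M : ℝ) ^ 2 * (4 * (√(Xs i : ℝ) * Real.log (Xs i))) ≤ (M : ℝ) ^ 2 * (4 * ((√(a i : ℝ) * (2 * M)) * (2 * Real.log (a i)))) := by
            apply mul_le_mul_of_nonneg_left _ (by positivity)
            apply mul_le_mul_of_nonneg_left _ (by norm_num)
            apply mul_le_mul _ e2 e3 (by positivity)
            exact e1.trans (mul_le_mul_of_nonneg_left e4 (hsqa0 i).le)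
        _ = (16 * ((M : ℝ) ^ 3 * Real.log (a i))) * √(a i : ℝ) := by ring
        _ ≤ (√(a i : ℝ) / 2) * √(a i : ℝ) := by
            apply mul_le_mul_of_nonneg_right _ (hsqa0 i).le
            have h5 := hMa i
            have h6 : Real.log (a i) ≤ Real.log (a i) ^ 2 := by
              rw [pow_two]
              nlinarith [hl1 i]
            have h7 : (M : ℝ) ^ 3 * Real.log (a i) ≤ (M : ℝ) ^ 3 * Real.log (a i) ^ 2 := mul_le_mul_of_nonneg_left h6 (by positivity)
            have h8 := hsqa0 i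
            linarith
        _ = a i / 2 := by rw [div_mul_eq_mul_div, hsqa]
        _ ≤ T i := by linarith [hTa i])
  set P : ℝ := ∏ i, (T i : ℝ) with hP
  have hP0 : 0 ≤ P := prod_nonneg fun _ _ => Nat.cast_nonneg _
  have hPa : P ≤ ∏ i, (a i : ℝ) := by
    apply prod_le_prod (fun _ _ => Nat.cast_nonneg _)
    intro i _
    rw [hTr]
    linarith
  have hs0 : 0 < √(w : ℝ) := Real.sqrt_pos.2 hwr0
  have hss : √(w : ℝ) * √(w : ℝ) = w := Real.mul_self_sqrt hwr0.le
  have hk4 : 100 * (k : ℝ) ^ 4 ≤ lam * ε' := by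
    have := hlk j
    rwa [div_le_iff₀ hε'0] at this
  have hk34 : (k : ℝ) ^ 3 ≤ k ^ 4 := pow_le_pow_right₀ hkr (by norm_num)
  have hk3 : 100 * (k : ℝ) ^ 3 ≤ lam * ε' := by linarith
  have hk3' : 100 * (k : ℝ) ^ 3 ≤ lam := by nlinarith
  have hkk : (k : ℝ) ≤ k ^ 3 := by
    have : k ≤ k ^ 3 := Nat.le_self_pow (by norm_num) k
    exact_mod_cast this
  have hkk2 : (k : ℝ) ^ 2 ≤ k ^ 3 := pow_le_pow_right₀ hkr (by norm_num)
  -- the exceptional sets
  set S : Fin k → Finset ℕ := fun i => Icc 1 (T i) with hS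
  set B1 := (Fintype.piFinset S).filter (fun b => ¬ ((∀ p ∈ pz w, nu (fun i n => a i * n) b p ≤ k ∧ nu (fun i n => a i * n) b p + 1 ≤ p) →
      |cnt (fun i n => a i * n) b M * ∏ i, Real.log (a i) - M * sg k (nu (fun i n => a i * n) b) w| ≤ ε' * (M * sg k (nu (fun i n => a i * n) b) w))) with hB1
  set I3 : Finset (Fin k × ℕ) := univ.biUnion (fun i : Fin k => ((a i).primeFactors.filter (fun p => w < p)).image (fun p => (i, p))) with hI3
  set B3 : Fin k × ℕ → Finset (Fin k → ℕ) := fun q => (Fintype.piFinset S).filter (fun b => b q.1 ∈ (Icc 1 (T q.1)).filter (fun c => q.2 ∣ c)) with hB3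
  set I4 : Finset (Fin k × Fin k) := univ.filter (fun q : Fin k × Fin k => q.1 ≠ q.2) with hI4
  set B4 : Fin k × Fin k → Finset (Fin k → ℕ) := fun q => (Fintype.piFinset S).filter (fun b => a q.1 * b q.2 = a q.2 * b q.1) with hB4
  have hB3c : ∀ q ∈ I3, ((B3 q).card : ℝ) ≤ P / w := by
    intro q hq
    rw [hI3, mem_biUnion] at hq
    obtain ⟨i, _, hq⟩ := hq
    rw [mem_image] at hq
    obtain ⟨p, hp, rfl⟩ := hq
    rw [mem_filter] at hp
    have h5 := card_upd S i ((Icc 1 (T i)).filter (fun c => p ∣ c)) (filter_subset _ _)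
    have h6 : (((Icc 1 (T i)).filter (fun c => p ∣ c)).card : ℝ) ≤ T i / w := by
      have h7 : ((Icc 1 (T i)).filter (fun c => p ∣ c)).card = T i / p := by
        rw [← Nat.Ioc_filter_dvd_card_eq_div (T i) p]
        congr 1
      rw [h7]
      refine Nat.cast_div_le.trans ?_
      apply div_le_div_of_nonneg_left (hT0 i).le hwr0
      exact_mod_cast hp.2.le
    have hSc : ∀ i, (S i).card = T i := fun i => by rw [hS]; simp
    simp only [hSc] at h5
    have h8 : ((B3 (i, p)).card : ℝ) * T i = (((Icc 1 (T i)).filter (fun c => p ∣ c)).card : ℝ) * P := by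
      rw [hP, hB3]
      exact_mod_cast h5
    have h9 : ((B3 (i, p)).card : ℝ) * T i ≤ (P / w) * T i := by
      rw [h8]
      calc _ ≤ (T i / w : ℝ) * P := mul_le_mul_of_nonneg_right h6 hP0
        _ = _ := by ring
    exact le_of_mul_le_mul_right h9 (hT0 i)
  have hI3c : (I3.card : ℝ) ≤ k * (2 * lam) := by
    calc (I3.card : ℝ) ≤ ∑ i : Fin k, ((((a i).primeFactors.filter (fun p => w < p)).image (fun p => (i, p))).card : ℝ) := by
          exact_mod_cast card_biUnion_le
      _ ≤ ∑ _i : Fin k, (2 * lam) := by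
          apply sum_le_sum
          intro i _
          have h5 : ((((a i).primeFactors.filter (fun p => w < p)).image (fun p => (i, p))).card : ℝ) ≤ ((a i).primeFactors.card : ℝ) := by
            exact_mod_cast card_image_le.trans (card_filter_le _ _)
          refine h5.trans ((card_pf _ (by have := b5 i; omega)).trans ?_)
          linarith [hlaj i]
      _ = _ := by rw [sum_const, card_univ, Fintype.card_fin, nsmul_eq_mul]
  have hB4c : ∀ q ∈ I4, ((B4 q).card : ℝ) ≤ P / w := by
    intro q hq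
    rw [hI4, mem_filter] at hq
    have h5 := card_det S q.2 (fun b => a q.1 * b q.2 = a q.2 * b q.1) (by
      intro b b' h6 h7 h8
      have h9 := h8 q.1 hq.2
      rw [h9] at h6
      have h10 : a q.1 * b q.2 = a q.1 * b' q.2 := by rw [h6, h7]
      exact Nat.eq_of_mul_eq_mul_left (by have := b5 q.1; omega) h10)
    have hSc : ∀ i, (S i).card = T i := fun i => by rw [hS]; simp
    simp only [hSc] at h5
    have h6 : ((B4 q).card : ℝ) * T q.2 ≤ P := by
      rw [hP, hB4]
      exact_mod_cast h5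
    rw [le_div_iff₀ hwr0]
    refine le_trans ?_ h6
    apply mul_le_mul_of_nonneg_left _ (Nat.cast_nonneg _)
    have := hMlta q.2
    rw [hTr]
    linarith
  have hI4c : (I4.card : ℝ) ≤ k ^ 2 := by
    have : I4.card ≤ k ^ 2 := by
      rw [hI4]
      refine (card_filter_le _ _).trans ?_
      rw [card_univ, Fintype.card_prod, Fintype.card_fin, pow_two]
    exact_mod_cast this
  have hsub : (Fintype.piFinset (fun i => Icc 1 (a i - 1))).filter (fun b => ¬ Hol ε a b M) ⊆ (B1 ∪ I3.biUnion B3) ∪ I4.biUnion B4 := by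
    intro b hb
    rw [mem_filter] at hb
    by_contra hcon
    rw [mem_union, mem_union, not_or, not_or] at hcon
    obtain ⟨⟨c1, c3⟩, c4⟩ := hcon
    apply hb.2
    have hbT : ∀ i, b i ∈ Icc 1 (T i) := fun i => Fintype.mem_piFinset.1 hb.1 i
    have hbS : b ∈ Fintype.piFinset S := hb.1
    by_cases hν : ∀ p ∈ pz w, rt a b p ≤ k ∧ rt a b p + 1 ≤ p
    · have k1 : |cl a b M * ∏ i, Real.log (a i) - M * sg k (rt a b) w| ≤ ε' * (M * sg k (rt a b) w) := by
        by_contra h
        apply c1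
        rw [hB1, mem_filter]
        exact ⟨hbS, fun h5 => h (h5 hν)⟩
      have k3 : ∀ i, ∀ p : ℕ, p.Prime → w < p → ¬ (p ∣ a i ∧ p ∣ b i) := by
        intro i p hp hwp h5
        apply c3
        rw [mem_biUnion]
        refine ⟨(i, p), ?_, ?_⟩
        · rw [hI3, mem_biUnion]
          refine ⟨i, mem_univ _, ?_⟩
          rw [mem_image]
          refine ⟨p, ?_, rfl⟩
          rw [mem_filter, Nat.mem_primeFactors]
          exact ⟨⟨hp, h5.1, by have := b5 i; omega⟩, hwp⟩
        · rw [hB3, mem_filter]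
          refine ⟨hbS, ?_⟩
          rw [mem_filter]
          exact ⟨hbT i, h5.2⟩
      have k4 : ∀ i i', i ≠ i' → (a i : ℤ) * b i' - a i' * b i ≠ 0 := by
        intro i i' hii h5
        apply c4
        rw [mem_biUnion]
        refine ⟨(i, i'), ?_, ?_⟩
        · rw [hI4, mem_filter]
          exact ⟨mem_univ _, hii⟩
        · rw [hB4, mem_filter]
          refine ⟨hbS, ?_⟩
          have h6 : (a i : ℤ) * b i' = a i' * b i := by linarith
          exact_mod_cast h6
      intro y hy
      have hcard := badl_card a b (a j) (by have := b5 j; omega) (fun i => by have := b5 i; omega) hj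
        (fun i => by
          have h5 := (mem_Icc.1 (hbT i)).2
          have h6 := hj i
          rw [hT] at h5
          simp only at h5
          omega) k4
      have hsg0 : 0 ≤ sg k (rt a b) w := sg_nonneg k _ w fun p _ => rt_le' a b p
      have hclose := sg_close k hk (rt a b) w y (by
          have h5 : 3 * (k : ℝ) ≤ w := by
            have : lam ≤ lam ^ 3 := by
              calc lam = lam ^ 1 := (pow_one _).symm
                _ ≤ lam ^ 3 := pow_le_pow_right₀ hlam1 (by norm_num)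
            linarith
          exact_mod_cast h5) (hwleM.trans hy) (badl a b)
        (fun p hp hwp _ => rt_le a b p hp fun i => k3 i p hp hwp)
        (fun p hp hwp _ hnb => le_rt' a b (fun i => by have := b5 i; omega) k4 p hp hnb)
        (fun p _ => rt_le' a b p) (by
          calc 2 * (k : ℝ) * (badl a b).card ≤ 2 * k * (6 * (k : ℝ) ^ 2 * lam) := mul_le_mul_of_nonneg_left hcard (by positivity)
            _ = 12 * (k : ℝ) ^ 3 * lam := by ring
            _ ≤ lam * lam := by
                apply mul_le_mul_of_nonneg_right _ hlam0.le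
                linarith
            _ ≤ lam ^ 3 := by nlinarith
            _ ≤ w := hlam3)
      have herr : (4 * (k : ℝ) * (badl a b).card + k ^ 2) / w ≤ ε' := by
        rw [div_le_iff₀ hwr0]
        have h5 : 4 * (k : ℝ) * (badl a b).card ≤ 4 * k * (6 * (k : ℝ) ^ 2 * lam) := mul_le_mul_of_nonneg_left hcard (by positivity)
        have h6 : 4 * (k : ℝ) * (6 * (k : ℝ) ^ 2 * lam) = 24 * (k : ℝ) ^ 3 * lam := by ring
        have h7 : (k : ℝ) ^ 2 ≤ k ^ 3 * lam := by nlinarith
        have h8 : 25 * (k : ℝ) ^ 3 * lam ≤ ε' * lam ^ 3 := by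
          have h9 : 25 * (k : ℝ) ^ 3 ≤ ε' * lam := by
            have : (0 : ℝ) ≤ k ^ 3 := by positivity
            linarith
          have h10 : ε' * lam ≤ ε' * lam ^ 2 := by
            apply mul_le_mul_of_nonneg_left _ hε'0.le
            nlinarith
          calc 25 * (k : ℝ) ^ 3 * lam ≤ (ε' * lam ^ 2) * lam := mul_le_mul_of_nonneg_right (h9.trans h10) hlam0.le
            _ = _ := by ring
        have h9 : ε' * lam ^ 3 ≤ ε' * w := mul_le_mul_of_nonneg_left hlam3 hε'0.le
        linarith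
      have hcl2 : |sg k (rt a b) y - sg k (rt a b) w| ≤ sg k (rt a b) w * ε' :=
        hclose.trans (mul_le_mul_of_nonneg_left herr hsg0)
      set sw := sg k (rt a b) w with hsw
      set sy := sg k (rt a b) y with hsy
      set cL := (cl a b M : ℝ) * ∏ i, Real.log (a i) with hcL
      rw [abs_le] at k1 hcl2 ⊢
      have m1 : (M : ℝ) * sw * ε' = ε' * (M * sw) := by ring
      have m2 : (M : ℝ) * sy ≤ M * sw + ε' * (M * sw) := by
        have : (M : ℝ) * sy ≤ M * (sw + sw * ε') := mul_le_mul_of_nonneg_left (by linarith [hcl2.2]) hM0r.le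
        linarith
      have m3 : (M : ℝ) * sw - ε' * (M * sw) ≤ M * sy := by
        have : (M : ℝ) * (sw - sw * ε') ≤ M * sy := mul_le_mul_of_nonneg_left (by linarith [hcl2.1]) hM0r.le
        linarith
      have m4 : 0 ≤ (M : ℝ) * sw := by positivity
      have m5 : ε' * (M * sw) ≤ (1 / 8) * (M * sw) := mul_le_mul_of_nonneg_right hε'1 m4
      have m6 : ε' * (M * sw) ≤ 2 * (ε' * (M * sy)) := by
        have : (M : ℝ) * sw ≤ 2 * (M * sy) := by linarith
        have := mul_le_mul_of_nonneg_left this hε'0.le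
        linarith
      have m7 : 8 * ε' * (M * sy) ≤ ε * (M * sy) := by
        apply mul_le_mul_of_nonneg_right hε'2
        linarith
      constructor
      · linarith [k1.1]
      · linarith [k1.2]
    · push Not at hν
      obtain ⟨p, hp, hp2⟩ := hν
      obtain ⟨hpw, hpp⟩ := mem_pz.1 hp
      have h5 := rt_full a b p hpp (fun h6 => by have := hp2 h6.1; omega)
      exact hol_zero ε a b M p hpp (hpw.trans hwleM) (fun i => lt_of_le_of_lt hpw (hwa i)) h5
  have htot : (((Fintype.piFinset (fun i => Icc 1 (a i - 1))).filter (fun b => ¬ Hol ε a b M)).card : ℝ) ≤ P * (3 / √(w : ℝ)) := by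
    calc _ ≤ (((B1 ∪ I3.biUnion B3) ∪ I4.biUnion B4).card : ℝ) := by exact_mod_cast card_le_card hsub
      _ ≤ (B1.card : ℝ) + ((I3.biUnion B3).card : ℝ) + ((I4.biUnion B4).card : ℝ) := by
          exact_mod_cast (card_union_le _ _).trans (Nat.add_le_add_right (card_union_le _ _) _)
      _ ≤ 2 * (P / √(w : ℝ)) + (k * (2 * lam)) * (P / w) + k ^ 2 * (P / w) := by
          apply add_le_add (add_le_add (by convert key) _)
          · calc ((I4.biUnion B4).card : ℝ) ≤ ∑ q ∈ I4, ((B4 q).card : ℝ) := by exact_mod_cast card_biUnion_le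
              _ ≤ ∑ _q ∈ I4, P / w := sum_le_sum hB4c
              _ = I4.card * (P / w) := by rw [sum_const, nsmul_eq_mul]
              _ ≤ _ := mul_le_mul_of_nonneg_right hI4c (by positivity)
          · calc ((I3.biUnion B3).card : ℝ) ≤ ∑ q ∈ I3, ((B3 q).card : ℝ) := by exact_mod_cast card_biUnion_le
              _ ≤ ∑ _q ∈ I3, P / w := sum_le_sum hB3c
              _ = I3.card * (P / w) := by rw [sum_const, nsmul_eq_mul]
              _ ≤ _ := mul_le_mul_of_nonneg_right hI3c (by positivity)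
      _ = P * (2 / √(w : ℝ) + (k * (2 * lam) + k ^ 2) / w) := by ring
      _ ≤ P * (3 / √(w : ℝ)) := by
          apply mul_le_mul_of_nonneg_left _ hP0
          have h5 : (k * (2 * lam) + (k : ℝ) ^ 2) / w ≤ 1 / √(w : ℝ) := by
            rw [div_le_div_iff₀ hwr0 hs0, one_mul]
            have h6 : k * (2 * lam) + (k : ℝ) ^ 2 ≤ √(w : ℝ) := by
              apply Real.le_sqrt_of_sq_le
              refine le_trans ?_ hlam3
              have h7 : k * (2 * lam) + (k : ℝ) ^ 2 ≤ 3 * k ^ 2 * lam := by nlinarith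
              have h8 : 9 * ((k : ℝ) ^ 2) ^ 2 ≤ lam := by
                have e : ((k : ℝ) ^ 2) ^ 2 = k ^ 4 := by ring
                have h9 : lam * ε' ≤ lam * 1 := mul_le_mul_of_nonneg_left (by linarith) hlam0.le
                have h10 : (0 : ℝ) ≤ k ^ 4 := by positivity
                rw [e]
                linarith
              calc (k * (2 * lam) + (k : ℝ) ^ 2) ^ 2 ≤ (3 * k ^ 2 * lam) ^ 2 := pow_le_pow_left₀ (by positivity) h7 2
                _ = (9 * ((k : ℝ) ^ 2) ^ 2) * lam ^ 2 := by ring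
                _ ≤ lam * lam ^ 2 := mul_le_mul_of_nonneg_right h8 (by positivity)
                _ = _ := by ring
            calc (k * (2 * lam) + (k : ℝ) ^ 2) * √(w : ℝ) ≤ √(w : ℝ) * √(w : ℝ) := mul_le_mul_of_nonneg_right h6 hs0.le
              _ = w := hss
          have h6 : (3 : ℝ) / √(w : ℝ) = 2 / √(w : ℝ) + 1 / √(w : ℝ) := by ring
          rw [h6]
          linarith
  refine htot.trans ?_
  have hκ : 3 / √(w : ℝ) ≤ (M : ℝ) ^ (-(1 / (4 * Q) : ℝ)) := by
    rw [Real.rpow_neg hM0r.le, ← one_div, div_le_div_iff₀ hs0 (by positivity), one_mul]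
    have h5 : (M : ℝ) ^ (1 / (4 * Q) : ℝ) ≤ (2 * (w : ℝ)) ^ (1 / 4 : ℝ) := by
      have h6 : (M : ℝ) ^ (1 / (4 * Q) : ℝ) ≤ ((2 * (w : ℝ)) ^ Q) ^ (1 / (4 * Q) : ℝ) :=
        Real.rpow_le_rpow hM0r.le hM2w (by positivity)
      refine h6.trans (le_of_eq ?_)
      rw [← Real.rpow_natCast, ← Real.rpow_mul (by positivity)]
      congr 1
      field_simp
    have h6 : 3 * (2 * (w : ℝ)) ^ (1 / 4 : ℝ) ≤ √(w : ℝ) := by
      have hw162 : (162 : ℝ) ≤ w := by
        have : lam ≤ lam ^ 3 := by
          calc lam = lam ^ 1 := (pow_one _).symm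
            _ ≤ lam ^ 3 := pow_le_pow_right₀ hlam1 (by norm_num)
        linarith
      have h7 : (2 * (w : ℝ)) ^ (1 / 4 : ℝ) ≤ ((w : ℝ) ^ 2 / 81) ^ (1 / 4 : ℝ) := by
        apply Real.rpow_le_rpow (by positivity) _ (by norm_num)
        rw [le_div_iff₀ (by norm_num)]
        nlinarith
      have h8 : ((w : ℝ) ^ 2 / 81) ^ (1 / 4 : ℝ) = √(w : ℝ) / 3 := by
        rw [Real.div_rpow (by positivity) (by norm_num), Real.sqrt_eq_rpow]
        congr 1
        · rw [← Real.rpow_natCast, ← Real.rpow_mul hwr0.le]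
          norm_num
        · rw [show (81 : ℝ) = 3 ^ (4 : ℝ) by norm_num, ← Real.rpow_mul (by norm_num)]
          norm_num
      rw [h8] at h7
      linarith
    linarith
  rw [mul_comm]
  exact mul_le_mul hκ hPa hP0 (by positivity)

end Pool.Agent.K7.H49.LT
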