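import Mathlib
import Pool.Agent.K7.H49.LT.MainO

set_option autoImplicit false

/-! The weighted number of prime tuples for almost all constant terms: the optimal range, arbitrary functions. -/

namespace Pool.Agent.K7.H49.LT
open Finset Pool.Agent.H373R2.T7

set_option maxHeartbeats 1000000 in
open Classical in
theorem mainOA (k : ℕ) (hk : 1 ≤ k) : ∀ (c η2 η : ℝ), 0 < c → 0 < η2 → 0 < η →
    ∀ E E1 : ℕ, ∃ N0 : ℕ,
    ∀ (M w : ℕ) (X : ℝ) (T : Fin k → ℕ) (φ : Fin k → ℕ → ℕ) (z : Fin k → ℕ) (Xs : Fin k → ℕ),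
    1 ≤ M → (∀ i, N0 ≤ T i) → w ≤ M → Real.log X ^ c ≤ w → (∀ i, (M : ℝ) ≤ Real.log (T i) ^ E) →
    (∀ i, M ≤ z i ∧ (z i : ℝ) ≤ Real.log (T i) ^ E1) → (∀ i, Cor (φ i) (T i) M (z i) (1 / M)) →
    (∀ i, ∀ n ∈ Icc 1 M, φ i n + T i ≤ Xs i) → (∀ i, (Xs i : ℝ) ≤ X) →
    (∀ i, ∀ n ∈ Icc 1 M, ∀ n' ∈ Icc 1 M, n ≠ n' → φ i n ≠ φ i n' ∧
      ∑ p ∈ (((φ i n : ℤ) - φ i n').natAbs).primeFactors.filter (fun p => w < p), 1 / (p : ℝ) ≤ Real.log X ^ (-c)) →
    (((Fintype.piFinset (fun i => Icc 1 (T i))).filter (fun b => η2 * M / 2 <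
      |∑ n ∈ Icc 1 M, (∏ i, lamI ((φ i n : ℤ) + b i) - ∏ i, lamzI w ((φ i n : ℤ) + b i))|)).card : ℝ) ≤
      (∏ i, (T i : ℝ)) * (η + 2 ^ (k + 3) / η2 ^ 2 * ((∏ i, Real.log (Xs i)) / M)) := by
  intro c η2 η hc hη2 hη E E1
  obtain ⟨n1, h1⟩ := off2 E1 E
  obtain ⟨n0, h0⟩ := diag E1
  obtain ⟨n2, h2⟩ := Vz_inv_small E
  set c' : ℝ := c / (4 * (E + 1) * (k + 1)) with hc'
  have hc'0 : 0 < c' := by positivity
  obtain ⟨w0, hw0⟩ := Vz_pow_small c' hc'0
  obtain ⟨n3, h3⟩ := ev_rpow c (max ((w0 : ℝ) + 6) 4) hc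
  obtain ⟨n4, h4⟩ := ev_rpow (c / 2) (192 * k * 6 ^ k / η2 ^ 2 / η) (by positivity)
  obtain ⟨n5, h5⟩ := ev_rpow (c / 4) (2 / η2) (by positivity)
  obtain ⟨n6, h6⟩ := ev_L' 2
  refine ⟨max (max (max n0 n1) (max n2 n3)) (max (max n4 n5) (max n6 3)),
    fun M w X T φ z Xs hM0 hT hwleM hX hME hz hC hφX hXsX hφne => ?_⟩
  have i0 : Fin k := ⟨0, hk⟩
  have hTn0 : ∀ i, n0 ≤ T i := fun i => (((le_max_left _ _).trans (le_max_left _ _)).trans (le_max_left _ _)).trans (hT i)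
  have hTn1 : ∀ i, n1 ≤ T i := fun i => (((le_max_right _ _).trans (le_max_left _ _)).trans (le_max_left _ _)).trans (hT i)
  have hTn2 : ∀ i, n2 ≤ T i := fun i => (((le_max_left _ _).trans (le_max_right _ _)).trans (le_max_left _ _)).trans (hT i)
  have hTn3 : ∀ i, n3 ≤ T i := fun i => (((le_max_right _ _).trans (le_max_right _ _)).trans (le_max_left _ _)).trans (hT i)
  have hTn4 : ∀ i, n4 ≤ T i := fun i => (((le_max_left _ _).trans (le_max_left _ _)).trans (le_max_right _ _)).trans (hT i)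
  have hTn5 : ∀ i, n5 ≤ T i := fun i => (((le_max_right _ _).trans (le_max_left _ _)).trans (le_max_right _ _)).trans (hT i)
  have hTn6 : ∀ i, n6 ≤ T i := fun i => (((le_max_left _ _).trans (le_max_right _ _)).trans (le_max_right _ _)).trans (hT i)
  have hT3 : ∀ i, 3 ≤ T i := fun i => (((le_max_right _ _).trans (le_max_right _ _)).trans (le_max_right _ _)).trans (hT i)
  -- M is positive
  have hkr : (1 : ℝ) ≤ k := by exact_mod_cast hk
  have hMr : (1 : ℝ) ≤ M := by exact_mod_cast hM0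
  have hM0r : (0 : ℝ) < M := by linarith
  have hone : 1 ∈ Icc 1 M := mem_Icc.2 ⟨le_rfl, hM0⟩
  have hTXs : ∀ i, T i ≤ Xs i := fun i => by
    have := hφX i 1 hone
    omega
  have hTX : ∀ i, (T i : ℝ) ≤ X := fun i => le_trans (by exact_mod_cast hTXs i) (hXsX i)
  have hX3 : (3 : ℝ) ≤ X := le_trans (by exact_mod_cast hT3 i0) (hTX i0)
  have hX1 : (1 : ℝ) ≤ X := by linarith
  set l := Real.log X with hl
  have hT0r : ∀ i, (0 : ℝ) < T i := fun i => by have := hT3 i; exact_mod_cast (by omega : 0 < T i)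
  have hlT0 : ∀ i, 0 ≤ Real.log (T i) := fun i => Real.log_natCast_nonneg _
  have hlTl : ∀ i, Real.log (T i) ≤ l := fun i => Real.log_le_log (hT0r i) (hTX i)
  have hl2 : 2 ≤ l := (h6 (T i0) (hTn6 i0)).trans (hlTl i0)
  have hl1' : 1 ≤ l := by linarith
  have hl0 : 0 < l := by linarith
  have hlc : max ((w0 : ℝ) + 6) 4 ≤ l ^ c :=
    (h3 (T i0) (hTn3 i0)).trans (Real.rpow_le_rpow (hlT0 i0) (hlTl i0) hc.le)
  have hlc2 : 192 * k * 6 ^ k / η2 ^ 2 / η ≤ l ^ (c / 2) :=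
    (h4 (T i0) (hTn4 i0)).trans (Real.rpow_le_rpow (hlT0 i0) (hlTl i0) (by positivity))
  have hlc4 : 2 / η2 ≤ l ^ (c / 4) :=
    (h5 (T i0) (hTn5 i0)).trans (Real.rpow_le_rpow (hlT0 i0) (hlTl i0) (by positivity))
  -- w is large
  have hwbig : (w0 : ℝ) + 6 ≤ w := ((le_max_left _ _).trans hlc).trans hX
  have hw00 : (0 : ℝ) ≤ w0 := Nat.cast_nonneg _
  have hww0 : w0 ≤ w := by
    have : (w0 : ℝ) ≤ w := by linarith
    exact_mod_cast this
  have hw6 : 6 ≤ w := by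
    have : (6 : ℝ) ≤ w := by linarith
    exact_mod_cast this
  have hwpos : 1 ≤ w := by omega
  have hwr1 : (1 : ℝ) ≤ w := by exact_mod_cast hwpos
  have hwr0 : (0 : ℝ) < w := by linarith
  have hwMr : (w : ℝ) ≤ M := by exact_mod_cast hwleM
  have hM2 : 2 ≤ M := by omega
  have pw0 := Vz_pos w
  set V := (Vz w)⁻¹ with hVd
  have hV : ∀ i, V ≤ Real.log (T i) := fun i => h2 (T i) (hTn2 i) w hwpos (hwMr.trans (hME i))
  have hV1 : 1 ≤ V := by
    rw [hVd, one_le_inv₀ pw0]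
    unfold Vz
    apply prod_le_one
    · intro p hp
      have hp2 : (2 : ℝ) ≤ p := by exact_mod_cast (mem_pz.1 hp).2.two_le
      have : 1 / (p : ℝ) ≤ 1 / 2 := one_div_le_one_div_of_le (by norm_num) hp2
      linarith
    · intro p _
      have : 0 ≤ 1 / (p : ℝ) := by positivity
      linarith
  have hV0 : 0 < V := by linarith
  -- V is at most a small power of l
  have hVl : V ≤ l ^ (c / (4 * (k + 1))) := by
    refine (hw0 w hww0).trans ?_
    have g1 : (w : ℝ) ≤ l ^ ((E : ℝ) + 1) := by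
      have g2 : (w : ℝ) ≤ l ^ E := (hwMr.trans (hME i0)).trans (pow_le_pow_left₀ (hlT0 i0) (hlTl i0) _)
      refine g2.trans ?_
      rw [← Real.rpow_natCast]
      exact Real.rpow_le_rpow_of_exponent_le hl1' (by linarith)
    calc (w : ℝ) ^ c' ≤ (l ^ ((E : ℝ) + 1)) ^ c' := Real.rpow_le_rpow hwr0.le g1 hc'0.le
      _ = l ^ (c / (4 * (k + 1))) := by
          rw [← Real.rpow_mul hl0.le]
          congr 1
          rw [hc']
          field_simp
  have hVk : V ^ (2 * (k + 1)) ≤ l ^ (c / 2) := by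
    calc V ^ (2 * (k + 1)) ≤ (l ^ (c / (4 * (k + 1)))) ^ (2 * (k + 1)) := pow_le_pow_left₀ hV0.le hVl _
      _ = l ^ (c / 2) := by
          rw [← Real.rpow_natCast, ← Real.rpow_mul hl0.le]
          congr 1
          push_cast
          field_simp
          norm_num
  have hVk2 : V ^ k ≤ l ^ (c / 4) := by
    calc V ^ k ≤ V ^ (k + 1) := pow_le_pow_right₀ hV1 (by omega)
      _ ≤ (l ^ (c / (4 * (k + 1)))) ^ (k + 1) := pow_le_pow_left₀ hV0.le hVl _
      _ = l ^ (c / 4) := by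
          rw [← Real.rpow_natCast, ← Real.rpow_mul hl0.le]
          congr 1
          push_cast
          field_simp
  set S : ℝ := l ^ (-c) with hS
  have hS0 : 0 ≤ S := by positivity
  have hSl : S = 1 / l ^ c := by rw [hS, Real.rpow_neg hl0.le, one_div]
  have hlcpos : 0 < l ^ c := by positivity
  have hS4 : 4 * S ≤ 1 := by
    rw [hSl, mul_one_div, div_le_one hlcpos]
    exact (le_max_right _ _).trans hlc
  have hwS : 1 / (w : ℝ) ≤ S := by
    rw [hSl]
    exact one_div_le_one_div_of_le hlcpos hX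
  set δ : ℝ := 16 * V ^ 2 * S with hδ
  have hδ0 : 0 ≤ δ := by positivity
  have hV2 : 1 ≤ V ^ 2 := one_le_pow₀ hV1
  have hδb : ∀ i, 2 * (1 / (M : ℝ)) + 2 / Real.log (T i) ^ E + V ^ 2 * (8 * S + 4 / w) ≤ δ := by
    intro i
    have g1 : 2 * (1 / (M : ℝ)) ≤ 2 * S := by
      have : 1 / (M : ℝ) ≤ 1 / w := one_div_le_one_div_of_le hwr0 hwMr
      linarith
    have g2 : 2 / Real.log (T i) ^ E ≤ 2 * S := by
      have g3 : 2 / Real.log (T i) ^ E ≤ 2 / w := div_le_div_of_nonneg_left (by norm_num) hwr0 (hwMr.trans (hME i))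
      have g4 : 2 / (w : ℝ) = 2 * (1 / w) := by ring
      rw [g4] at g3
      linarith
    have g3 : V ^ 2 * (8 * S + 4 / w) ≤ V ^ 2 * (12 * S) := by
      apply mul_le_mul_of_nonneg_left _ (by positivity)
      have g4 : 4 / (w : ℝ) = 4 * (1 / w) := by ring
      rw [g4]
      linarith
    have g5 : 4 * S ≤ 4 * (V ^ 2 * S) := by nlinarith
    rw [hδ]
    nlinarith
  set K : ℝ := V ^ 2 + 1 + δ with hK
  have hK1 : 1 ≤ K := by rw [hK]; nlinarith
  -- δ is small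
  have hVS : V ^ (2 * (k + 1)) * S ≤ l ^ (-(c / 2)) := by
    calc V ^ (2 * (k + 1)) * S ≤ l ^ (c / 2) * l ^ (-c) := mul_le_mul_of_nonneg_right hVk hS0
      _ = l ^ (-(c / 2)) := by
          rw [← Real.rpow_add hl0]
          congr 1
          ring
  have hvar := variance2 M T (fun i n b => lamI ((φ i n : ℤ) + b)) (fun i n b => lamzI w ((φ i n : ℤ) + b)) K δ
    (fun i => 2 * Real.log (Xs i)) hK1 hδ0
    (fun i n _ b _ => lamI_nonneg _) (fun i n _ b _ => lamzI_nonneg _ _)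
    (fun i n hn => by
      have hXs1 : (1 : ℝ) ≤ Xs i := by
        have := hTXs i
        have := hT3 i
        exact_mod_cast (by omega : 1 ≤ Xs i)
      have g1 := h0 (T i) (hTn0 i) (φ i) M (z i) w (1 / M) (Xs i) (hC i) (by
          rw [div_le_div_iff₀ hM0r (by norm_num)]
          have : (2 : ℝ) ≤ M := by exact_mod_cast hM2
          linarith) hM2 hwpos (hwleM.trans (hz i).1) (hz i).2 hXs1 n hn (by exact_mod_cast hφX i n hn)
      refine ⟨g1.2.1, g1.2.2.trans ?_⟩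
      apply mul_le_mul_of_nonneg_right _ (Nat.cast_nonneg _)
      have g2 : V ≤ Real.log (Xs i) := (hV i).trans (Real.log_le_log (hT0r i) (by exact_mod_cast hTXs i))
      linarith)
    (fun i n hn n' hn' hne => by
      have g1 := h1 (T i) (hTn1 i) (φ i) M (z i) w (1 / M) S (hC i) (by positivity) hwleM hw6 (hwleM.trans (hz i).1)
        (hz i).2 hS0 hS4 n hn n' hn' hne (hφne i n hn n' hn' hne).1 (hφne i n hn n' hn' hne).2
      refine g1.2.2.trans ?_
      apply mul_le_mul_of_nonneg_right _ (Nat.cast_nonneg _)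
      rw [hK]
      have g2 : 1 / Real.log (T i) ^ E ≤ 1 := by
        rw [div_le_one (by have := hM0r.trans_le (hME i); positivity)]
        linarith [hME i]
      linarith)
    (fun i n hn n' hn' hne => by
      have g1 := h1 (T i) (hTn1 i) (φ i) M (z i) w (1 / M) S (hC i) (by positivity) hwleM hw6 (hwleM.trans (hz i).1)
        (hz i).2 hS0 hS4 n hn n' hn' hne (hφne i n hn n' hn' hne).1 (hφne i n hn n' hn' hne).2
      exact ⟨g1.1.trans (mul_le_mul_of_nonneg_right (hδb i) (Nat.cast_nonneg _)),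
        g1.2.1.trans (mul_le_mul_of_nonneg_right (hδb i) (Nat.cast_nonneg _))⟩)
  set P : ℝ := ∏ i, (T i : ℝ) with hP
  have hP0 : 0 ≤ P := prod_nonneg fun _ _ => Nat.cast_nonneg _
  set LX : ℝ := ∏ i, Real.log (Xs i) with hLX
  have hLX0 : 0 ≤ LX := prod_nonneg fun _ _ => Real.log_natCast_nonneg _
  set D : (Fin k → ℕ) → ℝ := fun b => ∑ n ∈ Icc 1 M, (∏ i, lamI ((φ i n : ℤ) + b i) - ∏ i, lamzI w ((φ i n : ℤ) + b i)) with hD
  have hkey : 3 * k * δ * K ^ k ≤ η * η2 ^ 2 / 4 := by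
    have g1 : δ ≤ 4 * V ^ 2 := by
      have : V ^ 2 * (4 * S) ≤ V ^ 2 * 1 := mul_le_mul_of_nonneg_left hS4 (by positivity)
      rw [hδ]
      linarith
    have hK3 : K ≤ 6 * V ^ 2 := by rw [hK]; linarith
    have hK0 : 0 ≤ K := by linarith
    have g2 : K ^ k ≤ 6 ^ k * V ^ (2 * k) := by
      calc K ^ k ≤ (6 * V ^ 2) ^ k := pow_le_pow_left₀ hK0 hK3 k
        _ = 6 ^ k * V ^ (2 * k) := by rw [mul_pow, ← pow_mul]
    have g3 : 192 * k * 6 ^ k ≤ l ^ (c / 2) * η * η2 ^ 2 := by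
      rw [div_le_iff₀ hη, div_le_iff₀ (by positivity)] at hlc2
      exact hlc2
    have g4 : l ^ (-(c / 2)) * l ^ (c / 2) = 1 := by
      rw [← Real.rpow_add hl0]
      simp
    have g5 : 0 ≤ l ^ (-(c / 2)) := by positivity
    calc 3 * k * δ * K ^ k ≤ 3 * k * δ * (6 ^ k * V ^ (2 * k)) := mul_le_mul_of_nonneg_left g2 (by positivity)
      _ = (48 * k * 6 ^ k) * (V ^ (2 * (k + 1)) * S) := by
          rw [hδ, show 2 * (k + 1) = 2 * k + 2 by ring, pow_add]
          ring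
      _ ≤ (48 * k * 6 ^ k) * l ^ (-(c / 2)) := mul_le_mul_of_nonneg_left hVS (by positivity)
      _ = (192 * k * 6 ^ k) * l ^ (-(c / 2)) / 4 := by ring
      _ ≤ (l ^ (c / 2) * η * η2 ^ 2) * l ^ (-(c / 2)) / 4 := by
          apply div_le_div_of_nonneg_right _ (by norm_num)
          exact mul_le_mul_of_nonneg_right g3 g5
      _ = (l ^ (-(c / 2)) * l ^ (c / 2)) * (η * η2 ^ 2) / 4 := by ring
      _ = η * η2 ^ 2 / 4 := by rw [g4, one_mul]
  have hvar2 : ∑ b ∈ Fintype.piFinset (fun i => Icc 1 (T i)), D b ^ 2 ≤ P * (η * η2 ^ 2 / 4 * M ^ 2 + 2 ^ (k + 1) * LX * M) := by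
    refine hvar.trans ?_
    apply mul_le_mul_of_nonneg_left _ hP0
    apply add_le_add
    · exact mul_le_mul_of_nonneg_right hkey (by positivity)
    · rw [prod_mul_distrib, prod_const, card_univ, Fintype.card_fin, ← hLX]
      apply le_of_eq
      ring
  -- the exceptional set
  set bad := (Fintype.piFinset (fun i => Icc 1 (T i))).filter (fun b => η2 * M / 2 < |D b|) with hbad
  have hbadc : (bad.card : ℝ) * (η2 * M / 2) ^ 2 ≤ P * (η * η2 ^ 2 / 4 * M ^ 2 + 2 ^ (k + 1) * LX * M) := by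
    refine le_trans ?_ hvar2
    calc (bad.card : ℝ) * (η2 * M / 2) ^ 2 = ∑ _b ∈ bad, (η2 * M / 2) ^ 2 := by rw [sum_const, nsmul_eq_mul]
      _ ≤ ∑ b ∈ bad, D b ^ 2 := by
          apply sum_le_sum
          intro b hb
          rw [hbad, mem_filter] at hb
          rw [← sq_abs (D b)]
          exact pow_le_pow_left₀ (by positivity) hb.2.le 2
      _ ≤ _ := sum_le_sum_of_subset_of_nonneg (filter_subset _ _) (fun _ _ _ => sq_nonneg _)
  have hbad2 : (bad.card : ℝ) ≤ P * (η + 2 ^ (k + 3) / η2 ^ 2 * (LX / M)) := by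
    have hMM : (0 : ℝ) < (η2 * M / 2) ^ 2 := by positivity
    apply le_of_mul_le_mul_right _ hMM
    refine hbadc.trans (le_of_eq ?_)
    rw [show k + 3 = (k + 1) + 2 by ring, pow_add (2 : ℝ) (k + 1) 2]
    field_simp
    ring
  exact hbad2

end Pool.Agent.K7.H49.LT
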