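import Mathlib
import Pool.Agent.K7.H49.LT.MainOA
import Pool.Agent.K7.H49.LT.PrimesA

set_option autoImplicit false

/-! The number of prime tuples for almost all constant terms: arbitrary functions, the optimal range. -/

namespace Pool.Agent.K7.H49.LT
open Finset Pool.Agent.H373R2.T7

set_option maxHeartbeats 1000000 in
open Classical in
theorem primesOA (k : ℕ) (hk : 1 ≤ k) (ε : ℝ) (hε : 0 < ε) : ∃ K : ℝ, 0 < K ∧ ∃ η : ℝ, 0 < η ∧ ∀ (c : ℝ), 0 < c → ∀ E E1 : ℕ, ∃ N0 : ℕ,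
    ∀ (M w : ℕ) (X : ℝ) (T : Fin k → ℕ) (φ : Fin k → ℕ → ℕ) (z : Fin k → ℕ) (Y : Fin k → ℝ) (Xs : Fin k → ℕ),
    1 ≤ M → (∀ i, N0 ≤ T i) → w ≤ M → Real.log X ^ c ≤ w → (∀ i, (M : ℝ) ≤ Real.log (T i) ^ E) →
    (∀ i, M ≤ z i ∧ (z i : ℝ) ≤ Real.log (T i) ^ E1) → (∀ i, Cor (φ i) (T i) M (z i) (1 / M)) →
    (∀ i, ∀ n ∈ Icc 1 M, φ i n + T i ≤ Xs i) → (∀ i, (Xs i : ℝ) ≤ X) →
    (∀ i, ∀ n ∈ Icc 1 M, ∀ n' ∈ Icc 1 M, n ≠ n' → φ i n ≠ φ i n' ∧
      ∑ p ∈ (((φ i n : ℤ) - φ i n').natAbs).primeFactors.filter (fun p => w < p), 1 / (p : ℝ) ≤ Real.log X ^ (-c)) →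
    (∀ i, 1 < Y i) → (∀ i, ∀ n ∈ Icc 1 M, Y i ≤ φ i n) → (∀ i, Real.log (Xs i) ≤ (1 + η) * Real.log (Y i)) →
    (∀ i, (M : ℝ) ^ 2 * (4 * (√(Xs i : ℝ) * Real.log (Xs i))) ≤ T i) →
    K * ∏ i, Real.log (Y i) ≤ M →
    (((Fintype.piFinset (fun i => Icc 1 (T i))).filter (fun b => ¬
      |cnt φ b M * ∏ i, Real.log (Y i) - Sf φ b M w| ≤ ε * Sf φ b M w + ε * M)).card : ℝ) ≤
        ε * ∏ i, (T i : ℝ) := by
  set ε' : ℝ := min ε 1 / 8 with hε'
  have hε'0 : 0 < ε' := by have := lt_min hε one_pos; positivity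
  have hε'1 : ε' ≤ 1 / 8 := by rw [hε']; have := min_le_right ε 1; linarith
  have hε'2 : 8 * ε' ≤ ε := by rw [hε']; have := min_le_left ε 1; linarith
  have hkr : (1 : ℝ) ≤ k := by exact_mod_cast hk
  set η : ℝ := ε' / (2 * k) with hη
  have hη0 : 0 < η := by positivity
  have hηk : (1 + η) ^ k ≤ 1 + ε' := by
    have h1 : (1 + η) ^ k ≤ Real.exp (k * η) := by
      rw [Real.exp_nat_mul]
      apply pow_le_pow_left₀ (by positivity)
      have := Real.add_one_le_exp η
      linarith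
    have h2 : k * η = ε' / 2 := by rw [hη]; field_simp
    rw [h2] at h1
    have h3 := Real.abs_exp_sub_one_sub_id_le (show |ε' / 2| ≤ 1 by rw [abs_of_nonneg (by positivity)]; linarith)
    have h4 := (abs_le.1 h3).2
    nlinarith
  set K : ℝ := 2 ^ (k + 5) / ε' ^ 3 with hK
  have hK0 : 0 < K := by positivity
  refine ⟨K, hK0, η, hη0, fun c hc E E1 => ?_⟩
  obtain ⟨n1, h1⟩ := mainOA k hk c ε' ε' hc hε'0 hε'0 E E1
  obtain ⟨n2, h2⟩ := ev_rpow c (k / ε' + 1) hc
  refine ⟨max n1 (max n2 3), fun M w X T φ z Y Xs hM0 hT hwM hX hME hz hC hφX hXs hφne hY1 hY hYX hT2 hKM => ?_⟩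
  have i0 : Fin k := ⟨0, hk⟩
  have hTn1 : ∀ i, n1 ≤ T i := fun i => (le_max_left _ _).trans (hT i)
  have hTn2 : ∀ i, n2 ≤ T i := fun i => ((le_max_left _ _).trans (le_max_right _ _)).trans (hT i)
  have hT3 : ∀ i, 3 ≤ T i := fun i => ((le_max_right _ _).trans (le_max_right _ _)).trans (hT i)
  have hone : 1 ∈ Icc 1 M := mem_Icc.2 ⟨le_rfl, hM0⟩
  have hMr : (1 : ℝ) ≤ M := by exact_mod_cast hM0
  have hTXs : ∀ i, T i ≤ Xs i := fun i => by
    have := hφX i 1 hone
    omega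
  have hTX : ∀ i, (T i : ℝ) ≤ X := fun i => le_trans (by exact_mod_cast hTXs i) (hXs i)
  have hX3 : (3 : ℝ) ≤ X := le_trans (by exact_mod_cast hT3 i0) (hTX i0)
  set l := Real.log X with hl
  have hlTl : ∀ i, Real.log (T i) ≤ l := fun i => Real.log_le_log (by have := hT3 i; exact_mod_cast (by omega : 0 < T i)) (hTX i)
  have hl0 : 0 ≤ l := Real.log_nonneg (by linarith)
  have hlc : k / ε' + 1 ≤ l ^ c := (h2 (T i0) (hTn2 i0)).trans (Real.rpow_le_rpow (Real.log_natCast_nonneg _) (hlTl i0) hc.le)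
  have hwr : k / ε' ≤ (M : ℝ) := by
    have : (w : ℝ) ≤ M := by exact_mod_cast hwM
    linarith
  have hM0r : (0 : ℝ) < M := by linarith
  have key := h1 M w X T φ z Xs hM0 hTn1 hwM hX hME hz hC hφX hXs hφne
  set P : ℝ := ∏ i, (T i : ℝ) with hP
  have hP0 : 0 ≤ P := prod_nonneg fun _ _ => Nat.cast_nonneg _
  set B1 := (Fintype.piFinset (fun i => Icc 1 (T i))).filter (fun b => ε' * M / 2 <
      |∑ n ∈ Icc 1 M, (∏ i, lamI ((φ i n : ℤ) + b i) - ∏ i, lamzI w ((φ i n : ℤ) + b i))|) with hB1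
  set B2 : Fin k × ℕ → Finset (Fin k → ℕ) := fun q => (Fintype.piFinset (fun i => Icc 1 (T i))).filter
    (fun b => b q.1 ∈ (Icc 1 (T q.1)).filter (fun c => φ q.1 q.2 + c ∈ PP (Xs q.1))) with hB2
  have hB2c : ∀ q ∈ (univ : Finset (Fin k)) ×ˢ Icc 1 M, ((B2 q).card : ℝ) ≤ P / M ^ 2 := by
    intro q hq
    rw [mem_product] at hq
    have h5 := card_upd (fun i => Icc 1 (T i)) q.1 ((Icc 1 (T q.1)).filter (fun c => φ q.1 q.2 + c ∈ PP (Xs q.1))) (filter_subset _ _)
    simp only [Nat.card_Icc, Nat.add_sub_cancel] at h5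
    have h6 : ((Icc 1 (T q.1)).filter (fun c => φ q.1 q.2 + c ∈ PP (Xs q.1))).card ≤ (PP (Xs q.1)).card := by
      apply card_le_card_of_injOn (fun c => φ q.1 q.2 + c)
      · intro c hc
        rw [mem_coe, mem_filter] at hc
        exact hc.2
      · intro c _ c' _ h7
        simpa using h7
    have h7 := pp_card (Xs q.1) (by have := hT3 q.1; have := hTXs q.1; omega)
    have h8 := hT2 q.1
    have hTq : (0 : ℝ) < T q.1 := by have := hT3 q.1; exact_mod_cast (by omega : 0 < T q.1)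
    have h9 : ((B2 q).card : ℝ) * T q.1 = (((Icc 1 (T q.1)).filter (fun c => φ q.1 q.2 + c ∈ PP (Xs q.1))).card : ℝ) * P := by
      rw [hP, hB2]
      exact_mod_cast h5
    have h10 : (((Icc 1 (T q.1)).filter (fun c => φ q.1 q.2 + c ∈ PP (Xs q.1))).card : ℝ) ≤ T q.1 / M ^ 2 := by
      rw [le_div_iff₀ (by positivity)]
      have h11 : (((Icc 1 (T q.1)).filter (fun c => φ q.1 q.2 + c ∈ PP (Xs q.1))).card : ℝ) ≤ 4 * (√(Xs q.1 : ℝ) * Real.log (Xs q.1)) :=
        le_trans (by exact_mod_cast h6) h7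
      calc _ ≤ 4 * (√(Xs q.1 : ℝ) * Real.log (Xs q.1)) * (M : ℝ) ^ 2 := mul_le_mul_of_nonneg_right h11 (by positivity)
        _ = (M : ℝ) ^ 2 * (4 * (√(Xs q.1 : ℝ) * Real.log (Xs q.1))) := by ring
        _ ≤ _ := h8
    have h12 : ((B2 q).card : ℝ) * T q.1 ≤ (T q.1 / M ^ 2) * P := by
      rw [h9]
      exact mul_le_mul_of_nonneg_right h10 hP0
    have h13 : (T q.1 / M ^ 2 : ℝ) * P = (P / M ^ 2) * T q.1 := by ring
    rw [h13] at h12
    exact le_of_mul_le_mul_right h12 hTq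
  have hsub : (Fintype.piFinset (fun i => Icc 1 (T i))).filter (fun b => ¬
      |cnt φ b M * ∏ i, Real.log (Y i) - Sf φ b M w| ≤ ε * Sf φ b M w + ε * M) ⊆
      B1 ∪ ((univ : Finset (Fin k)) ×ˢ Icc 1 M).biUnion B2 := by
    intro b hb
    rw [mem_filter] at hb
    by_contra hcon
    rw [mem_union, not_or] at hcon
    obtain ⟨hc1, hc2⟩ := hcon
    apply hb.2
    have hbT := Fintype.mem_piFinset.1 hb.1
    have e1 : |∑ n ∈ Icc 1 M, ∏ i, lamI ((φ i n : ℤ) + b i) - Sf φ b M w| ≤ ε' * M / 2 := by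
      rw [← Sf_eq φ b M w (fun i => (mem_Icc.1 (hbT i)).1), ← sum_sub_distrib]
      by_contra h
      apply hc1
      rw [hB1, mem_filter]
      exact ⟨hb.1, not_le.1 h⟩
    have hpp : ∀ i, ∀ n ∈ Icc 1 M, ¬ φ i n + b i ∈ PP (Xs i) := by
      intro i n hn h
      apply hc2
      rw [mem_biUnion]
      refine ⟨(i, n), mem_product.2 ⟨mem_univ _, hn⟩, ?_⟩
      rw [hB2, mem_filter]
      refine ⟨hb.1, ?_⟩
      rw [mem_filter]
      exact ⟨hbT i, h⟩
    have hval : ∀ i, ∀ n, lamI ((φ i n : ℤ) + b i) = ArithmeticFunction.vonMangoldt (φ i n + b i) := by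
      intro i n
      have h5 := (mem_Icc.1 (hbT i)).1
      unfold lamI
      rw [if_pos (by omega)]
      congr 1
    set R := ∑ n ∈ Icc 1 M, ∏ i, lamI ((φ i n : ℤ) + b i) with hR
    set LY := ∏ i, Real.log (Y i) with hLY
    have hLY0 : 0 < LY := prod_pos fun i _ => Real.log_pos (hY1 i)
    have hS0 : 0 ≤ Sf φ b M w := by
      unfold Sf
      have := Vz_pos w
      positivity
    set S := Sf φ b M w with hS
    have hRc : R = ∑ n ∈ (Icc 1 M).filter (fun n => ∀ i, (φ i n + b i).Prime), ∏ i, Real.log ((φ i n + b i : ℕ) : ℝ) := by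
      rw [hR, sum_filter]
      apply sum_congr rfl
      intro n hn
      split_ifs with h
      · apply prod_congr rfl
        intro i _
        rw [hval, ArithmeticFunction.vonMangoldt_apply_prime (h i)]
      · push Not at h
        obtain ⟨i, hi⟩ := h
        apply prod_eq_zero (mem_univ i)
        rw [hval]
        by_contra h5
        apply hpp i n hn
        unfold PP
        rw [mem_filter, mem_Icc]
        refine ⟨⟨?_, ?_⟩, h5, hi⟩
        · have := (mem_Icc.1 (hbT i)).1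
          omega
        · have := (mem_Icc.1 (hbT i)).2
          have := hφX i n hn
          omega
    have hRlow : cnt φ b M * LY ≤ R := by
      rw [hRc]
      unfold cnt
      rw [← nsmul_eq_mul, ← sum_const]
      apply sum_le_sum
      intro n hn
      rw [mem_filter] at hn
      rw [hLY]
      apply prod_le_prod
      · intro i _
        exact (Real.log_pos (hY1 i)).le
      · intro i _
        apply Real.log_le_log (by have := hY1 i; linarith)
        have h5 := hY i n hn.1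
        push_cast
        have h6 : (0 : ℝ) ≤ b i := Nat.cast_nonneg _
        linarith
    have hRup : R ≤ cnt φ b M * LY * (1 + ε') := by
      rw [hRc]
      unfold cnt
      rw [mul_assoc, ← nsmul_eq_mul, ← sum_const]
      apply sum_le_sum
      intro n hn
      rw [mem_filter] at hn
      calc ∏ i, Real.log ((φ i n + b i : ℕ) : ℝ) ≤ ∏ i, ((1 + η) * Real.log (Y i)) := by
            apply prod_le_prod
            · intro i _
              exact Real.log_natCast_nonneg _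
            · intro i _
              refine le_trans ?_ (hYX i)
              apply Real.log_le_log
              · exact_mod_cast (hn.2 i).pos
              · have h5 := hφX i n hn.1
                have h6 := (mem_Icc.1 (hbT i)).2
                exact_mod_cast (by omega : φ i n + b i ≤ Xs i)
        _ = (1 + η) ^ k * LY := by rw [prod_mul_distrib, prod_const, card_univ, Fintype.card_fin]
        _ ≤ (1 + ε') * LY := mul_le_mul_of_nonneg_right hηk hLY0.le
        _ = _ := by ring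
    rw [abs_le] at e1 ⊢
    have hcL : (0 : ℝ) ≤ cnt φ b M * LY := by positivity
    set e : ℝ := ε' * M / 2 with he
    have he0 : 0 ≤ e := by positivity
    have he2 : 2 * e ≤ ε * M := by
      rw [he]
      nlinarith
    suffices h9 : -(ε * S + 2 * e) ≤ cnt φ b M * LY - S ∧ cnt φ b M * LY - S ≤ ε * S + 2 * e from ⟨by linarith [h9.1], by linarith [h9.2]⟩
    have q1 : cnt φ b M * LY ≤ S + e := hRlow.trans (by linarith [e1.2])
    have q2 : ε' * (cnt φ b M * LY) ≤ ε' * (S + e) := mul_le_mul_of_nonneg_left q1 hε'0.le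
    have q3 : ε' * e ≤ 1 / 8 * e := mul_le_mul_of_nonneg_right hε'1 he0
    have q4 : ε' * S ≤ ε * S := mul_le_mul_of_nonneg_right (by linarith) hS0
    have q5 : 0 ≤ ε * S := mul_nonneg hε.le hS0
    constructor
    · nlinarith [e1.1]
    · linarith
  have hun : ((((univ : Finset (Fin k)) ×ˢ Icc 1 M).biUnion B2).card : ℝ) ≤ ε' * P := by
    calc ((((univ : Finset (Fin k)) ×ˢ Icc 1 M).biUnion B2).card : ℝ) ≤ ∑ q ∈ (univ : Finset (Fin k)) ×ˢ Icc 1 M, ((B2 q).card : ℝ) := by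
          exact_mod_cast card_biUnion_le
      _ ≤ ∑ _q ∈ (univ : Finset (Fin k)) ×ˢ Icc 1 M, P / M ^ 2 := sum_le_sum hB2c
      _ = k * P / M := by
          rw [sum_const, card_product, card_univ, Fintype.card_fin, Nat.card_Icc, Nat.add_sub_cancel, nsmul_eq_mul]
          push_cast
          field_simp
      _ ≤ ε' * P := by
          rw [div_le_iff₀ hM0r]
          have g1 : (k : ℝ) ≤ ε' * M := by
            rw [div_le_iff₀ hε'0] at hwr
            linarith
          calc k * P ≤ (ε' * M) * P := mul_le_mul_of_nonneg_right g1 hP0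
            _ = _ := by ring
  have hlogs : (∏ i, Real.log (Xs i)) ≤ 2 * ∏ i, Real.log (Y i) := by
    calc (∏ i, Real.log (Xs i : ℝ)) ≤ ∏ i, ((1 + η) * Real.log (Y i)) := by
          apply prod_le_prod
          · intro i _
            exact Real.log_natCast_nonneg _
          · intro i _
            exact hYX i
      _ = (1 + η) ^ k * ∏ i, Real.log (Y i) := by rw [prod_mul_distrib, prod_const, card_univ, Fintype.card_fin]
      _ ≤ 2 * ∏ i, Real.log (Y i) := by
          apply mul_le_mul_of_nonneg_right (by linarith)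
          exact (prod_pos fun i _ => Real.log_pos (hY1 i)).le
  have hmain : ε' + 2 ^ (k + 3) / ε' ^ 2 * ((∏ i, Real.log (Xs i)) / M) ≤ 2 * ε' := by
    have g1 : (∏ i, Real.log (Xs i : ℝ)) / M ≤ 2 / K := by
      rw [div_le_div_iff₀ hM0r hK0]
      calc (∏ i, Real.log (Xs i : ℝ)) * K ≤ (2 * ∏ i, Real.log (Y i)) * K := mul_le_mul_of_nonneg_right hlogs hK0.le
        _ = 2 * (K * ∏ i, Real.log (Y i)) := by ring
        _ ≤ 2 * M := by linarith
    have g2 : 2 ^ (k + 3) / ε' ^ 2 * ((∏ i, Real.log (Xs i : ℝ)) / M) ≤ 2 ^ (k + 3) / ε' ^ 2 * (2 / K) :=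
      mul_le_mul_of_nonneg_left g1 (by positivity)
    have g3 : 2 ^ (k + 3) / ε' ^ 2 * (2 / K) = ε' / 2 := by
      rw [hK, show k + 5 = (k + 3) + 2 by ring, pow_add (2 : ℝ) (k + 3) 2]
      field_simp
    linarith
  calc _ ≤ ((B1 ∪ ((univ : Finset (Fin k)) ×ˢ Icc 1 M).biUnion B2).card : ℝ) := by exact_mod_cast card_le_card hsub
    _ ≤ (B1.card : ℝ) + ((((univ : Finset (Fin k)) ×ˢ Icc 1 M).biUnion B2).card : ℝ) := by exact_mod_cast card_union_le _ _
    _ ≤ P * (2 * ε') + ε' * P := add_le_add (le_trans (by convert key) (mul_le_mul_of_nonneg_left hmain hP0)) hun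
    _ = (3 * ε') * P := by ring
    _ ≤ ε * P := mul_le_mul_of_nonneg_right (by linarith) hP0

end Pool.Agent.K7.H49.LT
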