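import Mathlib
import Pool.Agent.K7.H49.LT.Nth
import Pool.Agent.K7.H49.LT.PrimesOA
import Pool.Agent.K7.H49.LT.DivAll

set_option autoImplicit false

/-! Primes of the form `p_n + 2 P(n)`, for almost all members of families of polynomials: the optimal range. -/

namespace Pool.Agent.K7.H49.LT
open Finset Pool.Agent.H373R2.T7

/-- a bound for the number of primes from a bound for the sum of the logarithms -/
lemma cnt_one (F N : ℕ) (hN : 1 ≤ N) (hF : N ≤ F) (h : ∑ b ∈ Icc 1 (2 * N), lamI ((F : ℤ) + b) ≤ 4 * N) :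
    (((Ioc N (2 * N)).filter (fun c => (F + 2 * (c - N)).Prime)).card : ℝ) * Real.log N ≤ 4 * N := by
  refine le_trans ?_ h
  set S := (Ioc N (2 * N)).filter (fun c => (F + 2 * (c - N)).Prime) with hS
  have hN0 : (0 : ℝ) < N := by exact_mod_cast hN
  have h1 : (S.card : ℝ) * Real.log N ≤ ∑ c ∈ S, lamI ((F : ℤ) + ((2 * (c - N) : ℕ) : ℤ)) := by
    rw [← nsmul_eq_mul, ← sum_const]
    apply sum_le_sum
    intro c hc
    rw [hS, mem_filter] at hc
    have h2 : lamI ((F : ℤ) + ((2 * (c - N) : ℕ) : ℤ)) = Real.log ((F + 2 * (c - N) : ℕ) : ℝ) := by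
      unfold lamI
      rw [if_pos (by omega)]
      have h3 : ((F : ℤ) + ((2 * (c - N) : ℕ) : ℤ)).toNat = F + 2 * (c - N) := by omega
      rw [h3, ArithmeticFunction.vonMangoldt_apply_prime hc.2]
    rw [h2]
    apply Real.log_le_log hN0
    exact_mod_cast (by omega : N ≤ F + 2 * (c - N))
  refine h1.trans ?_
  have h2 : ∑ c ∈ S, lamI ((F : ℤ) + ((2 * (c - N) : ℕ) : ℤ)) = ∑ b ∈ S.image (fun c => 2 * (c - N)), lamI ((F : ℤ) + (b : ℤ)) := by
    rw [sum_image]
    intro c hc c' hc' h3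
    rw [mem_coe, hS, mem_filter, mem_Ioc] at hc hc'
    simp only at h3
    omega
  rw [h2]
  apply sum_le_sum_of_subset_of_nonneg
  · intro b hb
    rw [mem_image] at hb
    obtain ⟨c, hc, rfl⟩ := hb
    rw [hS, mem_filter, mem_Ioc] at hc
    rw [mem_Icc]
    omega
  · intro b _ _
    exact lamI_nonneg _

lemma nlA (a C q : ℝ) (h : C ≤ q) (ha : 0 ≤ a * a) : C * (2 * a * (2 * a)) ≤ 4 * (a * a * q) := by nlinarith
lemma nlB (z a L : ℝ) (h5 : z < a + 1) (h6 : 1 ≤ a) (hL : 2 ≤ L) : z ≤ a * L := by nlinarith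
lemma nlC (N g a : ℝ) (hN : 0 ≤ N) (h : g + 1 ≤ 2 * a) : 7 * N * (g + 1) ≤ 14 * N * a := by nlinarith
lemma nlD (N g : ℝ) (hN : 0 ≤ N) (hg : 0 ≤ g) : N ≤ 7 * N * (g + 1) := by nlinarith
lemma nlE (a b h g M : ℝ) (h1 : 0 ≤ a * g + h) (h2 : a * g + h ≤ M) (h3 : 0 ≤ b * g + h) (h4 : b * g + h ≤ M) :
    |(a - b) * g| ≤ M := by
  rw [abs_le]
  constructor <;> nlinarith
lemma nlF (d g M M' : ℝ) (h1 : d * g ≤ M) (h2 : 1 ≤ g) (h3 : 0 ≤ d) (h4 : M ≤ M') : d ≤ M' := by nlinarith
lemma nlG (g g' a L : ℝ) (h1 : |g| ≤ a) (h2 : |g'| ≤ a) (hL : 4 ≤ L) : 2 * |g - g'| ≤ a * L := by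
  have h3 := abs_sub g g'
  have h4 : 0 ≤ a := (abs_nonneg _).trans h1
  nlinarith
lemma nlH (N a : ℝ) (ha : 1 ≤ a) (hN : 0 ≤ N) : N ≤ a * (2 * N) := by nlinarith
lemma nlI (y t : ℝ) (ht : t ≤ 1 / 3) (hy : 0 ≤ y) : y * t + y * t + y * t ≤ y := by nlinarith
lemma nlJ (N a L : ℝ) (h : 0 ≤ N * a) (hL : 14 ≤ L) : 14 * N * a ≤ N * (a * L ^ 2) := by
  have h5 : 14 ≤ L ^ 2 := by nlinarith
  nlinarith
lemma nlK (w w0 a : ℝ) (h1 : w + 1 ≤ w0) (h2 : w0 < a + 1) (h3 : 3 ≤ a) : w + 1 ≤ a * a := by nlinarith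
lemma nlL (N a s : ℝ) (h1 : 14 * a ≤ s) (h2 : s ≤ N) (h3 : 0 ≤ N) : 14 * N * a ≤ N ^ 2 := by nlinarith
lemma nlM (a : ℝ) (h : 1 ≤ a) : 14 * a ≤ (14 * a) ^ 2 := by nlinarith
lemma nlN (a b : ℝ) (ha : 0 ≤ a) (hb : 2 ≤ b) : 112 * a ≤ 64 * (a * b) := by nlinarith
lemma nlO (L : ℝ) (h : 2 ≤ L) : 2 * L ≤ L * L := by nlinarith
lemma sqrt_le_self' (N : ℝ) (h : 1 ≤ N) : √N ≤ N := by
  rw [Real.sqrt_le_left (by linarith)]
  nlinarith

set_option maxHeartbeats 4000000 in
open Classical in
theorem nthO_main (k Q : ℕ) (hk : 1 ≤ k) (hQ : 1 ≤ Q) (ε : ℝ) (hε : 0 < ε) : ∃ K : ℝ, 0 < K ∧ ∀ A B E H : ℕ, ∃ N0 : ℕ, ∀ N : ℕ, N0 ≤ N →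
    ∀ (x : Fin k → ℕ) (s : Fin k → ℕ → ℤ) (I : Finset ℕ) (g h : Fin k → ℕ → ℤ),
    (∀ n ∈ I, 1 ≤ n ∧ (n : ℝ) ≤ Real.log N ^ E) → Real.log N ^ k ≤ I.card →
    (∀ i, ∀ n ∈ I, ∀ n' ∈ I, n ≠ n' → g i n ≠ g i n') → (∀ i, ∀ n ∈ I, |(g i n : ℝ)| ≤ Real.log N ^ E) →
    (∀ i, ∀ l ∈ Icc 1 (x i), ∀ n ∈ I, 0 ≤ s i l * g i n + h i n ∧ ((s i l * g i n + h i n : ℤ) : ℝ) ≤ N * Real.log N ^ E) →
    (∀ i, ∃ r, 1 ≤ r ∧ r ≤ H ∧ (Pool.Agent.H373R2.T7.energy r (x i) (s i) : ℝ) * N ≤ Real.log N ^ B * (x i : ℝ) ^ (2 * r)) →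
    ∃ 𝒢 : Fin k → Finset ℕ, (∀ i, 𝒢 i ⊆ Icc 1 (x i) ∧ ((Icc 1 (x i) \ 𝒢 i).card : ℝ) ≤ x i / Real.log N ^ A) ∧
      ∀ l : Fin k → ℕ, (∀ i, l i ∈ 𝒢 i) → ∀ 𝒩 ⊆ I, (K * Real.log N ^ k ≤ 𝒩.card → ∀ w : ℕ, w ^ Q ≤ 𝒩.card → 𝒩.card < (w + 1) ^ Q →
        (((Fintype.piFinset (fun _ : Fin k => Ioc N (2 * N))).filter (fun b => ¬
          |((𝒩.filter (fun n => ∀ i, (pv n (s i (l i) * g i n + h i n + b i)).Prime)).card : ℝ) * Real.log N ^ k -
            (Vz w)⁻¹ ^ k * (𝒩.filter (fun n => ∀ p ∈ pz w, ∀ i, ¬ p ∣ pv n (s i (l i) * g i n + h i n + b i))).card| ≤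
            ε * ((Vz w)⁻¹ ^ k * (𝒩.filter (fun n => ∀ p ∈ pz w, ∀ i, ¬ p ∣ pv n (s i (l i) * g i n + h i n + b i))).card) +
              ε * 𝒩.card)).card : ℝ) ≤ ε * (N : ℝ) ^ k) ∧
        (((Fintype.piFinset (fun _ : Fin k => Ioc N (2 * N))).filter (fun b => ∃ n ∈ 𝒩, ∀ i,
          (pv n (s i (l i) * g i n + h i n + b i)).Prime)).card : ℝ) ≤ 4 ^ k * (𝒩.card / Real.log N ^ k) * (N : ℝ) ^ k := by
  set ε' : ℝ := ε / 2 ^ k with hε'
  have hε'0 : 0 < ε' := by positivity
  have hε'1 : ε' ≤ ε := div_le_self hε.le (one_le_pow₀ (by norm_num))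
  obtain ⟨K, hK, η, hη, hG⟩ := primesOA k hk ε' hε'0
  obtain ⟨C₀, hC₀, hPle⟩ := Pool.Agent.H646.ChebM.P_le
  refine ⟨max K 1, by positivity, fun A B E H => ?_⟩
  have hQr : (1 : ℝ) ≤ Q := by exact_mod_cast hQ
  set H' : ℕ := max H 1 with hH'
  have hH1 : 1 ≤ H' := le_max_right _ _
  have hH'r : (1 : ℝ) ≤ H' := by exact_mod_cast hH1
  set c1 : ℝ := 1 / (2 * Q) with hc1
  have hc10 : 0 < c1 := by positivity
  have hc11 : c1 ≤ 1 := by
    rw [hc1, div_le_one (by positivity)]
    linarith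
  set κ : ℝ := c1 / (4 * H') with hκ
  have hκ0 : 0 < κ := by positivity
  have hκc : κ ≤ c1 := by
    rw [hκ]
    apply div_le_self hc10.le
    linarith
  choose B0 hB0 using fun r => cor_fam r (max B 14) B E E (A + 1)
  obtain ⟨n5, h5c⟩ := coll H B E (A + 1)
  obtain ⟨n6, h6c⟩ := div_all H' B (E + 1) (A + 1) hH1 c1 hc10 hc11
  set BB : ℕ := max ((range (H + 1)).sup B0) (E + 1) with hBB
  choose N1 hN1 using fun r => hB0 r (BB + 1)
  obtain ⟨n1, h1⟩ := hG (κ / 2) (by positivity) (E + 1) (BB + 1)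
  obtain ⟨n2, h2⟩ := ev_L' (14 + C₀)
  obtain ⟨n3, h3⟩ := ev_log' (3 * E + 4) 64
  obtain ⟨n4, h4⟩ := Pool.Agent.K7.H49.PR.ev_pow (E + 2) 1 η hη
  obtain ⟨n7, h7c⟩ := diag (BB + 1)
  obtain ⟨n8, h8c⟩ := ev_rpow c1 3 hc10
  refine ⟨max (max (max ((range (H + 1)).sup N1) n1) (max n2 (max n3 (max n4 (max n5 3))))) (max n6 (max n7 n8)),
    fun N hN' x s I g h hI hIk hg hgE hsg hE => ?_⟩
  have hN : max (max ((range (H + 1)).sup N1) n1) (max n2 (max n3 (max n4 (max n5 3)))) ≤ N := (le_max_left _ _).trans hN'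
  have b7 : n6 ≤ N := ((le_max_left _ _).trans (le_max_right _ _)).trans hN'
  have b8 : n7 ≤ N := (((le_max_left _ _).trans (le_max_right _ _)).trans (le_max_right _ _)).trans hN'
  have b9 : n8 ≤ N := (((le_max_right _ _).trans (le_max_right _ _)).trans (le_max_right _ _)).trans hN'
  have b0 : (range (H + 1)).sup N1 ≤ N := le_trans (le_trans (le_max_left _ _) (le_max_left _ _)) hN
  have b1 : n1 ≤ N := le_trans (le_trans (le_max_right _ _) (le_max_left _ _)) hN
  have b2 : n2 ≤ N := le_trans (le_trans (le_max_left _ _) (le_max_right _ _)) hN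
  have b3 : n3 ≤ N := le_trans (le_trans (le_trans (le_max_left _ _) (le_max_right _ _)) (le_max_right _ _)) hN
  have b4 : n4 ≤ N := le_trans (le_trans (le_trans (le_trans (le_max_left _ _) (le_max_right _ _)) (le_max_right _ _)) (le_max_right _ _)) hN
  have b6 : n5 ≤ N := le_trans (le_trans (le_trans (le_trans (le_trans (le_max_left _ _) (le_max_right _ _)) (le_max_right _ _)) (le_max_right _ _)) (le_max_right _ _)) hN
  have b5 : 3 ≤ N := le_trans (le_trans (le_trans (le_trans (le_trans (le_max_right _ _) (le_max_right _ _)) (le_max_right _ _)) (le_max_right _ _)) (le_max_right _ _)) hN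
  have hL := h2 N b2
  have hNr : (3 : ℝ) ≤ N := by exact_mod_cast b5
  have hN0 : (0 : ℝ) < N := by linarith
  have a3 := h3 N b3
  have a4 := h4 N b4
  rw [one_mul] at a4
  set L := Real.log N with hLd
  have hL14 : 14 + C₀ ≤ L := hL
  have a8 := h8c N b9
  rw [← hLd] at a8
  have hL1 : 1 ≤ L := by linarith
  have hL0 : 0 < L := by linarith
  have hLE1 : 1 ≤ L ^ E := one_le_pow₀ hL1
  -- the size of the arguments
  set G : ℕ := ⌊L ^ E⌋₊ with hGd
  have hGr : (G : ℝ) ≤ L ^ E := Nat.floor_le (by positivity)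
  have hG1 : L ^ E ≤ (G : ℝ) + 1 := (Nat.lt_floor_add_one _).le
  have hIG : I ⊆ Icc 1 G := fun n hn => mem_Icc.2 ⟨(hI n hn).1, Nat.le_floor (hI n hn).2⟩
  have hIc : (I.card : ℝ) ≤ L ^ E := by
    have h5 := card_le_card hIG
    rw [Nat.card_Icc, Nat.add_sub_cancel] at h5
    exact le_trans (by exact_mod_cast h5) hGr
  have hsqN : √(N : ℝ) * √(N : ℝ) = N := Real.mul_self_sqrt hN0.le
  have hsq0 : 0 < √(N : ℝ) := Real.sqrt_pos.2 hN0
  -- the primes
  have hprime : ∀ n ∈ I, Nat.nth Nat.Prime (n - 1) ≤ N := by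
    intro n hn
    obtain ⟨hn1, hn2⟩ := hI n hn
    have h5 : Nat.nth Nat.Prime (n - 1) ≤ Nat.nth Nat.Prime (n + 1) :=
      Nat.nth_monotone Nat.infinite_setOfPred_prime (by omega)
    have h6 : (Nat.nth Nat.Prime (n + 1) : ℝ) ≤ N := by
      refine (hPle (n + 1) (by omega)).trans ?_
      have h7 : Real.log ((n + 1 : ℕ) : ℝ) ≤ ((n + 1 : ℕ) : ℝ) := by
        have := Real.log_le_sub_one_of_pos (show (0 : ℝ) < ((n + 1 : ℕ) : ℝ) by positivity)
        linarith
      have h8 : ((n + 1 : ℕ) : ℝ) ≤ 2 * L ^ E := by push_cast; linarith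
      have h9 : C₀ * (((n + 1 : ℕ) : ℝ) * Real.log ((n + 1 : ℕ) : ℝ)) ≤ C₀ * ((2 * L ^ E) * (2 * L ^ E)) := by
        apply mul_le_mul_of_nonneg_left _ (by linarith)
        exact mul_le_mul h8 (h7.trans h8) (Real.log_natCast_nonneg _) (by positivity)
      refine h9.trans ?_
      have h10 : L ^ (3 * E + 4) ≤ √(N : ℝ) := by
        have : 0 ≤ L ^ (3 * E + 4) := by positivity
        linarith
      have h11 : C₀ * ((2 * L ^ E) * (2 * L ^ E)) ≤ 4 * L ^ (3 * E + 4) := by
        have e : L ^ (3 * E + 4) = L ^ E * L ^ E * (L ^ E * L ^ 4) := by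
          rw [← pow_add, ← pow_add, ← pow_add]
          congr 1
          omega
        have h12 : C₀ ≤ L ^ E * L ^ 4 := by
          have h13 : L ≤ L ^ 4 := by
            calc L = L ^ 1 := (pow_one _).symm
              _ ≤ L ^ 4 := pow_le_pow_right₀ hL1 (by norm_num)
          have h14 : L ^ 4 ≤ L ^ E * L ^ 4 := le_mul_of_one_le_left (by positivity) hLE1
          linarith
        rw [e]
        have h13 : 0 ≤ L ^ E * L ^ E := by positivity
        exact nlA _ _ _ h12 h13
      have h12 : √(N : ℝ) ≤ N := sqrt_le_self' _ (by linarith)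
      linarith
    exact_mod_cast h5.trans (by exact_mod_cast h6)
  -- enumerate the arguments
  obtain ⟨e, e1, e2, e3⟩ := enum I
  -- parameters
  set z : ℕ := ⌈L ^ BB⌉₊ with hz
  have hz1 : L ^ BB ≤ z := Nat.le_ceil _
  have hz3 : (z : ℝ) ≤ L ^ (BB + 1) := by
    have h5 := Nat.ceil_lt_add_one (show 0 ≤ L ^ BB by positivity)
    have h6 : 1 ≤ L ^ BB := one_le_pow₀ hL1
    rw [pow_succ]
    exact nlB _ _ _ h5 h6 (by linarith)
  -- the functions
  set F : Fin k → ℕ → ℕ → ℕ := fun i l n => 2 * N + Nat.nth Nat.Prime (n - 1) + 2 * (s i l * g i n + h i n).toNat with hF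
  have hFz : ∀ i, ∀ l ∈ Icc 1 (x i), ∀ n ∈ I, (F i l n : ℤ) = s i l * (2 * g i n) + (2 * N + Nat.nth Nat.Prime (n - 1) + 2 * h i n) := by
    intro i l hl n hn
    have h5 := (hsg i l hl n hn).1
    rw [hF]
    push_cast
    rw [Int.toNat_of_nonneg h5]
    ring
  have hFX : ∀ i, ∀ l ∈ Icc 1 (x i), ∀ n ∈ I, F i l n + 2 * N ≤ 7 * N * (G + 1) := by
    intro i l hl n hn
    have h5 := (hsg i l hl n hn).1
    have h6 := (hsg i l hl n hn).2
    have h7 : (((s i l * g i n + h i n).toNat : ℕ) : ℝ) ≤ ((N * (G + 1) : ℕ) : ℝ) := by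
      have h8 : (((s i l * g i n + h i n).toNat : ℕ) : ℝ) = ((s i l * g i n + h i n : ℤ) : ℝ) := by
        have := Int.toNat_of_nonneg h5
        exact_mod_cast congrArg (fun t : ℤ => (t : ℝ)) this
      rw [h8]
      refine h6.trans ?_
      push_cast
      exact mul_le_mul_of_nonneg_left hG1 hN0.le
    have h8 : (s i l * g i n + h i n).toNat ≤ N * (G + 1) := by exact_mod_cast h7
    have h9 := hprime n hn
    have h10 : N ≤ N * (G + 1) := Nat.le_mul_of_pos_right _ (by omega)
    rw [hF]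
    simp only
    have h11 : 7 * N * (G + 1) = 7 * (N * (G + 1)) := by ring
    rw [h11]
    omega
  set Xs : ℕ := 7 * N * (G + 1) with hXs
  have hXsr : (Xs : ℝ) = 7 * N * (G + 1) := by rw [hXs]; push_cast; ring
  have hXs14 : (Xs : ℝ) ≤ 14 * N * L ^ E := by
    rw [hXsr]
    have : (G : ℝ) + 1 ≤ 2 * L ^ E := by linarith
    exact nlC _ _ _ hN0.le this
  have hG0 : (0 : ℝ) ≤ G := Nat.cast_nonneg _
  have hXsN : (N : ℝ) ≤ Xs := by
    rw [hXsr]
    exact nlD _ _ hN0.le hG0
  have hXs0 : (0 : ℝ) < Xs := by linarith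
  -- the good members
  set w0 : ℕ := ⌈L ^ c1⌉₊ with hw0
  have hw01 : L ^ c1 ≤ w0 := Nat.le_ceil _
  have hw02 : (w0 : ℝ) < L ^ c1 + 1 := Nat.ceil_lt_add_one (by positivity)
  set u : Fin k → ℕ → ℤ := fun i n => 2 * g i n with hu
  set v : Fin k → ℕ → ℤ := fun i n => 2 * N + Nat.nth Nat.Prime (n - 1) + 2 * h i n with hv
  set 𝒢 : Fin k → Finset ℕ := fun i => (Icc 1 (x i)).filter (fun l => Cor (fun m => F i l (e m)) (2 * N) I.card z (1 / L ^ E) ∧
    (¬ ∃ n ∈ I, ∃ n' ∈ I, n ≠ n' ∧ s i l * (2 * g i n) + (2 * N + Nat.nth Nat.Prime (n - 1) + 2 * h i n) =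
      s i l * (2 * g i n') + (2 * N + Nat.nth Nat.Prime (n' - 1) + 2 * h i n')) ∧
    ¬ ∃ n ∈ I, ∃ n' ∈ I, n ≠ n' ∧ (s i l * (u i n - u i n') + (v i n - v i n') ≠ 0 ∧
      |((s i l * (u i n - u i n') + (v i n - v i n') : ℤ) : ℝ)| ≤ (N : ℝ) ^ 2 ∧
      L ^ (-κ) < ∑ p ∈ (s i l * (u i n - u i n') + (v i n - v i n')).natAbs.primeFactors.filter (fun p => w0 < p), 1 / (p : ℝ))) with h𝒢
  refine ⟨𝒢, fun i => ⟨filter_subset _ _, ?_⟩, ?_⟩
  · obtain ⟨r, hr1, hr, hEr⟩ := hE i
    have key3 : ((((Icc 1 (x i)).filter (fun l => ∃ n ∈ I, ∃ n' ∈ I, n ≠ n' ∧ (s i l * (u i n - u i n') + (v i n - v i n') ≠ 0 ∧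
      |((s i l * (u i n - u i n') + (v i n - v i n') : ℤ) : ℝ)| ≤ (N : ℝ) ^ 2 ∧
      L ^ (-κ) < ∑ p ∈ (s i l * (u i n - u i n') + (v i n - v i n')).natAbs.primeFactors.filter (fun p => w0 < p), 1 / (p : ℝ)))).card : ℕ) : ℝ) ≤
        x i / L ^ (A + 1) := by
      have hLE2' : L ^ E ≤ L ^ (E + 1) := pow_le_pow_right₀ hL1 (by omega)
      apply h6c N b7 r hr1 (hr.trans (le_max_left _ _)) (x i) (s i) I (u i) (v i) w0 hEr _ (hIc.trans hLE2') _ hw01
      · intro l hl l' hl'
        -- an argument with g ≠ 0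
        obtain ⟨n, hn, hgn⟩ : ∃ n ∈ I, g i n ≠ 0 := by
          by_contra hcon
          push Not at hcon
          have h2I : 2 ≤ I.card := by
            have : (2 : ℝ) ≤ I.card := by
              refine le_trans ?_ hIk
              calc (2 : ℝ) ≤ L := by linarith
                _ = L ^ 1 := (pow_one _).symm
                _ ≤ L ^ k := pow_le_pow_right₀ hL1 hk
            exact_mod_cast this
          obtain ⟨n, hn, n', hn', hne⟩ := one_lt_card.1 h2I
          exact hg i n hn n' hn' hne (by rw [hcon n hn, hcon n' hn'])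
        have q1 := hsg i l hl n hn
        have q2 := hsg i l' hl' n hn
        have q3 : |((s i l - s i l' : ℤ) : ℝ)| * |(g i n : ℝ)| ≤ N * L ^ E := by
          rw [← abs_mul]
          have q4 : (0 : ℝ) ≤ ((s i l * g i n + h i n : ℤ) : ℝ) := by exact_mod_cast q1.1
          have q5 : (0 : ℝ) ≤ ((s i l' * g i n + h i n : ℤ) : ℝ) := by exact_mod_cast q2.1
          have q6 := q1.2
          have q7 := q2.2
          push_cast at q4 q5 q6 q7 ⊢
          exact nlE _ _ _ _ _ q4 q6 q5 q7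
        have q4 : (1 : ℝ) ≤ |(g i n : ℝ)| := by
          have : (1 : ℤ) ≤ |g i n| := Int.one_le_abs hgn
          exact_mod_cast this
        have q5 : (0 : ℝ) ≤ |((s i l - s i l' : ℤ) : ℝ)| := abs_nonneg _
        have q6 : (N : ℝ) * L ^ E ≤ N * L ^ (E + 1) := mul_le_mul_of_nonneg_left hLE2' hN0.le
        exact nlF _ _ _ _ q3 q4 q5 q6
      · intro n hn n' hn' hne
        refine ⟨fun h5 => hg i n hn n' hn' hne (by rw [hu] at h5; simp only at h5; linarith), ?_⟩
        rw [hu]
        push_cast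
        have q1 := hgE i n hn
        have q2 := hgE i n' hn'
        rw [← mul_sub, abs_mul, abs_of_pos (by norm_num : (0 : ℝ) < 2)]
        rw [pow_succ]
        exact nlG _ _ _ _ q1 q2 (by linarith)
    have key := hN1 r N ((le_sup (f := N1) (mem_range.2 (by omega))).trans b0) (x i) I.card (s i)
      (fun m => 2 * g i (e m)) (fun m => 2 * N + Nat.nth Nat.Prime (e m - 1) + 2 * h i (e m)) (fun l m => F i l (e m)) (fun _ => 2 * N)
      hIc hEr (fun m hm m' hm' hne h5 => by
        apply hg i (e m) (e1 m hm) (e m') (e1 m' hm') (e2 m hm m' hm' hne)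
        linarith) z
      ((pow_le_pow_right₀ hL1 ((le_sup (f := B0) (mem_range.2 (by omega))).trans (le_max_left _ _))).trans hz1) hz3
      (fun l hl m hm => ⟨hFz i l hl (e m) (e1 m hm), by
        have h5 := hFX i l hl (e m) (e1 m hm)
        have h6 : ((F i l (e m) + 2 * N : ℕ) : ℝ) ≤ Xs := by exact_mod_cast h5
        rw [← Nat.cast_add]
        refine h6.trans (hXs14.trans ?_)
        apply mul_le_mul_of_nonneg_right _ (by positivity)
        apply mul_le_mul_of_nonneg_right _ hN0.le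
        push_cast
        exact le_max_right _ _⟩)
    have key2 := h5c N b6 r hr (x i) (s i) I (fun n => 2 * g i n) (fun n => 2 * N + Nat.nth Nat.Prime (n - 1) + 2 * h i n) hIc hEr
      (fun n hn n' hn' hne h5 => by
        apply hg i n hn n' hn' hne
        linarith)
    have hsub : Icc 1 (x i) \ 𝒢 i ⊆ ((Icc 1 (x i)).filter (fun l => (N : ℝ) ≤ L ^ max B 14 * ((2 * N : ℕ) : ℝ) ∧
        ¬ Cor (fun m => F i l (e m)) (2 * N) I.card z (1 / L ^ E))) ∪
        ((Icc 1 (x i)).filter (fun l => ∃ n ∈ I, ∃ n' ∈ I, n ≠ n' ∧ s i l * (2 * g i n) + (2 * N + Nat.nth Nat.Prime (n - 1) + 2 * h i n) =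
      s i l * (2 * g i n') + (2 * N + Nat.nth Nat.Prime (n' - 1) + 2 * h i n'))) ∪
        ((Icc 1 (x i)).filter (fun l => ∃ n ∈ I, ∃ n' ∈ I, n ≠ n' ∧ (s i l * (u i n - u i n') + (v i n - v i n') ≠ 0 ∧
      |((s i l * (u i n - u i n') + (v i n - v i n') : ℤ) : ℝ)| ≤ (N : ℝ) ^ 2 ∧
      L ^ (-κ) < ∑ p ∈ (s i l * (u i n - u i n') + (v i n - v i n')).natAbs.primeFactors.filter (fun p => w0 < p), 1 / (p : ℝ)))) := by
      intro l hl
      rw [mem_sdiff, h𝒢] at hl
      simp only [mem_filter, not_and] at hl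
      rw [mem_union, mem_union, mem_filter, mem_filter, mem_filter]
      by_cases h5 : Cor (fun m => F i l (e m)) (2 * N) I.card z (1 / L ^ E)
      · by_cases h6 : ∃ n ∈ I, ∃ n' ∈ I, n ≠ n' ∧ s i l * (2 * g i n) + (2 * N + Nat.nth Nat.Prime (n - 1) + 2 * h i n) =
            s i l * (2 * g i n') + (2 * N + Nat.nth Nat.Prime (n' - 1) + 2 * h i n')
        · exact Or.inl (Or.inr ⟨hl.1, h6⟩)
        · right
          refine ⟨hl.1, ?_⟩
          by_contra h7
          exact hl.2 hl.1 h5 h6 h7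
      · left
        left
        refine ⟨hl.1, ?_, h5⟩
        have h5 : 1 ≤ L ^ max B 14 := one_le_pow₀ hL1
        push_cast
        exact nlH _ _ h5 hN0.le
    have h6 : ((Icc 1 (x i) \ 𝒢 i).card : ℝ) ≤ x i / L ^ (A + 1) + x i / L ^ (A + 1) + x i / L ^ (A + 1) := by
      have h7 := (card_le_card hsub).trans ((card_union_le _ _).trans (Nat.add_le_add_right (card_union_le _ _) _))
      refine le_trans (by exact_mod_cast h7) (add_le_add (add_le_add key key2) key3)
    refine h6.trans ?_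
    have e5 : (x i : ℝ) / L ^ (A + 1) = (x i / L ^ A) * (1 / L) := by rw [pow_succ]; field_simp
    rw [e5]
    have h7 : 1 / L ≤ 1 / 3 := one_div_le_one_div_of_le (by norm_num) (by linarith)
    have h9 : 0 ≤ (x i : ℝ) / L ^ A := by positivity
    exact nlI _ _ h7 h9
  · intro l hl 𝒩 h𝒩
    have hlI : ∀ i, l i ∈ Icc 1 (x i) := fun i => (mem_filter.1 (hl i)).1
    have hlog2N : L ≤ Real.log ((2 * N : ℕ) : ℝ) := Real.log_le_log hN0 (by push_cast; linarith)
    refine ⟨fun hMC w hw1 hw2 => ?_, by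
      -- the converse
      have hkE : L ^ k ≤ L ^ E := hIk.trans hIc
      have hLLk : L ≤ L ^ k := by
        calc L = L ^ 1 := (pow_one _).symm
          _ ≤ L ^ k := pow_le_pow_right₀ hL1 hk
      have hI2 : 2 ≤ I.card := by
        have : (2 : ℝ) ≤ I.card := by linarith
        exact_mod_cast this
      have hone : ∀ i, ∀ n ∈ I, (((Ioc N (2 * N)).filter (fun c : ℕ => (pv n (s i (l i) * g i n + h i n + c)).Prime)).card : ℝ) ≤ 4 * N / L := by
        intro i n hn
        have h5 : Cor (fun m => F i (l i) (e m)) (2 * N) I.card z (1 / L ^ E) := (mem_filter.1 (hl i)).2.1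
        have hz1' : 1 ≤ z := by
          have : (1 : ℝ) ≤ z := (one_le_pow₀ hL1).trans hz1
          exact_mod_cast this
        -- the place of n
        have h6 : ((Icc 1 I.card).filter (fun m' => e m' = n)).card = (I.filter (fun m => m = n)).card := by
          convert e3 (fun m => m = n)
        have h7 : 0 < (I.filter (fun m => m = n)).card := card_pos.2 ⟨n, mem_filter.2 ⟨hn, rfl⟩⟩
        rw [← h6] at h7
        obtain ⟨m, hm⟩ := card_pos.1 h7
        rw [mem_filter] at hm
        have h8 := h7c (2 * N) (by omega) (fun m => F i (l i) (e m)) I.card z 1 (1 / L ^ E) Xs h5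
          (one_div_le_one_div_of_le (by norm_num) (by linarith)) hI2 le_rfl hz1' (hz3.trans (pow_le_pow_left₀ hL0.le hlog2N _))
          (by linarith) m hm.1 (by
            have := hFX i (l i) (hlI i) (e m) (e1 m hm.1)
            exact_mod_cast this)
        have h9 := h8.1
        simp only [hm.2] at h9
        have hFN : N ≤ F i (l i) n := by
          rw [hF]
          simp only
          omega
        have h10 := cnt_one (F i (l i) n) N (by omega) hFN (by
          refine h9.trans ?_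
          push_cast
          linarith)
        rw [← hLd] at h10
        rw [le_div_iff₀ hL0]
        refine le_trans (le_of_eq ?_) h10
        congr 3
        apply filter_congr
        intro c hc
        have h11 := mem_Ioc.1 hc
        have h12 := (hsg i (l i) (hlI i) n hn).1
        have h13 : ((F i (l i) n + 2 * (c - N) : ℕ) : ℤ) = ((Nat.nth Nat.Prime (n - 1) : ℕ) : ℤ) +
            2 * (s i (l i) * g i n + h i n + c) := by
          rw [hF]
          push_cast [Nat.cast_sub h11.1.le]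
          rw [Int.toNat_of_nonneg h12]
          ring
        unfold pv
        rw [← h13, Int.toNat_natCast]
      have hsub : (Fintype.piFinset (fun _ : Fin k => Ioc N (2 * N))).filter (fun b => ∃ n ∈ 𝒩, ∀ i,
          (pv n (s i (l i) * g i n + h i n + b i)).Prime) ⊆ 𝒩.biUnion (fun n => Fintype.piFinset (fun i =>
            (Ioc N (2 * N)).filter (fun c : ℕ => (pv n (s i (l i) * g i n + h i n + c)).Prime))) := by
        intro b hb
        rw [mem_filter, Fintype.mem_piFinset] at hb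
        obtain ⟨hb1, n, hn, hb2⟩ := hb
        rw [mem_biUnion]
        refine ⟨n, hn, ?_⟩
        rw [Fintype.mem_piFinset]
        intro i
        rw [mem_filter]
        exact ⟨hb1 i, hb2 i⟩
      calc _ ≤ ((𝒩.biUnion (fun n => Fintype.piFinset (fun i =>
            (Ioc N (2 * N)).filter (fun c : ℕ => (pv n (s i (l i) * g i n + h i n + c)).Prime)))).card : ℝ) := by
            exact_mod_cast card_le_card hsub
        _ ≤ ∑ n ∈ 𝒩, ((Fintype.piFinset (fun i : Fin k =>
            (Ioc N (2 * N)).filter (fun c : ℕ => (pv n (s i (l i) * g i n + h i n + c)).Prime))).card : ℝ) := by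
            exact_mod_cast card_biUnion_le
        _ ≤ ∑ _n ∈ 𝒩, (4 * N / L) ^ k := by
            apply sum_le_sum
            intro n hn
            rw [Fintype.card_piFinset]
            push_cast
            calc ∏ i, (((Ioc N (2 * N)).filter (fun c : ℕ => (pv n (s i (l i) * g i n + h i n + c)).Prime)).card : ℝ) ≤
                  ∏ _i : Fin k, (4 * N / L) := by
                  apply prod_le_prod
                  · intro i _
                    exact Nat.cast_nonneg _
                  · intro i _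
                    exact hone i n (h𝒩 hn)
              _ = _ := by rw [prod_const, card_univ, Fintype.card_fin]
        _ = _ := by
            rw [sum_const, nsmul_eq_mul, div_pow, mul_pow]
            ring⟩
    obtain ⟨f, f1, f2, f3⟩ := enum 𝒩
    set M := 𝒩.card with hMd
    have hLkM : L ^ k ≤ M := le_trans (by
      calc L ^ k = 1 * L ^ k := (one_mul _).symm
        _ ≤ max K 1 * L ^ k := mul_le_mul_of_nonneg_right (le_max_right _ _) (by positivity)) hMC
    have hM1r : (1 : ℝ) ≤ M := (one_le_pow₀ hL1).trans hLkM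
    have hM1 : 1 ≤ M := by exact_mod_cast hM1r
    have hM0r : (0 : ℝ) < M := by linarith
    have hMI : M ≤ I.card := card_le_card h𝒩
    have hME : (M : ℝ) ≤ L ^ E := le_trans (by exact_mod_cast hMI) hIc
    -- the place of the elements of `𝒩` in the enumeration of `I`
    have hex : ∀ m, ∃ m', m ∈ Icc 1 M → m' ∈ Icc 1 I.card ∧ e m' = f m := by
      intro m
      by_cases hm : m ∈ Icc 1 M
      · have h5 : f m ∈ I := h𝒩 (f1 m hm)
        have h6 : ((Icc 1 I.card).filter (fun m' => e m' = f m)).card = (I.filter (fun n => n = f m)).card := by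
          convert e3 (fun n => n = f m)
        have h7 : 0 < (I.filter (fun n => n = f m)).card := card_pos.2 ⟨f m, mem_filter.2 ⟨h5, rfl⟩⟩
        rw [← h6] at h7
        obtain ⟨m', hm'⟩ := card_pos.1 h7
        rw [mem_filter] at hm'
        exact ⟨m', fun _ => hm'⟩
      · exact ⟨0, fun h5 => absurd h5 hm⟩
    choose c hc using hex
    have hcinj : ∀ m ∈ Icc 1 M, ∀ m' ∈ Icc 1 M, m ≠ m' → c m ≠ c m' := by
      intro m hm m' hm' hne h5
      apply f2 m hm m' hm' hne
      rw [← (hc m hm).2, ← (hc m' hm').2, h5]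
    have hXlog : Real.log (Xs : ℝ) ≤ L + Real.log (L ^ (E + 2)) := by
      rw [hLd, ← Real.log_mul hN0.ne' (by positivity), ← hLd]
      apply Real.log_le_log hXs0
      refine hXs14.trans ?_
      rw [pow_add]
      have h6 : 0 ≤ (N : ℝ) * L ^ E := by positivity
      exact nlJ _ _ _ h6 (by linarith)
    have hLE2 : L ^ (E + 2) ≤ √(N : ℝ) := by
      have h5 : L ^ (E + 2) ≤ L ^ (3 * E + 4) := pow_le_pow_right₀ hL1 (by omega)
      have h6 : 0 ≤ L ^ (3 * E + 4) := by positivity
      linarith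
    have hXlog2 : Real.log (Xs : ℝ) ≤ 2 * L := by
      have h5 : Real.log (L ^ (E + 2)) ≤ L := by
        rw [hLd]
        apply Real.log_le_log (by positivity)
        exact hLE2.trans (sqrt_le_self' _ (by linarith))
      linarith
    have hXlog0 : 0 ≤ Real.log (Xs : ℝ) := Real.log_natCast_nonneg _
    have hLX : L ≤ Real.log (Xs : ℝ) := Real.log_le_log hN0 hXsN
    -- w is large
    have hwpos : 1 ≤ w := by
      by_contra h
      have hw0 : w = 0 := by omega
      rw [hw0, zero_add, one_pow] at hw2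
      omega
    have hwleM : w ≤ M := le_trans (by
      calc w = w ^ 1 := (pow_one w).symm
        _ ≤ w ^ Q := Nat.pow_le_pow_right hwpos hQ) hw1
    have hww0 : w0 ≤ w := by
      by_contra hcon
      have g1 : (w : ℝ) + 1 ≤ w0 := by exact_mod_cast not_le.1 hcon
      have g2 : (w : ℝ) + 1 ≤ L ^ c1 * L ^ c1 := nlK _ _ _ g1 hw02 a8
      have g3 : ((w : ℝ) + 1) ^ Q ≤ L := by
        calc ((w : ℝ) + 1) ^ Q ≤ (L ^ c1 * L ^ c1) ^ Q := pow_le_pow_left₀ (by positivity) g2 _
          _ = L := by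
              rw [← Real.rpow_add hL0, ← Real.rpow_natCast, ← Real.rpow_mul hL0.le]
              have e9 : (c1 + c1) * (Q : ℝ) = 1 := by
                rw [hc1]
                field_simp
                norm_num
              rw [e9, Real.rpow_one]
      have g4 : (M : ℝ) < ((w : ℝ) + 1) ^ Q := by exact_mod_cast hw2
      have g5 : L ≤ L ^ k := by
        calc L = L ^ 1 := (pow_one _).symm
          _ ≤ L ^ k := pow_le_pow_right₀ hL1 hk
      linarith
    have hww0r : (w0 : ℝ) ≤ w := by exact_mod_cast hww0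
    have h2Lκ : Real.log (Xs : ℝ) ^ (κ / 2) ≤ L ^ κ := by
      calc Real.log (Xs : ℝ) ^ (κ / 2) ≤ (2 * L) ^ (κ / 2) := Real.rpow_le_rpow hXlog0 hXlog2 (by positivity)
        _ ≤ (L * L) ^ (κ / 2) := Real.rpow_le_rpow (by positivity) (nlO L (by linarith)) (by positivity)
        _ = L ^ κ := by
            rw [Real.mul_rpow hL0.le hL0.le, ← Real.rpow_add hL0]
            congr 1
            ring
    have hlogXs0 : 0 < Real.log (Xs : ℝ) := by linarith
    have key := h1 M w (Xs : ℝ) (fun _ => 2 * N) (fun i m => F i (l i) (f m)) (fun _ => z) (fun _ => (N : ℝ)) (fun _ => Xs) hM1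
      (fun _ => by omega) hwleM (h2Lκ.trans ((Real.rpow_le_rpow_of_exponent_le hL1 hκc).trans (hw01.trans hww0r)))
      (fun _ => by
        refine hME.trans ?_
        calc L ^ E ≤ L ^ (E + 1) := pow_le_pow_right₀ hL1 (by omega)
          _ ≤ _ := pow_le_pow_left₀ hL0.le hlog2N _)
      (fun _ => ⟨by
        have h5 : (M : ℝ) ≤ z := hME.trans ((pow_le_pow_right₀ hL1 (le_trans (by omega) (le_max_right _ _))).trans hz1)
        exact_mod_cast h5, hz3.trans (pow_le_pow_left₀ hL0.le hlog2N _)⟩)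
      (fun i => by
        have h5 : Cor (fun m => F i (l i) (e m)) (2 * N) I.card z (1 / L ^ E) := (mem_filter.1 (hl i)).2.1
        have h6 := h5.comp hMI c (fun m hm => (hc m hm).1) hcinj
        have h7 : Cor (fun m => F i (l i) (f m)) (2 * N) M z (1 / L ^ E) := by
          intro n hn n' hn' hne
          have h8 := h6 n hn n' hn' hne
          simp only [(hc n hn).2, (hc n' hn').2] at h8
          exact h8
        exact h7.mono' (one_div_le_one_div_of_le hM0r hME))
      (fun i m hm => hFX i (l i) (hlI i) (f m) (h𝒩 (f1 m hm)))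
      (fun _ => le_rfl)
      (fun i m hm m' hm' hne => by
        have h6 := hFz i (l i) (hlI i) (f m) (h𝒩 (f1 m hm))
        have h7 := hFz i (l i) (hlI i) (f m') (h𝒩 (f1 m' hm'))
        have h8 := (mem_filter.1 (hl i)).2.2
        have h9 : F i (l i) (f m) ≠ F i (l i) (f m') := by
          intro h5
          apply h8.1
          refine ⟨f m, h𝒩 (f1 m hm), f m', h𝒩 (f1 m' hm'), f2 m hm m' hm' hne, ?_⟩
          rw [← h6, ← h7]
          exact_mod_cast h5
        refine ⟨h9, ?_⟩
        have hD : ((F i (l i) (f m) : ℤ) - F i (l i) (f m')) = s i (l i) * (u i (f m) - u i (f m')) + (v i (f m) - v i (f m')) := by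
          rw [h6, h7, hu, hv]
          ring
        have hD0 : ((F i (l i) (f m) : ℤ) - F i (l i) (f m')) ≠ 0 := by
          intro h5
          apply h9
          omega
        have hDN : |(((F i (l i) (f m) : ℤ) - F i (l i) (f m') : ℤ) : ℝ)| ≤ (N : ℝ) ^ 2 := by
          have q1 : ((F i (l i) (f m) : ℕ) : ℝ) ≤ Xs := by
            have := hFX i (l i) (hlI i) (f m) (h𝒩 (f1 m hm))
            exact_mod_cast (by omega : F i (l i) (f m) ≤ Xs)
          have q2 : ((F i (l i) (f m') : ℕ) : ℝ) ≤ Xs := by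
            have := hFX i (l i) (hlI i) (f m') (h𝒩 (f1 m' hm'))
            exact_mod_cast (by omega : F i (l i) (f m') ≤ Xs)
          have q3 : (0 : ℝ) ≤ F i (l i) (f m) := Nat.cast_nonneg _
          have q4 : (0 : ℝ) ≤ F i (l i) (f m') := Nat.cast_nonneg _
          have q5 : (Xs : ℝ) ≤ (N : ℝ) ^ 2 := by
            refine hXs14.trans ?_
            have q6 : 14 * L ^ E ≤ √(N : ℝ) := by
              have q7 : L ^ E ≤ L ^ (3 * E + 4) := pow_le_pow_right₀ hL1 (by omega)
              have q8 : 0 ≤ L ^ (3 * E + 4) := by positivity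
              linarith
            exact nlL _ _ _ q6 (sqrt_le_self' _ (by linarith)) hN0.le
          push_cast
          rw [abs_le]
          constructor <;> linarith
        by_contra hcon
        rw [not_le] at hcon
        apply h8.2
        refine ⟨f m, h𝒩 (f1 m hm), f m', h𝒩 (f1 m' hm'), f2 m hm m' hm' hne, ?_⟩
        rw [← hD]
        refine ⟨hD0, hDN, ?_⟩
        have q9 : L ^ (-κ) ≤ Real.log (Xs : ℝ) ^ (-(κ / 2)) := by
          rw [Real.rpow_neg hL0.le, Real.rpow_neg hXlog0]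
          exact inv_anti₀ (by positivity) h2Lκ
        refine lt_of_le_of_lt q9 (lt_of_lt_of_le hcon ?_)
        apply sum_le_sum_of_subset_of_nonneg
        · intro p hp
          rw [mem_filter] at hp ⊢
          exact ⟨hp.1, by omega⟩
        · intro _ _ _
          positivity)
      (fun _ => by linarith)
      (fun i m _ => by
        rw [hF]
        push_cast
        have h5 : (0 : ℝ) ≤ Nat.nth Nat.Prime (f m - 1) := Nat.cast_nonneg _
        have h6 : (0 : ℝ) ≤ ((s i (l i) * g i (f m) + h i (f m)).toNat : ℝ) := Nat.cast_nonneg _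
        linarith)
      (fun _ => by
        have h5 : Real.log (L ^ (E + 2)) ≤ η * L := by
          rw [hLd, ← Real.log_rpow hN0, ← hLd]
          exact Real.log_le_log (by positivity) a4
        linarith)
      (fun _ => by
        have f1 : √(Xs : ℝ) ≤ √(N : ℝ) * (14 * L ^ E) := by
          have f2 : (Xs : ℝ) ≤ N * (14 * L ^ E) ^ 2 := by
            refine hXs14.trans ?_
            have f3 : 14 * L ^ E ≤ (14 * L ^ E) ^ 2 := nlM _ hLE1
            calc 14 * (N : ℝ) * L ^ E = N * (14 * L ^ E) := by ring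
              _ ≤ _ := mul_le_mul_of_nonneg_left f3 hN0.le
          calc √(Xs : ℝ) ≤ √(N * (14 * L ^ E) ^ 2) := Real.sqrt_le_sqrt f2
            _ = √(N : ℝ) * (14 * L ^ E) := by
                rw [Real.sqrt_mul hN0.le, Real.sqrt_sq (by positivity)]
        have f2 : (M : ℝ) ^ 2 ≤ (L ^ E) ^ 2 := pow_le_pow_left₀ hM0r.le hME 2
        calc (M : ℝ) ^ 2 * (4 * (√(Xs : ℝ) * Real.log Xs)) ≤ (L ^ E) ^ 2 * (4 * ((√(N : ℝ) * (14 * L ^ E)) * (2 * L))) := by
              apply mul_le_mul f2 _ (by positivity) (by positivity)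
              apply mul_le_mul_of_nonneg_left _ (by norm_num)
              exact mul_le_mul f1 hXlog2 hXlog0 (by positivity)
          _ = (112 * L ^ (3 * E + 1)) * √(N : ℝ) := by
              rw [pow_add, pow_one, mul_comm 3 E, pow_mul]
              ring
          _ ≤ √(N : ℝ) * √(N : ℝ) := by
              apply mul_le_mul_of_nonneg_right _ hsq0.le
              refine le_trans ?_ a3
              have f3 : L ^ (3 * E + 4) = L ^ (3 * E + 1) * L ^ 3 := by rw [← pow_add]
              have f4 : 2 ≤ L ^ 3 := by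
                calc (2 : ℝ) ≤ L := by linarith
                  _ = L ^ 1 := (pow_one _).symm
                  _ ≤ L ^ 3 := pow_le_pow_right₀ hL1 (by norm_num)
              rw [f3]
              have f5 : 0 ≤ L ^ (3 * E + 1) := by positivity
              exact nlN _ _ f5 f4
          _ = N := hsqN
          _ ≤ ((2 * N : ℕ) : ℝ) := by push_cast; linarith)
      (by
        rw [prod_const, card_univ, Fintype.card_fin]
        refine le_trans ?_ hMC
        exact mul_le_mul_of_nonneg_right (le_max_left _ _) (by positivity))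
    -- the shifts
    have hpv : ∀ b : Fin k → ℕ, (∀ i, N < b i) → ∀ m ∈ Icc 1 M, ∀ i, F i (l i) (f m) + 2 * (b i - N) =
        pv (f m) (s i (l i) * g i (f m) + h i (f m) + b i) := by
      intro b hb m hm i
      have h5 := (hsg i (l i) (hlI i) (f m) (h𝒩 (f1 m hm))).1
      have h6 := hb i
      have h7 : ((F i (l i) (f m) + 2 * (b i - N) : ℕ) : ℤ) = ((Nat.nth Nat.Prime (f m - 1) : ℕ) : ℤ) +
          2 * (s i (l i) * g i (f m) + h i (f m) + b i) := by
        rw [hF]
        push_cast [Nat.cast_sub h6.le]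
        rw [Int.toNat_of_nonneg h5]
        ring
      unfold pv
      rw [← h7, Int.toNat_natCast]
    have hcard : (((Fintype.piFinset (fun _ : Fin k => Ioc N (2 * N))).filter (fun b => ¬
          |((𝒩.filter (fun n => ∀ i, (pv n (s i (l i) * g i n + h i n + b i)).Prime)).card : ℝ) * L ^ k -
            (Vz w)⁻¹ ^ k * (𝒩.filter (fun n => ∀ p ∈ pz w, ∀ i, ¬ p ∣ pv n (s i (l i) * g i n + h i n + b i))).card| ≤
            ε * ((Vz w)⁻¹ ^ k * (𝒩.filter (fun n => ∀ p ∈ pz w, ∀ i, ¬ p ∣ pv n (s i (l i) * g i n + h i n + b i))).card) +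
              ε * M)).card : ℝ) ≤ (((Fintype.piFinset (fun _ : Fin k => Icc 1 (2 * N))).filter (fun b => ¬
          |cnt (fun i m => F i (l i) (f m)) b M * ∏ _i : Fin k, Real.log (N : ℝ) - Sf (fun i m => F i (l i) (f m)) b M w| ≤
            ε' * Sf (fun i m => F i (l i) (f m)) b M w + ε' * M)).card : ℝ) := by
      have h5 := card_le_card_of_injOn (s := (Fintype.piFinset (fun _ : Fin k => Ioc N (2 * N))).filter (fun b => ¬
          |((𝒩.filter (fun n => ∀ i, (pv n (s i (l i) * g i n + h i n + b i)).Prime)).card : ℝ) * L ^ k -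
            (Vz w)⁻¹ ^ k * (𝒩.filter (fun n => ∀ p ∈ pz w, ∀ i, ¬ p ∣ pv n (s i (l i) * g i n + h i n + b i))).card| ≤
            ε * ((Vz w)⁻¹ ^ k * (𝒩.filter (fun n => ∀ p ∈ pz w, ∀ i, ¬ p ∣ pv n (s i (l i) * g i n + h i n + b i))).card) +
              ε * M))
        (t := (Fintype.piFinset (fun _ : Fin k => Icc 1 (2 * N))).filter (fun b => ¬
          |cnt (fun i m => F i (l i) (f m)) b M * ∏ _i : Fin k, Real.log (N : ℝ) - Sf (fun i m => F i (l i) (f m)) b M w| ≤
            ε' * Sf (fun i m => F i (l i) (f m)) b M w + ε' * M))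
        (fun b i => 2 * (b i - N)) (by
          intro b hb
          rw [mem_coe, mem_filter, Fintype.mem_piFinset] at hb
          rw [mem_coe, mem_filter, Fintype.mem_piFinset]
          have hb1 : ∀ i, N < b i := fun i => (mem_Ioc.1 (hb.1 i)).1
          refine ⟨fun i => ?_, fun h5 => hb.2 ?_⟩
          · have := mem_Ioc.1 (hb.1 i)
            change 2 * (b i - N) ∈ Icc 1 (2 * N)
            rw [mem_Icc]
            omega
          · have c1 : cnt (fun i m => F i (l i) (f m)) (fun i => 2 * (b i - N)) M =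
                (𝒩.filter (fun n => ∀ i, (pv n (s i (l i) * g i n + h i n + b i)).Prime)).card := by
              calc cnt (fun i m => F i (l i) (f m)) (fun i => 2 * (b i - N)) M =
                    ((Icc 1 M).filter (fun m => ∀ i, (pv (f m) (s i (l i) * g i (f m) + h i (f m) + b i)).Prime)).card := by
                    unfold cnt
                    congr 1
                    ext m
                    simp only [mem_filter]
                    constructor
                    · rintro ⟨hm, h6⟩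
                      exact ⟨hm, fun i => by rw [← hpv b hb1 m hm i]; exact h6 i⟩
                    · rintro ⟨hm, h6⟩
                      exact ⟨hm, fun i => by rw [hpv b hb1 m hm i]; exact h6 i⟩
                _ = _ := by convert f3 (fun n => ∀ i, (pv n (s i (l i) * g i n + h i n + b i)).Prime)
            have c2 : Sf (fun i m => F i (l i) (f m)) (fun i => 2 * (b i - N)) M w = (Vz w)⁻¹ ^ k *
                (𝒩.filter (fun n => ∀ p ∈ pz w, ∀ i, ¬ p ∣ pv n (s i (l i) * g i n + h i n + b i))).card := by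
              have c3 : ((Icc 1 M).filter (fun m => ∀ p ∈ pz w, ∀ i, ¬ p ∣ F i (l i) (f m) + 2 * (b i - N))).card =
                  (𝒩.filter (fun n => ∀ p ∈ pz w, ∀ i, ¬ p ∣ pv n (s i (l i) * g i n + h i n + b i))).card := by
                calc ((Icc 1 M).filter (fun m => ∀ p ∈ pz w, ∀ i, ¬ p ∣ F i (l i) (f m) + 2 * (b i - N))).card =
                      ((Icc 1 M).filter (fun m => ∀ p ∈ pz w, ∀ i, ¬ p ∣ pv (f m) (s i (l i) * g i (f m) + h i (f m) + b i))).card := by
                      congr 1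
                      ext m
                      simp only [mem_filter]
                      constructor
                      · rintro ⟨hm, h6⟩
                        exact ⟨hm, fun p hp i => by rw [← hpv b hb1 m hm i]; exact h6 p hp i⟩
                      · rintro ⟨hm, h6⟩
                        exact ⟨hm, fun p hp i => by rw [hpv b hb1 m hm i]; exact h6 p hp i⟩
                  _ = _ := by convert f3 (fun n => ∀ p ∈ pz w, ∀ i, ¬ p ∣ pv n (s i (l i) * g i n + h i n + b i))
              unfold Sf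
              rw [← c3]
            rw [c1, c2, prod_const, card_univ, Fintype.card_fin, ← hLd] at h5
            refine h5.trans ?_
            apply add_le_add
            · apply mul_le_mul_of_nonneg_right hε'1
              have := Vz_pos w
              positivity
            · exact mul_le_mul_of_nonneg_right hε'1 hM0r.le)
        (by
          intro b hb b' hb' hbb
          rw [mem_coe, mem_filter, Fintype.mem_piFinset] at hb hb'
          funext i
          have h6 := congrFun hbb i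
          simp only at h6
          have h7 := mem_Ioc.1 (hb.1 i)
          have h8 := mem_Ioc.1 (hb'.1 i)
          omega)
      exact_mod_cast h5
    refine hcard.trans (key.trans ?_)
    -- the final bound
    calc ε' * ∏ _i : Fin k, ((2 * N : ℕ) : ℝ) = ε * (N : ℝ) ^ k := by
          rw [prod_const, card_univ, Fintype.card_fin, hε']
          push_cast
          rw [mul_pow]
          field_simp
      _ ≤ _ := le_rfl

end Pool.Agent.K7.H49.LT
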