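import Mathlib
import Pool.Agent.K7.H49.LT.Comp
import Pool.Agent.K7.H49.LT.Primes

set_option autoImplicit false

/-! Prime values of `a_i g_i(m) + b_i` for polynomials `g_i`. -/

namespace Pool.Agent.K7.H49.LT
open Finset Pool.Agent.H373R2.T7

lemma eval_lt (g : Polynomial ℕ) (hg : 1 ≤ g.natDegree) (m n : ℕ) (h : m < n) : g.eval m < g.eval n := by
  rw [Polynomial.eval_eq_sum_range, Polynomial.eval_eq_sum_range]
  apply sum_lt_sum
  · intro i _
    exact Nat.mul_le_mul_left _ (Nat.pow_le_pow_left h.le _)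
  · refine ⟨g.natDegree, mem_range.2 (Nat.lt_succ_self _), ?_⟩
    apply Nat.mul_lt_mul_of_pos_left (Nat.pow_lt_pow_left h (by omega))
    have h0 : g ≠ 0 := by
      rintro rfl
      simp at hg
    have := Polynomial.leadingCoeff_ne_zero.2 h0
    exact Nat.pos_of_ne_zero this

lemma eval_pos' (g : Polynomial ℕ) (hg : 1 ≤ g.natDegree) (m : ℕ) (h : 1 ≤ m) : 1 ≤ g.eval m := by
  have := eval_lt g hg 0 m (by omega)
  omega

lemma eval_mod (g : Polynomial ℕ) (p n : ℕ) : (p : ℤ) ∣ ((g.eval n : ℕ) : ℤ) - ((g.eval (n % p) : ℕ) : ℤ) := by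
  have h := Polynomial.sub_dvd_eval_sub (n : ℤ) ((n % p : ℕ) : ℤ) (g.map (Nat.castRingHom ℤ))
  have e : ∀ x : ℕ, (g.map (Nat.castRingHom ℤ)).eval (x : ℤ) = ((g.eval x : ℕ) : ℤ) := by
    intro x
    rw [Polynomial.eval_map]
    have := Polynomial.eval₂_at_natCast (p := g) (Nat.castRingHom ℤ) x
    rw [this]
    simp
  rw [e, e] at h
  refine dvd_trans ?_ h
  have h5 : (n : ℤ) = ((n % p : ℕ) : ℤ) + p * ((n / p : ℕ) : ℤ) := by
    have := Nat.mod_add_div n p
    exact_mod_cast this.symm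
  refine ⟨((n / p : ℕ) : ℤ), ?_⟩
  linarith

lemma roots_one (p a b D : ℕ) (hp : p.Prime) (g : Polynomial ℕ) (hg : g.natDegree ≤ D)
    (h : ((range p).filter (fun r => p ∣ a * g.eval r + b)).card + 1 ≤ p) :
    ((range p).filter (fun r => p ∣ a * g.eval r + b)).card ≤ D := by
  have : Fact p.Prime := ⟨hp⟩
  set P : Polynomial (ZMod p) := Polynomial.C (a : ZMod p) * g.map (Nat.castRingHom (ZMod p)) + Polynomial.C (b : ZMod p) with hP
  have e : ∀ r : ℕ, P.eval (r : ZMod p) = ((a * g.eval r + b : ℕ) : ZMod p) := by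
    intro r
    rw [hP]
    simp only [Polynomial.eval_add, Polynomial.eval_mul, Polynomial.eval_C, Polynomial.eval_map]
    have := Polynomial.eval₂_at_natCast (p := g) (Nat.castRingHom (ZMod p)) r
    rw [this]
    push_cast
    rfl
  have hP0 : P ≠ 0 := by
    intro h0
    have h1 : (range p).filter (fun r => p ∣ a * g.eval r + b) = range p := by
      apply filter_true_of_mem
      intro r _
      rw [← ZMod.natCast_eq_zero_iff, ← e, h0, Polynomial.eval_zero]
    rw [h1, card_range] at h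
    omega
  have hdeg : P.natDegree ≤ D := by
    rw [hP]
    refine (Polynomial.natDegree_add_C).le.trans ?_
    refine (Polynomial.natDegree_C_mul_le _ _).trans ?_
    exact Polynomial.natDegree_map_le.trans hg
  calc ((range p).filter (fun r => p ∣ a * g.eval r + b)).card ≤ P.roots.toFinset.card := by
        apply card_le_card_of_injOn (fun r : ℕ => (r : ZMod p))
        · intro r hr
          rw [mem_coe, mem_filter] at hr
          rw [mem_coe, Multiset.mem_toFinset, Polynomial.mem_roots hP0, Polynomial.IsRoot.def, e, ZMod.natCast_eq_zero_iff]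
          exact hr.2
        · intro r hr r' hr' hrr
          rw [mem_coe, mem_filter, mem_range] at hr hr'
          simp only at hrr
          rw [ZMod.natCast_eq_natCast_iff'] at hrr
          rwa [Nat.mod_eq_of_lt hr.1, Nat.mod_eq_of_lt hr'.1] at hrr
    _ ≤ Multiset.card P.roots := Multiset.toFinset_card_le _
    _ ≤ P.natDegree := Polynomial.card_roots' P
    _ ≤ D := hdeg

lemma nu_poly {k : ℕ} (p D : ℕ) (hp : p.Prime) (a b : Fin k → ℕ) (g : Fin k → Polynomial ℕ) (hg : ∀ i, (g i).natDegree ≤ D)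
    (h : nu (fun i n => a i * (g i).eval n) b p + 1 ≤ p) : nu (fun i n => a i * (g i).eval n) b p ≤ k * D := by
  unfold nu at h ⊢
  simp only at h ⊢
  have hsub : ∀ i, (range p).filter (fun r => p ∣ a i * (g i).eval r + b i) ⊆ (range p).filter (fun r => ∃ i, p ∣ a i * (g i).eval r + b i) := by
    intro i r hr
    rw [mem_filter] at hr ⊢
    exact ⟨hr.1, i, hr.2⟩
  have h1 : (range p).filter (fun r => ∃ i, p ∣ a i * (g i).eval r + b i) ⊆
      univ.biUnion (fun i => (range p).filter (fun r => p ∣ a i * (g i).eval r + b i)) := by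
    intro r hr
    rw [mem_filter] at hr
    obtain ⟨hr1, i, hi⟩ := hr
    rw [mem_biUnion]
    exact ⟨i, mem_univ _, mem_filter.2 ⟨hr1, hi⟩⟩
  refine (card_le_card h1).trans (card_biUnion_le.trans ?_)
  calc ∑ i : Fin k, ((range p).filter (fun r => p ∣ a i * (g i).eval r + b i)).card ≤ ∑ _i : Fin k, D := by
        apply sum_le_sum
        intro i _
        have := card_le_card (hsub i)
        exact roots_one p (a i) (b i) D hp (g i) (hg i) (by omega)
    _ = k * D := by simp

lemma nu_full_zero {k : ℕ} (a b : Fin k → ℕ) (g : Fin k → Polynomial ℕ) (hg : ∀ i, 1 ≤ (g i).natDegree) (M p : ℕ) (hp : p.Prime) (hpa : ∀ i, p < a i)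
    (h : nu (fun i n => a i * (g i).eval n) b p = p) : cnt (fun i n => a i * (g i).eval n) b M = 0 := by
  unfold cnt
  rw [card_eq_zero, filter_eq_empty_iff]
  intro n hn hpr
  have h2 : n % p ∈ (range p).filter (fun n => ∃ i, p ∣ a i * (g i).eval n + b i) := by
    have h3 : (range p).filter (fun n => ∃ i, p ∣ a i * (g i).eval n + b i) = range p := by
      apply eq_of_subset_of_card_le (filter_subset _ _)
      unfold nu at h
      rw [h, card_range]
    rw [h3, mem_range]
    exact Nat.mod_lt _ hp.pos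
  rw [mem_filter] at h2
  obtain ⟨i, hi⟩ := h2.2
  have h4 : p ∣ a i * (g i).eval n + b i := by
    have h5 := eval_mod (g i) p n
    have h6 : (p : ℤ) ∣ ((a i * (g i).eval (n % p) + b i : ℕ) : ℤ) := by exact_mod_cast hi
    have h7 : (p : ℤ) ∣ ((a i * (g i).eval n + b i : ℕ) : ℤ) := by
      have e : ((a i * (g i).eval n + b i : ℕ) : ℤ) = ((a i * (g i).eval (n % p) + b i : ℕ) : ℤ) +
          a i * (((g i).eval n : ℕ) - (((g i).eval (n % p) : ℕ) : ℤ)) := by push_cast; ring
      rw [e]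
      exact dvd_add h6 (Dvd.dvd.mul_left h5 _)
    exact_mod_cast h7
  have h5 := (Nat.prime_dvd_prime_iff_eq hp (hpr i)).1 h4
  simp only at h5
  have h6 := eval_pos' (g i) (hg i) n (mem_Icc.1 hn).1
  have h7 : a i ≤ a i * (g i).eval n := Nat.le_mul_of_pos_right _ h6
  have := hpa i
  omega

lemma sg_full_zero {k : ℕ} (ν : ℕ → ℕ) (w p : ℕ) (hp : p.Prime) (hpw : p ≤ w) (h : ν p = p) : sg k ν w = 0 := by
  apply prod_eq_zero (i := p) (mem_pz.2 ⟨hpw, hp⟩)
  unfold fac
  rw [h]
  have : (p : ℝ) ≠ 0 := by exact_mod_cast hp.ne_zero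
  rw [div_self this]
  simp

set_option maxHeartbeats 1000000 in
open Classical in
theorem poly_main (k D : ℕ) (hk : 1 ≤ k) (hD : 1 ≤ D) (ε : ℝ) (hε : 0 < ε) : ∃ Q C : ℕ, ∃ κ : ℝ, 1 ≤ Q ∧ 0 < κ ∧ ∀ E E1 : ℕ, ∃ N0 : ℕ,
    ∀ a : Fin k → ℕ, (∀ i, N0 ≤ a i ∧ Gd E E1 (a i)) → ∀ g : Fin k → Polynomial ℕ,
    (∀ i, 1 ≤ (g i).natDegree ∧ (g i).natDegree ≤ D) → ∀ M w : ℕ,
    (∀ i, Real.log (a i) ^ C ≤ M ∧ (((g i).eval M : ℕ) : ℝ) ≤ Real.log (a i) ^ E) → w ^ Q ≤ M → M < (w + 1) ^ Q →
    (((Fintype.piFinset (fun i => Icc 1 (a i - 1))).filter (fun b => ¬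
      |cnt (fun i n => a i * (g i).eval n) b M * ∏ i, Real.log (a i) - M * sg k (nu (fun i n => a i * (g i).eval n) b) w| ≤
        ε * (M * sg k (nu (fun i n => a i * (g i).eval n) b) w))).card : ℝ) ≤
      (M : ℝ) ^ (-κ) * ∏ i, (a i : ℝ) := by
  obtain ⟨Q, C, η, hη, hQ, hG⟩ := primesG k (k * D) hk (Nat.mul_pos hk hD) ε hε
  have hQr : (1 : ℝ) ≤ Q := by exact_mod_cast hQ
  refine ⟨Q, max C Q + 1, 1 / (4 * Q), hQ, by positivity, fun E E1 => ?_⟩
  obtain ⟨n1, h1⟩ := hG (E + 1) (E1 + 1)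
  obtain ⟨n2, h2⟩ := setup k (max C Q) n1 E E1 hk η hη
  refine ⟨n2, fun a ha g hg M w hM hw1 hw2 => ?_⟩
  have i0 : Fin k := ⟨0, hk⟩
  obtain ⟨X, z, Xs, s1, s2, s3, s4, s5, s6, s7, s8, s9, s10, s11, s12, s13, s14, s15, s16, s17⟩ :=
    h2 a ha (fun i n => (g i).eval n) M (fun i => (hM i).1)
      (fun i m hm => ⟨eval_pos' _ (hg i).1 m (mem_Icc.1 hm).1, by
        refine le_trans ?_ (hM i).2
        have h3 : (g i).eval m ≤ (g i).eval M := by
          rcases (mem_Icc.1 hm).2.lt_or_eq with h5 | h5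
          · exact (eval_lt _ (hg i).1 m M h5).le
          · rw [h5]
        exact_mod_cast h3⟩)
      (fun i m hm m' hm' hne h => by
        rcases Nat.lt_or_gt_of_ne hne with h5 | h5
        · have := eval_lt _ (hg i).1 m m' h5
          omega
        · have := eval_lt _ (hg i).1 m' m h5
          omega)
  have hXl1 : 1 ≤ Real.log X := by linarith [s14 i0, s17 i0]
  have key := h1 M w X (fun i => a i - 1) (fun i n => a i * (g i).eval n) z (fun i => (a i : ℝ)) Xs s1 s2 hw1 hw2
    ((pow_le_pow_right₀ hXl1 (le_max_left _ _)).trans s3) s4 s5 s6 s7 s8 s9 (fun i p n => by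
      have h5 := eval_mod (g i) p n
      have e : (((a i * (g i).eval n : ℕ) : ℤ) - ((a i * (g i).eval (n % p) : ℕ) : ℤ)) =
          a i * ((((g i).eval n : ℕ) : ℤ) - (((g i).eval (n % p) : ℕ) : ℤ)) := by push_cast; ring
      rw [e]
      exact Dvd.dvd.mul_left h5 _) s10 s11 s12 s13
  -- w is large
  have hM1 := s1
  have hwpos : 1 ≤ w := by
    by_contra h
    have hw0 : w = 0 := by omega
    rw [hw0, zero_add, one_pow] at hw2
    omega
  have hlQ : Real.log (a i0) ≤ w + 1 := by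
    have h5 : Real.log (a i0) ^ Q ≤ ((w : ℝ) + 1) ^ Q := by
      calc Real.log (a i0) ^ Q ≤ Real.log (a i0) ^ (max C Q + 1) := by
            apply pow_le_pow_right₀ (by linarith [s17 i0])
            have := le_max_right C Q
            omega
        _ ≤ M := (hM i0).1
        _ ≤ ((w : ℝ) + 1) ^ Q := by exact_mod_cast hw2.le
    exact le_of_pow_le_pow_left₀ (by omega) (by positivity) h5
  have hw32 : 32 ≤ w := by
    have h5 := s17 i0
    have h6 : (32 : ℝ) ≤ w := by linarith
    exact_mod_cast h6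
  have hwM : w ≤ M := le_trans (Nat.le_self_pow (by omega) w) hw1
  have hwa : ∀ i, w < a i := fun i => by
    have h5 := s16 i
    have h6 : M < a i := by exact_mod_cast h5
    omega
  have hsub : (Fintype.piFinset (fun i => Icc 1 (a i - 1))).filter (fun b => ¬
      |cnt (fun i n => a i * (g i).eval n) b M * ∏ i, Real.log (a i) - M * sg k (nu (fun i n => a i * (g i).eval n) b) w| ≤
        ε * (M * sg k (nu (fun i n => a i * (g i).eval n) b) w)) ⊆
      (Fintype.piFinset (fun i => Icc 1 (a i - 1))).filter (fun b => ¬ ((∀ p ∈ pz w, nu (fun i n => a i * (g i).eval n) b p ≤ k * D ∧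
        nu (fun i n => a i * (g i).eval n) b p + 1 ≤ p) →
        |cnt (fun i n => a i * (g i).eval n) b M * ∏ i, Real.log (a i) - M * sg k (nu (fun i n => a i * (g i).eval n) b) w| ≤
        ε * (M * sg k (nu (fun i n => a i * (g i).eval n) b) w))) := by
    intro b hb
    rw [mem_filter] at hb ⊢
    refine ⟨hb.1, fun h => hb.2 ?_⟩
    by_cases hν : ∀ p ∈ pz w, nu (fun i n => a i * (g i).eval n) b p ≤ k * D ∧ nu (fun i n => a i * (g i).eval n) b p + 1 ≤ p
    · exact h hν
    · push Not at hν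
      obtain ⟨p, hp, hp2⟩ := hν
      obtain ⟨hpw, hpp⟩ := mem_pz.1 hp
      have hfull : nu (fun i n => a i * (g i).eval n) b p = p := by
        have h5 := nu_le' (fun i n => a i * (g i).eval n) b p
        by_contra hne
        have h6 : nu (fun i n => a i * (g i).eval n) b p + 1 ≤ p := by omega
        have h7 := nu_poly p D hpp a b g (fun i => (hg i).2) h6
        have h8 := hp2 h7
        omega
      rw [nu_full_zero a b g (fun i => (hg i).1) M p hpp (fun i => lt_of_le_of_lt hpw (hwa i)) hfull,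
        sg_full_zero _ w p hpp hpw hfull]
      simp
  have hPT : (∏ i, ((a i - 1 : ℕ) : ℝ)) ≤ ∏ i, (a i : ℝ) := by
    apply prod_le_prod (fun _ _ => Nat.cast_nonneg _)
    intro i _
    exact_mod_cast Nat.sub_le _ _
  have hP0 : 0 ≤ ∏ i, ((a i - 1 : ℕ) : ℝ) := prod_nonneg fun _ _ => Nat.cast_nonneg _
  calc (((Fintype.piFinset (fun i => Icc 1 (a i - 1))).filter (fun b => ¬
      |cnt (fun i n => a i * (g i).eval n) b M * ∏ i, Real.log (a i) - M * sg k (nu (fun i n => a i * (g i).eval n) b) w| ≤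
        ε * (M * sg k (nu (fun i n => a i * (g i).eval n) b) w))).card : ℝ) ≤ 2 * ((∏ i, ((a i - 1 : ℕ) : ℝ)) / √(w : ℝ)) := by
        refine le_trans ?_ key
        exact_mod_cast card_le_card hsub
    _ = (2 / √(w : ℝ)) * ∏ i, ((a i - 1 : ℕ) : ℝ) := by ring
    _ ≤ (M : ℝ) ^ (-(1 / (4 * Q) : ℝ)) * ∏ i, (a i : ℝ) := by
        apply mul_le_mul (kappa_bound Q M w hM1 hw2 hQ hw32) hPT hP0
        positivity

end Pool.Agent.K7.H49.LT
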